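import Pool.Agent.UW.Cls
import Pool.Agent.Helper24.PairBound

/-! UW/AvF.  Average of `(n/φ(n))^2` over the differences `|q - q0|`, `q` prime.

Proof.  `ff n ^ 2 = ∏_{p ∣ n} (1 + g p)`, `0 ≤ g p ≤ 6/p`, is a sum over the subsets `t` of the set of prime factors; the number
of the primes `q ≤ Y`, `q ≠ q0`, with `∏ t ∣ |q - q0|` is `≤ 103 (Y/log Y)/√(∏ t)` (Brun–Titchmarsh, `residue_sieve`). -/

set_option autoImplicit false

namespace Pool.Agent.UW

open Finset Pool.Agent.Helper24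

/-- forbidden classes for `e m + r` -/
private noncomputable def afΩ (e r p : ℕ) : Finset ℕ :=
  if p ∣ e then ∅ else {((-(r : ZMod p)) * (e : ZMod p)⁻¹).val}

private theorem af_card (e r p : ℕ) : (afΩ e r p).card = if p ∣ e then 0 else 1 := by
  unfold afΩ
  split_ifs <;> simp

/-- Brun–Titchmarsh -/
private theorem af_bt {e : ℕ} (he : 1 ≤ e) (r M Z : ℕ) (hZ : 2 ≤ Z) :
    ((((Ioc 0 M).filter (fun m => (e * m + r).Prime ∧ Z < e * m + r)).card : ℕ) : ℝ) ≤
      2 * M * (∏ p ∈ e.primeFactors, (1 + 1 / (p : ℝ))) / Real.log Z + (Z : ℝ) ^ 6 := by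
  have hlog : 0 < Real.log Z := Real.log_pos (by exact_mod_cast (by omega : 1 < Z))
  set B := (Ioc 0 M).filter (fun m => (e * m + r).Prime ∧ Z < e * m + r) with hB
  have hΩ : ∀ p, Nat.Prime p → p ≤ Z →
      (∀ c ∈ afΩ e r p, c < p) ∧ (afΩ e r p).card < p := by
    intro p hp _
    have : NeZero p := ⟨hp.ne_zero⟩
    refine ⟨fun c hc => ?_, ?_⟩
    · unfold afΩ at hc
      split_ifs at hc with h
      · simp at hc
      · rw [mem_singleton] at hc
        rw [hc]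
        exact ZMod.val_lt _
    · rw [af_card]
      have := hp.two_le
      split_ifs <;> omega
  have h1 := residue_sieve (A := 0) (M := M) (by omega : 1 ≤ Z) hΩ B ?_ ?_
  rotate_left
  · intro m hm
    rw [hB, mem_filter] at hm
    simpa using hm.1
  · intro m hm p hp hpZ
    rw [hB, mem_filter] at hm
    obtain ⟨hm1, hmp, hmZ⟩ := hm
    have := Fact.mk hp
    unfold afΩ
    split_ifs with hpe
    · simp
    · rw [mem_singleton]
      intro h0
      have h5 : (e : ZMod p) ≠ 0 := by rwa [Ne, ZMod.natCast_eq_zero_iff]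
      have h6 : (m : ZMod p) = (-(r : ZMod p)) * (e : ZMod p)⁻¹ := by
        have e1 : ((m % p : ℕ) : ZMod p) = (m : ZMod p) := ZMod.natCast_mod m p
        rw [← e1, h0, ZMod.natCast_zmod_val]
      have h7 : ((e * m + r : ℕ) : ZMod p) = 0 := by
        push_cast
        rw [h6]
        field_simp
        ring
      rw [ZMod.natCast_eq_zero_iff] at h7
      have h8 := (Nat.prime_dvd_prime_iff_eq hp hmp).1 h7
      omega
  set g : ℕ → ℝ := fun p => ((afΩ e r p).card : ℝ) / ((p : ℝ) - (afΩ e r p).card) with hg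
  set G := ∑ l ∈ (Icc 1 Z).filter Squarefree, hterm (afΩ e r) l with hG
  set Pr := ∏ p ∈ e.primeFactors, (1 + 1 / (p : ℝ)) with hPr
  have hGF : G = Fsum Z g := rfl
  have hg0 : ∀ p, p.Prime → 0 ≤ g p := by
    intro p hp
    rw [hg]
    simp only
    rw [af_card]
    have hp1 : (1 : ℝ) < p := by exact_mod_cast hp.one_lt
    have : (0 : ℝ) < p - 1 := by linarith
    split_ifs
    · simp
    · push_cast; positivity
  have hPr0 : 0 < Pr := prod_pos fun p _ => by positivity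
  have h2 : Real.log Z ≤ 2 * (Pr * G) := by
    have e1 := log_le_two_mul_Fsum_inv Z
    have e2 : Fsum Z (fun p => 1 / (p : ℝ)) ≤
        Fsum Z (fun p => g p + if p ∈ e.primeFactors then 1 / (p : ℝ) else 0) := by
      refine Fsum_mono _ (fun p _ _ => by positivity) fun p hp _ => ?_
      rw [hg]
      simp only
      rw [af_card]
      by_cases h : p ∣ e
      · rw [if_pos h, if_pos (Nat.mem_primeFactors.2 ⟨hp, h, by omega⟩)]
        simp
      · have hp1 : (1 : ℝ) < p := by exact_mod_cast hp.one_lt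
        have : (0 : ℝ) < p - 1 := by linarith
        rw [if_neg h, if_neg (fun h' => h (Nat.dvd_of_mem_primeFactors h'))]
        push_cast
        rw [add_zero]
        exact one_div_le_one_div_of_le this (by linarith)
    have e3 := Fsum_add_le Z (g := g) (fun p hp _ => hg0 p hp) e.primeFactors
      (fun p hp => Nat.prime_of_mem_primeFactors hp)
      (fun p => 1 / (p : ℝ)) (fun _ _ => by positivity)
    have e4 := e2.trans e3
    rw [← hPr, ← hGF] at e4
    linarith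
  have hG0 : 0 < G := by
    by_contra hcon
    push Not at hcon
    have : Pr * G ≤ 0 := mul_nonpos_of_nonneg_of_nonpos hPr0.le hcon
    linarith
  have h3 : (M : ℝ) / G ≤ 2 * M * Pr / Real.log Z := by
    rw [div_le_div_iff₀ hG0 hlog]
    have hx : (0 : ℝ) ≤ M := Nat.cast_nonneg _
    calc (M : ℝ) * Real.log Z ≤ M * (2 * (Pr * G)) := mul_le_mul_of_nonneg_left h2 hx
      _ = 2 * M * Pr * G := by ring
  linarith

private theorem af_prod {e : ℕ} (he : 1 ≤ e) :
    ∏ p ∈ e.primeFactors, (1 + 1 / (p : ℝ)) ≤ 2 * √(e : ℝ) := by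
  have h1 : ∀ p ∈ e.primeFactors, 1 + 1 / (p : ℝ) ≤ (if p = 2 then (2 : ℝ) else 1) * √(p : ℝ) := by
    intro p hp
    have hpp := Nat.prime_of_mem_primeFactors hp
    have hp2 : (2 : ℝ) ≤ p := by exact_mod_cast hpp.two_le
    by_cases h : p = 2
    · subst h
      rw [if_pos rfl]
      have h2 : (1 : ℝ) ≤ √((2 : ℕ) : ℝ) := by
        rw [Real.one_le_sqrt]
        norm_num
      push_cast at h2 ⊢
      linarith
    · have hp3 : 3 ≤ p := by
        have := hpp.two_le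
        omega
      have hp3' : (3 : ℝ) ≤ p := by exact_mod_cast hp3
      rw [if_neg h, one_mul]
      have h2 : 1 + 1 / (p : ℝ) ≤ 4 / 3 := by
        have : 1 / (p : ℝ) ≤ 1 / 3 := one_div_le_one_div_of_le (by norm_num) hp3'
        linarith
      refine h2.trans ?_
      apply Real.le_sqrt_of_sq_le
      norm_num
      linarith
  have h2 : ∏ p ∈ e.primeFactors, (if p = 2 then (2 : ℝ) else 1) ≤ 2 := by
    rw [Finset.prod_ite_eq']
    split_ifs <;> norm_num
  have h3 : ∏ p ∈ e.primeFactors, √(p : ℝ) ≤ √(e : ℝ) := by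
    rw [← Real.sqrt_prod _ (fun p _ => Nat.cast_nonneg p)]
    apply Real.sqrt_le_sqrt
    have h4 : ∏ p ∈ e.primeFactors, p ≤ e :=
      Nat.le_of_dvd (by omega) (Nat.prod_primeFactors_dvd e)
    have h5 : ((∏ p ∈ e.primeFactors, p : ℕ) : ℝ) ≤ (e : ℝ) := by exact_mod_cast h4
    rwa [Nat.cast_prod] at h5
  calc ∏ p ∈ e.primeFactors, (1 + 1 / (p : ℝ))
      ≤ ∏ p ∈ e.primeFactors, ((if p = 2 then (2 : ℝ) else 1) * √(p : ℝ)) :=
        prod_le_prod (fun p _ => by positivity) h1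
    _ = (∏ p ∈ e.primeFactors, (if p = 2 then (2 : ℝ) else 1)) * ∏ p ∈ e.primeFactors, √(p : ℝ) :=
        prod_mul_distrib
    _ ≤ 2 * √(e : ℝ) := by
        apply mul_le_mul h2 h3 _ (by norm_num)
        exact prod_nonneg fun p _ => Real.sqrt_nonneg _

/-- the primes `q ≤ Y`, `q ≠ q0` -/
def prx (Y q0 : ℕ) : Finset ℕ := (Icc 1 Y).filter (fun q => q.Prime ∧ q ≠ q0)

theorem mem_prx {Y q0 q : ℕ} : q ∈ prx Y q0 ↔ q.Prime ∧ q ≤ Y ∧ q ≠ q0 := by
  unfold prx
  rw [mem_filter, mem_Icc]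
  constructor
  · rintro ⟨⟨_, h2⟩, h3, h4⟩
    exact ⟨h3, h2, h4⟩
  · rintro ⟨h1, h2, h3⟩
    exact ⟨⟨h1.pos, h2⟩, h1, h3⟩

theorem dd_pos {q0 q : ℕ} (h : q ≠ q0) : max q0 q - min q0 q ≠ 0 := by
  rcases lt_or_gt_of_ne h with h | h
  · rw [max_eq_left h.le, min_eq_right h.le]
    omega
  · rw [max_eq_right h.le, min_eq_left h.le]
    omega

theorem dd_le {q0 q Y : ℕ} (h0 : q0 ≤ Y) (h : q ≤ Y) : max q0 q - min q0 q ≤ Y :=
  (Nat.sub_le _ _).trans (max_le h0 h)

private theorem af_mod {q0 q e : ℕ} (h : e ∣ max q0 q - min q0 q) : q % e = q0 % e := by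
  rcases le_total q q0 with h1 | h1
  · rw [max_eq_left h1, min_eq_right h1] at h
    exact (Nat.modEq_iff_dvd' h1).2 h
  · rw [max_eq_right h1, min_eq_left h1] at h
    exact ((Nat.modEq_iff_dvd' h1).2 h).symm

private theorem af_count {Y Z q0 e : ℕ} (hY : 1 < Real.log Y) (hZ2 : 2 ≤ Z)
    (hZ : Real.log Y / 25 ≤ Real.log Z) (hZ12 : 2 * (Z : ℝ) ^ 12 ≤ Y / (Real.log Y) ^ 2)
    (hq0 : q0 ≤ Y) (he : 1 ≤ e) :
    ((((prx Y q0).filter (fun q => e ∣ max q0 q - min q0 q)).card : ℕ) : ℝ) ≤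
      103 * (Y / Real.log Y) * (1 / √(e : ℝ)) := by
  have hl0 : 0 < Real.log Y := by linarith
  have hY0 : (0 : ℝ) ≤ Y := Nat.cast_nonneg _
  have he0 : (0 : ℝ) < e := by exact_mod_cast he
  have hse : 0 < √(e : ℝ) := Real.sqrt_pos.2 he0
  by_cases heY : e ≤ Y
  · set r := q0 % e with hr
    have hsub : (prx Y q0).filter (fun q => e ∣ max q0 q - min q0 q) ⊆
        (Icc 1 Z ∪ {r}) ∪ ((Ioc 0 (Y / e)).filter
          (fun m => (e * m + r).Prime ∧ Z < e * m + r)).image (fun m => e * m + r) := by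
      intro q hq
      rw [mem_filter, mem_prx] at hq
      obtain ⟨⟨hqp, hqY, hqq⟩, hqe⟩ := hq
      have h1 := af_mod hqe
      have h2 : e * (q / e) + r = q := by
        rw [hr, ← h1]
        exact Nat.div_add_mod q e
      rw [mem_union, mem_union, mem_Icc, mem_singleton, mem_image]
      by_cases hqZ : q ≤ Z
      · left; left
        exact ⟨hqp.pos, hqZ⟩
      · by_cases h0 : q / e = 0
        · left; right
          rw [h0, mul_zero, zero_add] at h2
          exact h2.symm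
        · right
          refine ⟨q / e, ?_, h2⟩
          rw [mem_filter, mem_Ioc, h2]
          exact ⟨⟨Nat.pos_of_ne_zero h0, Nat.div_le_div_right hqY⟩, hqp, by omega⟩
    have h1 : ((prx Y q0).filter (fun q => e ∣ max q0 q - min q0 q)).card ≤
        (Z + 1) + ((Ioc 0 (Y / e)).filter (fun m => (e * m + r).Prime ∧ Z < e * m + r)).card := by
      refine (card_le_card hsub).trans ((card_union_le _ _).trans (Nat.add_le_add ?_ card_image_le))
      refine (card_union_le _ _).trans ?_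
      rw [Nat.card_Icc, card_singleton]
      omega
    have h2 := af_bt he r (Y / e) Z hZ2
    have h3 : ((((prx Y q0).filter (fun q => e ∣ max q0 q - min q0 q)).card : ℕ) : ℝ) ≤
        ((Z : ℝ) + 1) + ((((Ioc 0 (Y / e)).filter
          (fun m => (e * m + r).Prime ∧ Z < e * m + r)).card : ℕ) : ℝ) := by exact_mod_cast h1
    have hlZ : 0 < Real.log Z := Real.log_pos (by exact_mod_cast (by omega : 1 < Z))
    have hp := af_prod he
    have hp0 : 0 ≤ ∏ p ∈ e.primeFactors, (1 + 1 / (p : ℝ)) := prod_nonneg fun p _ => by positivity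
    -- the main term
    have h4 : 2 * ((Y / e : ℕ) : ℝ) * (∏ p ∈ e.primeFactors, (1 + 1 / (p : ℝ))) / Real.log Z ≤
        100 * (Y / Real.log Y) * (1 / √(e : ℝ)) := by
      have h5 : ((Y / e : ℕ) : ℝ) ≤ (Y : ℝ) / e := Nat.cast_div_le
      calc 2 * ((Y / e : ℕ) : ℝ) * (∏ p ∈ e.primeFactors, (1 + 1 / (p : ℝ))) / Real.log Z
          ≤ 2 * ((Y : ℝ) / e) * (2 * √(e : ℝ)) / (Real.log Y / 25) := by
            apply div_le_div₀ (by positivity) _ (by positivity) hZ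
            apply mul_le_mul (mul_le_mul_of_nonneg_left h5 (by norm_num)) hp hp0 (by positivity)
        _ = 100 * (Y / Real.log Y) * (1 / √(e : ℝ)) := by
            have h6 : (e : ℝ) = √(e : ℝ) * √(e : ℝ) := (Real.mul_self_sqrt he0.le).symm
            have h7 : (Y : ℝ) / e = Y / (√(e : ℝ) * √(e : ℝ)) := by rw [← h6]
            rw [h7]
            field_simp
            ring
    -- the error terms
    have hZ1 : (1 : ℝ) ≤ Z := by exact_mod_cast (by omega : 1 ≤ Z)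
    have h5 : (Z : ℝ) ^ 6 ≤ (Y / Real.log Y) * (1 / √(e : ℝ)) := by
      have h6 : (Z : ℝ) ^ 6 ≤ √(Y : ℝ) / Real.log Y := by
        have h7 : ((Z : ℝ) ^ 6) ^ 2 ≤ (√(Y : ℝ) / Real.log Y) ^ 2 := by
          rw [div_pow, Real.sq_sqrt hY0, ← pow_mul]
          have : (0 : ℝ) ≤ (Z : ℝ) ^ 12 := by positivity
          norm_num
          linarith
        exact (sq_le_sq₀ (by positivity) (by positivity)).1 h7
      refine h6.trans ?_
      rw [mul_one_div, le_div_iff₀ hse, div_mul_eq_mul_div]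
      apply div_le_div_of_nonneg_right _ hl0.le
      have h8 : √(e : ℝ) ≤ √(Y : ℝ) := Real.sqrt_le_sqrt (by exact_mod_cast heY)
      calc √(Y : ℝ) * √(e : ℝ) ≤ √(Y : ℝ) * √(Y : ℝ) :=
            mul_le_mul_of_nonneg_left h8 (Real.sqrt_nonneg _)
        _ = Y := Real.mul_self_sqrt hY0
    have h6 : (Z : ℝ) ≤ (Z : ℝ) ^ 6 := le_self_pow₀ hZ1 (by norm_num)
    have h7 : (1 : ℝ) ≤ (Z : ℝ) ^ 6 := one_le_pow₀ hZ1
    linarith
  · have h1 : (prx Y q0).filter (fun q => e ∣ max q0 q - min q0 q) = ∅ := by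
      rw [filter_eq_empty_iff]
      intro q hq hqe
      rw [mem_prx] at hq
      have h2 := Nat.le_of_dvd (Nat.pos_of_ne_zero (dd_pos hq.2.2)) hqe
      have h3 := dd_le hq0 hq.2.1
      omega
    rw [h1, card_empty, Nat.cast_zero]
    positivity

/-- the local factor -/
private noncomputable def afg (p : ℕ) : ℝ := (1 - 1 / (p : ℝ))⁻¹ ^ 2 - 1

private theorem afg_bounds {p : ℕ} (hp : 2 ≤ p) : 0 ≤ afg p ∧ afg p ≤ 6 / p := by
  have hp2 : (2 : ℝ) ≤ p := by exact_mod_cast hp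
  have hp0 : (0 : ℝ) < p := by linarith
  have hp1 : (0 : ℝ) < (p : ℝ) - 1 := by linarith
  have h1 : (1 - 1 / (p : ℝ))⁻¹ = p / (p - 1) := by
    rw [one_sub_div hp0.ne', inv_div]
  unfold afg
  rw [h1, div_pow]
  constructor
  · rw [sub_nonneg, le_div_iff₀ (by positivity)]
    nlinarith
  · rw [sub_le_iff_le_add, div_le_iff₀ (by positivity)]
    have h2 : (6 / (p : ℝ) + 1) * (p - 1) ^ 2 * p = (6 + p) * (p - 1) ^ 2 := by
      field_simp
    have h3 : (p : ℝ) ^ 2 * p ≤ (6 / (p : ℝ) + 1) * (p - 1) ^ 2 * p := by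
      rw [h2]
      nlinarith [mul_nonneg (by linarith : (0 : ℝ) ≤ p - 2) (by linarith : (0 : ℝ) ≤ 4 * p - 3)]
    exact le_of_mul_le_mul_right h3 hp0

private theorem af_sq {n : ℕ} (hn : n ≠ 0) {P : Finset ℕ} (hP : n.primeFactors ⊆ P) :
    ff n ^ 2 = ∑ t ∈ P.powerset, (∏ p ∈ t, afg p) * (if t ⊆ n.primeFactors then (1 : ℝ) else 0) := by
  classical
  rw [← ff_eq hn, ← prod_pow]
  have h1 : ∏ p ∈ n.primeFactors, (1 - 1 / (p : ℝ))⁻¹ ^ 2 = ∏ p ∈ n.primeFactors, (1 + afg p) := by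
    refine prod_congr rfl fun p _ => ?_
    unfold afg
    ring
  rw [h1, prod_one_add]
  have h2 : ∑ t ∈ P.powerset, (∏ p ∈ t, afg p) * (if t ⊆ n.primeFactors then (1 : ℝ) else 0) =
      ∑ t ∈ P.powerset.filter (fun t => t ⊆ n.primeFactors), ∏ p ∈ t, afg p := by
    rw [sum_filter]
    refine sum_congr rfl fun t _ => ?_
    split_ifs <;> simp
  rw [h2]
  refine sum_congr ?_ fun _ _ => rfl
  ext t
  rw [mem_filter, mem_powerset, mem_powerset]
  exact ⟨fun h => ⟨h.trans hP, h⟩, fun h => h.2⟩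

private theorem af_summable : Summable (fun n : ℕ => 1 / ((n : ℝ) * √(n : ℝ))) := by
  have h : Summable (fun n : ℕ => 1 / ((n : ℝ) ^ (3 / 2 : ℝ))) :=
    Real.summable_one_div_nat_rpow.2 (by norm_num)
  refine h.congr fun n => ?_
  rcases Nat.eq_zero_or_pos n with h0 | h0
  · subst h0
    simp
  · have hn : (0 : ℝ) < n := by exact_mod_cast h0
    congr 1
    rw [Real.sqrt_eq_rpow, show (3 / 2 : ℝ) = 1 + 1 / 2 by norm_num, Real.rpow_add hn, Real.rpow_one]

private theorem af_large {Y Z q0 : ℕ} (hY : 1 < Real.log Y) (hZ2 : 2 ≤ Z)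
    (hZ : Real.log Y / 25 ≤ Real.log Z) (hZ12 : 2 * (Z : ℝ) ^ 12 ≤ Y / (Real.log Y) ^ 2)
    (hq0 : q0 ≤ Y) :
    ∑ q ∈ prx Y q0, ff (max q0 q - min q0 q) ^ 2 ≤
      103 * (Y / Real.log Y) * Real.exp (6 * ∑' n : ℕ, 1 / ((n : ℝ) * √(n : ℝ))) := by
  classical
  have hl0 : 0 < Real.log Y := by linarith
  have hY0 : (0 : ℝ) ≤ Y := Nat.cast_nonneg _
  obtain ⟨P, hP⟩ : ∃ P : Finset ℕ, P = (Icc 1 Y).filter Nat.Prime := ⟨_, rfl⟩
  have hPp : ∀ p ∈ P, p.Prime := fun p hp => by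
    rw [hP, mem_filter] at hp
    exact hp.2
  have h1 : ∀ q ∈ prx Y q0, ff (max q0 q - min q0 q) ^ 2 = ∑ t ∈ P.powerset, (∏ p ∈ t, afg p) *
      (if t ⊆ (max q0 q - min q0 q).primeFactors then (1 : ℝ) else 0) := by
    intro q hq
    rw [mem_prx] at hq
    have hn := dd_pos hq.2.2
    refine af_sq hn ?_
    intro p hp
    have hpp := Nat.prime_of_mem_primeFactors hp
    rw [hP, mem_filter, mem_Icc]
    refine ⟨⟨hpp.pos, ?_⟩, hpp⟩
    exact (Nat.le_of_dvd (Nat.pos_of_ne_zero hn) (Nat.dvd_of_mem_primeFactors hp)).trans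
      (dd_le hq0 hq.2.1)
  rw [sum_congr rfl h1, sum_comm]
  have h2 : ∀ t ∈ P.powerset, ∑ q ∈ prx Y q0, (∏ p ∈ t, afg p) *
      (if t ⊆ (max q0 q - min q0 q).primeFactors then (1 : ℝ) else 0) ≤
      103 * (Y / Real.log Y) * ∏ p ∈ t, (afg p * (1 / √(p : ℝ))) := by
    intro t ht
    rw [mem_powerset] at ht
    have hg0 : 0 ≤ ∏ p ∈ t, afg p :=
      prod_nonneg fun p hp => (afg_bounds (hPp p (ht hp)).two_le).1
    rw [← mul_sum, ← sum_filter, sum_const, nsmul_eq_mul, mul_one, prod_mul_distrib]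
    have h3 : ((prx Y q0).filter (fun q => t ⊆ (max q0 q - min q0 q).primeFactors)).card ≤
        ((prx Y q0).filter (fun q => (∏ p ∈ t, p) ∣ max q0 q - min q0 q)).card := by
      refine card_le_card ?_
      intro q hq
      rw [mem_filter] at hq ⊢
      exact ⟨hq.1, (Finset.prod_dvd_prod_of_subset _ _ _ hq.2).trans (Nat.prod_primeFactors_dvd _)⟩
    have h4 := af_count hY hZ2 hZ hZ12 hq0 (e := ∏ p ∈ t, p)
      (Nat.succ_le_of_lt (Finset.prod_pos fun p hp => (hPp p (ht hp)).pos))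
    have h5 : (1 : ℝ) / √((∏ p ∈ t, p : ℕ) : ℝ) = ∏ p ∈ t, (1 / √(p : ℝ)) := by
      rw [prod_div_distrib, prod_const_one]
      congr 1
      push_cast
      rw [Real.sqrt_prod _ (fun p _ => Nat.cast_nonneg p)]
    rw [h5] at h4
    have h6 : ((((prx Y q0).filter
        (fun q => t ⊆ (max q0 q - min q0 q).primeFactors)).card : ℕ) : ℝ) ≤
        103 * (Y / Real.log Y) * ∏ p ∈ t, (1 / √(p : ℝ)) := le_trans (by exact_mod_cast h3) h4
    calc (∏ p ∈ t, afg p) * _ ≤ (∏ p ∈ t, afg p) *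
          (103 * (Y / Real.log Y) * ∏ p ∈ t, (1 / √(p : ℝ))) := mul_le_mul_of_nonneg_left h6 hg0
      _ = _ := by ring
  refine (sum_le_sum h2).trans ?_
  rw [← mul_sum, ← prod_one_add]
  refine mul_le_mul_of_nonneg_left ?_ (by positivity)
  have h3 : ∏ p ∈ P, (1 + afg p * (1 / √(p : ℝ))) ≤
      ∏ p ∈ P, Real.exp (6 * (1 / ((p : ℝ) * √(p : ℝ)))) := by
    refine prod_le_prod (fun p hp => ?_) fun p hp => ?_
    · have := (afg_bounds (hPp p hp).two_le).1
      positivity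
    · have h4 := (afg_bounds (hPp p hp).two_le).2
      have h5 := Real.add_one_le_exp (6 * (1 / ((p : ℝ) * √(p : ℝ))))
      have h6 : afg p * (1 / √(p : ℝ)) ≤ 6 / (p : ℝ) * (1 / √(p : ℝ)) :=
        mul_le_mul_of_nonneg_right h4 (by positivity)
      have h7 : 6 / (p : ℝ) * (1 / √(p : ℝ)) = 6 * (1 / ((p : ℝ) * √(p : ℝ))) := by
        have hp0 : (0 : ℝ) < p := by exact_mod_cast (hPp p hp).pos
        have hs := Real.sqrt_pos.2 hp0
        field_simp
      linarith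
  refine h3.trans ?_
  rw [← Real.exp_sum, ← mul_sum, Real.exp_le_exp]
  refine mul_le_mul_of_nonneg_left ?_ (by norm_num)
  exact af_summable.sum_le_tsum _ (fun n _ => by positivity)

private theorem af_small {Y q0 : ℕ} (hY : 3 ≤ Y) (hq0 : q0 ≤ Y) :
    ∑ q ∈ prx Y q0, ff (max q0 q - min q0 q) ^ 2 ≤ (Y : ℝ) ^ 3 * (Y / Real.log Y) := by
  have hY3 : (3 : ℝ) ≤ Y := by exact_mod_cast hY
  have hl0 : 0 < Real.log Y := Real.log_pos (by linarith)
  have h1 : ∀ q ∈ prx Y q0, ff (max q0 q - min q0 q) ^ 2 ≤ (Y : ℝ) ^ 2 := by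
    intro q hq
    rw [mem_prx] at hq
    have hn := dd_pos hq.2.2
    have h2 := dd_le hq0 hq.2.1
    have h3 : ff (max q0 q - min q0 q) ≤ Y := by
      unfold ff
      have h4 : (1 : ℝ) ≤ (Nat.totient (max q0 q - min q0 q) : ℝ) := by
        exact_mod_cast Nat.totient_pos.2 (Nat.pos_of_ne_zero hn)
      rw [div_le_iff₀ (by linarith)]
      have h5 : ((max q0 q - min q0 q : ℕ) : ℝ) ≤ Y := by exact_mod_cast h2
      nlinarith
    have h6 : 0 ≤ ff (max q0 q - min q0 q) := zero_le_one.trans (one_le_ff hn)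
    exact pow_le_pow_left₀ h6 h3 2
  have h2 : ((prx Y q0).card : ℝ) ≤ Y := by
    have : (prx Y q0).card ≤ (Icc 1 Y).card := card_filter_le _ _
    rw [Nat.card_Icc] at this
    exact_mod_cast (by omega : (prx Y q0).card ≤ Y)
  have h3 : 1 ≤ Y / Real.log Y := by
    rw [le_div_iff₀ hl0, one_mul]
    exact Real.log_le_self (by linarith)
  calc ∑ q ∈ prx Y q0, ff (max q0 q - min q0 q) ^ 2 ≤ ∑ q ∈ prx Y q0, (Y : ℝ) ^ 2 := sum_le_sum h1
    _ = (prx Y q0).card * (Y : ℝ) ^ 2 := by rw [sum_const, nsmul_eq_mul]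
    _ ≤ Y * (Y : ℝ) ^ 2 := mul_le_mul_of_nonneg_right h2 (by positivity)
    _ = (Y : ℝ) ^ 3 * 1 := by ring
    _ ≤ (Y : ℝ) ^ 3 * (Y / Real.log Y) := mul_le_mul_of_nonneg_left h3 (by positivity)

theorem avF : ∃ C : ℝ, 0 < C ∧ ∀ Y q0 : ℕ, 3 ≤ Y → q0 ≤ Y →
    ∑ q ∈ prx Y q0, ff (max q0 q - min q0 q) ^ 2 ≤ C * (Y / Real.log Y) := by
  obtain ⟨N0, hN0⟩ := Filter.eventually_atTop.1 (Helper24.eventually_level.and
    ((Real.tendsto_log_atTop.comp (tendsto_natCast_atTop_atTop (R := ℝ))).eventually_gt_atTop 1))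
  refine ⟨103 * Real.exp (6 * ∑' n : ℕ, 1 / ((n : ℝ) * √(n : ℝ))) + (N0 : ℝ) ^ 3, by positivity, ?_⟩
  intro Y q0 hY hq0
  have hY3 : (3 : ℝ) ≤ Y := by exact_mod_cast hY
  have hl0 : 0 < Real.log Y := Real.log_pos (by linarith)
  have hYl : 0 ≤ Y / Real.log Y := by positivity
  rcases le_total N0 Y with h | h
  · obtain ⟨⟨Z, hZ2, hZ, hZ12⟩, hY1⟩ := hN0 Y h
    have h1 := af_large (q0 := q0) hY1 hZ2 hZ hZ12 hq0
    refine h1.trans ?_
    have h2 : 0 ≤ (N0 : ℝ) ^ 3 * (Y / Real.log Y) := by positivity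
    linarith
  · have h1 := af_small hY hq0
    have h2 : (Y : ℝ) ^ 3 ≤ (N0 : ℝ) ^ 3 := by
      have : (Y : ℝ) ≤ N0 := by exact_mod_cast h
      exact pow_le_pow_left₀ (by positivity) this 3
    have h3 : (Y : ℝ) ^ 3 * (Y / Real.log Y) ≤ (N0 : ℝ) ^ 3 * (Y / Real.log Y) :=
      mul_le_mul_of_nonneg_right h2 hYl
    have h4 : 0 ≤ 103 * Real.exp (6 * ∑' n : ℕ, 1 / ((n : ℝ) * √(n : ℝ))) * (Y / Real.log Y) := by
      positivity
    linarith

end Pool.Agent.UW
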