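import Pool.Agent.RS.Prm
import Pool.Agent.RS.Wt
import Pool.Agent.AT.Pr1

/-! UW/Par.  UNIQUE WITNESS (helper47).  The concrete parameters, as in `AT/Par`, but for a general finite set
`R` of integers to be killed, and a free level `2 ^ d`.

`B` is a finite set of integers (the set `R` together with the element `a0` to be attracted); primes in
`(L ^ 6, 2 ^ d]` which divide no difference of two elements of `B`; weights `wt` of level `2 ^ sx L d`,
`sx L d = d / (16 log_2 L)`. -/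

set_option autoImplicit false

namespace Pool.Agent.UW

open Finset Pool.Agent.RS

/-- exponent of the level of a single weight -/
def sx (L d : ℕ) : ℕ := d / (16 * Nat.log 2 L)

/-- the constant in the number of killed elements -/
noncomputable def c0 : ℝ := Real.exp (-9) / 10 ^ 5

/-- the primes used -/
abbrev Ix (L d : ℕ) (B : Finset ℤ) : Type := {q : ℕ // q ∈ prz (2 ^ d) \ excl L B (2 ^ d)}

/-- the prime with index `q` -/
def px (L d : ℕ) (B : Finset ℤ) : Ix L d B → ℕ := fun q => (q : ℕ)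

/-- the weights -/
noncomputable def yx (L d : ℕ) (B : Finset ℤ) : Finset (Ix L d B) → ℝ := wt (px L d B) (2 ^ sx L d)

/-- the elements -/
def ax (R : Finset ℤ) : {b : ℤ // b ∈ R} → ℤ := fun b => (b : ℤ)

/-- coefficients of the repelling weight -/
noncomputable def Yx (L d : ℕ) (B R : Finset ℤ) (σ : Ix L d B → Option {b : ℤ // b ∈ R}) : ℝ :=
  Yd (px L d B) (yx L d B) (2 ^ d) σ

/-- the repelling weight for `n - b`, `b ∈ R` -/
noncomputable def gx (L d : ℕ) (B R : Finset ℤ) (n : ℤ) : ℝ :=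
  ∑ σ : Ix L d B → Option {b : ℤ // b ∈ R}, Yx L d B R σ * EE (px L d B) (ax R) σ n

/-- its mean square -/
noncomputable def Zx (L d : ℕ) (B R : Finset ℤ) : ℝ :=
  ∑ σ : Ix L d B → Option {b : ℤ // b ∈ R}, Yx L d B R σ ^ 2 / PH (px L d B) (supp σ)

/-- admissible data -/
structure Adm (P L d M : ℕ) (B R : Finset ℤ) : Prop where
  hPL : 2 ^ L ≤ 16 * P
  hPU : P ≤ 2 ^ L
  hLd : L ^ 3 ≤ d ^ 4
  hdL : 10000 * d ≤ L
  hM0 : 0 < M
  hM : ∀ q : ℕ, q.Prime → L ^ 6 < q → Nat.Coprime M q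
  hMd : M ≤ 2 ^ d
  hB : ∀ b ∈ B, |b| ≤ 2 ^ L
  hBc : B.card ≤ L
  hR : R ⊆ B
  hk : (R.card : ℝ) ≤ c0 * d

open Classical in
/-- primes weighted by the repelling weight: the prime is `n - a0` -/
def SE1 : Prop := ∃ P0 : ℕ, ∀ P : ℕ, P0 ≤ P → ∀ (L d M : ℕ) (B R : Finset ℤ), Adm P L d M B R →
  ∀ (a0 : ℤ) (r : ℕ), a0 ∈ B → a0 ∉ R → Nat.Coprime r M →
  4 / 5 * Zx L d B R * AT.psi M r P - Zx L d B R * ((P : ℝ) / M) / L ≤
    ∑ m ∈ (Ioc P (4 * P)).filter (fun m => m ≡ r [MOD M] ∧ m.Prime),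
      Real.log m * gx L d B R ((m : ℤ) + a0) ^ 2

open Classical in
/-- the killed elements, in an arithmetic progression `n0 + M t` -/
def SE3 : Prop := ∃ P0 : ℕ, ∀ P : ℕ, P0 ≤ P → ∀ (L d M : ℕ) (B R : Finset ℤ), Adm P L d M B R →
  ∀ (n0 : ℤ) (T : ℕ), (T : ℝ) ≤ 5 * ((P : ℝ) / M) →
  ∑ t ∈ (range T).filter (fun t : ℕ => ∃ b : {b : ℤ // b ∈ R},
      ∀ i, ¬ (px L d B i : ℤ) ∣ n0 + M * (t : ℤ) - b),
      gx L d B R (n0 + M * (t : ℤ)) ^ 2 ≤ ((P : ℝ) / M) / (L : ℝ) ^ 2 * Zx L d B R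

end Pool.Agent.UW
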