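import Pool.Agent.UW.Cls
import Pool.Agent.UW.Par
import Pool.Agent.REC.ModTot
import Pool.Agent.AT.E2
import Pool.Agent.AT.Av

/-! UW/SelU.  Many good residue classes modulo `pmod w`.

PLAN (compare `sel` in UW/Sel: copy its private lemmas).  `N = pmod w`, `l = log_2 L`, `F` = the classes `b < N` with
`(b + j0, N) = 1`, `|F| = N dens w` (`count_one` of REC/SsDef), `dens w ≤ 16/l`, `psi N (b + j0) P ≤ C (P/N) l` (`BT` of AT/E2),
`∑_F psi ≥ cθ P` (`av2` of AT/Av with `U = {j0}`, `theta_int`).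
`Λ' = 1024 C Λ/cθ`, `c1 = cθ/64`.  The classes with `J_b > Λ' L/l` are at most
`N dens² S l/(Λ' L) ≤ 256 N Λ/(Λ' l)` many (`cls_avg`) and carry `≤ 256 C Λ P/Λ' = cθ P/4`; the classes with
`psi < c1 l P/N` carry at most `|F| c1 l P/N ≤ 16 c1 P = cθ P/4`.  The other classes carry at least `cθ P/2`, so their number is
at least `cθ P/2/(C (P/N) l)`: `c = cθ/(2 C)`. -/

set_option autoImplicit false

namespace Pool.Agent.UW

open Finset Pool.Agent.REC

private theorem selu_mod (w : ℕ) : Mod w ∅ = pmod w := by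
  unfold REC.Mod pmod
  rw [sdiff_empty]

private theorem selu_dens {w : ℕ} (hw : 2 ≤ w) : dens w ≤ 4 / (Nat.log 2 w : ℝ) := by
  have h1 := Mod_totient hw (R := ∅) (empty_subset _) (by simp)
  rw [selu_mod] at h1
  have h2 := count_one w 0
  have h3 : ((range (pmod w)).filter (fun b => Nat.Coprime (b + 0) (pmod w))).card =
      Nat.totient (pmod w) := by
    rw [Nat.totient]
    congr 1
    ext b
    simp only [mem_filter, add_zero]
    rw [Nat.coprime_comm]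
  rw [h3] at h2
  rw [h2] at h1
  have hN : (0 : ℝ) < pmod w := by exact_mod_cast pmod_pos w
  have h4 : (pmod w : ℝ) * dens w ≤ pmod w * (4 / (Nat.log 2 w : ℝ)) := by
    rw [← mul_div_assoc, mul_comm (pmod w : ℝ) 4]
    exact h1
  exact le_of_mul_le_mul_left h4 hN

private theorem selu_log {w L : ℕ} (hL : L ≤ w ^ 2) : Nat.log 2 L ≤ 2 * Nat.log 2 w + 1 := by
  have h1 : w < 2 ^ (Nat.log 2 w + 1) := Nat.lt_pow_succ_log_self (by norm_num) w
  have h2 : L < 2 ^ (2 * Nat.log 2 w + 1 + 1) := by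
    calc L ≤ w ^ 2 := hL
      _ < (2 ^ (Nat.log 2 w + 1)) ^ 2 := Nat.pow_lt_pow_left h1 (by norm_num)
      _ = 2 ^ (2 * Nat.log 2 w + 1 + 1) := by
        rw [← pow_mul]
        congr 1
        ring
  exact Nat.lt_succ_iff.1 (Nat.log_lt_of_lt_pow' (by omega) h2)

private theorem selu_size {P L w : ℕ} (hP : 1 ≤ P) (hL : L = Nat.log 2 P) (hw : 10000 * w ≤ L) :
    ((pmod w : ℕ) : ℝ) ≤ (P : ℝ) ^ (1 / 1000 : ℝ) := by
  have h1 := Mod_le w ∅
  rw [selu_mod] at h1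
  refine h1.trans ?_
  have h2 : 2 ^ L ≤ P := by
    rw [hL]
    exact Nat.pow_log_le_self 2 (by omega)
  have h3 : ((2 : ℝ) ^ L) ^ (1 / 1000 : ℝ) ≤ (P : ℝ) ^ (1 / 1000 : ℝ) := by
    refine Real.rpow_le_rpow (by positivity) ?_ (by norm_num)
    exact_mod_cast h2
  refine le_trans ?_ h3
  have h4 : (4 : ℝ) ^ w = (2 : ℝ) ^ ((2 * w : ℕ) : ℝ) := by
    rw [Real.rpow_natCast, pow_mul]
    norm_num
  have h5 : ((2 : ℝ) ^ L) ^ (1 / 1000 : ℝ) = (2 : ℝ) ^ ((L : ℝ) * (1 / 1000)) := by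
    rw [← Real.rpow_natCast 2 L, ← Real.rpow_mul (by norm_num)]
  rw [h4, h5]
  refine Real.rpow_le_rpow_of_exponent_le (by norm_num) ?_
  have h6 : (10000 : ℝ) * (w : ℝ) ≤ (L : ℝ) := by exact_mod_cast hw
  push_cast
  have h7 : (0 : ℝ) ≤ (w : ℝ) := Nat.cast_nonneg w
  linarith

open Classical in
private theorem selu_avg {F : Finset ℕ} {J psi : ℕ → ℝ} {K X Y B Q : ℝ} (hK : 0 < K)
    (hJ0 : ∀ b ∈ F, 0 ≤ J b) (hJ : ∑ b ∈ F, J b ≤ X) (hY0 : 0 ≤ Y) (hY : ∀ b ∈ F, psi b ≤ Y)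
    (hB : B ≤ ∑ b ∈ F, psi b) (hQ0 : 0 ≤ Q) :
    B ≤ ((F.filter (fun b => J b ≤ K ∧ Q ≤ psi b)).card : ℝ) * Y + X / K * Y + F.card * Q := by
  have h1 : ((F.filter (fun b => ¬ J b ≤ K)).card : ℝ) * K ≤ X := by
    refine le_trans ?_ hJ
    calc ((F.filter (fun b => ¬ J b ≤ K)).card : ℝ) * K
        = ∑ b ∈ F.filter (fun b => ¬ J b ≤ K), K := by rw [sum_const, nsmul_eq_mul]
      _ ≤ ∑ b ∈ F.filter (fun b => ¬ J b ≤ K), J b := by
        refine sum_le_sum fun b hb => ?_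
        exact (not_le.1 (mem_filter.1 hb).2).le
      _ ≤ ∑ b ∈ F, J b :=
        sum_le_sum_of_subset_of_nonneg (filter_subset _ _) fun b hb _ => hJ0 b hb
  have h2 : ((F.filter (fun b => ¬ J b ≤ K)).card : ℝ) ≤ X / K := (le_div_iff₀ hK).2 h1
  have h3 : ∑ b ∈ F.filter (fun b => ¬ J b ≤ K), psi b ≤ X / K * Y := by
    calc ∑ b ∈ F.filter (fun b => ¬ J b ≤ K), psi b
        ≤ ∑ b ∈ F.filter (fun b => ¬ J b ≤ K), Y :=
          sum_le_sum fun b hb => hY b (mem_filter.1 hb).1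
      _ = ((F.filter (fun b => ¬ J b ≤ K)).card : ℝ) * Y := by rw [sum_const, nsmul_eq_mul]
      _ ≤ X / K * Y := mul_le_mul_of_nonneg_right h2 hY0
  have h4 : ∑ b ∈ (F.filter (fun b => J b ≤ K)).filter (fun b => Q ≤ psi b), psi b ≤
      ((F.filter (fun b => J b ≤ K ∧ Q ≤ psi b)).card : ℝ) * Y := by
    rw [filter_filter]
    calc ∑ b ∈ F.filter (fun b => J b ≤ K ∧ Q ≤ psi b), psi b
        ≤ ∑ b ∈ F.filter (fun b => J b ≤ K ∧ Q ≤ psi b), Y :=
          sum_le_sum fun b hb => hY b (mem_filter.1 hb).1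
      _ = _ := by rw [sum_const, nsmul_eq_mul]
  have h5 : ∑ b ∈ (F.filter (fun b => J b ≤ K)).filter (fun b => ¬ Q ≤ psi b), psi b ≤
      F.card * Q := by
    calc ∑ b ∈ (F.filter (fun b => J b ≤ K)).filter (fun b => ¬ Q ≤ psi b), psi b
        ≤ ∑ b ∈ (F.filter (fun b => J b ≤ K)).filter (fun b => ¬ Q ≤ psi b), Q :=
          sum_le_sum fun b hb => (not_le.1 (mem_filter.1 hb).2).le
      _ = (((F.filter (fun b => J b ≤ K)).filter (fun b => ¬ Q ≤ psi b)).card : ℝ) * Q := by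
        rw [sum_const, nsmul_eq_mul]
      _ ≤ F.card * Q := by
        refine mul_le_mul_of_nonneg_right ?_ hQ0
        exact_mod_cast card_le_card ((filter_subset _ _).trans (filter_subset _ _))
  have h6 := sum_filter_add_sum_filter_not F (fun b => J b ≤ K) psi
  have h7 := sum_filter_add_sum_filter_not (F.filter (fun b => J b ≤ K)) (fun b => Q ≤ psi b) psi
  linarith

open Classical in
theorem selU (Λ : ℝ) (hΛ : 0 < Λ) : ∃ Λ' c1 c : ℝ, 0 < Λ' ∧ 0 < c1 ∧ 0 < c ∧ ∃ P0 : ℕ, ∀ P : ℕ,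
    P0 ≤ P → ∀ (L w j0 : ℕ) (A : Finset ℕ), L = Nat.log 2 P → L ≤ w ^ 2 → 10000 * w ≤ L → j0 ∉ A →
    ∑ j ∈ A, ff (max j0 j - min j0 j) ≤ Λ * L →
    c * ((pmod w : ℕ) / (Nat.log 2 L : ℝ)) ≤
      (((range (pmod w)).filter (fun b : ℕ => Nat.Coprime (b + j0) (pmod w) ∧
        ((A.filter (fun j => Nat.Coprime (b + j) (pmod w))).card : ℝ) * (Nat.log 2 L : ℝ) ≤ Λ' * L ∧
        c1 * ((Nat.log 2 L : ℝ) * ((P : ℝ) / (pmod w : ℕ))) ≤
          AT.psi (pmod w) (b + j0) P)).card : ℝ) := by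
  obtain ⟨C, hC, PB, hBT⟩ := AT.BT
  obtain ⟨cθ, hcθ, PT, hTh⟩ := AT.theta_int
  refine ⟨1024 * C * Λ / cθ, cθ / 64, cθ / (2 * C), by positivity, by positivity, by positivity,
    PB + PT + 2 ^ 2 ^ 3, ?_⟩
  intro P hP L w j0 A hL hLw hwL hj0 hS
  have hPB : PB ≤ P := by omega
  have hPT : PT ≤ P := by omega
  have hP2 : 2 ^ 2 ^ 3 ≤ P := by omega
  have hP1 : 1 ≤ P := by omega
  have h8 : 8 ≤ L := by
    rw [hL]
    exact Nat.le_log_of_pow_le (by norm_num) hP2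
  have hl : 3 ≤ Nat.log 2 L := Nat.le_log_of_pow_le (by norm_num) h8
  have hw2 : 2 ≤ w := by
    by_contra h
    have h1 : w ≤ 1 := by omega
    have h2 : w ^ 2 ≤ 1 ^ 2 := Nat.pow_le_pow_left h1 2
    omega
  have hlw : Nat.log 2 L ≤ 2 * Nat.log 2 w + 1 := selu_log hLw
  obtain ⟨l, hldef⟩ : ∃ l : ℕ, l = Nat.log 2 L := ⟨_, rfl⟩
  rw [← hldef] at hl hlw ⊢
  have hN0 : 0 < pmod w := pmod_pos w
  have hN : (0 : ℝ) < (pmod w : ℕ) := by exact_mod_cast hN0
  have hlR : (3 : ℝ) ≤ l := by exact_mod_cast hl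
  have hlpos : (0 : ℝ) < l := by linarith
  have hLr : (0 : ℝ) < L := by
    have : (8 : ℝ) ≤ L := by exact_mod_cast h8
    linarith
  have hdens : dens w ≤ 16 / l := by
    refine (selu_dens hw2).trans ?_
    have h1 : l ≤ 4 * Nat.log 2 w := by omega
    have h2 : (l : ℝ) ≤ 4 * (Nat.log 2 w : ℝ) := by exact_mod_cast h1
    have h3 : (0 : ℝ) < (Nat.log 2 w : ℝ) := by linarith
    rw [div_le_div_iff₀ h3 hlpos]
    linarith
  have hdens0 : 0 ≤ dens w := by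
    unfold REC.dens
    refine prod_nonneg fun p hp => ?_
    have h1 : (1 : ℝ) ≤ p := by exact_mod_cast (mem_prs.1 hp).1.one_lt.le
    have h2 : 1 / (p : ℝ) ≤ 1 := by
      rw [div_le_one (by linarith)]
      exact h1
    linarith
  have hPr : (0 : ℝ) < (P : ℝ) := by exact_mod_cast hP1
  have hprime : ∀ q : ℕ, q.Prime → q ∣ pmod w → q ≤ w := by
    intro q hq hd
    rw [← selu_mod] at hd
    exact ((prime_dvd_Mod hq).1 hd).1
  have hLP : L ≤ P := by
    rw [hL]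
    exact Nat.log_le_self 2 P
  have hbt : ∀ b : ℕ, AT.psi (pmod w) (b + j0) P ≤ C * ((P : ℝ) / (pmod w : ℕ)) * l := by
    intro b
    rw [hldef]
    refine hBT P hPB L (pmod w) _ hL hN0 ?_ (selu_size hP1 hL hwL)
    intro q hq hLq
    rw [Nat.coprime_comm, hq.coprime_iff_not_dvd]
    intro hd
    have h1 := hprime q hq hd
    have h2 : L ^ 1 ≤ L ^ 6 := Nat.pow_le_pow_right (by omega) (by norm_num)
    rw [pow_one] at h2
    omega
  obtain ⟨S, hSdef⟩ : ∃ S : ℝ, S = ∑ j ∈ A, ff (max j0 j - min j0 j) := ⟨_, rfl⟩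
  rw [← hSdef] at hS
  obtain ⟨F, hF⟩ : ∃ F : Finset ℕ,
      F = (range (pmod w)).filter (fun b => Nat.Coprime (b + j0) (pmod w)) := ⟨_, rfl⟩
  have hFc : (F.card : ℝ) = pmod w * dens w := by
    rw [hF]
    exact count_one w j0
  have havg := cls_avg w j0 A hj0
  rw [← hF, ← hSdef] at havg
  have hpsi : ∑ m ∈ (Ioc P (4 * P)).filter Nat.Prime, Real.log m ≤
      ∑ b ∈ F, AT.psi (pmod w) (b + j0) P := by
    have h1 := AT.av2 hN0 (P := P) (fun q hq hd => by have := hprime q hq hd; omega) {j0}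
    rw [card_singleton, Nat.cast_one, one_mul] at h1
    refine h1.trans (le_of_eq ?_)
    rw [hF, sum_filter]
    refine sum_congr rfl fun b _ => ?_
    rw [sum_filter, sum_singleton]
  have hth := (hTh P hPT).trans hpsi
  have hK : 0 < 1024 * C * Λ / cθ * L / l := by positivity
  have hmain := selu_avg (F := F)
    (J := fun b => ((A.filter (fun j => Nat.Coprime (b + j) (pmod w))).card : ℝ))
    (psi := fun b => AT.psi (pmod w) (b + j0) P) (K := 1024 * C * Λ / cθ * L / l)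
    (X := pmod w * dens w ^ 2 * S) (Y := C * ((P : ℝ) / (pmod w : ℕ)) * l) (B := cθ * P)
    (Q := cθ / 64 * (l * ((P : ℝ) / (pmod w : ℕ)))) hK (fun b _ => Nat.cast_nonneg _) havg
    (by positivity) (fun b _ => hbt b) hth (by positivity)
  have hset : (range (pmod w)).filter (fun b : ℕ => Nat.Coprime (b + j0) (pmod w) ∧
        ((A.filter (fun j => Nat.Coprime (b + j) (pmod w))).card : ℝ) * (l : ℝ) ≤
          1024 * C * Λ / cθ * L ∧
        cθ / 64 * ((l : ℝ) * ((P : ℝ) / (pmod w : ℕ))) ≤ AT.psi (pmod w) (b + j0) P) =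
      F.filter (fun b => ((A.filter (fun j => Nat.Coprime (b + j) (pmod w))).card : ℝ) ≤
          1024 * C * Λ / cθ * L / l ∧
        cθ / 64 * (l * ((P : ℝ) / (pmod w : ℕ))) ≤ AT.psi (pmod w) (b + j0) P) := by
    ext b
    rw [hF, mem_filter, mem_filter, mem_filter, le_div_iff₀ hlpos]
    tauto
  have e1 : (pmod w : ℝ) * dens w ^ 2 * S / (1024 * C * Λ / cθ * L / l) *
      (C * ((P : ℝ) / (pmod w : ℕ)) * l) ≤ cθ * P / 4 := by
    have h1 : (pmod w : ℝ) * dens w ^ 2 * S / (1024 * C * Λ / cθ * L / l) *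
        (C * ((P : ℝ) / (pmod w : ℕ)) * l) =
        cθ * P / (1024 * Λ * L) * ((dens w * l) ^ 2 * S) := by
      field_simp
    have h2 : dens w * l ≤ 16 := by
      have h3 := mul_le_mul_of_nonneg_right hdens hlpos.le
      rwa [div_mul_cancel₀ _ hlpos.ne'] at h3
    have h3 : (dens w * l) ^ 2 ≤ 16 ^ 2 := pow_le_pow_left₀ (by positivity) h2 2
    have h4 : (dens w * l) ^ 2 * S ≤ 16 ^ 2 * (Λ * L) :=
      (mul_le_mul_of_nonneg_left hS (by positivity)).trans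
        (mul_le_mul_of_nonneg_right h3 (by positivity))
    rw [h1]
    calc cθ * P / (1024 * Λ * L) * ((dens w * l) ^ 2 * S)
        ≤ cθ * P / (1024 * Λ * L) * (16 ^ 2 * (Λ * L)) :=
          mul_le_mul_of_nonneg_left h4 (by positivity)
      _ = cθ * P / 4 := by
        field_simp
        norm_num
  have e2 : (F.card : ℝ) * (cθ / 64 * (l * ((P : ℝ) / (pmod w : ℕ)))) ≤ cθ * P / 4 := by
    have h2 : dens w * l ≤ 16 := by
      have h3 := mul_le_mul_of_nonneg_right hdens hlpos.le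
      rwa [div_mul_cancel₀ _ hlpos.ne'] at h3
    have h1 : (F.card : ℝ) * (cθ / 64 * (l * ((P : ℝ) / (pmod w : ℕ)))) =
        cθ * P / 64 * (dens w * l) := by
      rw [hFc]
      field_simp
    rw [h1]
    calc cθ * P / 64 * (dens w * l) ≤ cθ * P / 64 * 16 :=
          mul_le_mul_of_nonneg_left h2 (by positivity)
      _ = cθ * P / 4 := by ring
  rw [hset]
  obtain ⟨g, hg⟩ : ∃ g : ℝ, g = ((F.filter (fun b =>
      ((A.filter (fun j => Nat.Coprime (b + j) (pmod w))).card : ℝ) ≤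
          1024 * C * Λ / cθ * L / l ∧
        cθ / 64 * (l * ((P : ℝ) / (pmod w : ℕ))) ≤ AT.psi (pmod w) (b + j0) P)).card : ℝ) :=
    ⟨_, rfl⟩
  rw [← hg]
  have h9 : cθ * P / 2 ≤ g * (C * ((P : ℝ) / (pmod w : ℕ)) * l) := by
    rw [← hg] at hmain
    linarith
  have h10 : 0 < C * ((P : ℝ) / (pmod w : ℕ)) * l := by positivity
  rw [← div_le_iff₀ h10] at h9
  refine le_trans (le_of_eq ?_) h9
  field_simp

end Pool.Agent.UW
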