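import Pool.Agent.UW.EG5
import Pool.Agent.UW.SelU

/-! UW/FinG.  Theorem U2, general version of UW/FinU: no restriction on the size of `q0 ≤ x` and of the elements of `A`.

PLAN (compare UW/FinU).  Drop the elements `> 2 x` of `A` (for them the last condition is empty as `q ≤ 2 n ≤ 2 x`).
`P = x/4`, `L' = Nat.log 2 P`, `L = L' + 5` (so `16 P ≤ 2^L ≤ 32 P`), `w = L'/10000`, `M = pmod w`.  `K = 2 x`, `j0 = K - q0`,
`A' = A.image (K - ·)` (injective on `[0, K]`), `|j - j0| = |q - q0|`.  `selU` (with `L'`; `log x ≤ L'` for large `x`, since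
`L' ≥ log x/log 2 - 4`) gives many classes `b`.  For each of them `eg5` with `L`, `b := b + j0` and
`R = (A'.filter (fun j => Nat.Coprime (b + j) M)).image (fun j => (j0 : ℤ) - j)`, i.e. the integers `q - q0`:
`|q - q0| ≤ 2 x ≤ 2^L`, `0 ∉ R`, `Nat.log 2 L ≤ 2 Nat.log 2 L'` (so `Λ := 2 Λ'`, `c1 := c1/2`), `M ≤ 4^w` as in UW/Sel.
Every prime `n` obtained is odd, `n' = (n + q0)/2 ≤ (4P + x)/2 ≤ x`, `2 n' - q = n - (q - q0)`, injective, classes disjoint.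
Let `E` be the set of all `n` with `0 ≤ n - (q - q0) ≤ 2^(dd L)` for some `q ∈ A`; `|E| ≤ |A| (2^(dd L) + 1)`, `|A| ≤ Λ log x` by
`one_le_ff`.  If `n ∉ E` then `n - (q - q0)` is not prime for all `q ∈ A`: if `(b + j, M) = 1` by the prime `q' ≤ 2^(dd L)` dividing
it, otherwise by a prime `p ≤ w ≤ 2^(dd L)` dividing it.  So the number is at least
`c (M/lam') c' (lam/L) (P/M) - Λ log x (2^(dd L) + 1) ≥ c'' x/log x`. -/

set_option autoImplicit false

namespace Pool.Agent.UW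

open Finset Pool.Agent.REC

private theorem fg_mod (w : ℕ) : REC.Mod w ∅ = pmod w := by
  unfold REC.Mod pmod
  rw [sdiff_empty]

private theorem fg_dvd {w q : ℕ} (hq : q.Prime) (h : q ∣ pmod w) : q ≤ w := by
  unfold pmod at h
  obtain ⟨p, hp, hqp⟩ := (Nat.Prime.prime hq).exists_mem_finset_dvd h
  have h1 := mem_prs.1 hp
  have h2 := (Nat.prime_dvd_prime_iff_eq hq h1.1).1 hqp
  omega

private theorem fg_size {P L w : ℕ} (hP : 1 ≤ P) (hL : L = Nat.log 2 P) (hw : 10000 * w ≤ L) :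
    ((pmod w : ℕ) : ℝ) ≤ (P : ℝ) ^ (1 / 1000 : ℝ) := by
  have h1 := Mod_le w ∅
  rw [fg_mod] at h1
  refine h1.trans ?_
  have h2 : 2 ^ L ≤ P := by
    rw [hL]
    exact Nat.pow_log_le_self 2 (by omega)
  have h3 : ((2 : ℝ) ^ L) ^ (1 / 1000 : ℝ) ≤ (P : ℝ) ^ (1 / 1000 : ℝ) := by
    refine Real.rpow_le_rpow (by positivity) ?_ (by norm_num)
    exact_mod_cast h2
  refine le_trans ?_ h3
  have h4 : (4 : ℝ) ^ w = (2 : ℝ) ^ ((2 * w : ℕ) : ℝ) := by
    rw [Real.rpow_natCast, pow_mul]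
    norm_num
  have h5 : ((2 : ℝ) ^ L) ^ (1 / 1000 : ℝ) = (2 : ℝ) ^ ((L : ℝ) * (1 / 1000)) := by
    rw [← Real.rpow_natCast 2 L, ← Real.rpow_mul (by norm_num)]
  rw [h4, h5]
  refine Real.rpow_le_rpow_of_exponent_le (by norm_num) ?_
  have h6 : (10000 : ℝ) * (w : ℝ) ≤ (L : ℝ) := by exact_mod_cast hw
  push_cast
  have h7 : (0 : ℝ) ≤ (w : ℝ) := Nat.cast_nonneg w
  linarith

/-- numerical facts -/
private theorem fg_num {x P L : ℕ} (hP : P = x / 4) (hL : L = Nat.log 2 P) (hL0 : 100 ≤ L) :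
    Real.log x ≤ L ∧ Real.log x ^ 2 + 1 ≤ (L : ℝ) ^ 2 ∧ 0 ≤ Real.log x ∧
      (x : ℝ) / Real.log x ≤ 16 * ((P : ℝ) / L) := by
  have hP0 : P ≠ 0 := by
    rintro rfl
    simp at hL
    omega
  have h1 : 2 ^ L ≤ P := by
    rw [hL]
    exact Nat.pow_log_le_self 2 hP0
  have h2 : P < 2 ^ (L + 1) := by
    rw [hL]
    exact Nat.lt_pow_succ_log_self (by norm_num) P
  have h3 : x < 2 ^ (L + 3) := by
    have e : 2 ^ (L + 3) = 4 * 2 ^ (L + 1) := by ring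
    omega
  have h4 : 2 ^ (L + 2) ≤ x := by
    have e : 2 ^ (L + 2) = 4 * 2 ^ L := by ring
    omega
  have hx8 : x ≤ 8 * P := by omega
  have hx0 : (0 : ℝ) < x := by
    have : 0 < x := by omega
    exact_mod_cast this
  have hLR : (100 : ℝ) ≤ (L : ℝ) := by exact_mod_cast hL0
  have h5 : Real.log x ≤ ((L : ℝ) + 3) * Real.log 2 := by
    have h6 : (x : ℝ) ≤ 2 ^ (L + 3) := by exact_mod_cast h3.le
    have h7 := Real.log_le_log hx0 h6
    rw [Real.log_pow] at h7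
    push_cast at h7
    exact h7
  have h6 : ((L : ℝ) + 2) * Real.log 2 ≤ Real.log x := by
    have h7 : ((2 ^ (L + 2) : ℕ) : ℝ) ≤ x := by exact_mod_cast h4
    have h8 := Real.log_le_log (by positivity) h7
    push_cast at h8
    rw [Real.log_pow] at h8
    push_cast at h8
    exact h8
  have g1 := Real.log_two_gt_d9
  have g2 := Real.log_two_lt_d9
  have h7 : Real.log x ≤ 3 / 4 * L := by nlinarith
  have h8 : (L : ℝ) / 2 ≤ Real.log x := by nlinarith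
  have h9 : 0 < Real.log x := by linarith
  refine ⟨by linarith, by nlinarith, h9.le, ?_⟩
  have hxP : (x : ℝ) ≤ 8 * P := by exact_mod_cast hx8
  rw [div_le_iff₀ h9]
  have hL1 : (0 : ℝ) < L := by linarith
  calc (x : ℝ) ≤ 8 * P := hxP
    _ = 16 * ((P : ℝ) / L) * (L / 2) := by
        field_simp
        norm_num
    _ ≤ 16 * ((P : ℝ) / L) * Real.log x := by gcongr

/-- disjoint classes, the exceptional set and the injective map `n ↦ (n + q0)/2` -/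
private theorem fg_count {M j0 q0 : ℕ} {F T E : Finset ℕ} (S : ℕ → Finset ℕ)
    (hF : ∀ b ∈ F, b < M)
    (hS : ∀ b ∈ F, ∀ n ∈ S b, n ≡ b + j0 [MOD M] ∧ Even (n + q0) ∧
      (n ∉ E → (n + q0) / 2 ∈ T)) :
    ∑ b ∈ F, (S b).card ≤ T.card + E.card := by
  classical
  have h1 : ∑ b ∈ F, (S b).card = (F.biUnion S).card := by
    rw [card_biUnion]
    intro a ha b hb hab
    refine disjoint_left.2 ?_
    intro n hn hn'
    have h2 := (hS a ha n hn).1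
    have h3 := (hS b hb n hn').1
    have h4 := Nat.ModEq.add_right_cancel' j0 (h2.symm.trans h3)
    exact hab (Nat.ModEq.eq_of_lt_of_lt h4 (hF a ha) (hF b hb))
  rw [h1]
  have h2 : ((F.biUnion S) \ E).card ≤ T.card := by
    refine card_le_card_of_injOn (fun n => (n + q0) / 2) ?_ ?_
    · intro n hn
      rw [mem_coe, mem_sdiff, mem_biUnion] at hn
      obtain ⟨⟨b, hb, hn⟩, hE⟩ := hn
      exact (hS b hb n hn).2.2 hE
    · intro n hn m hm h
      rw [mem_coe, mem_sdiff, mem_biUnion] at hn hm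
      obtain ⟨⟨b, hb, hn⟩, -⟩ := hn
      obtain ⟨⟨b', hb', hm⟩, -⟩ := hm
      obtain ⟨u, hu⟩ := (hS b hb n hn).2.1
      obtain ⟨v, hv⟩ := (hS b' hb' m hm).2.1
      dsimp only at h
      omega
  have h3 : (F.biUnion S).card ≤ ((F.biUnion S) \ E).card + E.card := by
    have := card_le_card (le_sup_sdiff (a := E) (b := F.biUnion S))
    have h4 := card_union_le E ((F.biUnion S) \ E)
    have h5 : (F.biUnion S).card ≤ (E ∪ ((F.biUnion S) \ E)).card := this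
    omega
  omega

/-- the exceptional set -/
private def Ex (A : Finset ℕ) (q0 D : ℕ) : Finset ℕ :=
  A.biUnion fun q => (range (D + 1)).image fun t => q + t - q0

private theorem Ex_card (A : Finset ℕ) (q0 D : ℕ) : (Ex A q0 D).card ≤ A.card * (D + 1) := by
  unfold Ex
  refine card_biUnion_le_card_mul _ _ _ fun q _ => ?_
  refine card_image_le.trans ?_
  rw [card_range]

/-- one `n` -/
private theorem fg_elem {P x w q0 b n D : ℕ} {A : Finset ℕ} (hP : P = x / 4)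
    (hwP : w ≤ D) (hP2 : 2 ≤ P) (hq0 : q0 ≤ x) (hodd : Odd q0)
    (hn : n ∈ AT.Nw P 0 (pmod w) (b + (2 * x - q0))) (hn1 : n.Prime)
    (hn2 : ∀ j ∈ ((A.filter (fun q => q ≤ 2 * x)).image (fun q => 2 * x - q)).filter
      (fun j => Nat.Coprime (b + j) (pmod w)),
      ∃ q : ℕ, q.Prime ∧ q ≤ D ∧ (q : ℤ) ∣ (n : ℤ) - (((2 * x - q0 : ℕ) : ℤ) - j)) :
    n ≡ b + (2 * x - q0) [MOD pmod w] ∧ Even (n + q0) ∧
      (n ∉ Ex (A.filter (fun q => q ≤ 2 * x)) q0 D →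
      (n + q0) / 2 ∈ (Icc 1 x).filter (fun n => q0 ≤ 2 * n ∧
        (2 * n - q0).Prime ∧ ∀ q ∈ A, q ≤ 2 * n → ¬ (2 * n - q).Prime)) := by
  unfold AT.Nw at hn
  rw [mem_filter, mem_Ioc] at hn
  obtain ⟨⟨hn3, hn4⟩, hn5⟩ := hn
  have hev : Even (n + q0) := (hn1.odd_of_ne_two (by omega)).add_odd hodd
  refine ⟨hn5, hev, fun hE => ?_⟩
  obtain ⟨k, hk⟩ := hev
  have hk2 : (n + q0) / 2 = k := by omega
  rw [hk2, mem_filter, mem_Icc]
  refine ⟨⟨by omega, by omega⟩, by omega, ?_, ?_⟩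
  · have h9 : 2 * k - q0 = n := by omega
    rw [h9]
    exact hn1
  · intro q hq hq2 hpr
    have hqx : q ≤ 2 * x := by omega
    have hqA : q ∈ A.filter (fun q => q ≤ 2 * x) := mem_filter.2 ⟨hq, hqx⟩
    have hbig : D < 2 * k - q := by
      by_contra h
      apply hE
      unfold Ex
      rw [mem_biUnion]
      refine ⟨q, hqA, mem_image.2 ⟨2 * k - q, mem_range.2 (by omega), by omega⟩⟩
    by_cases hc : Nat.Coprime (b + (2 * x - q)) (pmod w)
    · obtain ⟨r, hr, hrD, hrd⟩ := hn2 (2 * x - q)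
        (mem_filter.2 ⟨mem_image.2 ⟨q, hqA, rfl⟩, hc⟩)
      have h10 : (n : ℤ) - (((2 * x - q0 : ℕ) : ℤ) - ((2 * x - q : ℕ) : ℤ)) =
          ((2 * k - q : ℕ) : ℤ) := by omega
      rw [h10] at hrd
      have h11 : r ∣ 2 * k - q := by exact_mod_cast hrd
      have h13 := (Nat.prime_dvd_prime_iff_eq hr hpr).1 h11
      omega
    · obtain ⟨p, hp, hp1, hp2⟩ := Nat.Prime.not_coprime_iff_dvd.1 hc
      have h10 := fg_dvd hp hp2
      have h11 : (2 * k - q) + (2 * x - q0) ≡ (b + (2 * x - q)) + (2 * x - q0) [MOD p] := by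
        have h12 : (2 * k - q) + (2 * x - q0) = n + (2 * x - q) := by omega
        have h13 : (b + (2 * x - q)) + (2 * x - q0) = (b + (2 * x - q0)) + (2 * x - q) := by ring
        rw [h12, h13]
        exact (hn5.of_dvd hp2).add_right _
      have h14 := Nat.ModEq.add_right_cancel' _ h11
      have h12 : p ∣ 2 * k - q := (h14.dvd_iff dvd_rfl).2 hp1
      have h13 := (Nat.prime_dvd_prime_iff_eq hp hpr).1 h12
      omega

/-- the exceptional set is small -/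
private theorem fg_small {Λ c : ℝ} (hΛ : 0 < Λ) (hc : 0 < c) {P L' : ℕ} (h : 2 ^ L' ≤ P)
    (h1 : 100 ≤ L') (h2 : 4 * ⌈64 * Λ / c⌉₊ ≤ L') :
    Λ * L' * ((2 : ℝ) ^ ((L' + 5) / 10000) + 1) ≤ c * ((P : ℝ) / (L' + 5 : ℕ)) := by
  obtain ⟨u, hu⟩ : ∃ u : ℕ, u = L' / 4 := ⟨_, rfl⟩
  have hu1 : ⌈64 * Λ / c⌉₊ ≤ u := by omega
  have hu2 : L' ≤ 4 * (u + 1) := by omega
  have hY1 : u + 1 ≤ 2 ^ u := Nat.lt_two_pow_self
  have hY1' : ((u : ℝ) + 1) ≤ 2 ^ u := by exact_mod_cast hY1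
  obtain ⟨Y, hY⟩ : ∃ Y : ℝ, Y = 2 ^ u := ⟨_, rfl⟩
  rw [← hY] at hY1'
  have hu0 : (0 : ℝ) ≤ u := Nat.cast_nonneg u
  have hYP : Y ^ 4 ≤ P := by
    have h3 : ((2 ^ L' : ℕ) : ℝ) ≤ P := by exact_mod_cast h
    refine le_trans ?_ h3
    rw [hY, ← pow_mul]
    push_cast
    exact pow_le_pow_right₀ (by norm_num) (by omega)
  have hYc : 64 * Λ / c ≤ Y := by
    have h3 := Nat.le_ceil (64 * Λ / c)
    have h4 : ((⌈64 * Λ / c⌉₊ : ℕ) : ℝ) ≤ u := by exact_mod_cast hu1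
    linarith
  rw [div_le_iff₀ hc] at hYc
  have hdd : (2 : ℝ) ^ ((L' + 5) / 10000) + 1 ≤ 2 * Y := by
    have h3 : (2 : ℝ) ^ ((L' + 5) / 10000) ≤ 2 ^ u := pow_le_pow_right₀ (by norm_num) (by omega)
    rw [← hY] at h3
    linarith
  have hL : (L' : ℝ) ≤ 4 * Y := by
    have h3 : (L' : ℝ) ≤ 4 * ((u : ℝ) + 1) := by exact_mod_cast hu2
    linarith
  have hL5 : ((L' + 5 : ℕ) : ℝ) ≤ 2 * L' := by
    have : L' + 5 ≤ 2 * L' := by omega
    exact_mod_cast this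
  have hL0 : (0 : ℝ) < L' := by exact_mod_cast (by omega : 0 < L')
  have hY0 : 0 < Y := by linarith
  have hL50 : (0 : ℝ) < ((L' + 5 : ℕ) : ℝ) := by exact_mod_cast (by omega : 0 < L' + 5)
  rw [← mul_div_assoc, le_div_iff₀ hL50]
  calc Λ * L' * ((2 : ℝ) ^ ((L' + 5) / 10000) + 1) * ((L' + 5 : ℕ) : ℝ) ≤
        Λ * (4 * Y) * (2 * Y) * (2 * (4 * Y)) := by
        have h3 : ((L' + 5 : ℕ) : ℝ) ≤ 2 * (4 * Y) := by linarith
        gcongr
    _ = 64 * Λ * Y ^ 3 := by ring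
    _ ≤ Y * c * Y ^ 3 := by gcongr
    _ = c * Y ^ 4 := by ring
    _ ≤ c * P := by gcongr

theorem finG (Λ : ℝ) (hΛ : 0 < Λ) : ∃ c : ℝ, 0 < c ∧ ∃ x0 : ℕ, ∀ x : ℕ, x0 ≤ x →
    ∀ (A : Finset ℕ) (q0 : ℕ), q0 ≤ x → Odd q0 → q0 ∉ A →
    ∑ q ∈ A, ff (max q0 q - min q0 q) ≤ Λ * Real.log x →
    c * (x / Real.log x) ≤ (((Icc 1 x).filter (fun n => q0 ≤ 2 * n ∧ (2 * n - q0).Prime ∧
      ∀ q ∈ A, q ≤ 2 * n → ¬ (2 * n - q).Prime)).card : ℝ) := by
  classical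
  obtain ⟨Λ', c1, c2, hΛ', hc1, hc2, P1, hsel⟩ := selU Λ hΛ
  obtain ⟨c3, hc3, L1, heu⟩ := eg5 (2 * Λ') (c1 / 2) (by positivity) (by positivity)
  obtain ⟨L0, hL0⟩ : ∃ L0 : ℕ, L0 = 10 ^ 9 + L1 + 4 * ⌈64 * Λ / (c2 * c3 / 2)⌉₊ := ⟨_, rfl⟩
  refine ⟨c2 * c3 / 64, by positivity, 4 * (P1 + 2 ^ L0), ?_⟩
  intro x hx A q0 hq0 hodd hq0A hS
  obtain ⟨P, hP⟩ : ∃ P : ℕ, P = x / 4 := ⟨_, rfl⟩
  obtain ⟨L', hL'⟩ : ∃ L' : ℕ, L' = Nat.log 2 P := ⟨_, rfl⟩
  obtain ⟨w, hw⟩ : ∃ w : ℕ, w = L' / 10000 := ⟨_, rfl⟩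
  have h2L0 : 0 < 2 ^ L0 := by positivity
  have hP1 : P1 ≤ P := by omega
  have hP3 : 2 ^ L0 ≤ P := by omega
  have hLL : L0 ≤ L' := by
    rw [hL']
    exact Nat.le_log_of_pow_le (by norm_num) hP3
  have hL9 : 10 ^ 9 ≤ L' := by omega
  have hL1 : L1 ≤ L' := by omega
  have hLc : 4 * ⌈64 * Λ / (c2 * c3 / 2)⌉₊ ≤ L' := by omega
  have hL100 : 100 ≤ L' := by omega
  obtain ⟨n1, -, n3, n4⟩ := fg_num hP hL' hL100
  have hLP : 2 ^ L' ≤ P := by
    rw [hL']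
    exact Nat.pow_log_le_self 2 (by omega)
  have hLP2 : P < 2 ^ (L' + 1) := by
    rw [hL']
    exact Nat.lt_pow_succ_log_self (by norm_num) P
  have hPtwo : 2 ≤ P := by
    have h1 : L' < 2 ^ L' := Nat.lt_two_pow_self
    omega
  have hinj : Set.InjOn (fun q => 2 * x - q) ((A.filter (fun q => q ≤ 2 * x) : Finset ℕ) :
      Set ℕ) := by
    intro q hq q' hq' h
    have h1 := (mem_filter.1 (mem_coe.1 hq)).2
    have h2 := (mem_filter.1 (mem_coe.1 hq')).2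
    dsimp only at h
    omega
  have hj0 : 2 * x - q0 ∉ (A.filter (fun q => q ≤ 2 * x)).image (fun q => 2 * x - q) := by
    intro h
    obtain ⟨q, hq, h1⟩ := mem_image.1 h
    have h2 := (mem_filter.1 hq).2
    have h3 : q = q0 := by omega
    exact hq0A (h3 ▸ (mem_filter.1 hq).1)
  have hne : ∀ q ∈ A, max q0 q - min q0 q ≠ 0 := by
    intro q hq h
    have h1 : q ≠ q0 := fun h => hq0A (h ▸ hq)
    rcases le_total q0 q with h2 | h2
    · rw [max_eq_right h2, min_eq_left h2] at h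
      omega
    · rw [max_eq_left h2, min_eq_right h2] at h
      omega
  have hsumA : ∑ q ∈ A.filter (fun q => q ≤ 2 * x), ff (max q0 q - min q0 q) ≤
      Λ * Real.log x := by
    refine le_trans (sum_le_sum_of_subset_of_nonneg (filter_subset _ _) fun q hq _ => ?_) hS
    exact zero_le_one.trans (one_le_ff (hne q hq))
  have hcard : ((A.filter (fun q => q ≤ 2 * x)).card : ℝ) ≤ Λ * L' := by
    refine le_trans ?_ (hsumA.trans (mul_le_mul_of_nonneg_left n1 hΛ.le))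
    have h1 : ((A.filter (fun q => q ≤ 2 * x)).card : ℝ) =
        ∑ q ∈ A.filter (fun q => q ≤ 2 * x), (1 : ℝ) := by
      rw [sum_const, nsmul_eq_mul, mul_one]
    rw [h1]
    exact sum_le_sum fun q hq => one_le_ff (hne q (mem_filter.1 hq).1)
  have hsum : ∑ j ∈ (A.filter (fun q => q ≤ 2 * x)).image (fun q => 2 * x - q),
      ff (max (2 * x - q0) j - min (2 * x - q0) j) ≤ Λ * L' := by
    rw [sum_image hinj]
    refine le_trans (le_of_eq ?_) (hsumA.trans (mul_le_mul_of_nonneg_left n1 hΛ.le))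
    refine sum_congr rfl fun q hq => ?_
    have h2 := (mem_filter.1 hq).2
    have h3 : max (2 * x - q0) (2 * x - q) - min (2 * x - q0) (2 * x - q) =
        max q0 q - min q0 q := by
      rcases le_total q0 q with h | h
      · rw [max_eq_right h, min_eq_left h, max_eq_left (by omega), min_eq_right (by omega)]
        omega
      · rw [max_eq_left h, min_eq_right h, max_eq_right (by omega), min_eq_left (by omega)]
        omega
    rw [h3]
  have hw1 : 10000 * w ≤ L' := by omega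
  have hw2 : L' ≤ w ^ 2 := by
    have h1 : L' ≤ 20000 * w := by omega
    have h2 : 20000 ≤ w := by omega
    nlinarith
  have hF := hsel P hP1 L' w (2 * x - q0)
    ((A.filter (fun q => q ≤ 2 * x)).image (fun q => 2 * x - q)) hL' hw2 hw1 hj0 hsum
  set F := (range (pmod w)).filter (fun b : ℕ => Nat.Coprime (b + (2 * x - q0)) (pmod w) ∧
        ((((A.filter (fun q => q ≤ 2 * x)).image (fun q => 2 * x - q)).filter
          (fun j => Nat.Coprime (b + j) (pmod w))).card : ℝ) * (Nat.log 2 L' : ℝ) ≤ Λ' * L' ∧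
        c1 * ((Nat.log 2 L' : ℝ) * ((P : ℝ) / (pmod w : ℕ))) ≤
          AT.psi (pmod w) (b + (2 * x - q0)) P) with hFdef
  have hM0 := pmod_pos w
  have hM0' : (0 : ℝ) < (pmod w : ℕ) := by exact_mod_cast hM0
  have hlog : 0 < Nat.log 2 L' := Nat.log_pos (by norm_num) (by omega)
  have hlog' : (0 : ℝ) < (Nat.log 2 L' : ℝ) := by exact_mod_cast hlog
  have hlogle : Nat.log 2 L' ≤ Nat.log 2 (L' + 5) := Nat.log_mono_right (by omega)
  have hlogle' : (Nat.log 2 L' : ℝ) ≤ (Nat.log 2 (L' + 5) : ℝ) := by exact_mod_cast hlogle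
  have hlog2 : Nat.log 2 (L' + 5) ≤ 2 * Nat.log 2 L' := by
    have h1 : Nat.log 2 (L' + 5) ≤ Nat.log 2 (L' * 2) := Nat.log_mono_right (by omega)
    rw [Nat.log_mul_base (by norm_num) (by omega)] at h1
    omega
  have hlog2' : (Nat.log 2 (L' + 5) : ℝ) ≤ 2 * (Nat.log 2 L' : ℝ) := by exact_mod_cast hlog2
  have hLpos : (0 : ℝ) < (L' : ℝ) := by exact_mod_cast (by omega : 0 < L')
  have hLpos5 : (0 : ℝ) < ((L' + 5 : ℕ) : ℝ) := by exact_mod_cast (by omega : 0 < L' + 5)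
  have hL5 : ((L' + 5 : ℕ) : ℝ) ≤ 2 * L' := by
    have : L' + 5 ≤ 2 * L' := by omega
    exact_mod_cast this
  have hLL5 : (L' : ℝ) ≤ ((L' + 5 : ℕ) : ℝ) := by exact_mod_cast (by omega : L' ≤ L' + 5)
  have h25 : 2 ^ (L' + 5) = 32 * 2 ^ L' := by ring
  have h21 : 2 ^ (L' + 1) = 2 * 2 ^ L' := by ring
  have hPpos : (0 : ℝ) < P := by exact_mod_cast (by omega : 0 < P)
  have hwD : w ≤ 2 ^ ((L' + 5) / 10000) := by
    have h1 : w < 2 ^ w := Nat.lt_two_pow_self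
    have h2 : 2 ^ w ≤ 2 ^ ((L' + 5) / 10000) := Nat.pow_le_pow_right (by norm_num) (by omega)
    omega
  let G : ℕ → Finset ℕ := fun b =>
    ((A.filter (fun q => q ≤ 2 * x)).image (fun q => 2 * x - q)).filter
      (fun j => Nat.Coprime (b + j) (pmod w))
  let Sb : ℕ → Finset ℕ := fun b =>
    (AT.Nw P 0 (pmod w) (b + (2 * x - q0))).filter (fun n : ℕ => n.Prime ∧
      ∀ a ∈ (G b).image (fun j : ℕ => (((2 * x - q0 : ℕ) : ℤ) - (j : ℤ))),
      ∃ q : ℕ, q.Prime ∧ (L' + 5) ^ 6 < q ∧ q ≤ 2 ^ AT.dd (L' + 5) ∧ (q : ℤ) ∣ (n : ℤ) - a)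
  have hcls : ∀ b ∈ F, c3 * ((Nat.log 2 (L' + 5) : ℝ) / (L' + 5 : ℕ) *
      ((P : ℝ) / (pmod w : ℕ))) ≤ ((Sb b).card : ℝ) := by
    intro b hb
    obtain ⟨hb0, hb1, hb2, hb3⟩ := mem_filter.1 hb
    refine heu P (L' + 5) (pmod w) _ (b + (2 * x - q0)) (by omega) (by omega) (by omega) hM0
      ?_ (fg_size (by omega) hL' hw1) ?_ ?_ ?_ hb1 ?_
    · intro q hq hLq
      rw [Nat.coprime_comm, hq.coprime_iff_not_dvd]
      intro hd
      have h1 := fg_dvd hq hd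
      have h2 : (L' + 5) ^ 1 ≤ (L' + 5) ^ 6 := Nat.pow_le_pow_right (by omega) (by norm_num)
      rw [pow_one] at h2
      omega
    · intro a ha
      obtain ⟨j, hj, rfl⟩ := mem_image.1 ha
      obtain ⟨q, hq, rfl⟩ := mem_image.1 (mem_filter.1 hj).1
      have h1 := (mem_filter.1 hq).2
      have h2 : |((2 * x - q0 : ℕ) : ℤ) - ((2 * x - q : ℕ) : ℤ)| ≤ 2 * x := by
        rw [abs_le]
        omega
      refine h2.trans ?_
      have h3 : 2 * x ≤ 2 ^ (L' + 5) := by omega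
      exact_mod_cast h3
    · intro h
      obtain ⟨j, hj, h1⟩ := mem_image.1 h
      have h2 : j = 2 * x - q0 := by omega
      exact hj0 (h2 ▸ (mem_filter.1 hj).1)
    · have h1 : (((G b).image (fun j : ℕ => (((2 * x - q0 : ℕ) : ℤ) - (j : ℤ)))).card : ℝ) ≤
          ((G b).card : ℝ) := by exact_mod_cast card_image_le
      calc (((G b).image (fun j : ℕ => (((2 * x - q0 : ℕ) : ℤ) - (j : ℤ)))).card : ℝ) *
            (Nat.log 2 (L' + 5) : ℝ) ≤ ((G b).card : ℝ) * (2 * (Nat.log 2 L' : ℝ)) := by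
            gcongr
        _ = 2 * (((G b).card : ℝ) * (Nat.log 2 L' : ℝ)) := by ring
        _ ≤ 2 * (Λ' * L') := by
            have : ((G b).card : ℝ) * (Nat.log 2 L' : ℝ) ≤ Λ' * L' := hb2
            linarith
        _ = 2 * Λ' * L' := by ring
        _ ≤ 2 * Λ' * ((L' + 5 : ℕ) : ℝ) := by gcongr
    · refine le_trans ?_ hb3
      calc c1 / 2 * ((Nat.log 2 (L' + 5) : ℝ) * ((P : ℝ) / (pmod w : ℕ))) ≤
            c1 / 2 * ((2 * (Nat.log 2 L' : ℝ)) * ((P : ℝ) / (pmod w : ℕ))) := by gcongr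
        _ = c1 * ((Nat.log 2 L' : ℝ) * ((P : ℝ) / (pmod w : ℕ))) := by ring
  have htot : c2 * c3 * ((P : ℝ) / (L' + 5 : ℕ)) ≤ ∑ b ∈ F, ((Sb b).card : ℝ) := by
    calc c2 * c3 * ((P : ℝ) / (L' + 5 : ℕ)) ≤ c2 * ((pmod w : ℕ) / (Nat.log 2 L' : ℝ)) *
          (c3 * ((Nat.log 2 (L' + 5) : ℝ) / (L' + 5 : ℕ) * ((P : ℝ) / (pmod w : ℕ)))) := by
          have h1 : c2 * ((pmod w : ℕ) / (Nat.log 2 L' : ℝ)) *
              (c3 * ((Nat.log 2 (L' + 5) : ℝ) / (L' + 5 : ℕ) * ((P : ℝ) / (pmod w : ℕ)))) =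
              c2 * c3 * ((P : ℝ) / (L' + 5 : ℕ)) *
                ((Nat.log 2 (L' + 5) : ℝ) / (Nat.log 2 L' : ℝ)) := by
            field_simp
          rw [h1]
          have h2 : 1 ≤ (Nat.log 2 (L' + 5) : ℝ) / (Nat.log 2 L' : ℝ) := by
            rwa [le_div_iff₀ hlog', one_mul]
          exact le_mul_of_one_le_right (by positivity) h2
      _ ≤ F.card * (c3 * ((Nat.log 2 (L' + 5) : ℝ) / (L' + 5 : ℕ) *
          ((P : ℝ) / (pmod w : ℕ)))) := by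
          refine mul_le_mul_of_nonneg_right hF ?_
          positivity
      _ = ∑ b ∈ F, c3 * ((Nat.log 2 (L' + 5) : ℝ) / (L' + 5 : ℕ) *
          ((P : ℝ) / (pmod w : ℕ))) := by
          rw [sum_const, nsmul_eq_mul]
      _ ≤ _ := sum_le_sum hcls
  have hcount := fg_count (M := pmod w) (j0 := 2 * x - q0) (q0 := q0) (F := F)
    (T := (Icc 1 x).filter (fun n => q0 ≤ 2 * n ∧
      (2 * n - q0).Prime ∧ ∀ q ∈ A, q ≤ 2 * n → ¬ (2 * n - q).Prime))
    (E := Ex (A.filter (fun q => q ≤ 2 * x)) q0 (2 ^ ((L' + 5) / 10000))) Sb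
    (fun b hb => mem_range.1 (mem_filter.1 hb).1)
    (by
      intro b hb n hn
      obtain ⟨h1, h2, h3⟩ := mem_filter.1 hn
      refine fg_elem hP hwD hPtwo hq0 hodd h1 h2 ?_
      intro j hj
      obtain ⟨q, g1, g2, g3, g4⟩ := h3 _ (mem_image.2 ⟨j, hj, rfl⟩)
      exact ⟨q, g1, g3, g4⟩)
  have hcount' := Nat.cast_le (α := ℝ) |>.2 hcount
  rw [Nat.cast_sum, Nat.cast_add] at hcount'
  have hE1 : ((Ex (A.filter (fun q => q ≤ 2 * x)) q0 (2 ^ ((L' + 5) / 10000))).card : ℝ) ≤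
      c2 * c3 / 2 * ((P : ℝ) / (L' + 5 : ℕ)) := by
    have h1 : ((Ex (A.filter (fun q => q ≤ 2 * x)) q0 (2 ^ ((L' + 5) / 10000))).card : ℝ) ≤
        ((A.filter (fun q => q ≤ 2 * x)).card : ℝ) * ((2 : ℝ) ^ ((L' + 5) / 10000) + 1) := by
      exact_mod_cast Ex_card (A.filter (fun q => q ≤ 2 * x)) q0 (2 ^ ((L' + 5) / 10000))
    refine h1.trans (le_trans ?_
      (fg_small hΛ (by positivity : 0 < c2 * c3 / 2) hLP hL100 hLc))
    exact mul_le_mul_of_nonneg_right hcard (by positivity)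
  have hfin : c2 * c3 / 64 * (x / Real.log x) ≤ c2 * c3 / 2 * ((P : ℝ) / (L' + 5 : ℕ)) := by
    calc c2 * c3 / 64 * (x / Real.log x) ≤ c2 * c3 / 64 * (16 * ((P : ℝ) / L')) :=
          mul_le_mul_of_nonneg_left n4 (by positivity)
      _ = c2 * c3 / 2 * ((P : ℝ) / (2 * L')) := by
          field_simp
          norm_num
      _ ≤ _ := by gcongr
  linarith

end Pool.Agent.UW
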