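import Pool.Agent.UW.RMain
import Pool.Agent.UW.AvF

/-! UW/RFin.  The final statements at the Rankin scale. -/

set_option autoImplicit false

namespace Pool.Agent.UW

open Finset Filter Pool.Agent.REC

/-- `log x (loglog x)^3 loglogloglog x / (logloglog x)^2` -/
noncomputable def RR (x : ℝ) : ℝ :=
  Real.log x * Real.log (Real.log x) ^ 3 * Real.log (Real.log (Real.log (Real.log x))) /
    Real.log (Real.log (Real.log x)) ^ 2

/-- `log x (loglog x)^2 loglogloglog x / (logloglog x)^2` -/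
noncomputable def RS2 (x : ℝ) : ℝ :=
  Real.log x * Real.log (Real.log x) ^ 2 * Real.log (Real.log (Real.log (Real.log x))) /
    Real.log (Real.log (Real.log x)) ^ 2

/-- one logarithm step for two close numbers -/
private theorem rf_step {u v : ℝ} (hu : 2 ≤ Real.log u) (hu0 : 0 < u) (huv : u ≤ v)
    (hv : v ≤ 2 * u) : Real.log u ≤ Real.log v ∧ Real.log v ≤ 2 * Real.log u := by
  have hv0 : 0 < v := by linarith
  refine ⟨Real.log_le_log hu0 huv, ?_⟩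
  have h1 := Real.log_le_log hv0 hv
  rw [Real.log_mul (by norm_num) hu0.ne'] at h1
  have := Real.log_two_lt_d9
  linarith

private theorem rf_big : ∀ᶠ P : ℕ in atTop, 1 ≤ P ∧ 2 ≤ Real.log P ∧
    2 ≤ Real.log (Real.log P) ∧ 2 ≤ Real.log (Real.log (Real.log P)) ∧
    2 ≤ Real.log (Real.log (Real.log (Real.log P))) := by
  have h1 : Tendsto (fun P : ℕ => Real.log (P : ℝ)) atTop atTop :=
    Real.tendsto_log_atTop.comp tendsto_natCast_atTop_atTop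
  have h2 := Real.tendsto_log_atTop.comp h1
  have h3 := Real.tendsto_log_atTop.comp h2
  have h4 := Real.tendsto_log_atTop.comp h3
  filter_upwards [h1.eventually_ge_atTop 2, h2.eventually_ge_atTop 2, h3.eventually_ge_atTop 2,
    h4.eventually_ge_atTop 2, eventually_ge_atTop 1] with P e1 e2 e3 e4 e5
  exact ⟨e5, e1, e2, e3, e4⟩

/-- comparison of the scales `P` and `4P` -/
private theorem rf_cmp {X l l2 l3 X' m m2 m3 : ℝ} (hX : 0 < X) (hl : 0 < l) (hl2 : 0 < l2)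
    (hl3 : 0 < l3) (a : X' ≤ 2 * X) (b0 : 0 < m) (b : m ≤ 2 * l) (c : l2 ≤ m2)
    (d0 : 0 < m3) (d : m3 ≤ 2 * l3) :
    X' * m ^ 3 * m3 / m2 ^ 2 ≤ 32 * (X * (l ^ 3 * l3 / l2 ^ 2)) ∧
      X' * m ^ 2 * m3 / m2 ^ 2 ≤ 16 * (X * (l ^ 2 * l3 / l2 ^ 2)) := by
  have h2 : l2 ^ 2 ≤ m2 ^ 2 := pow_le_pow_left₀ hl2.le c 2
  constructor
  · calc X' * m ^ 3 * m3 / m2 ^ 2 ≤ (2 * X) * (2 * l) ^ 3 * (2 * l3) / l2 ^ 2 := by
          apply div_le_div₀ (by positivity) _ (by positivity) h2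
          apply mul_le_mul (mul_le_mul a (pow_le_pow_left₀ b0.le b 3) (by positivity)
            (by positivity)) d d0.le (by positivity)
      _ = 32 * (X * (l ^ 3 * l3 / l2 ^ 2)) := by ring
  · calc X' * m ^ 2 * m3 / m2 ^ 2 ≤ (2 * X) * (2 * l) ^ 2 * (2 * l3) / l2 ^ 2 := by
          apply div_le_div₀ (by positivity) _ (by positivity) h2
          apply mul_le_mul (mul_le_mul a (pow_le_pow_left₀ b0.le b 2) (by positivity)
            (by positivity)) d d0.le (by positivity)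
      _ = 16 * (X * (l ^ 2 * l3 / l2 ^ 2)) := by ring

private theorem rf_core (δ : ℝ) (hδ : 0 < δ) (hδ1 : δ ≤ 1 / 2) : ∃ c : ℝ, 0 < c ∧ ∀ N : ℕ,
    ∃ x : ℕ, N ≤ x ∧ ∀ (q0 : ℕ) (A : Finset ℕ), Odd q0 → (q0 : ℝ) ≤ RR x →
    (∀ q ∈ A, (q : ℝ) ≤ RR x ∧ q ≠ q0) →
    ∑ q ∈ A, ff (max q0 q - min q0 q) ^ 2 ≤ c * RS2 x →
    (x : ℝ) ^ (1 - δ) ≤ (((Icc 1 x).filter (fun n => q0 ≤ 2 * n ∧ (2 * n - q0).Prime ∧
      ∀ q ∈ A, q ≤ 2 * n → ¬ (2 * n - q).Prime)).card : ℝ) := by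
  obtain ⟨c, hc, P0, hcore⟩ := rcore δ hδ hδ1
  obtain ⟨P1, hP1⟩ := eventually_atTop.1 rf_big
  refine ⟨c / 16, by positivity, fun N => ?_⟩
  obtain ⟨P, hP, hG⟩ := good_scale (max N (max P0 P1))
  have hPN : N ≤ P := (le_max_left _ _).trans hP
  have hPP0 : P0 ≤ P := (le_max_left _ _).trans ((le_max_right _ _).trans hP)
  have hPP1 : P1 ≤ P := (le_max_right _ _).trans ((le_max_right _ _).trans hP)
  obtain ⟨e0, e1, e2, e3, e4⟩ := hP1 P hPP1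
  have hPr : (1 : ℝ) ≤ P := by exact_mod_cast e0
  refine ⟨4 * P, by omega, ?_⟩
  intro q0 A hodd hq0 hA hS
  obtain ⟨X, hX⟩ : ∃ X : ℝ, X = Real.log P := ⟨_, rfl⟩
  obtain ⟨l, hl⟩ : ∃ l : ℝ, l = Real.log X := ⟨_, rfl⟩
  obtain ⟨l2, hl2⟩ : ∃ l2 : ℝ, l2 = Real.log l := ⟨_, rfl⟩
  obtain ⟨l3, hl3⟩ : ∃ l3 : ℝ, l3 = Real.log l2 := ⟨_, rfl⟩
  rw [← hX] at e1 e2 e3 e4
  rw [← hl] at e2 e3 e4
  rw [← hl2] at e3 e4
  rw [← hl3] at e4
  obtain ⟨X', hX'⟩ : ∃ X' : ℝ, X' = Real.log ((4 * P : ℕ) : ℝ) := ⟨_, rfl⟩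
  have a1 : X ≤ X' ∧ X' ≤ 2 * X := by
    have h1 : X' = Real.log 4 + X := by
      rw [hX', hX]
      push_cast
      rw [Real.log_mul (by norm_num) (by linarith)]
    have h2 : Real.log 4 = 2 * Real.log 2 := by
      rw [show (4 : ℝ) = 2 ^ 2 by norm_num, Real.log_pow]
      norm_num
    have h3 := Real.log_two_gt_d9
    have h4 := Real.log_two_lt_d9
    constructor <;> linarith
  obtain ⟨m, hm⟩ : ∃ m : ℝ, m = Real.log X' := ⟨_, rfl⟩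
  obtain ⟨m2, hm2⟩ : ∃ m2 : ℝ, m2 = Real.log m := ⟨_, rfl⟩
  obtain ⟨m3, hm3⟩ : ∃ m3 : ℝ, m3 = Real.log m2 := ⟨_, rfl⟩
  have a2 : l ≤ m ∧ m ≤ 2 * l := by
    rw [hl, hm]
    exact rf_step (by rw [← hl]; exact e2) (by linarith) a1.1 a1.2
  have a3 : l2 ≤ m2 ∧ m2 ≤ 2 * l2 := by
    rw [hl2, hm2]
    exact rf_step (by rw [← hl2]; exact e3) (by linarith) a2.1 a2.2
  have a4 : l3 ≤ m3 ∧ m3 ≤ 2 * l3 := by
    rw [hl3, hm3]
    exact rf_step (by rw [← hl3]; exact e4) (by linarith) a3.1 a3.2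
  have hRR : RR ((4 * P : ℕ) : ℝ) = X' * m ^ 3 * m3 / m2 ^ 2 := by
    unfold RR
    rw [← hX', ← hm, ← hm2, ← hm3]
  have hRS : RS2 ((4 * P : ℕ) : ℝ) = X' * m ^ 2 * m3 / m2 ^ 2 := by
    unfold RS2
    rw [← hX', ← hm, ← hm2, ← hm3]
  obtain ⟨f1, f2⟩ := rf_cmp (X := X) (l := l) (l2 := l2) (l3 := l3) (X' := X') (m := m) (m2 := m2)
    (m3 := m3) (by linarith) (by linarith) (by linarith) (by linarith) a1.2
    (by linarith) a2.2 a3.1 (by linarith) a4.2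
  rw [← hRR] at f1
  rw [← hRS] at f2
  have hRR0 : 0 ≤ RR ((4 * P : ℕ) : ℝ) := by
    rw [hRR]
    have : 0 < X' := by linarith
    have : 0 < m := by linarith
    have : 0 < m3 := by linarith
    positivity
  refine hcore P hPP0 hG X l l2 l3 hX hl hl2 hl3 ⌊RR ((4 * P : ℕ) : ℝ)⌋₊ q0 A
    ((Nat.floor_le hRR0).trans f1) hodd (Nat.le_floor hq0)
    (fun q hq => ⟨Nat.le_floor (hA q hq).1, (hA q hq).2⟩) (hS.trans ?_)
  have h1 := mul_le_mul_of_nonneg_left f2 (by positivity : 0 ≤ c / 16)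
  linarith

/-- general sets `A` at the Rankin scale -/
theorem u1rG (δ : ℝ) (hδ : 0 < δ) : ∃ c : ℝ, 0 < c ∧ ∀ N : ℕ,
    ∃ x : ℕ, N ≤ x ∧ ∀ (q0 : ℕ) (A : Finset ℕ), Odd q0 → (q0 : ℝ) ≤ RR x →
    (∀ q ∈ A, (q : ℝ) ≤ RR x ∧ q ≠ q0) →
    ∑ q ∈ A, ff (max q0 q - min q0 q) ^ 2 ≤ c * RS2 x →
    (x : ℝ) ^ (1 - δ) ≤ (((Icc 1 x).filter (fun n => q0 ≤ 2 * n ∧ (2 * n - q0).Prime ∧
      ∀ q ∈ A, q ≤ 2 * n → ¬ (2 * n - q).Prime)).card : ℝ) := by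
  obtain ⟨c, hc, h⟩ := rf_core (min δ (1 / 2)) (lt_min hδ (by norm_num)) (min_le_right _ _)
  refine ⟨c, hc, fun N => ?_⟩
  obtain ⟨x, hx, hx2⟩ := h (max N 1)
  refine ⟨x, (le_max_left _ _).trans hx, ?_⟩
  intro q0 A h1 h2 h3 h4
  refine le_trans ?_ (hx2 q0 A h1 h2 h3 h4)
  have h5 : (1 : ℝ) ≤ x := by exact_mod_cast le_trans (le_max_right _ _) hx
  exact Real.rpow_le_rpow_of_exponent_le h5 (by linarith [min_le_left δ (1 / 2)])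

private theorem rf_big2 (c : ℝ) : ∀ᶠ x : ℕ in atTop, 2 ≤ Real.log x ∧
    2 ≤ Real.log (Real.log x) ∧ 2 ≤ Real.log (Real.log (Real.log x)) ∧
    2 ≤ Real.log (Real.log (Real.log (Real.log x))) ∧ 8 / c ≤ Real.log x ∧
    16 / c ^ 2 ≤ Real.log x := by
  have h1 : Tendsto (fun P : ℕ => Real.log (P : ℝ)) atTop atTop :=
    Real.tendsto_log_atTop.comp tendsto_natCast_atTop_atTop
  have h2 := Real.tendsto_log_atTop.comp h1
  have h3 := Real.tendsto_log_atTop.comp h2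
  have h4 := Real.tendsto_log_atTop.comp h3
  filter_upwards [h1.eventually_ge_atTop 2, h2.eventually_ge_atTop 2, h3.eventually_ge_atTop 2,
    h4.eventually_ge_atTop 2, h1.eventually_ge_atTop (8 / c),
    h1.eventually_ge_atTop (16 / c ^ 2)] with P e1 e2 e3 e4 e5 e6
  exact ⟨e1, e2, e3, e4, e5, e6⟩

/-- the size of `Y = ⌊c RR x⌋` -/
private theorem rf_Y {c : ℝ} (hc : 0 < c) {x : ℕ} (e1 : 2 ≤ Real.log x)
    (e2 : 2 ≤ Real.log (Real.log x)) (e3 : 2 ≤ Real.log (Real.log (Real.log x)))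
    (e4 : 2 ≤ Real.log (Real.log (Real.log (Real.log x)))) (e5 : 8 / c ≤ Real.log x)
    (e6 : 16 / c ^ 2 ≤ Real.log x) :
    3 ≤ ⌊c * RR x⌋₊ ∧ Real.log (Real.log x) / 2 ≤ Real.log (⌊c * RR x⌋₊ : ℝ) ∧
      (⌊c * RR x⌋₊ : ℝ) ≤ c * RR x ∧ RR x = RS2 x * Real.log (Real.log x) ∧ 0 ≤ RS2 x := by
  obtain ⟨X, hX⟩ : ∃ X : ℝ, X = Real.log x := ⟨_, rfl⟩
  obtain ⟨l, hl⟩ : ∃ l : ℝ, l = Real.log X := ⟨_, rfl⟩
  obtain ⟨l2, hl2⟩ : ∃ l2 : ℝ, l2 = Real.log l := ⟨_, rfl⟩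
  obtain ⟨l3, hl3⟩ : ∃ l3 : ℝ, l3 = Real.log l2 := ⟨_, rfl⟩
  have hRR : RR x = X * l ^ 3 * l3 / l2 ^ 2 := by
    unfold RR
    rw [← hX, ← hl, ← hl2, ← hl3]
  have hRS : RS2 x = X * l ^ 2 * l3 / l2 ^ 2 := by
    unfold RS2
    rw [← hX, ← hl, ← hl2, ← hl3]
  rw [← hX] at e1 e2 e3 e4 e5 e6 ⊢
  rw [← hl] at e2 e3 e4 ⊢
  rw [← hl2] at e3 e4
  rw [← hl3] at e4
  have hX0 : 0 < X := by linarith
  have hl0 : 0 < l := by linarith
  have hl20 : 0 < l2 := by linarith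
  have hl30 : 0 < l3 := by linarith
  have hl2l : l2 ≤ l := by
    rw [hl2]
    exact Real.log_le_self hl0.le
  have hRX : X ≤ RR x := by
    rw [hRR, le_div_iff₀ (by positivity)]
    have h1 : l2 ^ 2 ≤ l ^ 2 := pow_le_pow_left₀ hl20.le hl2l 2
    have h2 : l ^ 2 ≤ l ^ 3 * l3 := by
      have h3 : l ^ 2 ≤ l ^ 3 := pow_le_pow_right₀ (by linarith) (by norm_num)
      have h4 : l ^ 3 * 1 ≤ l ^ 3 * l3 := mul_le_mul_of_nonneg_left (by linarith) (by positivity)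
      linarith
    calc X * l2 ^ 2 ≤ X * (l ^ 3 * l3) := mul_le_mul_of_nonneg_left (h1.trans h2) hX0.le
      _ = X * l ^ 3 * l3 := by ring
  have hcX : 8 ≤ c * X := by
    rw [div_le_iff₀ hc] at e5
    linarith
  have hcR : c * X ≤ c * RR x := mul_le_mul_of_nonneg_left hRX hc.le
  have hfl := Nat.lt_floor_add_one (c * RR x)
  have hY : c * X / 2 ≤ (⌊c * RR x⌋₊ : ℝ) := by linarith
  refine ⟨?_, ?_, Nat.floor_le (by linarith), ?_, ?_⟩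
  · have : (3 : ℝ) ≤ (⌊c * RR x⌋₊ : ℝ) := by linarith
    exact_mod_cast this
  · -- `c X/2 ≥ √X`
    have h1 : √X ≤ c * X / 2 := by
      rw [Real.sqrt_le_left (by positivity)]
      rw [div_le_iff₀ (by positivity)] at e6
      have h2 : (c * X / 2) ^ 2 = X * (X * c ^ 2) / 4 := by ring
      rw [h2]
      have h3 : X * 16 ≤ X * (X * c ^ 2) := mul_le_mul_of_nonneg_left e6 hX0.le
      linarith
    have h2 : Real.log (√X) ≤ Real.log (⌊c * RR x⌋₊ : ℝ) :=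
      Real.log_le_log (Real.sqrt_pos.2 hX0) (h1.trans hY)
    rw [Real.log_sqrt hX0.le, ← hl] at h2
    exact h2
  · rw [hRR, hRS]
    ring
  · rw [hRS]
    positivity

theorem mem_prx_floor {y : ℝ} {q0 q : ℕ} :
    q ∈ prx ⌊y⌋₊ q0 ↔ q.Prime ∧ (q : ℝ) ≤ y ∧ q ≠ q0 := by
  rw [mem_prx]
  constructor
  · rintro ⟨h1, h2, h3⟩
    exact ⟨h1, (Nat.le_floor_iff' h1.ne_zero).1 h2, h3⟩
  · rintro ⟨h1, h2, h3⟩
    exact ⟨h1, (Nat.le_floor_iff' h1.ne_zero).2 h2, h3⟩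

/-- the primes: every odd prime `q0 ≤ c RR x` is the only witness `≤ c RR x` for many `n ≤ x`; see `mem_prx_floor` -/
theorem u1r (δ : ℝ) (hδ : 0 < δ) : ∃ c : ℝ, 0 < c ∧ ∀ N : ℕ, ∃ x : ℕ, N ≤ x ∧
    ∀ q0 : ℕ, q0.Prime → q0 ≠ 2 → (q0 : ℝ) ≤ c * RR x →
    (x : ℝ) ^ (1 - δ) ≤ (((Icc 1 x).filter (fun n => q0 ≤ 2 * n ∧ (2 * n - q0).Prime ∧
      ∀ q ∈ prx ⌊c * RR x⌋₊ q0, q ≤ 2 * n → ¬ (2 * n - q).Prime)).card : ℝ) := by
  obtain ⟨c1, hc1, h⟩ := u1rG δ hδ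
  obtain ⟨C, hC, hav⟩ := avF
  obtain ⟨c, hc, hcc1, hcc⟩ : ∃ c : ℝ, 0 < c ∧ c ≤ 1 ∧ 2 * C * c ≤ c1 := by
    refine ⟨min 1 (c1 / (2 * C)), lt_min one_pos (by positivity), min_le_left _ _, ?_⟩
    have h1 := mul_le_mul_of_nonneg_left (min_le_right 1 (c1 / (2 * C)))
      (by positivity : 0 ≤ 2 * C)
    have h2 : 2 * C * (c1 / (2 * C)) = c1 := by field_simp
    linarith
  obtain ⟨N1, hN1⟩ := eventually_atTop.1 (rf_big2 c)
  refine ⟨c, hc, fun N => ?_⟩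
  obtain ⟨x, hx, hx2⟩ := h (max N N1)
  refine ⟨x, (le_max_left _ _).trans hx, ?_⟩
  intro q0 hq0 hq02 hq0x
  obtain ⟨e1, e2, e3, e4, e5, e6⟩ := hN1 x ((le_max_right _ _).trans hx)
  obtain ⟨g1, g2, g3, g4, g5⟩ := rf_Y hc e1 e2 e3 e4 e5 e6
  obtain ⟨Y, hY⟩ : ∃ Y : ℕ, Y = ⌊c * RR x⌋₊ := ⟨_, rfl⟩
  rw [← hY] at g1 g2 g3 ⊢
  have hq0Y : q0 ≤ Y := by
    rw [hY]
    exact Nat.le_floor hq0x
  have hRR0 : 0 ≤ RR x := by
    rw [g4]
    exact mul_nonneg g5 (by linarith)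
  have hcRR : c * RR x ≤ RR x := mul_le_of_le_one_left hRR0 hcc1
  have hsum : ∑ q ∈ prx Y q0, ff (max q0 q - min q0 q) ^ 2 ≤ c1 * RS2 x := by
    refine (hav Y q0 g1 hq0Y).trans ?_
    have h1 : (Y : ℝ) / Real.log Y ≤ 2 * c * RS2 x := by
      rw [div_le_iff₀ (by linarith)]
      calc (Y : ℝ) ≤ c * RR x := g3
        _ = 2 * c * RS2 x * (Real.log (Real.log x) / 2) := by
          rw [g4]
          ring
        _ ≤ 2 * c * RS2 x * Real.log Y := mul_le_mul_of_nonneg_left g2 (by positivity)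
    calc C * ((Y : ℝ) / Real.log Y) ≤ C * (2 * c * RS2 x) := mul_le_mul_of_nonneg_left h1 hC.le
      _ = 2 * C * c * RS2 x := by ring
      _ ≤ c1 * RS2 x := mul_le_mul_of_nonneg_right hcc g5
  exact hx2 q0 (prx Y q0) (hq0.odd_of_ne_two hq02) (hq0x.trans hcRR)
    (fun q hq => by
      rw [mem_prx] at hq
      refine ⟨?_, hq.2.2⟩
      have h1 : (q : ℝ) ≤ Y := by exact_mod_cast hq.2.1
      linarith) hsum

end Pool.Agent.UW
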