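import Mathlib
import Pool.Agent.Helper24.PairBound
import Pool.Agent.Helper24.Energy

set_option autoImplicit false

namespace Pool.Agent.UW.WC

open Filter Finset

/-- `TwinIndex q`: `q` is prime and `p_{q+2} + 2` is prime, where `p_k` is the `k`-th prime
(`p_1 = 2`); note that `Nat.nth Nat.Prime (k - 1)` is `p_k`. -/
def TwinIndex (q : ℕ) : Prop := q.Prime ∧ (Nat.nth Nat.Prime (q + 1) + 2).Prime

/-- `GoodUpTo y n`: the assertion of Q1 holds at `n` with a witness `q ≤ y`, i.e. there is a
prime `q ≤ y` such that both `2 n - q` and `p_{q+2} + 2` are prime. -/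
def GoodUpTo (y n : ℕ) : Prop := ∃ q r : ℕ, q ≤ y ∧ TwinIndex q ∧ r.Prime ∧ q + r = 2 * n

theorem nth_prime_three : Nat.nth Nat.Prime 3 = 7 := by
  have h : Nat.count Nat.Prime 7 = 3 := by decide
  have h2 := Nat.nth_count (p := Nat.Prime) (n := 7) (by norm_num)
  rwa [h] at h2

theorem not_twinIndex_two : ¬ TwinIndex 2 := by
  rintro ⟨_, h⟩
  rw [show 2 + 1 = 3 from rfl, nth_prime_three] at h
  norm_num at h

theorem TwinIndex.odd {q : ℕ} (hq : TwinIndex q) : Odd q := by
  refine hq.1.odd_of_ne_two ?_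
  rintro rfl
  exact not_twinIndex_two hq

theorem nth_prime_four : Nat.nth Nat.Prime 4 = 11 := by
  have h : Nat.count Nat.Prime 11 = 4 := by decide
  have h2 := Nat.nth_count (p := Nat.Prime) (n := 11) (by norm_num)
  rwa [h] at h2

theorem good_three {y : ℕ} (hy : 3 ≤ y) : GoodUpTo y 3 := by
  refine ⟨3, 3, hy, ⟨by norm_num, ?_⟩, by norm_num, by norm_num⟩
  rw [show 3 + 1 = 4 from rfl, nth_prime_four]
  norm_num

open Classical in
/-- for a finite set of admissible `q`, a lower bound for the number of good `n`. -/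
theorem count_core (F : Finset ℕ) (x y : ℕ) (hyx : y ≤ x) (M : ℝ) (hM0 : 0 ≤ M)
    (hF : ∀ q ∈ F, TwinIndex q ∧ q ≤ y)
    (hM : ∀ h : ℕ, h ≠ 0 → h ≤ y → Even h →
      (((Nat.primesLE x).filter (fun p => (p + h).Prime)).card : ℝ) ≤ M) :
    ((F.card : ℝ) * ((Nat.primesLE x).erase 2).card) ^ 2 ≤
      (((Icc 1 x).filter (GoodUpTo y)).card : ℝ) *
      ((F.card : ℝ) * ((Nat.primesLE x).erase 2).card + (F.card : ℝ) ^ 2 * M) := by
  set P := (Nat.primesLE x).erase 2 with hP
  have hPmem : ∀ r ∈ P, r.Prime ∧ Odd r ∧ r ≤ x := by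
    intro r hr
    rw [hP, mem_erase, Nat.mem_primesLE] at hr
    exact ⟨hr.2.2, hr.2.2.odd_of_ne_two hr.1, hr.2.1⟩
  have h1 := Pool.Agent.Helper24.card_sumset_ge F P M hM0 ?_
  · refine h1.trans ?_
    refine mul_le_mul_of_nonneg_right ?_ (by positivity)
    have h2 : ((F ×ˢ P).image (fun x => x.1 + x.2)).card ≤
        ((Icc 1 x).filter (GoodUpTo y)).card := by
      refine card_le_card_of_injOn (fun N => N / 2) ?_ ?_
      · intro N hN
        rw [mem_coe, mem_image] at hN
        obtain ⟨⟨q, r⟩, hqr, rfl⟩ := hN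
        rw [mem_product] at hqr
        obtain ⟨hq, hr⟩ := hqr
        simp only at hq hr
        obtain ⟨hq1, hq2⟩ := hF q hq
        obtain ⟨hr1, hr2, hr3⟩ := hPmem r hr
        obtain ⟨a, ha⟩ := hq1.odd
        obtain ⟨b, hb⟩ := hr2
        rw [mem_coe, mem_filter, mem_Icc]
        have e : (q + r) / 2 = a + b + 1 := by omega
        refine ⟨⟨by simp only; omega, by simp only; omega⟩, q, r, hq2, hq1, hr1, ?_⟩
        simp only [e]; omega
      · intro N hN N' hN' hNN
        rw [mem_coe, mem_image] at hN hN'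
        obtain ⟨⟨q, r⟩, hqr, rfl⟩ := hN
        obtain ⟨⟨q', r'⟩, hqr', rfl⟩ := hN'
        rw [mem_product] at hqr hqr'
        obtain ⟨a, ha⟩ := (hF q hqr.1).1.odd
        obtain ⟨b, hb⟩ := (hPmem r hqr.2).2.1
        obtain ⟨a', ha'⟩ := (hF q' hqr'.1).1.odd
        obtain ⟨b', hb'⟩ := (hPmem r' hqr'.2).2.1
        simp only at hNN ⊢
        omega
    exact_mod_cast h2
  · intro q hq q' hq' hne
    obtain ⟨hq1, hq2⟩ := hF q hq
    obtain ⟨hq1', hq2'⟩ := hF q' hq'
    obtain ⟨a, ha⟩ := hq1.odd
    obtain ⟨a', ha'⟩ := hq1'.odd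
    rcases Nat.lt_or_gt_of_ne hne with hlt | hlt
    · -- q < q', r = r' + (q' - q)
      refine le_trans ?_ (hM (q' - q) (by omega) (by omega) ⟨a' - a, by omega⟩)
      have : ((P ×ˢ P).filter (fun x => q + x.1 = q' + x.2)).card ≤
          ((Nat.primesLE x).filter (fun p => (p + (q' - q)).Prime)).card := by
        refine card_le_card_of_injOn (fun x => x.2) ?_ ?_
        · intro y hy
          rw [mem_coe, mem_filter, mem_product] at hy
          rw [mem_coe, mem_filter, Nat.mem_primesLE]
          refine ⟨⟨(hPmem _ hy.1.2).2.2, (hPmem _ hy.1.2).1⟩, ?_⟩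
          have : y.2 + (q' - q) = y.1 := by omega
          rw [this]; exact (hPmem _ hy.1.1).1
        · intro y hy z hz hyz
          rw [mem_coe, mem_filter] at hy hz
          have : y.2 = z.2 := hyz
          ext <;> omega
      exact_mod_cast this
    · refine le_trans ?_ (hM (q - q') (by omega) (by omega) ⟨a - a', by omega⟩)
      have : ((P ×ˢ P).filter (fun x => q + x.1 = q' + x.2)).card ≤
          ((Nat.primesLE x).filter (fun p => (p + (q - q')).Prime)).card := by
        refine card_le_card_of_injOn (fun x => x.1) ?_ ?_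
        · intro y hy
          rw [mem_coe, mem_filter, mem_product] at hy
          rw [mem_coe, mem_filter, Nat.mem_primesLE]
          refine ⟨⟨(hPmem _ hy.1.1).2.2, (hPmem _ hy.1.1).1⟩, ?_⟩
          have : y.1 + (q - q') = y.2 := by omega
          rw [this]; exact (hPmem _ hy.1.2).1
        · intro y hy z hz hyz
          rw [mem_coe, mem_filter] at hy hz
          have : y.1 = z.1 := hyz
          ext <;> omega
      exact_mod_cast this

open Classical in
/-- the trivial upper bound. -/
theorem upper_core (x y : ℕ) :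
    ((Icc 1 x).filter (GoodUpTo y)).card ≤
      ((Icc 1 y).filter TwinIndex).card * Nat.primeCounting (2 * x) := by
  rw [← Nat.primesLE_card_eq_primeCounting, ← card_product]
  have : (Icc 1 x).filter (GoodUpTo y) ⊆
      (((Icc 1 y).filter TwinIndex) ×ˢ Nat.primesLE (2 * x)).image
        (fun p => (p.1 + p.2) / 2) := by
    intro n hn
    rw [mem_filter, mem_Icc] at hn
    obtain ⟨⟨hn1, hn2⟩, q, r, hqy, hq, hr, hqr⟩ := hn
    rw [mem_image]
    refine ⟨(q, r), ?_, by simp only; omega⟩
    rw [mem_product, mem_filter, mem_Icc, Nat.mem_primesLE]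
    exact ⟨⟨⟨hq.1.one_lt.le, hqy⟩, hq⟩, by simp only; omega, hr⟩
  exact (card_le_card this).trans card_image_le

theorem eventually_primes_ge : ∀ᶠ x : ℕ in atTop,
    0.6 * (x / Real.log x) ≤ (((Nat.primesLE x).erase 2).card : ℝ) := by
  have hlog : Tendsto (fun x : ℕ => Real.log x) atTop atTop :=
    Real.tendsto_log_atTop.comp tendsto_natCast_atTop_atTop
  have hlittle : ∀ᶠ x : ℕ in atTop, 2 * Real.log x + 1 ≤ 0.09 * x := by
    have h1 := Real.isLittleO_log_id_atTop.bound (c := 0.04) (by norm_num)
    have h2 := (tendsto_natCast_atTop_atTop (R := ℝ)).eventually h1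
    filter_upwards [h2, hlog.eventually_ge_atTop 0, eventually_ge_atTop 100] with x h3 h4 h5
    have hx : (100 : ℝ) ≤ x := by exact_mod_cast h5
    simp only [id] at h3
    rw [Real.norm_of_nonneg h4, Real.norm_of_nonneg (by linarith)] at h3
    linarith
  filter_upwards [hlog.eventually_ge_atTop 1, hlittle, eventually_ge_atTop 2] with x h1 h2 h3
  have hx : (2 : ℝ) ≤ x := by exact_mod_cast h3
  have h4 := Chebyshev.pi_ge x
  have h5 : (Nat.primeCounting x : ℝ) ≤ (((Nat.primesLE x).erase 2).card : ℝ) + 1 := by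
    rw [← Nat.primesLE_card_eq_primeCounting]
    have := Finset.pred_card_le_card_erase (s := Nat.primesLE x) (a := 2)
    have h6 : (Nat.primesLE x).card ≤ ((Nat.primesLE x).erase 2).card + 1 := by omega
    exact_mod_cast h6
  have h6 : Real.log ((x : ℝ) + 1) ≤ Real.log x + 1 := by
    have : Real.log ((x : ℝ) + 1) ≤ Real.log (x * Real.exp 1) := by
      refine Real.log_le_log (by linarith) ?_
      have := Real.add_one_le_exp (1 : ℝ)
      nlinarith
    rwa [Real.log_mul (by linarith) (Real.exp_pos 1).ne', Real.log_exp] at this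
  have hl2 := Real.log_two_gt_d9
  have h7 : 0.6 * (x / Real.log x) + 1 ≤ ((x : ℝ) * Real.log 2 - Real.log (x + 1)) / Real.log x := by
    rw [le_div_iff₀ (by linarith), add_mul, mul_assoc, div_mul_cancel₀ _ (by linarith)]
    nlinarith
  linarith

theorem eventually_primes_le : ∀ᶠ x : ℕ in atTop,
    (Nat.primeCounting (2 * x) : ℝ) ≤ 3 * (x / Real.log x) := by
  have hlog : Tendsto (fun x : ℕ => Real.log x) atTop atTop :=
    Real.tendsto_log_atTop.comp tendsto_natCast_atTop_atTop
  have h2x : Tendsto (fun x : ℕ => ((2 * x : ℕ) : ℝ)) atTop atTop :=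
    tendsto_natCast_atTop_atTop.comp (tendsto_id.const_mul_atTop' (by norm_num))
  have hcheb := h2x.eventually (Chebyshev.eventually_primeCounting_le (ε := 0.1) (by norm_num))
  filter_upwards [hcheb, hlog.eventually_ge_atTop 1, eventually_ge_atTop 1] with x h1 h2 h3
  rw [Nat.floor_natCast] at h1
  have hx0 : (0 : ℝ) < x := by exact_mod_cast h3
  have hlog4 : Real.log 4 < 1.3863 := by
    have : Real.log 4 = 2 * Real.log 2 := by
      rw [show (4 : ℝ) = 2 ^ 2 by norm_num, Real.log_pow]; norm_num
    rw [this]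
    have := Real.log_two_lt_d9
    linarith
  have hl : Real.log x ≤ Real.log ((2 * x : ℕ) : ℝ) :=
    Real.log_le_log hx0 (by push_cast; linarith)
  refine h1.trans ?_
  have e1 : (Real.log 4 + 0.1) * ((2 * x : ℕ) : ℝ) ≤ 3 * x := by
    push_cast
    nlinarith
  calc (Real.log 4 + 0.1) * ((2 * x : ℕ) : ℝ) / Real.log ((2 * x : ℕ) : ℝ)
      ≤ 3 * x / Real.log x := by gcongr
    _ = _ := by ring

/-- an upper bound for all `x ≥ 3`. -/
theorem primes_le_all : ∃ C : ℝ, 0 < C ∧ ∀ x : ℕ, 3 ≤ x →
    (Nat.primeCounting (2 * x) : ℝ) ≤ C * (x / Real.log x) := by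
  obtain ⟨x0, hx0⟩ := eventually_atTop.1 eventually_primes_le
  refine ⟨3 + (Nat.primeCounting (2 * x0) : ℝ), by positivity, fun x hx => ?_⟩
  have hxr : (3 : ℝ) ≤ x := by exact_mod_cast hx
  have hlx : 0 < Real.log x := Real.log_pos (by linarith)
  have h1 : 1 ≤ (x : ℝ) / Real.log x := by
    rw [le_div_iff₀ hlx, one_mul]
    have := Real.log_le_sub_one_of_pos (x := (x : ℝ)) (by linarith)
    linarith
  have h0 : (0 : ℝ) ≤ Nat.primeCounting (2 * x0) := by positivity
  by_cases hxx : x0 ≤ x
  · have := hx0 x hxx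
    nlinarith
  · have h2 : (Nat.primeCounting (2 * x) : ℝ) ≤ Nat.primeCounting (2 * x0) := by
      have : Nat.primeCounting (2 * x) ≤ Nat.primeCounting (2 * x0) :=
        Nat.monotone_primeCounting (by omega)
      exact_mod_cast this
    nlinarith

open Classical in
theorem lower_bound : ∃ c : ℝ, 0 < c ∧ ∀ x y : ℕ, 3 ≤ y → y ≤ x →
    c * min (((Finset.Icc 1 y).filter TwinIndex).card : ℝ)
        (Real.log x / Real.log (Real.log y)) * (x / Real.log x) ≤
      (((Finset.Icc 1 x).filter (GoodUpTo y)).card : ℝ) := by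
  have hlog : Tendsto (fun x : ℕ => Real.log x) atTop atTop :=
    Real.tendsto_log_atTop.comp tendsto_natCast_atTop_atTop
  have hloglog : Tendsto (fun x : ℕ => Real.log (Real.log x)) atTop atTop :=
    Real.tendsto_log_atTop.comp hlog
  have hl3 : 1 < Real.log 3 := by
    rw [← Real.exp_lt_exp, Real.exp_log (by norm_num)]
    have := Real.exp_one_lt_d9
    linarith
  have hll3 : 0 < Real.log (Real.log 3) := Real.log_pos hl3
  have hlarge : ∀ᶠ x : ℕ in atTop, ∀ y : ℕ, 3 ≤ y → y ≤ x →
      1e-7 * min (((Finset.Icc 1 y).filter TwinIndex).card : ℝ)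
        (Real.log x / Real.log (Real.log y)) * (x / Real.log x) ≤
      (((Finset.Icc 1 x).filter (GoodUpTo y)).card : ℝ) := by
    filter_upwards [Pool.Agent.Helper24.eventually_card_prime_pairs_le', eventually_primes_ge,
      hlog.eventually_ge_atTop 1, eventually_ge_atTop 3] with
      x h1 h2 h3 h5 y hy hyx
    have hx : (3 : ℝ) ≤ x := by exact_mod_cast h5
    have hyr : (3 : ℝ) ≤ y := by exact_mod_cast hy
    have hly : 1 < Real.log y := hl3.trans_le (Real.log_le_log (by norm_num) hyr)
    have hlly : 0 < Real.log (Real.log y) := Real.log_pos hly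
    have hlyx : Real.log y ≤ Real.log x := Real.log_le_log (by linarith) (by exact_mod_cast hyx)
    set S := (((Finset.Icc 1 x).filter (GoodUpTo y)).card : ℝ) with hS
    set u := (x : ℝ) / Real.log x with hu
    have hu0 : 0 < u := by positivity
    set v := Real.log x / Real.log (Real.log y) with hv
    have hv1 : 1 ≤ v := by
      rw [hv, le_div_iff₀ hlly, one_mul]
      have := Real.log_le_sub_one_of_pos (x := Real.log y) (by linarith)
      linarith
    set K := ⌊v⌋₊ with hK
    have hK1 : v / 2 ≤ K := by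
      have e1 : 1 ≤ K := Nat.le_floor (by push_cast; linarith)
      have e2 : (1 : ℝ) ≤ K := by exact_mod_cast e1
      have := Nat.lt_floor_add_one v
      rw [← hK] at this
      linarith
    have hK2 : (K : ℝ) ≤ v := Nat.floor_le (by linarith)
    obtain ⟨F, hF1, hF2⟩ := Finset.exists_subset_card_eq
      (s := (Finset.Icc 1 y).filter TwinIndex)
      (n := min ((Finset.Icc 1 y).filter TwinIndex).card K) (min_le_left _ _)
    set M := 1350012 * (x * Real.log (Real.log y) / (Real.log x) ^ 2) with hM
    have hM0 : 0 ≤ M := by positivity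
    have hcore := count_core F x y hyx M hM0 (fun q hq => by
      have := hF1 hq
      rw [mem_filter, mem_Icc] at this
      exact ⟨this.2, this.1.2⟩) (h1 y hy)
    set P := (((Nat.primesLE x).erase 2).card : ℝ) with hP
    set m := (F.card : ℝ) with hm
    have hm0 : 0 ≤ m := by positivity
    have hS0 : 0 ≤ S := by positivity
    have hP0 : 0 < P := by linarith [mul_pos (by norm_num : (0 : ℝ) < 0.6) hu0]
    have hmK : m ≤ v := by
      refine le_trans ?_ hK2
      rw [hm, hF2]
      exact_mod_cast min_le_right _ _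
    have hmM : m * M ≤ 1350012 * u := by
      have e1 : v * M = 1350012 * u := by
        have a1 : Real.log x ≠ 0 := by linarith
        have a2 : Real.log (Real.log y) ≠ 0 := hlly.ne'
        rw [hv, hM, hu]
        field_simp
      calc m * M ≤ v * M := by gcongr
        _ = _ := e1
    have hmin : min (((Finset.Icc 1 y).filter TwinIndex).card : ℝ) v ≤ 2 * m := by
      rw [hm, hF2]
      push_cast
      rw [mul_min_of_nonneg _ _ (by norm_num : (0 : ℝ) ≤ 2)]
      refine min_le_min ?_ (by linarith)
      have : (0 : ℝ) ≤ (((Finset.Icc 1 y).filter TwinIndex).card : ℝ) := by positivity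
      linarith
    have hmain : 0.6 * u * m ≤ S * (2250021 : ℝ) := by
      rcases hm0.eq_or_lt with h0 | h0
      · rw [← h0]; nlinarith
      · have e1 : m * P ^ 2 ≤ S * (P + m * M) := by
          have : m * (m * P ^ 2) ≤ m * (S * (P + m * M)) := by
            calc m * (m * P ^ 2) = (m * P) ^ 2 := by ring
              _ ≤ S * (m * P + m ^ 2 * M) := hcore
              _ = _ := by ring
          exact le_of_mul_le_mul_left this h0
        have e2 : P + m * M ≤ 2250021 * P := by
          have : 1350012 * u ≤ 2250020 * P := by nlinarith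
          linarith
        have e3 : m * P ^ 2 ≤ S * (2250021 * P) := e1.trans (by gcongr)
        have e4 : m * P ≤ S * 2250021 := by
          have : P * (m * P) ≤ P * (S * 2250021) := by nlinarith
          exact le_of_mul_le_mul_left this hP0
        have e5 : 0.6 * u * m ≤ m * P := by nlinarith
        linarith
    have h9 : 1e-7 * min (((Finset.Icc 1 y).filter TwinIndex).card : ℝ) v * u ≤
        1e-7 * (2 * m) * u := by gcongr
    refine h9.trans ?_
    have h10 : 0 ≤ m * u := by positivity
    have h11 : 1e-7 * (2 * m) * u = 2e-7 * (m * u) := by ring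
    have h12 : 0.6 * u * m = 0.6 * (m * u) := by ring
    rw [h12] at hmain
    rw [h11]
    generalize m * u = t at h10 hmain
    linarith
  obtain ⟨x0, hx0⟩ := eventually_atTop.1 hlarge
  refine ⟨min 1e-7 (Real.log (Real.log 3) / (x0 + 1)), by positivity, fun x y hy hyx => ?_⟩
  have hx : 3 ≤ x := hy.trans hyx
  have hxr : (3 : ℝ) ≤ x := by exact_mod_cast hx
  have hyr : (3 : ℝ) ≤ y := by exact_mod_cast hy
  have hlx : Real.log 3 ≤ Real.log x := Real.log_le_log (by norm_num) hxr
  have hly : Real.log 3 ≤ Real.log y := Real.log_le_log (by norm_num) hyr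
  have hlly : Real.log (Real.log 3) ≤ Real.log (Real.log y) :=
    Real.log_le_log (by linarith) hly
  have hlx0 : 0 < Real.log x := by linarith
  have hlly0 : 0 < Real.log (Real.log y) := by linarith
  by_cases hxx : x0 ≤ x
  · refine le_trans ?_ (hx0 x hxx y hy hyx)
    gcongr
    exact min_le_left _ _
  · have h1 : (1 : ℝ) ≤ (((Finset.Icc 1 x).filter (GoodUpTo y)).card : ℝ) := by
      have : 0 < ((Finset.Icc 1 x).filter (GoodUpTo y)).card := by
        rw [card_pos]
        exact ⟨3, by rw [mem_filter, mem_Icc]; exact ⟨⟨by norm_num, hx⟩, good_three hy⟩⟩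
      exact_mod_cast this
    refine le_trans ?_ h1
    have hx0r : (x : ℝ) ≤ x0 + 1 := by
      have : x ≤ x0 + 1 := by omega
      exact_mod_cast this
    calc min 1e-7 (Real.log (Real.log 3) / (x0 + 1)) *
          min (((Finset.Icc 1 y).filter TwinIndex).card : ℝ)
            (Real.log x / Real.log (Real.log y)) * (x / Real.log x)
        ≤ (Real.log (Real.log 3) / (x0 + 1)) *
            (Real.log x / Real.log (Real.log y)) * (x / Real.log x) := by
          gcongr
          · exact min_le_right _ _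
          · exact min_le_right _ _
      _ = (Real.log (Real.log 3) / Real.log (Real.log y)) * (x / (x0 + 1)) := by
          field_simp
      _ ≤ 1 * 1 := by
          have a1 : Real.log (Real.log 3) / Real.log (Real.log y) ≤ 1 :=
            (div_le_one hlly0).2 hlly
          have a2 : (x : ℝ) / (x0 + 1) ≤ 1 := by
            rw [div_le_one (by positivity)]; exact hx0r
          gcongr
      _ = 1 := by norm_num

open Classical in
theorem result : ∃ c C : ℝ, 0 < c ∧ 0 < C ∧ ∀ x y : ℕ, 3 ≤ y → y ≤ x →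
    c * min (((Finset.Icc 1 y).filter TwinIndex).card : ℝ)
        (Real.log x / Real.log (Real.log y)) * (x / Real.log x) ≤
      (((Finset.Icc 1 x).filter (GoodUpTo y)).card : ℝ) ∧
    (((Finset.Icc 1 x).filter (GoodUpTo y)).card : ℝ) ≤
      C * (((Finset.Icc 1 y).filter TwinIndex).card : ℝ) * (x / Real.log x) := by
  obtain ⟨c, hc, h1⟩ := lower_bound
  obtain ⟨C, hC, h2⟩ := primes_le_all
  refine ⟨c, C, hc, hC, fun x y hy hyx => ⟨h1 x y hy hyx, ?_⟩⟩
  have h3 : (((Finset.Icc 1 x).filter (GoodUpTo y)).card : ℝ) ≤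
      (((Icc 1 y).filter TwinIndex).card : ℝ) * (Nat.primeCounting (2 * x) : ℝ) := by
    exact_mod_cast upper_core x y
  refine h3.trans ?_
  have h4 := h2 x (hy.trans hyx)
  calc (((Icc 1 y).filter TwinIndex).card : ℝ) * (Nat.primeCounting (2 * x) : ℝ)
      ≤ (((Icc 1 y).filter TwinIndex).card : ℝ) * (C * (x / Real.log x)) := by gcongr
    _ = _ := by ring

end Pool.Agent.UW.WC
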