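import Pool.Agent.REC.SsPair
import Pool.Agent.AT.Pr1

/-! UW/Cls.  Averages over the residue classes.  A class `b` modulo `M` stands for the integers `N` with
`N ≡ - b`, so that `N - q` is coprime to `M` iff `b + q` is. -/

set_option autoImplicit false

namespace Pool.Agent.UW

open Finset Pool.Agent.REC

/-- the weight `n / φ(n)` -/
noncomputable def ff (n : ℕ) : ℝ := (n : ℝ) / Nat.totient n

theorem ff_eq {n : ℕ} (hn : n ≠ 0) : ∏ p ∈ n.primeFactors, (1 - 1 / (p : ℝ))⁻¹ = ff n := by
  have h := Nat.totient_eq_mul_prod_factors n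
  have h' := congrArg (fun z : ℚ => (z : ℝ)) h
  push_cast at h'
  unfold ff
  rw [h', prod_inv_distrib]
  have hn0 : (n : ℝ) ≠ 0 := Nat.cast_ne_zero.2 hn
  simp only [one_div]
  rw [← div_div, div_self hn0, one_div]

theorem one_le_ff {n : ℕ} (hn : n ≠ 0) : 1 ≤ ff n := by
  unfold ff
  have h1 : (0 : ℝ) < Nat.totient n := by
    exact_mod_cast Nat.totient_pos.2 (Nat.pos_of_ne_zero hn)
  rw [le_div_iff₀ h1, one_mul]
  exact_mod_cast Nat.totient_le n

/-- average number of survivors over the classes in which `q0` survives.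
PLAN: exchange the sums, `pair_b` (REC/SsPair) with `j = q0`, `j' = q`, `ff_eq`. -/
theorem cls_avg (w q0 : ℕ) (A : Finset ℕ) (h : q0 ∉ A) :
    ∑ b ∈ (range (pmod w)).filter (fun b => Nat.Coprime (b + q0) (pmod w)),
      ((A.filter (fun q => Nat.Coprime (b + q) (pmod w))).card : ℝ) ≤
      pmod w * dens w ^ 2 * ∑ q ∈ A, ff (max q0 q - min q0 q) := by
  have e1 : ∑ b ∈ (range (pmod w)).filter (fun b => Nat.Coprime (b + q0) (pmod w)),
      ((A.filter (fun q => Nat.Coprime (b + q) (pmod w))).card : ℝ) =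
      ∑ q ∈ A, ((((range (pmod w)).filter (fun b => Nat.Coprime (b + q0) (pmod w) ∧
        Nat.Coprime (b + q) (pmod w))).card : ℕ) : ℝ) := by
    have e2 : ∀ b ∈ (range (pmod w)).filter (fun b => Nat.Coprime (b + q0) (pmod w)),
        ((A.filter (fun q => Nat.Coprime (b + q) (pmod w))).card : ℝ) =
        ∑ q ∈ A, if Nat.Coprime (b + q) (pmod w) then (1 : ℝ) else 0 := by
      intro b _
      rw [card_filter]
      push_cast
      rfl
    rw [sum_congr rfl e2, sum_comm]
    refine sum_congr rfl fun q _ => ?_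
    rw [← sum_filter, filter_filter, sum_const, nsmul_eq_mul, mul_one]
  rw [e1, mul_sum]
  refine sum_le_sum fun q hq => ?_
  have hne : q0 ≠ q := by
    rintro rfl
    exact h hq
  have h0 : max q0 q - min q0 q ≠ 0 := by
    rcases lt_or_gt_of_ne hne with h | h
    · rw [max_eq_right h.le, min_eq_left h.le]
      omega
    · rw [max_eq_left h.le, min_eq_right h.le]
      omega
  rw [← ff_eq h0]
  exact pair_b w q0 q hne

/-- the class of the prime `N - q0` -/
def rr (M q0 b : ℕ) : ℕ := (M - 1) * (b + q0)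

theorem rr_coprime {M q0 b : ℕ} (hM : 0 < M) (h : Nat.Coprime (b + q0) M) :
    Nat.Coprime (rr M q0 b) M := by
  unfold rr
  refine Nat.Coprime.mul_left ?_ h
  have h1 : M = (M - 1) + 1 := by omega
  rw [Nat.coprime_iff_gcd_eq_one]
  conv_lhs => rw [h1]
  simp

/-- the primes in the reduced classes, compare `av2` in AT/Av.
PLAN: a prime `m ∈ (P, 4P]` is coprime to `M`; it is counted for the class `b < M` with `b + q0 ≡ - m`. -/
theorem psi_sum {M P : ℕ} (hM0 : 0 < M) (hM : ∀ q : ℕ, q.Prime → q ∣ M → q ≤ P) (q0 : ℕ) :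
    ∑ m ∈ (Ioc P (4 * P)).filter Nat.Prime, Real.log m ≤
      ∑ b ∈ (range M).filter (fun b => Nat.Coprime (b + q0) M), AT.psi M (rr M q0 b) P := by
  classical
  have e2 : ∀ b ∈ (range M).filter (fun b => Nat.Coprime (b + q0) M),
      AT.psi M (rr M q0 b) P = ∑ m ∈ Ioc P (4 * P), if m ≡ rr M q0 b [MOD M] then
        ArithmeticFunction.vonMangoldt m else 0 := by
    intro b _
    unfold AT.psi
    rw [sum_filter]
  rw [sum_congr rfl e2, sum_comm, sum_filter]
  refine sum_le_sum fun m hm => ?_
  have hnn : ∀ b ∈ (range M).filter (fun b => Nat.Coprime (b + q0) M),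
      0 ≤ (if m ≡ rr M q0 b [MOD M] then ArithmeticFunction.vonMangoldt m else 0) := by
    intro b _
    split_ifs
    · exact ArithmeticFunction.vonMangoldt_nonneg
    · exact le_rfl
  by_cases hp : m.Prime
  · rw [if_pos hp]
    rw [mem_Ioc] at hm
    have hcopm : Nat.Coprime m M := by
      refine (Nat.Prime.coprime_iff_not_dvd hp).2 fun hd => ?_
      have := hM m hp hd
      omega
    -- the class b with b + q0 = (M - 1) m
    have hMq : q0 ≤ M * q0 := Nat.le_mul_of_pos_left q0 hM0
    set c : ℕ := ((M - 1) * m + M * q0 - q0) % M with hc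
    have hcM : c < M := Nat.mod_lt _ hM0
    have hmod : c + q0 ≡ (M - 1) * m [MOD M] := by
      have h1 : c + q0 ≡ ((M - 1) * m + M * q0 - q0) + q0 [MOD M] :=
        (Nat.mod_modEq _ _).add_right q0
      have h2 : ((M - 1) * m + M * q0 - q0) + q0 = (M - 1) * m + M * q0 := by omega
      rw [h2] at h1
      have h3 : (M - 1) * m + M * q0 ≡ (M - 1) * m [MOD M] := by
        unfold Nat.ModEq
        rw [Nat.add_mul_mod_self_left]
      exact h1.trans h3
    have hM1 : Nat.Coprime (M - 1) M := by
      have h1 : M = (M - 1) + 1 := by omega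
      rw [Nat.coprime_iff_gcd_eq_one]
      conv_lhs => rw [h1]
      simp
    have hcop : Nat.Coprime (c + q0) M := by
      have h4 := hmod.gcd_eq
      unfold Nat.Coprime
      rw [h4]
      exact Nat.Coprime.mul_left hM1 hcopm
    have hsq : (M - 1) * ((M - 1) * m) ≡ m [MOD M] := by
      have h1 : (M - 1) * ((M - 1) * m) + M * (2 * m) = m + M * (M * m) := by
        obtain ⟨k, rfl⟩ : ∃ k, M = k + 1 := ⟨M - 1, by omega⟩
        simp only [Nat.add_sub_cancel]
        ring
      have h2 : (M - 1) * ((M - 1) * m) ≡ (M - 1) * ((M - 1) * m) + M * (2 * m) [MOD M] := by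
        unfold Nat.ModEq
        rw [Nat.add_mul_mod_self_left]
      have h3 : m + M * (M * m) ≡ m [MOD M] := by
        unfold Nat.ModEq
        rw [Nat.add_mul_mod_self_left]
      rw [h1] at h2
      exact h2.trans h3
    have hmr : m ≡ rr M q0 c [MOD M] := by
      unfold rr
      exact (hsq.symm).trans ((hmod.mul_left (M - 1)).symm)
    have h5 := single_le_sum hnn (mem_filter.2 ⟨mem_range.2 hcM, hcop⟩)
    rw [if_pos hmr] at h5
    exact (ArithmeticFunction.vonMangoldt_apply_prime hp).symm.le.trans h5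
  · rw [if_neg hp]
    exact sum_nonneg hnn

end Pool.Agent.UW
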