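import Pool.Agent.UW.Core
import Pool.Agent.UW.Cls

/-! UW/App.  `core` applied to the integers `N = m + q0`, `m ≡ rr M q0 b` prime: `N ≡ - b` modulo `M`.

PLAN.  `B = insert q0 R`, `R = image of J` in the integers, `J = {q ∈ A : q ≤ 4P + q0, (b + q, M) = 1}`, `a0 = q0`.
`Exc` = the `m` for which some `q ∈ A` has `q ≤ m + q0 ≤ q + 2^d`: at most `2^d (2^d + 1) ≤ 2^(3d)`.  Let `m` be one of the
primes counted by `core`, `n = (m + q0)/2` (`m` and `q0` are odd).  Let `q ∈ A`, `q ≤ 2n`.  Then `2n - q > 2^d`.  If `q ∈ J`, some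
prime `≤ 2^d` divides `2n - q`.  If not, a prime `p ∣ M` divides `b + q` (`q ≤ 2n ≤ 4P + q0`), so
`2n - q = m + q0 - q ≡ -(b + q0) + q0 - q ≡ 0` modulo `p`, and `p ≤ 2^d`.  In both cases `2n - q` is not prime. -/

set_option autoImplicit false

namespace Pool.Agent.UW

open Finset Pool.Agent.RS

/-- the integers too close to an element of `A` -/
private def ex (d q0 : ℕ) (A : Finset ℕ) : Finset ℕ :=
  (A ×ˢ range (2 ^ d + 1)).image (fun x => x.1 + x.2 - q0)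

private theorem ex_card {d q0 : ℕ} {A : Finset ℕ} (hd : 1 ≤ d) (hA : A.card ≤ 2 ^ d) :
    (ex d q0 A).card ≤ 2 ^ (3 * d) := by
  have h1 : 2 ≤ 2 ^ d := by
    calc 2 = 2 ^ 1 := by norm_num
      _ ≤ 2 ^ d := Nat.pow_le_pow_right (by norm_num) hd
  have h2 : 2 ^ (3 * d) = 2 ^ d * (2 ^ d * 2 ^ d) := by
    rw [← pow_add, ← pow_add]
    congr 1
    ring
  have h3 : 2 ^ d + 1 ≤ 2 ^ d * 2 ^ d := by nlinarith
  calc (ex d q0 A).card ≤ (A ×ˢ range (2 ^ d + 1)).card := card_image_le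
    _ = A.card * (2 ^ d + 1) := by rw [card_product, card_range]
    _ ≤ 2 ^ d * (2 ^ d * 2 ^ d) := Nat.mul_le_mul hA h3
    _ = 2 ^ (3 * d) := h2.symm

private theorem ex_far {d q0 : ℕ} {A : Finset ℕ} {m q : ℕ} (hm : m ∉ ex d q0 A) (hq : q ∈ A)
    (h : q ≤ m + q0) : 2 ^ d < m + q0 - q := by
  by_contra hc
  push Not at hc
  refine hm (mem_image.2 ⟨(q, m + q0 - q), mem_product.2 ⟨hq, mem_range.2 ?_⟩, ?_⟩)
  · show m + q0 - q < 2 ^ d + 1
    omega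
  · show q + (m + q0 - q) - q0 = m
    omega

private theorem not_pr {p k : ℕ} (hp : p.Prime) (h1 : p ∣ k) (h2 : p < k) : ¬ k.Prime := by
  intro hk
  rcases (Nat.dvd_prime hk).1 h1 with h | h
  · exact hp.one_lt.ne' h
  · omega

private theorem dvd_of_cls {M q0 b m q p : ℕ} (hM : 0 < M) (hm : m ≡ rr M q0 b [MOD M]) (hpM : p ∣ M)
    (hpq : p ∣ b + q) (h : q ≤ m + q0) : p ∣ m + q0 - q := by
  have h1 : m ≡ rr M q0 b [MOD p] := hm.of_dvd hpM
  have h2 : m + (b + q0) ≡ rr M q0 b + (b + q0) [MOD p] := h1.add_right _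
  have h3 : rr M q0 b + (b + q0) = M * (b + q0) := by
    unfold rr
    obtain ⟨k, rfl⟩ : ∃ k, M = k + 1 := ⟨M - 1, by omega⟩
    rw [Nat.add_sub_cancel]
    ring
  have h4 : p ∣ rr M q0 b + (b + q0) := by
    rw [h3]
    exact Dvd.dvd.mul_right hpM _
  have h5 : p ∣ m + (b + q0) := (h2.dvd_iff dvd_rfl).2 h4
  have h6 : m + (b + q0) = (b + q) + (m + q0 - q) := by omega
  rw [h6] at h5
  exact (Nat.dvd_add_right hpq).1 h5

theorem app : ∃ P0 : ℕ, ∀ P : ℕ, P0 ≤ P → ∀ (L d M q0 b : ℕ) (A : Finset ℕ),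
    2 ^ L ≤ 16 * P → 4 * P + q0 ≤ 2 ^ L → L ^ 3 ≤ d ^ 4 → 10000 * d ≤ L → 0 < M →
    (∀ q : ℕ, q.Prime → q ∣ M → q ≤ 2 ^ d ∧ q ≤ L ^ 6) → M ≤ 2 ^ d → Odd q0 → q0 ∉ A → A.card ≤ 2 ^ d →
    Nat.Coprime (b + q0) M →
    ((A.filter (fun q => q ≤ 4 * P + q0 ∧ Nat.Coprime (b + q) M)).card : ℝ) ≤ c0 * d →
    (P : ℝ) / M ≤ AT.psi M (rr M q0 b) P →
    ((P : ℝ) / M) / (L * 2 ^ (5 * d)) ≤
      (((Icc 1 (2 * P + q0)).filter (fun n => 2 * n ≤ 4 * P + q0 ∧ q0 ≤ 2 * n ∧ (2 * n - q0).Prime ∧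
        ∀ q ∈ A, q ≤ 2 * n → ¬ (2 * n - q).Prime)).card : ℝ) := by
  classical
  obtain ⟨P1, hcore⟩ := core
  refine ⟨max P1 4, fun P hP L d M q0 b A hL1 hL2 hLd hdL hM0 hM hMd hq0 hq0A hAc hcop hJ hpsi => ?_⟩
  have hP1 : P1 ≤ P := (le_max_left _ _).trans hP
  have hP4 : 4 ≤ P := (le_max_right _ _).trans hP
  have hL4 : 4 ≤ L := by
    have h1 : 2 ^ 4 ≤ 2 ^ L := by omega
    exact (Nat.pow_le_pow_iff_right (by norm_num)).1 h1
  have hd1 : 1 ≤ d := by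
    rcases Nat.eq_zero_or_pos d with h | h
    · exfalso
      rw [h] at hLd
      have h1 : 0 < L ^ 3 := by positivity
      omega
    · exact h
  obtain ⟨J, hJdef⟩ : ∃ J : Finset ℕ,
      J = A.filter (fun q => q ≤ 4 * P + q0 ∧ Nat.Coprime (b + q) M) := ⟨_, rfl⟩
  have hJm : ∀ q, q ∈ J ↔ q ∈ A ∧ q ≤ 4 * P + q0 ∧ Nat.Coprime (b + q) M := fun q => by
    rw [hJdef, mem_filter]
  rw [← hJdef] at hJ
  obtain ⟨R, hRdef⟩ : ∃ R : Finset ℤ, R = J.image (fun q : ℕ => (q : ℤ)) := ⟨_, rfl⟩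
  have hRm : ∀ z : ℤ, z ∈ R ↔ ∃ q ∈ J, (q : ℤ) = z := fun z => by rw [hRdef, mem_image]
  have hRc : R.card = J.card := by
    rw [hRdef]
    exact card_image_of_injective _ Nat.cast_injective
  have hc0 : c0 ≤ 1 := by
    unfold c0
    have h1 : Real.exp (-9) ≤ 1 := Real.exp_le_one_iff.2 (by norm_num)
    rw [div_le_one (by norm_num)]
    linarith
  have hadm : Adm P L d M (insert (q0 : ℤ) R) R := by
    refine ⟨hL1, by omega, hLd, hdL, hM0, ?_, hMd, ?_, ?_, subset_insert _ _, by rw [hRc]; exact hJ⟩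
    · intro q hq hLq
      refine ((Nat.Prime.coprime_iff_not_dvd hq).2 fun h => ?_).symm
      have := (hM q hq h).2
      omega
    · intro z hz
      rcases mem_insert.1 hz with h | h
      · rw [h, abs_of_nonneg (Nat.cast_nonneg _)]
        have : q0 ≤ 2 ^ L := by omega
        exact_mod_cast this
      · obtain ⟨q, hq, rfl⟩ := (hRm z).1 h
        have h1 := ((hJm q).1 hq).2.1
        rw [abs_of_nonneg (Nat.cast_nonneg _)]
        have : q ≤ 2 ^ L := by omega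
        exact_mod_cast this
    · have h1 : (insert (q0 : ℤ) R).card ≤ R.card + 1 := card_insert_le _ _
      have h2 : (R.card : ℝ) ≤ d := by
        rw [hRc]
        have : c0 * (d : ℝ) ≤ 1 * d := mul_le_mul_of_nonneg_right hc0 (Nat.cast_nonneg _)
        linarith
      have h3 : R.card ≤ d := by exact_mod_cast h2
      omega
  have hq0R : (q0 : ℤ) ∉ R := by
    intro h
    obtain ⟨q, hq, h1⟩ := (hRm _).1 h
    have h2 : q = q0 := by exact_mod_cast h1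
    rw [h2] at hq
    exact hq0A ((hJm q0).1 hq).1
  have hmain := hcore P hP1 L d M (insert (q0 : ℤ) R) R hadm (q0 : ℤ) (rr M q0 b)
    (mem_insert_self _ _) hq0R (rr_coprime hM0 hcop) hpsi (ex d q0 A) (ex_card hd1 hAc)
  refine hmain.trans ?_
  have hcard : ((Ioc P (4 * P)).filter (fun m : ℕ => (m ≡ rr M q0 b [MOD M] ∧ m.Prime) ∧
        m ∉ ex d q0 A ∧
        ∀ b ∈ R, ∃ q : ℕ, q.Prime ∧ q ≤ 2 ^ d ∧ (q : ℤ) ∣ (m : ℤ) + q0 - b)).card ≤
      ((Icc 1 (2 * P + q0)).filter (fun n => 2 * n ≤ 4 * P + q0 ∧ q0 ≤ 2 * n ∧ (2 * n - q0).Prime ∧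
        ∀ q ∈ A, q ≤ 2 * n → ¬ (2 * n - q).Prime)).card := by
    have hev : ∀ m : ℕ, P < m → m.Prime → 2 * ((m + q0) / 2) = m + q0 := by
      intro m hm hmp
      have h1 : Odd m := hmp.odd_of_ne_two (by omega)
      have h2 : Even (m + q0) := h1.add_odd hq0
      exact Nat.two_mul_div_two_of_even h2
    refine card_le_card_of_injOn (fun m => (m + q0) / 2) ?_ ?_
    · intro m hm
      rw [mem_coe, mem_filter, mem_Ioc] at hm
      obtain ⟨⟨hm1, hm2⟩, ⟨hmr, hmp⟩, hmx, hmR⟩ := hm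
      have h2n := hev m hm1 hmp
      rw [mem_coe, mem_filter, mem_Icc]
      show (1 ≤ (m + q0) / 2 ∧ (m + q0) / 2 ≤ 2 * P + q0) ∧ 2 * ((m + q0) / 2) ≤ 4 * P + q0 ∧
        q0 ≤ 2 * ((m + q0) / 2) ∧ (2 * ((m + q0) / 2) - q0).Prime ∧
        ∀ q ∈ A, q ≤ 2 * ((m + q0) / 2) → ¬ (2 * ((m + q0) / 2) - q).Prime
      refine ⟨⟨by omega, by omega⟩, by omega, by omega, ?_, ?_⟩
      · rw [h2n, Nat.add_sub_cancel]
        exact hmp
      · rw [h2n]
        intro q hqA hq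
        have hfar := ex_far hmx hqA hq
        by_cases hc : Nat.Coprime (b + q) M
        · have hqJ : q ∈ J := (hJm q).2 ⟨hqA, by omega, hc⟩
          obtain ⟨p, hp, hpd, hpdvd⟩ := hmR (q : ℤ) ((hRm _).2 ⟨q, hqJ, rfl⟩)
          have h3 : ((m + q0 - q : ℕ) : ℤ) = (m : ℤ) + q0 - q := by
            rw [Nat.cast_sub hq, Nat.cast_add]
          have h4 : p ∣ m + q0 - q := by
            rw [← h3] at hpdvd
            exact_mod_cast hpdvd
          exact not_pr hp h4 (by omega)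
        · obtain ⟨p, hp, hp1, hp2⟩ := Nat.Prime.not_coprime_iff_dvd.1 hc
          have h3 := (hM p hp hp2).1
          exact not_pr hp (dvd_of_cls hM0 hmr hp2 hp1 hq) (by omega)
    · intro m hm m' hm' h
      rw [mem_coe, mem_filter, mem_Ioc] at hm hm'
      have h1 := hev m hm.1.1 hm.2.1.2
      have h2 := hev m' hm'.1.1 hm'.2.1.2
      have h3 : (m + q0) / 2 = (m' + q0) / 2 := h
      omega
  exact_mod_cast hcard

end Pool.Agent.UW
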