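import Pool.Agent.UW.Sz
import Pool.Agent.UW.ParB
import Pool.Agent.AT.Bad

/-! UW/E3.  The killed elements (adaptation of `AT/E3`). -/

set_option autoImplicit false

namespace Pool.Agent.UW

open Finset Pool.Agent.RS

private theorem e3_pow {L d : ℕ} (hL : 10 ^ 4 ≤ L) (hd : 10000 * d ≤ L) :
    16 * L ^ 3 * 2 ^ (6 * d) ≤ 2 ^ (L - 4 - d) := by
  have h1 : L / 64 + 1 ≤ 2 ^ (L / 64) := Nat.lt_two_pow_self
  have h2 : L ≤ 64 * 2 ^ (L / 64) := by omega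
  have h3 : L ^ 3 ≤ (64 * 2 ^ (L / 64)) ^ 3 := Nat.pow_le_pow_left h2 3
  have h4 : 16 * (64 * 2 ^ (L / 64)) ^ 3 * 2 ^ (6 * d) = 2 ^ (22 + 3 * (L / 64) + 6 * d) := by
    rw [mul_pow, ← pow_mul, pow_add, pow_add, mul_comm (L / 64) 3]
    norm_num
    ring
  have h5 : 22 + 3 * (L / 64) + 6 * d ≤ L - 4 - d := by omega
  calc 16 * L ^ 3 * 2 ^ (6 * d) ≤ 16 * (64 * 2 ^ (L / 64)) ^ 3 * 2 ^ (6 * d) := by
        gcongr
    _ = 2 ^ (22 + 3 * (L / 64) + 6 * d) := h4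
    _ ≤ 2 ^ (L - 4 - d) := Nat.pow_le_pow_right (by norm_num) h5

private theorem e3_num {L X Z k T D6 : ℝ} (hL : 100 ≤ L) (hX : 16 * L ^ 3 * D6 ≤ X) (hX1 : 1 ≤ X)
    (hZ : 1 ≤ Z) (hk : k ≤ L) (hT : T ≤ 5 * X) (hD : 0 ≤ D6) (hT0 : 0 ≤ T) :
    k * (6 / 5 * (T * (((1 / L ^ 4) ^ 2 + 1 / L ^ 4) * Z)) + 8 * D6) ≤ X / L ^ 2 * Z := by
  have hL0 : 0 < L := by linarith
  have h1 : (1 / L ^ 4) ^ 2 + 1 / L ^ 4 ≤ 2 / L ^ 4 := by
    have h2 : 1 / L ^ 4 ≤ 1 := by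
      rw [div_le_one (by positivity)]
      exact one_le_pow₀ (by linarith)
    have h3 : 0 ≤ 1 / L ^ 4 := by positivity
    have h4 : 2 / L ^ 4 = 1 / L ^ 4 + 1 / L ^ 4 := by ring
    rw [h4]
    nlinarith
  have h5 : 6 / 5 * (T * (((1 / L ^ 4) ^ 2 + 1 / L ^ 4) * Z)) ≤
      6 / 5 * (5 * X * (2 / L ^ 4 * Z)) := by
    gcongr
  have h6 : 6 / 5 * (5 * X * (2 / L ^ 4 * Z)) ≤ X * Z / (2 * L ^ 3) := by
    have h7 : 6 / 5 * (5 * X * (2 / L ^ 4 * Z)) = X * Z * (12 / L ^ 4) := by ring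
    have h8 : X * Z / (2 * L ^ 3) = X * Z * (1 / (2 * L ^ 3)) := by ring
    rw [h7, h8]
    apply mul_le_mul_of_nonneg_left _ (by positivity)
    rw [div_le_div_iff₀ (by positivity) (by positivity)]
    have h9 : L ^ 4 = L * L ^ 3 := by ring
    rw [h9]
    have h11 : 0 ≤ L ^ 3 := by positivity
    nlinarith
  have h12 : 8 * D6 ≤ X * Z / (2 * L ^ 3) := by
    rw [le_div_iff₀ (by positivity)]
    nlinarith
  have h13 : 0 ≤ 6 / 5 * (T * (((1 / L ^ 4) ^ 2 + 1 / L ^ 4) * Z)) + 8 * D6 := by positivity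
  calc k * (6 / 5 * (T * (((1 / L ^ 4) ^ 2 + 1 / L ^ 4) * Z)) + 8 * D6)
      ≤ L * (X * Z / (2 * L ^ 3) + X * Z / (2 * L ^ 3)) :=
        mul_le_mul hk (by linarith) h13 hL0.le
    _ = X / L ^ 2 * Z := by
        field_simp
        ring

theorem E3 : SE3 := by
  classical
  obtain ⟨L1, h1⟩ := H1_ge
  obtain ⟨L2, h2⟩ := tail_x
  obtain ⟨L3, h3⟩ := cc_x
  refine ⟨2 ^ (L1 + L2 + L3 + 10 ^ 4), fun P hP L d M B R hA n0 T hT5 => ?_⟩
  have hL : L1 + L2 + L3 + 10 ^ 4 ≤ L := hA.L_ge hP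
  clear hP
  have hL4 : 10 ^ 4 ≤ L := by omega
  have hLr : (10000 : ℝ) ≤ L := by exact_mod_cast hL4
  have hk0 : (R.card : ℝ) ≤ L := hA.k_le
  have hcard : (Fintype.card {b : ℤ // b ∈ R} : ℝ) = R.card := by
    rw [Fintype.card_coe]
  have hMX : 16 * (L : ℝ) ^ 3 * (2 ^ d) ^ 6 ≤ (P : ℝ) / M := by
    refine le_trans ?_ (hA.PM (by omega))
    have h4 := e3_pow hL4 hA.hdL
    have h5 : ((16 * L ^ 3 * 2 ^ (6 * d) : ℕ) : ℝ) ≤ ((2 ^ (L - 4 - d) : ℕ) : ℝ) := by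
      exact_mod_cast h4
    push_cast at h5
    rw [← pow_mul, mul_comm d 6]
    exact h5
  have hD1 : (1 : ℝ) ≤ 2 ^ d := one_le_pow₀ (by norm_num)
  have hX1 : (1 : ℝ) ≤ (P : ℝ) / M := by
    refine le_trans ?_ hMX
    have h4 : (1 : ℝ) ≤ (2 ^ d) ^ 6 := one_le_pow₀ hD1
    have h5 : (1 : ℝ) ≤ (L : ℝ) ^ 3 := one_le_pow₀ (by linarith)
    nlinarith
  obtain ⟨hs1, hH1, hH2⟩ := h1 L d (by omega) hA.hLd B hA.hB hA.hBc
  have hH0 : 0 < H1 (px L d B) (2 ^ sx L d) := lt_of_lt_of_le (by positivity) hH1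
  have hp2 : ∀ i, 2 ≤ px L d B i := fun i => (px_prime i).two_le
  have hsub : ∀ i : Ix L d B, (1 : ℝ) ≤ (px L d B i : ℝ) - 1 := by
    intro i
    have : (2 : ℝ) ≤ px L d B i := by exact_mod_cast hp2 i
    linarith
  have hbad := AT.bad_bound (κ := {b : ℤ // b ∈ R}) (p := px L d B) (M := M) hp2
    (fun i j h => px_coprime i j h) (fun i => hA.hM _ (px_prime i) (px_gt i)) n0 (ax R)
    (fun i j j' h => px_not_dvd i (hA.hR j.2) (hA.hR j'.2) (fun h' => h (Subtype.ext h')))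
    (by
      have h4 := px_sum_sq (L := L) (d := d) (B := B) (by omega)
      have h5 : ∀ i ∈ (univ : Finset (Ix L d B)),
          (Fintype.card {b : ℤ // b ∈ R} : ℝ) / (px L d B i : ℝ) ^ 2 ≤
            L * (1 / ((px L d B i : ℝ) - 1) ^ 2) := by
        intro i _
        have h6 := hsub i
        rw [hcard, mul_one_div]
        have h7 : ((px L d B i : ℝ) - 1) ^ 2 ≤ (px L d B i : ℝ) ^ 2 := by nlinarith
        exact div_le_div₀ (by positivity) hk0 (by positivity) h7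
      refine (sum_le_sum h5).trans ?_
      rw [← mul_sum]
      have h8 : (L : ℝ) * ∑ i : Ix L d B, 1 / ((px L d B i : ℝ) - 1) ^ 2 ≤ L * (1 / (L : ℝ) ^ 5) :=
        mul_le_mul_of_nonneg_left h4 (by positivity)
      refine h8.trans ?_
      have h9 : (L : ℝ) * (1 / (L : ℝ) ^ 5) = 1 / (L : ℝ) ^ 4 := by
        field_simp
      rw [h9]
      exact one_div_le_one_div_of_le (by norm_num) (by
        have : (1 : ℝ) ≤ (L : ℝ) ^ 3 := one_le_pow₀ (by linarith)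
        nlinarith))
    (D := 2 ^ d) (D2 := 2 ^ d / 2 ^ sx L d) (δ := 1 / (L : ℝ) ^ 4) (τ := 1 / (L : ℝ) ^ 4) hD1
    (by
      intro S hS
      have h4 := px_sum (L := L) (by omega) S (hS.trans (pow_le_pow_right₀ (by norm_num) hA.d_le))
      have h5 : ∀ i ∈ S, (Fintype.card {b : ℤ // b ∈ R} : ℝ) / ((px L d B i : ℝ) - 1) ≤
            L * (1 / ((px L d B i : ℝ) - 1)) := by
        intro i _
        have h6 := hsub i
        rw [hcard, mul_one_div]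
        exact div_le_div_of_nonneg_right hk0 (by linarith)
      refine (sum_le_sum h5).trans ?_
      rw [← mul_sum]
      have h8 : (L : ℝ) * ∑ i ∈ S, 1 / ((px L d B i : ℝ) - 1) ≤ L * (1 / (L : ℝ) ^ 5) :=
        mul_le_mul_of_nonneg_left h4 (by positivity)
      refine h8.trans ?_
      have h9 : (L : ℝ) * (1 / (L : ℝ) ^ 5) = 1 / (L : ℝ) ^ 4 := by
        field_simp
      rw [h9]
      exact one_div_le_one_div_of_le (by norm_num) (by
        have : (1 : ℝ) ≤ (L : ℝ) ^ 3 := one_le_pow₀ (by linarith)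
        nlinarith))
    (yx L d B) (wt_empty _ _) (fun S => wt_abs hp2 hH2 S) (fun U => cc_wt_abs hp2 hH0 U)
    (fun U hU => h3 L d (by omega) hA.hLd hA.d_le B hA.hB hA.hBc U hU)
    (h2 L d (by omega) hA.hLd B hA.hB hA.hBc R hA.hk) T
  have hZ1 := Zx_one_le L d B R
  have hnum := e3_num (L := L) (X := (P : ℝ) / M) (Z := Zx L d B R) (k := (R.card : ℝ)) (T := T)
    (D6 := (2 ^ d) ^ 6) (by linarith) hMX hX1 hZ1 hk0 hT5 (by positivity) (by positivity)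
  refine le_trans ?_ hnum
  rw [hcard] at hbad
  refine le_trans (le_of_eq ?_) hbad
  apply sum_congr
  · ext t
    simp only [mem_filter]
    rfl
  · intro t _
    rfl

end Pool.Agent.UW
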