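import Pool.Agent.UW.E1
import Pool.Agent.UW.E3
import Pool.Agent.AT.Prog

/-! UW/Core.  One residue class: many primes `m` for which every `m + a0 - b`, `b ∈ R`, has a prime factor `≤ 2 ^ d`.
The sum of `log m * g (m + a0)^2` over the primes `m` of the class is large (`E1`); the `m` with some
`m + a0 - b` free of the primes `px i` (`E3`, `prog`) and the `m ∈ Exc` (`weight_sup`) contribute little. -/

set_option autoImplicit false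

namespace Pool.Agent.UW

open Finset Pool.Agent.RS

private theorem core_pow {L d : ℕ} (hd : 1 ≤ d) (hLd : L ^ 3 ≤ d ^ 4) (hdL : 10000 * d ≤ L) :
    40 * L * 2 ^ (7 * d) ≤ 2 ^ (L - 4 - d) := by
  have hL1 : 1 ≤ L := by omega
  have h1 : L ≤ 2 ^ (4 * d) := by
    calc L = L ^ 1 := (pow_one L).symm
      _ ≤ L ^ 3 := Nat.pow_le_pow_right hL1 (by norm_num)
      _ ≤ d ^ 4 := hLd
      _ ≤ (2 ^ d) ^ 4 := Nat.pow_le_pow_left Nat.lt_two_pow_self.le 4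
      _ = 2 ^ (4 * d) := by rw [← pow_mul, mul_comm]
  calc 40 * L * 2 ^ (7 * d) ≤ 2 ^ 6 * 2 ^ (4 * d) * 2 ^ (7 * d) := by
        gcongr
        norm_num
    _ = 2 ^ (6 + 4 * d + 7 * d) := by rw [pow_add, pow_add]
    _ ≤ 2 ^ (L - 4 - d) := Nat.pow_le_pow_right (by norm_num) (by omega)

/-- the final numerical estimate -/
private theorem core_num {x Z L D k : ℝ} (hx : 0 < x) (hZ : 1 ≤ Z) (hL : 100 ≤ L)
    (hD : 16 ≤ D) (hxD : 40 * L * D ^ 7 ≤ x)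
    (h1 : Z * x * (4 / 5) - Z * x / L ≤
      L * (x / L ^ 2 * Z + D ^ 3 * (2 * D ^ 2) ^ 2 + k * (2 * D ^ 2) ^ 2)) :
    x / (L * D ^ 5) ≤ k := by
  have hL0 : 0 < L := by linarith
  have hD0 : 0 < D := by linarith
  have hZx : x ≤ Z * x := by nlinarith
  have e1 : L * (x / L ^ 2 * Z + D ^ 3 * (2 * D ^ 2) ^ 2 + k * (2 * D ^ 2) ^ 2) =
      Z * x / L + 4 * L * D ^ 7 + 4 * L * D ^ 4 * k := by
    field_simp
    ring
  rw [e1] at h1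
  have e2 : Z * x / L ≤ Z * x / 100 := by
    apply div_le_div_of_nonneg_left (by linarith) (by norm_num) hL
  have h2 : x * (1 / 2) ≤ 4 * L * D ^ 4 * k := by nlinarith
  rw [div_le_iff₀ (by positivity)]
  have h3 : 0 ≤ L * D ^ 4 * k := by nlinarith
  calc x ≤ 8 * (L * D ^ 4 * k) := by linarith
    _ ≤ D * (L * D ^ 4 * k) := mul_le_mul_of_nonneg_right (by linarith) h3
    _ = k * (L * D ^ 5) := by ring

private theorem core_mem {p : ℕ → Prop} {inst : DecidablePred p} {s : Finset ℕ} {a : ℕ} :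
    a ∈ @Finset.filter ℕ p inst s ↔ a ∈ s ∧ p a := @Finset.mem_filter ℕ p inst s a

open Classical in
/-- the killed elements of the class -/
private theorem core_bad {P L d M : ℕ} {B R : Finset ℤ} (hA : Adm P L d M B R)
    (h3 : ∀ (n0 : ℤ) (T : ℕ), (T : ℝ) ≤ 5 * ((P : ℝ) / M) →
      ∑ t ∈ (range T).filter (fun t : ℕ => ∃ b : {b : ℤ // b ∈ R},
        ∀ i, ¬ (px L d B i : ℤ) ∣ n0 + M * (t : ℤ) - b),
        gx L d B R (n0 + M * (t : ℤ)) ^ 2 ≤ ((P : ℝ) / M) / (L : ℝ) ^ 2 * Zx L d B R)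
    (hx : 1 ≤ (P : ℝ) / M) (a0 : ℤ) (r : ℕ) :
    ∃ Bd : Finset ℕ, (∀ m : ℕ, m ∈ Bd ↔ ((P < m ∧ m ≤ 4 * P) ∧ m ≡ r [MOD M]) ∧
        ∃ b : {b : ℤ // b ∈ R}, ∀ i, ¬ (px L d B i : ℤ) ∣ (m : ℤ) + a0 - b) ∧
      ∑ m ∈ Bd, gx L d B R ((m : ℤ) + a0) ^ 2 ≤ ((P : ℝ) / M) / (L : ℝ) ^ 2 * Zx L d B R := by
  obtain ⟨n0, T, hT, hp⟩ := AT.prog hA.hM0 (Nat.zero_le P) r
  have h5 := hp (fun n => gx L d B R (n + a0) ^ 2)
    (fun n => ∃ b : {b : ℤ // b ∈ R}, ∀ i, ¬ (px L d B i : ℤ) ∣ n + a0 - b)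
    (fun n => sq_nonneg _)
  have h6 := h3 (n0 + a0) T (by
    have : 4 * (P : ℝ) / M = 4 * ((P : ℝ) / M) := by ring
    linarith)
  refine ⟨_, fun m => ?_, h5.trans ?_⟩
  · unfold AT.Nw
    rw [core_mem, core_mem, mem_Ioc, Nat.sub_zero]
  · refine le_trans (le_of_eq ?_) h6
    have e : ∀ t : ℕ, n0 + M * (t : ℤ) + a0 = n0 + a0 + M * (t : ℤ) := fun t => by ring
    simp only [e]

/-- a sum over a set covered by three sets -/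
private theorem core_sum {S A B C : Finset ℕ} {f : ℕ → ℝ} (hf : ∀ m, 0 ≤ f m)
    (h : ∀ m ∈ S, m ∈ A ∨ m ∈ B ∨ m ∈ C) :
    ∑ m ∈ S, f m ≤ ∑ m ∈ A, f m + ∑ m ∈ B, f m + ∑ m ∈ C, f m := by
  classical
  have h1 : ∀ X Y : Finset ℕ, ∑ m ∈ X ∪ Y, f m ≤ ∑ m ∈ X, f m + ∑ m ∈ Y, f m := by
    intro X Y
    have h2 := sum_union_inter (s₁ := X) (s₂ := Y) (f := f)
    have h3 : 0 ≤ ∑ m ∈ X ∩ Y, f m := sum_nonneg fun m _ => hf m
    linarith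
  have h4 : S ⊆ A ∪ B ∪ C := by
    intro m hm
    rw [mem_union, mem_union, or_assoc]
    exact h m hm
  have h5 := sum_le_sum_of_subset_of_nonneg h4 (fun m _ _ => hf m)
  have h6 := h1 (A ∪ B) C
  have h7 := h1 A B
  linarith

/-- the weights are bounded -/
private theorem core_sup {L d : ℕ} {B R : Finset ℤ} (hL : 4 ≤ L) (hR : (R.card : ℝ) ≤ L)
    (hH : ∀ i, 1 ≤ H1 (px L d B) (2 ^ sx L d) * Real.log (px L d B i)) (n : ℤ) :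
    gx L d B R n ^ 2 ≤ (2 * ((2 : ℝ) ^ d) ^ 2) ^ 2 := by
  have hcard : (Fintype.card {b : ℤ // b ∈ R} : ℝ) = R.card := by
    rw [Fintype.card_coe]
  have hLr : (4 : ℝ) ≤ L := by exact_mod_cast hL
  have hk : ∑ i : Ix L d B, (Fintype.card {b : ℤ // b ∈ R} : ℝ) / (px L d B i : ℝ) ^ 2 ≤ 1 / 2 := by
    have h4 := px_sum_sq (L := L) (d := d) (B := B) hL
    have h5 : ∀ i ∈ (univ : Finset (Ix L d B)),
        (Fintype.card {b : ℤ // b ∈ R} : ℝ) / (px L d B i : ℝ) ^ 2 ≤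
          L * (1 / ((px L d B i : ℝ) - 1) ^ 2) := by
      intro i _
      have h6 : (1 : ℝ) ≤ (px L d B i : ℝ) - 1 := by
        have : (2 : ℝ) ≤ px L d B i := by exact_mod_cast (px_prime i).two_le
        linarith
      rw [hcard, mul_one_div]
      have h7 : ((px L d B i : ℝ) - 1) ^ 2 ≤ (px L d B i : ℝ) ^ 2 := by nlinarith
      exact div_le_div₀ (by positivity) hR (by positivity) h7
    refine (sum_le_sum h5).trans ?_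
    rw [← mul_sum]
    have h8 : (L : ℝ) * ∑ i : Ix L d B, 1 / ((px L d B i : ℝ) - 1) ^ 2 ≤ L * (1 / (L : ℝ) ^ 5) :=
      mul_le_mul_of_nonneg_left h4 (by positivity)
    refine h8.trans ?_
    have h9 : (L : ℝ) * (1 / (L : ℝ) ^ 5) = 1 / (L : ℝ) ^ 4 := by
      field_simp
    rw [h9]
    exact one_div_le_one_div_of_le (by norm_num) (by
      have : (1 : ℝ) ≤ (L : ℝ) ^ 3 := one_le_pow₀ (by linarith)
      nlinarith)
  have h := AT.weight_sup (κ := {b : ℤ // b ∈ R}) (p := px L d B)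
    (fun i => (px_prime i).two_le) hk (ax R) (D := (2 : ℝ) ^ d) (by positivity)
    (Y := Yx L d B R) (Yx_abs hH R) (fun σ h => Yx_level h) n
  have h2 : |gx L d B R n| ≤ 2 * ((2 : ℝ) ^ d) ^ 2 := h
  rw [← sq_abs]
  exact pow_le_pow_left₀ (abs_nonneg _) h2 2

open Classical in
theorem core : ∃ P0 : ℕ, ∀ P : ℕ, P0 ≤ P → ∀ (L d M : ℕ) (B R : Finset ℤ), Adm P L d M B R →
    ∀ (a0 : ℤ) (r : ℕ), a0 ∈ B → a0 ∉ R → Nat.Coprime r M → (P : ℝ) / M ≤ AT.psi M r P →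
    ∀ Exc : Finset ℕ, Exc.card ≤ 2 ^ (3 * d) →
    ((P : ℝ) / M) / (L * 2 ^ (5 * d)) ≤
      (((Ioc P (4 * P)).filter (fun m : ℕ => (m ≡ r [MOD M] ∧ m.Prime) ∧ m ∉ Exc ∧
        ∀ b ∈ R, ∃ q : ℕ, q.Prime ∧ q ≤ 2 ^ d ∧ (q : ℤ) ∣ (m : ℤ) + a0 - b)).card : ℝ) := by
  obtain ⟨P1, hE1⟩ := E1
  obtain ⟨P3, hE3⟩ := E3
  obtain ⟨L1, hH⟩ := H1_ge
  refine ⟨max (max P1 P3) (2 ^ (max L1 100)), ?_⟩
  intro P hP L d M B R hA a0 r ha0 ha0R hcop hpsi Exc hExc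
  have hP1 : P1 ≤ P := (le_max_left _ _).trans ((le_max_left _ _).trans hP)
  have hP3 : P3 ≤ P := (le_max_right _ _).trans ((le_max_left _ _).trans hP)
  have hLL : max L1 100 ≤ L := hA.L_ge ((le_max_right _ _).trans hP)
  clear hP
  have hL1 : L1 ≤ L := (le_max_left _ _).trans hLL
  have hL100 : 100 ≤ L := (le_max_right _ _).trans hLL
  have hLr : (100 : ℝ) ≤ L := by exact_mod_cast hL100
  have hd4 : 4 ≤ d := by
    by_contra hd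
    have h1 : d ≤ 3 := by omega
    have h2 : d ^ 4 ≤ 3 ^ 4 := Nat.pow_le_pow_left h1 4
    have h3 : 100 ^ 3 ≤ L ^ 3 := Nat.pow_le_pow_left hL100 3
    have h4 := hA.hLd
    norm_num at h2 h3
    omega
  have hD16 : (16 : ℝ) ≤ 2 ^ d := by
    calc (16 : ℝ) = 2 ^ 4 := by norm_num
      _ ≤ 2 ^ d := pow_le_pow_right₀ (by norm_num) hd4
  have hxD : 40 * (L : ℝ) * ((2 : ℝ) ^ d) ^ 7 ≤ (P : ℝ) / M := by
    refine le_trans ?_ (hA.PM (by omega))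
    have h1 := core_pow (by omega) hA.hLd hA.hdL
    have h2 : ((40 * L * 2 ^ (7 * d) : ℕ) : ℝ) ≤ ((2 ^ (L - 4 - d) : ℕ) : ℝ) := by
      exact_mod_cast h1
    push_cast at h2
    rw [← pow_mul, mul_comm d 7]
    exact h2
  have hx1 : (1 : ℝ) ≤ (P : ℝ) / M := by
    refine le_trans ?_ hxD
    have : (1 : ℝ) ≤ ((2 : ℝ) ^ d) ^ 7 := one_le_pow₀ (by linarith)
    nlinarith
  have hx0 : (0 : ℝ) < (P : ℝ) / M := by linarith
  obtain ⟨-, -, hHlog⟩ := hH L d hL1 hA.hLd B hA.hB hA.hBc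
  have hsup := core_sup (R := R) (by omega) hA.k_le hHlog
  have hZ1 := Zx_one_le L d B R
  obtain ⟨Bd, hBd, hBds⟩ := core_bad hA (fun n0 T hT => hE3 P hP3 L d M B R hA n0 T hT) hx1 a0 r
  obtain ⟨S, hS, hSs⟩ : ∃ S : Finset ℕ,
      (∀ m : ℕ, m ∈ S ↔ (P < m ∧ m ≤ 4 * P) ∧ m ≡ r [MOD M] ∧ m.Prime) ∧
      4 / 5 * Zx L d B R * AT.psi M r P - Zx L d B R * ((P : ℝ) / M) / L ≤
        ∑ m ∈ S, Real.log m * gx L d B R ((m : ℤ) + a0) ^ 2 :=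
    ⟨_, fun m => by rw [mem_filter, mem_Ioc], hE1 P hP1 L d M B R hA a0 r ha0 ha0R hcop⟩
  obtain ⟨G, hG, hGt⟩ : ∃ G : Finset ℕ,
      (∀ m : ℕ, m ∈ G ↔ (P < m ∧ m ≤ 4 * P) ∧ (m ≡ r [MOD M] ∧ m.Prime) ∧ m ∉ Exc ∧
        ∀ b ∈ R, ∃ q : ℕ, q.Prime ∧ q ≤ 2 ^ d ∧ (q : ℤ) ∣ (m : ℤ) + a0 - b) ∧
      (Ioc P (4 * P)).filter (fun m : ℕ => (m ≡ r [MOD M] ∧ m.Prime) ∧ m ∉ Exc ∧
        ∀ b ∈ R, ∃ q : ℕ, q.Prime ∧ q ≤ 2 ^ d ∧ (q : ℤ) ∣ (m : ℤ) + a0 - b) = G :=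
    ⟨_, fun m => by rw [mem_filter, mem_Ioc], rfl⟩
  rw [hGt]
  clear hGt hE1 hE3 hH
  -- the logarithms
  have h1 : ∑ m ∈ S, Real.log m * gx L d B R ((m : ℤ) + a0) ^ 2 ≤
      L * ∑ m ∈ S, gx L d B R ((m : ℤ) + a0) ^ 2 := by
    rw [mul_sum]
    refine sum_le_sum fun m hm => mul_le_mul_of_nonneg_right ?_ (sq_nonneg _)
    obtain ⟨⟨h2, h3⟩, -⟩ := (hS m).1 hm
    have h4 : (m : ℝ) ≤ 4 * P := by exact_mod_cast h3
    have h5 : (0 : ℝ) < m := by exact_mod_cast (Nat.zero_le P).trans_lt h2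
    exact (Real.log_le_log h5 h4).trans (hA.log4P (by omega))
  -- the covering
  have h2 : ∑ m ∈ S, gx L d B R ((m : ℤ) + a0) ^ 2 ≤
      ∑ m ∈ Bd, gx L d B R ((m : ℤ) + a0) ^ 2 + ∑ m ∈ Exc, gx L d B R ((m : ℤ) + a0) ^ 2 +
        ∑ m ∈ G, gx L d B R ((m : ℤ) + a0) ^ 2 := by
    refine core_sum (fun m => sq_nonneg _) fun m hm => ?_
    obtain ⟨hm1, hm2, hm3⟩ := (hS m).1 hm
    by_cases hb : ∃ b : {b : ℤ // b ∈ R}, ∀ i, ¬ (px L d B i : ℤ) ∣ (m : ℤ) + a0 - b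
    · exact Or.inl ((hBd m).2 ⟨⟨hm1, hm2⟩, hb⟩)
    · by_cases he : m ∈ Exc
      · exact Or.inr (Or.inl he)
      · refine Or.inr (Or.inr ((hG m).2 ⟨hm1, ⟨hm2, hm3⟩, he, fun b hbR => ?_⟩))
        push Not at hb
        obtain ⟨i, hi⟩ := hb ⟨b, hbR⟩
        exact ⟨px L d B i, px_prime i, px_le i, hi⟩
  have h3 : ∑ m ∈ Exc, gx L d B R ((m : ℤ) + a0) ^ 2 ≤
      ((2 : ℝ) ^ d) ^ 3 * (2 * ((2 : ℝ) ^ d) ^ 2) ^ 2 := by
    refine (sum_le_card_nsmul Exc _ _ fun m _ => hsup ((m : ℤ) + a0)).trans ?_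
    rw [nsmul_eq_mul]
    refine mul_le_mul_of_nonneg_right ?_ (by positivity)
    have h4 : (Exc.card : ℝ) ≤ ((2 ^ (3 * d) : ℕ) : ℝ) := by exact_mod_cast hExc
    push_cast at h4
    rw [← pow_mul, mul_comm d 3]
    exact h4
  have h4 : ∑ m ∈ G, gx L d B R ((m : ℤ) + a0) ^ 2 ≤
      (G.card : ℝ) * (2 * ((2 : ℝ) ^ d) ^ 2) ^ 2 := by
    refine (sum_le_card_nsmul G _ _ fun m _ => hsup ((m : ℤ) + a0)).trans ?_
    rw [nsmul_eq_mul]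
  have h5 : Zx L d B R * ((P : ℝ) / M) * (4 / 5) ≤ 4 / 5 * Zx L d B R * AT.psi M r P := by
    have h6 : 0 ≤ 4 / 5 * Zx L d B R := by linarith
    have h7 := mul_le_mul_of_nonneg_left hpsi h6
    linarith
  have h8 : (L : ℝ) * ∑ m ∈ S, gx L d B R ((m : ℤ) + a0) ^ 2 ≤
      L * (((P : ℝ) / M) / (L : ℝ) ^ 2 * Zx L d B R +
        ((2 : ℝ) ^ d) ^ 3 * (2 * ((2 : ℝ) ^ d) ^ 2) ^ 2 +
        (G.card : ℝ) * (2 * ((2 : ℝ) ^ d) ^ 2) ^ 2) :=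
    mul_le_mul_of_nonneg_left (by linarith) (by linarith)
  have h9 := core_num (x := (P : ℝ) / M) (Z := Zx L d B R) (L := (L : ℝ)) (D := (2 : ℝ) ^ d)
    (k := (G.card : ℝ)) hx0 hZ1 hLr hD16 hxD (by linarith)
  rw [← pow_mul, mul_comm d 5] at h9
  exact h9

end Pool.Agent.UW
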