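import Pool.Agent.UW.Sz
import Pool.Agent.UW.ParB
import Pool.Agent.AT.Wm
import Pool.Agent.AT.Pr
import Pool.Agent.AT.BV

/-! UW/E1.  Primes weighted by the repelling weight (adaptation of `AT/E1`). -/

set_option autoImplicit false

namespace Pool.Agent.UW

open Finset Pool.Agent.RS

private theorem e1_quarter {P L : ℕ} (h : (2 : ℝ) ^ L ≤ 16 * P) (hL8 : 10 ^ 8 ≤ L) :
    800 * (L : ℝ) ^ 3 ≤ (P : ℝ) ^ (1 / 4 : ℝ) := by
  have hL' : (10 : ℝ) ^ 8 ≤ L := by exact_mod_cast hL8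
  have h1 : ((2 : ℝ) ^ L / 16) ^ (1 / 4 : ℝ) ≤ (P : ℝ) ^ (1 / 4 : ℝ) :=
    Real.rpow_le_rpow (by positivity) (by linarith) (by norm_num)
  have h2 : ((2 : ℝ) ^ L / 16) ^ (1 / 4 : ℝ) = Real.exp ((L : ℝ) * Real.log 2 / 4) / 2 := by
    rw [Real.div_rpow (by positivity) (by norm_num)]
    have e1 : ((2 : ℝ) ^ L) ^ (1 / 4 : ℝ) = Real.exp ((L : ℝ) * Real.log 2 / 4) := by
      rw [← Real.rpow_natCast, ← Real.rpow_mul (by norm_num), Real.rpow_def_of_pos (by norm_num)]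
      congr 1
      ring
    have e2 : (16 : ℝ) ^ (1 / 4 : ℝ) = 2 := by
      rw [show (16 : ℝ) = 2 ^ (4 : ℝ) by norm_num, ← Real.rpow_mul (by norm_num)]
      norm_num
    rw [e1, e2]
  have hl : 0.69 ≤ Real.log 2 := by linarith [Real.log_two_gt_d9]
  have h3 : 0.17 * (L : ℝ) ≤ (L : ℝ) * Real.log 2 / 4 := by nlinarith
  have h4 := Real.pow_div_factorial_le_exp (0.17 * (L : ℝ)) (by positivity) 4
  have h5 : Real.exp (0.17 * (L : ℝ)) ≤ Real.exp ((L : ℝ) * Real.log 2 / 4) :=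
    Real.exp_le_exp.2 h3
  have h6 : ((Nat.factorial 4 : ℕ) : ℝ) = 24 := by norm_num [Nat.factorial]
  rw [h6] at h4
  have h7 : 800 * (L : ℝ) ^ 3 * 2 ≤ (0.17 * (L : ℝ)) ^ 4 / 24 := by
    have h8 : (0.17 * (L : ℝ)) ^ 4 / 24 = (0.17 ^ 4 / 24 * L) * (L : ℝ) ^ 3 := by ring
    have h9 : 800 * (L : ℝ) ^ 3 * 2 = 1600 * (L : ℝ) ^ 3 := by ring
    rw [h8, h9]
    refine mul_le_mul_of_nonneg_right ?_ (by positivity)
    norm_num
    linarith
  rw [h2] at h1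
  linarith

private theorem e1_pow {L : ℕ} (hL : 1 ≤ L) :
    (L : ℝ) ^ 3 * ((L : ℝ) ^ 6) ^ (-(3 / 4) : ℝ) = 1 / ((L : ℝ) * √(L : ℝ)) := by
  have hL0 : (0 : ℝ) < L := by exact_mod_cast hL
  have h1 : (L : ℝ) ^ 3 = (L : ℝ) ^ (3 : ℝ) := by
    rw [← Real.rpow_natCast]; norm_num
  have h2 : ((L : ℝ) ^ 6) ^ (-(3 / 4) : ℝ) = (L : ℝ) ^ (-(9 / 2) : ℝ) := by
    rw [← Real.rpow_natCast, ← Real.rpow_mul hL0.le]
    norm_num
  have h3 : 1 / ((L : ℝ) * √(L : ℝ)) = (L : ℝ) ^ (-(3 / 2) : ℝ) := by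
    rw [Real.rpow_neg hL0.le, one_div, Real.sqrt_eq_rpow]
    congr 1
    rw [show (3 / 2 : ℝ) = 1 + 1 / 2 by norm_num, Real.rpow_add hL0, Real.rpow_one]
  rw [h1, h2, h3, ← Real.rpow_add hL0]
  norm_num

theorem E1 : SE1 := by
  classical
  obtain ⟨C, hC, P1, hbv⟩ := AT.bv
  obtain ⟨L1, hH1⟩ := H1_ge
  obtain ⟨L2, hL2⟩ := exists_nat_ge ((12 / 5 * C) ^ 2)
  refine ⟨max P1 (2 ^ (max (max L1 L2) (10 ^ 8))), ?_⟩
  intro P hP L d M B R hA a0 r ha0 ha0R hcop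
  have hPP1 : P1 ≤ P := le_trans (le_max_left _ _) hP
  have hP2 : 2 ^ (max (max L1 L2) (10 ^ 8)) ≤ P := le_trans (le_max_right _ _) hP
  have hLL : max (max L1 L2) (10 ^ 8) ≤ L := hA.L_ge hP2
  have hP16 : 16 ≤ P := by
    refine le_trans ?_ hP2
    calc 16 = 2 ^ 4 := by norm_num
      _ ≤ 2 ^ (max (max L1 L2) (10 ^ 8)) :=
          Nat.pow_le_pow_right (by norm_num) (le_trans (by norm_num) (le_max_right _ _))
  clear hP hP2
  have hP0 : P ≠ 0 := by omega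
  have hLL1 : L1 ≤ L := le_trans (le_trans (le_max_left _ _) (le_max_left _ _)) hLL
  have hLL2 : L2 ≤ L := le_trans (le_trans (le_max_right _ _) (le_max_left _ _)) hLL
  have hL8 : 10 ^ 8 ≤ L := le_trans (le_max_right _ _) hLL
  obtain ⟨-, hHpos', hHlog⟩ := hH1 L d hLL1 hA.hLd B hA.hB hA.hBc
  have hHpos : 0 < H1 (px L d B) (2 ^ sx L d) := lt_of_lt_of_le (by positivity) hHpos'
  have hLr : (10 : ℝ) ^ 8 ≤ L := by exact_mod_cast hL8
  have hL0 : (0 : ℝ) < L := lt_of_lt_of_le (by norm_num) hLr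
  have h2L := hA.twoL
  have hlogP := hA.logP
  have hPbig : (16 : ℝ) ≤ P := by exact_mod_cast hP16
  have hPr0 : (0 : ℝ) < P := lt_of_lt_of_le (by norm_num) hPbig
  have hquart := e1_quarter hA.twoL hL8
  have hM0 : (0 : ℝ) < M := by exact_mod_cast hA.hM0
  set D : ℝ := 2 ^ d with hD
  have hD1 : 1 ≤ D := one_le_pow₀ (by norm_num)
  have hDP : D ≤ (P : ℝ) ^ (2 / 10000 : ℝ) := hA.D_le hP16
  have hMP := hA.M_le hP16
  have hkL : (R.card : ℝ) ≤ L := hA.k_le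
  have hcardκ : (Fintype.card {b : ℤ // b ∈ R} : ℝ) = R.card := by
    rw [Fintype.card_coe]
  have hp : ∀ i : Ix L d B, (px L d B i).Prime := px_prime
  have h3 : ∀ i : Ix L d B, 3 ≤ px L d B i := fun i => by
    have h1 := px_gt i
    have h2 : 3 ≤ L ^ 6 := by
      calc 3 ≤ L := by omega
        _ = L ^ 1 := (pow_one L).symm
        _ ≤ L ^ 6 := Nat.pow_le_pow_right (by omega) (by norm_num)
    omega
  have hdL : d ≤ L := hA.d_le
  have hd4 : d + 4 ≤ L := by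
    have := hA.hdL
    omega
  have hpP : ∀ i : Ix L d B, px L d B i ≤ P := fun i => by
    have h1 := px_le i
    have h2 : 2 ^ d * 16 ≤ 2 ^ L := by
      calc 2 ^ d * 16 = 2 ^ (d + 4) := by rw [pow_add]; norm_num
        _ ≤ 2 ^ L := Nat.pow_le_pow_right (by norm_num) hd4
    have h4 := hA.hPL
    omega
  have h0 : ∀ (i : Ix L d B) (k : {b : ℤ // b ∈ R}), ¬ (px L d B i : ℤ) ∣ ax R k - a0 := by
    intro i k
    exact px_not_dvd i (hA.hR k.2) ha0 (fun h => ha0R (h ▸ k.2))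
  have hdd : ∀ (i : Ix L d B) (k k' : {b : ℤ // b ∈ R}), k ≠ k' →
      ¬ (px L d B i : ℤ) ∣ ax R k - ax R k' := by
    intro i k k' hkk
    exact px_not_dvd i (hA.hR k.2) (hA.hR k'.2) (fun h => hkk (Subtype.ext h))
  have hL5 : (L : ℝ) * (1 / (L : ℝ) ^ 5) ≤ 1 / 100 := by
    have h1 : (L : ℝ) * (1 / (L : ℝ) ^ 5) = 1 / (L : ℝ) ^ 4 := by
      field_simp
    rw [h1]
    apply one_div_le_one_div_of_le (by norm_num)
    calc (100 : ℝ) ≤ L := by linarith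
      _ = (L : ℝ) ^ 1 := (pow_one _).symm
      _ ≤ (L : ℝ) ^ 4 := pow_le_pow_right₀ (by linarith) (by norm_num)
  have hk : ∑ i : Ix L d B, (Fintype.card {b : ℤ // b ∈ R} : ℝ) / ((px L d B i : ℝ) - 1) ^ 2 ≤
      1 / 100 := by
    rw [hcardκ]
    have h1 : ∑ i : Ix L d B, (R.card : ℝ) / ((px L d B i : ℝ) - 1) ^ 2 =
        (R.card : ℝ) * ∑ i : Ix L d B, 1 / ((px L d B i : ℝ) - 1) ^ 2 := by
      rw [Finset.mul_sum]
      exact Finset.sum_congr rfl fun i _ => by rw [mul_one_div]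
    rw [h1]
    have h2 := px_sum_sq (L := L) (d := d) (B := B) (by omega)
    refine le_trans (mul_le_mul hkL h2 ?_ hL0.le) hL5
    exact Finset.sum_nonneg fun i _ => div_nonneg zero_le_one (sq_nonneg _)
  have hkp : ∀ i : Ix L d B, 10 * (Fintype.card {b : ℤ // b ∈ R} : ℝ) / ((px L d B i : ℝ) - 1) ≤
      (px L d B i : ℝ) ^ (-(3 / 4) : ℝ) := by
    intro i
    rw [hcardκ]
    exact px_quarter (by omega) i hkL
  have hY1 : ∀ σ, |Yx L d B R σ| ≤ 1 := Yx_abs hHlog R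
  have hYs : ∀ σ, Yx L d B R σ ≠ 0 → PP (px L d B) (supp σ) ≤ D := fun σ h => Yx_level h
  have hN : ∀ σ, Yx L d B R σ ≠ 0 →
      ∑ i ∈ supp σ, (Fintype.card {b : ℤ // b ∈ R} : ℝ) / ((px L d B i : ℝ) - 1) ≤ 1 / 100 := by
    intro σ hσ
    rw [hcardκ]
    have h1 : ∑ i ∈ supp σ, (R.card : ℝ) / ((px L d B i : ℝ) - 1) =
        (R.card : ℝ) * ∑ i ∈ supp σ, 1 / ((px L d B i : ℝ) - 1) := by
      rw [Finset.mul_sum]
      exact Finset.sum_congr rfl fun i _ => by rw [mul_one_div]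
    rw [h1]
    have h2 := px_sum (L := L) (by omega) (supp σ) ((hYs σ hσ).trans
      (pow_le_pow_right₀ (by norm_num) hdL))
    refine le_trans (mul_le_mul hkL h2 ?_ hL0.le) hL5
    refine Finset.sum_nonneg fun i _ => ?_
    have h4 : (3 : ℝ) ≤ px L d B i := by exact_mod_cast h3 i
    exact div_nonneg zero_le_one (by linarith)
  have hmono : ∀ (S : Finset (Ix L d B)) (σ : Ix L d B → Option {b : ℤ // b ∈ R}),
      |Yx L d B R σ| ≤ |Yx L d B R (AT.eraS S σ)| := by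
    intro S σ
    unfold Yx
    exact AT.Yd_mono (fun i => (hp i).two_le) (yx L d B) _
      (fun S T h => AT.wt_mono (fun i => (hp i).two_le) hHpos hHlog S T h) S σ
  have hZ1 : 1 ≤ Zx L d B R := Zx_one_le L d B R
  have hL6 : (1 : ℝ) ≤ (L : ℝ) ^ 6 := one_le_pow₀ (by linarith)
  have hD2P : D ^ 2 ≤ (P : ℝ) ^ (1 / 1000 : ℝ) := by
    calc D ^ 2 ≤ ((P : ℝ) ^ (2 / 10000 : ℝ)) ^ 2 := pow_le_pow_left₀ (by linarith) hDP 2
      _ = (P : ℝ) ^ (4 / 10000 : ℝ) := by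
          rw [← Real.rpow_natCast, ← Real.rpow_mul hPr0.le]; norm_num
      _ ≤ (P : ℝ) ^ (1 / 1000 : ℝ) :=
          Real.rpow_le_rpow_of_exponent_le (by linarith) (by norm_num)
  have hMP' : (M : ℝ) ≤ (P : ℝ) ^ (1 / 1000 : ℝ) :=
    hMP.trans (Real.rpow_le_rpow_of_exponent_le (by linarith) (by norm_num))
  have hB := hbv P hPP1 M r hA.hM0 hMP' hcop (Ix L d B) (px L d B) hp (px_inj L d B)
    (fun i => hA.hM _ (hp i) (px_gt i)) ((L : ℝ) ^ 6) (D ^ 2) hL6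
    (fun i => by exact_mod_cast (px_gt i).le) hD2P
  have hmain := AT.prime_sum hp h3 (px_inj L d B) (P := P) (M := M) (r := r) (by omega) hpP
    (ax R) a0 h0 hdd hk hkp hD1 hY1 hYs hN hmono (Z := Zx L d B R) rfl hZ1 hB
  have hZ0 : 0 < Zx L d B R := by linarith
  have hPM0 : 0 < (P : ℝ) / M := by positivity
  -- first error
  have herr1 : 6 / 5 * (C * (P / M) * Real.log P ^ 3 * ((L : ℝ) ^ 6) ^ (-(3 / 4) : ℝ)) ≤
      ((P : ℝ) / M) / (2 * L) := by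
    clear hmain hB hbv hH1 hmono hN hYs hY1 hkp hk hdd h0 hpP h3 hp hHlog hA
    have hlp0 : 0 ≤ Real.log P := Real.log_natCast_nonneg P
    have h1 : Real.log P ^ 3 ≤ (L : ℝ) ^ 3 := pow_le_pow_left₀ hlp0 hlogP 3
    have h2 : (0 : ℝ) ≤ ((L : ℝ) ^ 6) ^ (-(3 / 4) : ℝ) := by positivity
    have h4 : 12 / 5 * C ≤ √(L : ℝ) := by
      apply Real.le_sqrt_of_sq_le
      refine hL2.trans ?_
      exact_mod_cast hLL2
    have hs0 : 0 < √(L : ℝ) := Real.sqrt_pos.2 hL0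
    calc 6 / 5 * (C * (P / M) * Real.log P ^ 3 * ((L : ℝ) ^ 6) ^ (-(3 / 4) : ℝ))
        ≤ 6 / 5 * (C * (P / M) * (L : ℝ) ^ 3 * ((L : ℝ) ^ 6) ^ (-(3 / 4) : ℝ)) := by
          gcongr
      _ = 6 / 5 * (C * (P / M)) * ((L : ℝ) ^ 3 * ((L : ℝ) ^ 6) ^ (-(3 / 4) : ℝ)) := by ring
      _ = 6 / 5 * (C * (P / M)) * (1 / ((L : ℝ) * √(L : ℝ))) := by rw [e1_pow (by omega)]
      _ = ((P : ℝ) / M) / (2 * L) * (12 / 5 * C / √(L : ℝ)) := by
          field_simp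
          ring
      _ ≤ ((P : ℝ) / M) / (2 * L) * 1 := by
          refine mul_le_mul_of_nonneg_left ?_ (by positivity)
          rw [div_le_one hs0]
          exact h4
      _ = _ := mul_one _
  -- second error
  have hlog4 : Real.log (4 * P) ≤ 2 * Real.log P := by
    have h1 : Real.log (4 * P) ≤ Real.log ((P : ℝ) ^ 2) := by
      apply Real.log_le_log (by positivity)
      nlinarith
    rw [Real.log_pow] at h1
    exact_mod_cast h1
  have herr2 : 100 * D ^ 4 * √P * Real.log (4 * P) ^ 2 ≤ ((P : ℝ) / M) / (2 * L) := by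
    clear hmain hB hbv hH1 hmono hN hYs hY1 hkp hk hdd h0 hpP h3 hp hHlog hA
    have h1 : Real.log (4 * P) ^ 2 ≤ (2 * (L : ℝ)) ^ 2 := by
      refine pow_le_pow_left₀ (Real.log_nonneg (by linarith)) ?_ 2
      linarith
    have h2 : D ^ 4 ≤ (P : ℝ) ^ (8 / 10000 : ℝ) := by
      calc D ^ 4 ≤ ((P : ℝ) ^ (2 / 10000 : ℝ)) ^ 4 := pow_le_pow_left₀ (by linarith) hDP 4
        _ = (P : ℝ) ^ (8 / 10000 : ℝ) := by
            rw [← Real.rpow_natCast, ← Real.rpow_mul hPr0.le]; norm_num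
    have h4 : √(P : ℝ) = (P : ℝ) ^ (1 / 2 : ℝ) := Real.sqrt_eq_rpow _
    have h5 : (P : ℝ) ^ (999 / 1000 : ℝ) ≤ (P : ℝ) / M := by
      rw [le_div_iff₀ hM0]
      calc (P : ℝ) ^ (999 / 1000 : ℝ) * M
          ≤ (P : ℝ) ^ (999 / 1000 : ℝ) * (P : ℝ) ^ (1 / 1000 : ℝ) :=
            mul_le_mul_of_nonneg_left hMP' (by positivity)
        _ = P := by rw [← Real.rpow_add hPr0]; norm_num
    have h6 : 800 * (L : ℝ) ^ 3 * (P : ℝ) ^ (5008 / 10000 : ℝ) ≤ (P : ℝ) ^ (999 / 1000 : ℝ) := by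
      calc 800 * (L : ℝ) ^ 3 * (P : ℝ) ^ (5008 / 10000 : ℝ)
          ≤ (P : ℝ) ^ (1 / 4 : ℝ) * (P : ℝ) ^ (5008 / 10000 : ℝ) :=
            mul_le_mul_of_nonneg_right hquart (by positivity)
        _ = (P : ℝ) ^ (7508 / 10000 : ℝ) := by rw [← Real.rpow_add hPr0]; norm_num
        _ ≤ (P : ℝ) ^ (999 / 1000 : ℝ) :=
            Real.rpow_le_rpow_of_exponent_le (by linarith) (by norm_num)
    calc 100 * D ^ 4 * √P * Real.log (4 * P) ^ 2
        ≤ 100 * (P : ℝ) ^ (8 / 10000 : ℝ) * (P : ℝ) ^ (1 / 2 : ℝ) * (2 * (L : ℝ)) ^ 2 := by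
          rw [h4]
          gcongr
      _ = 400 * (L : ℝ) ^ 2 * ((P : ℝ) ^ (8 / 10000 : ℝ) * (P : ℝ) ^ (1 / 2 : ℝ)) := by ring
      _ = 400 * (L : ℝ) ^ 2 * (P : ℝ) ^ (5008 / 10000 : ℝ) := by
          rw [← Real.rpow_add hPr0]; norm_num
      _ = 800 * (L : ℝ) ^ 3 * (P : ℝ) ^ (5008 / 10000 : ℝ) / (2 * L) := by
          field_simp
          ring
      _ ≤ (P : ℝ) ^ (999 / 1000 : ℝ) / (2 * L) :=
          div_le_div_of_nonneg_right h6 (by positivity)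
      _ ≤ ((P : ℝ) / M) / (2 * L) := div_le_div_of_nonneg_right h5 (by positivity)
  have hfin : 6 / 5 * Zx L d B R * (C * (P / M) * Real.log P ^ 3 * ((L : ℝ) ^ 6) ^ (-(3 / 4) : ℝ)) +
      100 * Zx L d B R * D ^ 4 * √P * Real.log (4 * P) ^ 2 ≤ Zx L d B R * ((P : ℝ) / M) / L := by
    have h1 := mul_le_mul_of_nonneg_left herr1 hZ0.le
    have h2 := mul_le_mul_of_nonneg_left herr2 hZ0.le
    have h4 : Zx L d B R * ((P : ℝ) / M) / L =
        Zx L d B R * (((P : ℝ) / M) / (2 * L)) + Zx L d B R * (((P : ℝ) / M) / (2 * L)) := by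
      field_simp
      ring
    rw [h4]
    refine le_trans (le_of_eq ?_) (add_le_add h1 h2)
    ring
  refine le_trans ?_ hmain
  linarith

end Pool.Agent.UW
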