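import Pool.Agent.UW.Gb
import Pool.Agent.AV.E1G
import Pool.Agent.AV.LvG
import Pool.Agent.AT.BV

/-! UW/EG1.  The weighted number of primes (the general version of AV/EV1).

`e1g` with `q = p1 (Bk L m1 (ins R)) (Nat.log 2 m1)`, `p = pg L m1 s R`, `a = ar R`, `a0 = 0`, `r := b`, `z = 2^m1`;
the character sums are bounded with `bv` (AT/BV). -/

set_option autoImplicit false

open Finset Pool.Agent.RS Pool.Agent.AT Pool.Agent.VOID Pool.Agent.AV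

namespace Pool.Agent.UW

private theorem eg1_pow {L : ℕ} (hL : 1 ≤ L) :
    (L : ℝ) ^ 3 * ((L : ℝ) ^ 6) ^ (-(3 / 4) : ℝ) = 1 / ((L : ℝ) * √(L : ℝ)) := by
  have hL0 : (0 : ℝ) < L := by exact_mod_cast hL
  have h1 : (L : ℝ) ^ 3 = (L : ℝ) ^ (3 : ℝ) := by
    rw [← Real.rpow_natCast]; norm_num
  have h2 : ((L : ℝ) ^ 6) ^ (-(3 / 4) : ℝ) = (L : ℝ) ^ (-(9 / 2) : ℝ) := by
    rw [← Real.rpow_natCast, ← Real.rpow_mul hL0.le]
    norm_num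
  have h3 : 1 / ((L : ℝ) * √(L : ℝ)) = (L : ℝ) ^ (-(3 / 2) : ℝ) := by
    rw [Real.rpow_neg hL0.le, one_div, Real.sqrt_eq_rpow]
    congr 1
    rw [show (3 / 2 : ℝ) = 1 + 1 / 2 by norm_num, Real.rpow_add hL0, Real.rpow_one]
  rw [h1, h2, h3, ← Real.rpow_add hL0]
  norm_num

private theorem eg1_CK {K K' : ℕ} (h : K ≤ K') : CK K ≤ CK K' := by
  have h1 : (K : ℝ) ≤ K' := by exact_mod_cast h
  unfold CK
  have h2 : Real.exp (128 * (K : ℝ)) ≤ Real.exp (128 * (K' : ℝ)) :=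
    Real.exp_le_exp.2 (by linarith)
  have h3 : 0 ≤ Real.exp (128 * (K : ℝ)) := (Real.exp_pos _).le
  have h4 : (0 : ℝ) ≤ K := Nat.cast_nonneg K
  exact mul_le_mul (by linarith) h2 h3 (by linarith)

private theorem eg1_CK0 (K : ℕ) : 0 ≤ CK K := by
  unfold CK
  positivity

private theorem eg1_blk {L m1 i q : ℕ} {B : Finset ℤ} (h : q ∈ Bk L m1 B i) :
    q ≤ 2 ^ (m1 / 2 ^ i) := by
  unfold Bk at h
  rw [Finset.mem_filter, Helper52.mem_pr] at h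
  exact h.1.2.1

private theorem eg1_RR (G r : ℕ) : 1 ≤ RR G r := by
  unfold RR
  exact Nat.succ_le_of_lt (by positivity)

/-- errors -/
private theorem eg1_err1 {C X lP : ℝ} {L : ℕ} (hC : 0 < C) (hX : 0 ≤ X) (hL : 1 ≤ L)
    (hlP0 : 0 ≤ lP) (hlP : lP ≤ L) (hL2 : (10 * C) ^ 2 ≤ L) :
    5 * (C * X * lP ^ 3 * ((L : ℝ) ^ 6) ^ (-(3 / 4) : ℝ)) ≤ X / (2 * L) := by
  have hL0 : (0 : ℝ) < L := by exact_mod_cast hL
  have h1 : lP ^ 3 ≤ (L : ℝ) ^ 3 := pow_le_pow_left₀ hlP0 hlP 3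
  have h2 : (0 : ℝ) ≤ ((L : ℝ) ^ 6) ^ (-(3 / 4) : ℝ) := by positivity
  have h4 : 10 * C ≤ √(L : ℝ) := Real.le_sqrt_of_sq_le hL2
  have hs0 : 0 < √(L : ℝ) := Real.sqrt_pos.2 hL0
  calc 5 * (C * X * lP ^ 3 * ((L : ℝ) ^ 6) ^ (-(3 / 4) : ℝ))
      ≤ 5 * (C * X * (L : ℝ) ^ 3 * ((L : ℝ) ^ 6) ^ (-(3 / 4) : ℝ)) := by
        gcongr
    _ = 5 * (C * X) * ((L : ℝ) ^ 3 * ((L : ℝ) ^ 6) ^ (-(3 / 4) : ℝ)) := by ring
    _ = 5 * (C * X) * (1 / ((L : ℝ) * √(L : ℝ))) := by rw [eg1_pow hL]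
    _ = X / (2 * L) * (10 * C / √(L : ℝ)) := by
        field_simp
        ring
    _ ≤ X / (2 * L) * 1 := by
        refine mul_le_mul_of_nonneg_left ?_ (by positivity)
        rw [div_le_one hs0]
        exact h4
    _ = _ := mul_one _

private theorem eg1_err2 {L : ℕ} {X Gm W4 sP lP Z : ℝ} (hL : 10 ^ 6 ≤ L)
    (hZ : 1 ≤ Z) (hGm0 : 0 ≤ Gm) (hGm : Gm ≤ 2 ^ (L / 100)) (_hW0 : 0 ≤ W4)
    (hW4 : W4 ≤ 2 ^ (L / 100)) (hs0 : 0 ≤ sP) (hsP : sP ≤ 2 ^ (5 * (L / 10) + 5))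
    (hl0 : 0 ≤ lP) (hlP : lP ≤ L) (hX : (2 : ℝ) ^ (9 * (L / 10)) ≤ X)
    (hw : 10000 * (L : ℝ) ^ 4 * 2 ^ (L / 100) * 2 ^ (L / 100) * 2 ^ (5 * (L / 10) + 5) ≤
      2 ^ (9 * (L / 10))) :
    (20 * Gm + 200 * Z * W4) * (sP * lP ^ 2) ≤ Z * (X / (2 * L)) := by
  have hLr : (10 : ℝ) ^ 6 ≤ L := by exact_mod_cast hL
  have hL0 : (0 : ℝ) < L := lt_of_lt_of_le (by norm_num) hLr
  set E : ℝ := 2 ^ (L / 100) with hE
  set S : ℝ := 2 ^ (5 * (L / 10) + 5) with hS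
  have hE1 : 1 ≤ E := one_le_pow₀ (by norm_num)
  have hS0 : 0 < S := by positivity
  have h1 : 20 * Gm + 200 * Z * W4 ≤ Z * (220 * E) := by
    have h2 : 20 * Gm ≤ Z * (20 * E) := by nlinarith
    have h3 : 200 * Z * W4 ≤ 200 * Z * E := mul_le_mul_of_nonneg_left hW4 (by positivity)
    nlinarith
  have h2 : sP * lP ^ 2 ≤ S * (L : ℝ) ^ 2 :=
    mul_le_mul hsP (pow_le_pow_left₀ hl0 hlP 2) (by positivity) hS0.le
  have h3 : 220 * E * (S * (L : ℝ) ^ 2) ≤ X / (2 * L) := by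
    rw [le_div_iff₀ (by positivity)]
    refine le_trans ?_ (hw.trans hX)
    have h4 : 220 * E * (S * (L : ℝ) ^ 2) * (2 * L) = (440 * (L : ℝ) ^ 3) * (E * S) := by ring
    have h5 : 10000 * (L : ℝ) ^ 4 * E * E * S = (10000 * (L : ℝ) ^ 4 * E) * (E * S) := by ring
    rw [h4, h5]
    refine mul_le_mul_of_nonneg_right ?_ (by positivity)
    have h6 : (L : ℝ) ^ 3 ≤ (L : ℝ) ^ 4 := pow_le_pow_right₀ (by linarith) (by norm_num)
    have h7 : 0 ≤ (L : ℝ) ^ 4 := by positivity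
    have h8 : 0 ≤ (L : ℝ) ^ 3 := by positivity
    nlinarith
  calc (20 * Gm + 200 * Z * W4) * (sP * lP ^ 2) ≤ Z * (220 * E) * (S * (L : ℝ) ^ 2) :=
        mul_le_mul h1 h2 (by positivity) (by positivity)
    _ = Z * (220 * E * (S * (L : ℝ) ^ 2)) := by ring
    _ ≤ Z * (X / (2 * L)) := mul_le_mul_of_nonneg_left h3 (by linarith)

/-- the last step -/
private theorem eg1_sums {P M b : ℕ} (hlog4 : Real.log (4 * P) ≤ 2 * Real.log P) (F : ℤ → ℝ)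
    (hF : ∀ n, 0 ≤ F n) :
    ∑ m ∈ (Ioc P (4 * P)).filter (fun m => m ≡ b [MOD M] ∧ m.Prime),
        Real.log m * F ((m : ℤ) + 0) ≤
      2 * Real.log P * ∑ n ∈ (Nw P 0 M b).filter (fun n : ℕ => n.Prime), F (n : ℤ) := by
  classical
  have h0 : (Nw P 0 M b).filter (fun n : ℕ => n.Prime) =
      (Ioc P (4 * P)).filter (fun m => m ≡ b [MOD M] ∧ m.Prime) := by
    unfold Nw
    ext n
    rw [mem_filter, mem_filter, mem_filter, Nat.sub_zero, and_assoc]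
  rw [h0, Finset.mul_sum]
  refine Finset.sum_le_sum fun m hm => ?_
  have h1 := mem_Ioc.1 (mem_filter.1 hm).1
  rw [add_zero]
  refine mul_le_mul_of_nonneg_right ?_ (hF _)
  refine le_trans (Real.log_le_log ?_ ?_) hlog4
  · have : 0 < m := by omega
    exact_mod_cast this
  · exact_mod_cast h1.2

theorem eg1 : ∃ L0 : ℕ, ∀ (CV0 CV : ℝ) (G r P L M : ℕ) (R : Finset ℤ) (g s m1 d N : ℕ),
    SG CV0 CV G r P L M R g s m1 d N → L0 ≤ L → ∀ b : ℕ, Nat.Coprime b M →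
    1 / 3 * Zg L m1 s d R * psi M b P - Zg L m1 s d R * ((P : ℝ) / M) / L ≤
      2 * Real.log P * ∑ n ∈ (Nw P 0 M b).filter (fun n : ℕ => n.Prime),
        gg L m1 s d r R (n : ℤ) ^ 2 := by
  classical
  obtain ⟨C, hC, P1, hbv⟩ := bv
  obtain ⟨L2, hL2⟩ := exists_nat_ge ((10 * C) ^ 2)
  refine ⟨max P1 L2, ?_⟩
  intro CV0 CV G r P L M R g s m1 d N sg hL0 b hcop
  have pb := sg.pb
  have pl := pb.pl
  have hL6 : 10 ^ 6 ≤ L := pb.big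
  obtain ⟨hX9, hsP, hlP4, hX1, hddP, hlv5⟩ := sz_g sg
  have hLr : (10 : ℝ) ^ 6 ≤ L := by exact_mod_cast hL6
  have hLpos : (0 : ℝ) < L := lt_of_lt_of_le (by norm_num) hLr
  have hmdd : m1 ≤ dd L := pl.m_le_s.trans pb.s_le
  have h2m : 2 ^ m1 ≤ 2 ^ dd L := Nat.pow_le_pow_right (by norm_num) hmdd
  have h2s : 2 ^ s ≤ 2 ^ dd L := Nat.pow_le_pow_right (by norm_num) pb.s_le
  have hLL6n : L ≤ L ^ 6 := Nat.le_self_pow (by norm_num) L
  have hLltP : L < P := by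
    have h1 := pl.L6
    omega
  have hPP1 : P1 ≤ P := le_trans (le_trans (le_max_left _ _) hL0) hLltP.le
  have hLL2 : (10 * C) ^ 2 ≤ L := hL2.trans (by exact_mod_cast le_trans (le_max_right _ _) hL0)
  have hP2 : 2 ≤ P := by omega
  have hPr0 : (0 : ℝ) < P := by exact_mod_cast (by omega : 0 < P)
  have hP4 : (4 : ℝ) ≤ P := by exact_mod_cast (by omega : 4 ≤ P)
  have hM0 : (0 : ℝ) < M := by exact_mod_cast sg.hM0
  -- the primes
  have hp : ∀ i : Ig L m1 s R, (pg L m1 s R i).Prime := fun i => (pg_mem i).1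
  have hq : ∀ i : I1 (Bk L m1 (ins R)) (Nat.log 2 m1),
      (p1 (Bk L m1 (ins R)) (Nat.log 2 m1) i).Prime := fun x => (bk_mem x.2.2).1
  have hq6 : ∀ i : I1 (Bk L m1 (ins R)) (Nat.log 2 m1),
      L ^ 6 < p1 (Bk L m1 (ins R)) (Nat.log 2 m1) i := fun x => (bk_mem x.2.2).2.1
  have hqP : ∀ i : I1 (Bk L m1 (ins R)) (Nat.log 2 m1),
      p1 (Bk L m1 (ins R)) (Nat.log 2 m1) i ≤ P := fun x =>
    le_trans (bk_mem x.2.2).2.2.1 (h2m.trans hddP.le)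
  have hpP : ∀ i : Ig L m1 s R, pg L m1 s R i ≤ P := fun i =>
    le_trans (pg_mem i).2.2.1 (h2s.trans hddP.le)
  have hL62 : (L : ℝ) ^ 6 ≤ (2 : ℝ) ^ m1 := by exact_mod_cast pl.L6
  have hLL6 : (L : ℝ) ≤ (L : ℝ) ^ 6 := by exact_mod_cast hLL6n
  have hz100 : (100 : ℝ) ≤ (2 : ℝ) ^ m1 := by linarith
  -- the elements
  have h0 : ∀ (i : Ig L m1 s R) (k : {b : ℤ // b ∈ R}), ¬ (pg L m1 s R i : ℤ) ∣ ar R k - 0 :=
    fun i k => (pg_mem i).2.2.2.2 _ (ar_mem k) _ (mem_ins0 R) (ar_ne_zero sg.h0 k)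
  have hd : ∀ (i : Ig L m1 s R) (k k' : {b : ℤ // b ∈ R}), k ≠ k' →
      ¬ (pg L m1 s R i : ℤ) ∣ ar R k - ar R k' :=
    fun i k k' hkk => (pg_mem i).2.2.2.2 _ (ar_mem k) _ (ar_mem k') fun h => hkk (ar_inj R h)
  -- the small sieve
  have hss := ss_some (ss_g sg)
  have hsx := sx_g sg
  have hPi1 : ∀ k, Pg L m1 R k ≤ 1 := fun k => hss.pi_le_one k
  -- constants
  have hRR1 : 1 ≤ RR G r := eg1_RR G r
  have hNR : N ≤ RR G r := pl.N_le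
  have hCKL : CK (2 * N + 2) ≤ L := (eg1_CK (by omega)).trans pb.ck
  have hCq : ∀ i : I1 (Bk L m1 (ins R)) (Nat.log 2 m1),
      CK (2 * N + 2) ≤ (p1 (Bk L m1 (ins R)) (Nat.log 2 m1) i : ℝ) ^ (1 / 4 : ℝ) := by
    intro i
    refine hCKL.trans ?_
    have h1 : (L : ℝ) ^ 4 ≤ (p1 (Bk L m1 (ins R)) (Nat.log 2 m1) i : ℝ) := by
      have h2 : L ^ 4 ≤ L ^ 6 := Nat.pow_le_pow_right (by omega) (by norm_num)
      have h3 := hq6 i
      exact_mod_cast (h2.trans h3.le)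
    calc (L : ℝ) = ((L : ℝ) ^ 4) ^ (1 / 4 : ℝ) := by
          rw [← Real.rpow_natCast, ← Real.rpow_mul hLpos.le]
          norm_num
      _ ≤ _ := Real.rpow_le_rpow (by positivity) h1 (by norm_num)
  have hy0 : wg L m1 s R ∅ = 1 := wg_empty _ _ _ _
  have hy1 : ∀ S, |wg L m1 s R S| ≤ 1 := fun S => wg_abs sg S
  have hD1 : (1 : ℝ) ≤ 2 ^ d := one_le_pow₀ (by norm_num)
  have hN : ∀ S : Finset (Ig L m1 s R), PP (pg L m1 s R) S ≤ 2 ^ d → S.card ≤ N := by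
    intro S hS
    rw [pl.hN]
    exact pg_card pl.m_pos S hS
  have hzN : (1 + 1 / (2 : ℝ) ^ m1) ^ N ≤ 3 / 2 := by
    have h1 : 1 + 1 / (2 : ℝ) ^ m1 ≤ Real.exp (1 / (2 : ℝ) ^ m1) := by
      have := Real.add_one_le_exp (1 / (2 : ℝ) ^ m1)
      linarith
    have h2 : (N : ℝ) * (1 / (2 : ℝ) ^ m1) ≤ 1 / 10 := by
      have h3 : (N : ℝ) ≤ L / 100 := by
        have h4 : ((100 * RR G r : ℕ) : ℝ) ≤ L := by exact_mod_cast pb.rl
        have h5 : (N : ℝ) ≤ (RR G r : ℝ) := by exact_mod_cast hNR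
        push_cast at h4
        linarith
      rw [mul_one_div, div_le_iff₀ (by positivity)]
      linarith
    have h3 : Real.exp (1 / 10) ≤ 3 / 2 := by
      have h4 := Real.exp_bound_div_one_sub_of_interval (x := 1 / 10) (by norm_num) (by norm_num)
      refine h4.trans ?_
      norm_num
    calc (1 + 1 / (2 : ℝ) ^ m1) ^ N ≤ Real.exp (1 / (2 : ℝ) ^ m1) ^ N :=
          pow_le_pow_left₀ (by positivity) h1 N
      _ = Real.exp (N * (1 / (2 : ℝ) ^ m1)) := (Real.exp_nat_mul _ _).symm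
      _ ≤ Real.exp (1 / 10) := Real.exp_le_exp.2 h2
      _ ≤ 3 / 2 := h3
  have hA := offA_g sg
  have hWl : (1 : ℝ) ≤ 2 ^ (m1 * (4 * r + 4)) := one_le_pow₀ (by norm_num)
  have hψ : ∀ c : ℤ, LowE (p1 (Bk L m1 (ins R)) (Nat.log 2 m1)) 0 (2 ^ (m1 * (4 * r + 4)))
      (fun n => psg L m1 r R (n - c)) := fun c =>
    lv_psi (fun i _ q hq => (bk_mem hq).1) (fun i _ q hq => eg1_blk hq) _ c
  have hGmL := W0_g sg
  have hlevg := lev_g sg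
  have hcnt := cnt_g sg (D := (2 : ℝ) ^ d) (by positivity)
  set Wl : ℝ := 2 ^ (m1 * (4 * r + 4)) with hWlE
  set D : ℝ := 2 ^ d with hDE
  set Gm : ℝ := (2 * D ^ 2 * (3 * Wl) ^ N) ^ 2 with hGmE
  have hG1 : ∀ n : ℤ, GZ (pg L m1 s R) (ar R) (psg L m1 r R)
      (Yd (pg L m1 s R) (wg L m1 s R) D) n ^ 2 ≤ Gm :=
    fun n => trW pg_two hss hN hy1 hcnt n
  have hW4 : (D * Wl ^ N) ^ 4 ≤ 2 ^ (L / 100) := by
    have h2 : (D * Wl ^ N) ^ 4 = ((D * Wl ^ N) ^ 2) ^ 2 := by ring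
    rw [h2]
    calc ((D * Wl ^ N) ^ 2) ^ 2 ≤ (2 ^ (L / 5000)) ^ 2 :=
          pow_le_pow_left₀ (by positivity) hlevg 2
      _ = 2 ^ (L / 5000 * 2) := (pow_mul _ _ _).symm
      _ ≤ 2 ^ (L / 100) := pow_le_pow_right₀ (by norm_num) (by omega)
  have hlevP : (D * Wl ^ N) ^ 2 ≤ (P : ℝ) ^ (1 / 1000 : ℝ) := hlevg.trans hlv5
  have hpr : ∀ i, (Sum.elim (p1 (Bk L m1 (ins R)) (Nat.log 2 m1)) (pg L m1 s R) i).Prime := by
    rintro (i | i)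
    · exact hq i
    · exact hp i
  have hpr6 : ∀ i, L ^ 6 < Sum.elim (p1 (Bk L m1 (ins R)) (Nat.log 2 m1)) (pg L m1 s R) i := by
    rintro (i | i)
    · exact hq6 i
    · exact (pg_mem i).2.2.2.1
  have hL61 : (1 : ℝ) ≤ (L : ℝ) ^ 6 := one_le_pow₀ (by linarith)
  have hB := hbv P hPP1 M b sg.hM0 sg.hMP hcop
    (I1 (Bk L m1 (ins R)) (Nat.log 2 m1) ⊕ Ig L m1 s R)
    (Sum.elim (p1 (Bk L m1 (ins R)) (Nat.log 2 m1)) (pg L m1 s R))
    hpr (elim_g L m1 s R) (fun i => sg.hM _ (hpr i) (hpr6 i)) ((L : ℝ) ^ 6) ((D * Wl ^ N) ^ 2) hL61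
    (fun i => by exact_mod_cast (hpr6 i).le) hlevP
  have hmain := e1g hq hp (elim_g L m1 s R) (P := P) (M := M) (r := b) hP2 hqP hpP hz100 pg_z
    (ar R) 0 h0 hd hsx hss.pi_nonneg hPi1 hss.pi_zero (eg1_CK0 _) hCq hy0 hy1 hD1 hN
    (by omega) hzN hA hWl hψ hG1 hB
  have hZ1 : 1 ≤ Zg L m1 s d R := Zg_one sg
  have hlogP0 : 0 ≤ Real.log P := Real.log_natCast_nonneg P
  have hlogPL : Real.log P ≤ L := by
    refine le_trans (Real.log_le_log hPr0 ?_) hlP4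
    linarith
  have hlog4 : Real.log (4 * P) ≤ 2 * Real.log P := by
    have h1 : Real.log (4 * P) ≤ Real.log ((P : ℝ) ^ 2) := by
      apply Real.log_le_log (by positivity)
      rw [pow_two]
      exact mul_le_mul_of_nonneg_right hP4 hPr0.le
    rw [Real.log_pow] at h1
    exact_mod_cast h1
  have herr1 := eg1_err1 (C := C) (X := (P : ℝ) / M) (lP := Real.log P) (L := L) hC
    (by positivity) (by omega) hlogP0 hlogPL hLL2
  have herr2 := eg1_err2 (L := L) (X := (P : ℝ) / M) (Gm := Gm) (W4 := (D * Wl ^ N) ^ 4)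
    (sP := √(P : ℝ)) (lP := Real.log (4 * P)) (Z := Zg L m1 s d R) hL6 hZ1 (sq_nonneg _) hGmL
    (by positivity) hW4 (Real.sqrt_nonneg _) hsP (Real.log_nonneg (by linarith)) hlP4 hX9
    (sz_w hL6).2
  have hsums := eg1_sums (P := P) (M := M) (b := b) hlog4
    (fun n => gg L m1 s d r R n ^ 2) (fun n => sq_nonneg _)
  refine le_trans ?_ (le_trans hmain hsums)
  have hZZ : ZZ {b : ℤ // b ∈ R} (pg L m1 s R) (wg L m1 s R) D (Pg L m1 R) = Zg L m1 s d R := rfl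
  rw [hZZ]
  have e1 := mul_le_mul_of_nonneg_left herr1 (by linarith : (0 : ℝ) ≤ Zg L m1 s d R)
  have e2 : Zg L m1 s d R * ((P : ℝ) / M) / L =
      Zg L m1 s d R * (((P : ℝ) / M) / (2 * L)) + Zg L m1 s d R * (((P : ℝ) / M) / (2 * L)) := by
    field_simp
    ring
  rw [e2]
  have e3 : 5 * Zg L m1 s d R *
      (C * (P / M) * Real.log P ^ 3 * ((L : ℝ) ^ 6) ^ (-(3 / 4) : ℝ)) = Zg L m1 s d R *
      (5 * (C * (P / M) * Real.log P ^ 3 * ((L : ℝ) ^ 6) ^ (-(3 / 4) : ℝ))) := by ring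
  rw [e3]
  have e4 : 1 / 3 * Zg L m1 s d R * psi M b P = Zg L m1 s d R / 3 * psi M b P := by
    ring
  rw [e4]
  linarith

end Pool.Agent.UW
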