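import Pool.Agent.UW.Gb
import Pool.Agent.VOID.AbsV
import Pool.Agent.AT.Prog

/-! UW/EG3.  The killed elements (the general version of UW/EU3).

PLAN.  Copy of UW/EU3 with the facts of `Gb` (`hy_g`, `hM_g`, `ss_g`, `cc1_g`, `cc_g`, `tail_g`, `cnt_g`, `W_g`, `offB_g`, `sz_g`,
`Zg_one`) in place of those of AV.  Here `n` is itself the attracted prime (`a0 = 0`, `H = 0`).  A prime `n > P > 2^(dd L)` has no
prime factor `≤ 2^s` (`pb.s_le`), so `psg n = 1` (`psiV_one`; the primes of the blocks are `≤ 2^m1 ≤ 2^s`); if `n - c` has no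
prime factor in `(L^6, 2^s]` then no `pg` divides it and `psg (n - c) = 1` (`bk_mem`, `pg_mem`), so `rough_idV` gives
`gg = GZ .. (Zm .. c)`.  Then the union bound over `c ∈ R`, `prog` (AT/Prog, `H = 0`) and `tr2'` (UW/MomU). -/

set_option autoImplicit false

open Finset Pool.Agent.RS Pool.Agent.AT Pool.Agent.VOID Pool.Agent.AV

namespace Pool.Agent.UW

/-- the final numerical step -/
private theorem eg3_num {A δ2 τ Z X Lr o W T k V B : ℝ} (hZ : 1 ≤ Z) (hX : 1 ≤ X)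
    (hL : 10 ^ 6 ≤ Lr) (hk0 : 0 ≤ k) (hkL : k ≤ Lr) (hT0 : 0 ≤ T) (hT : T ≤ 5 * X) (hA0 : 0 ≤ A)
    (hV : k * V ≤ A) (hV0 : 0 ≤ V) (hδ : 0 ≤ δ2) (hτ : 0 ≤ τ) (hd : 10 * A * δ2 ≤ 1 / (8 * Lr))
    (ho : o ≤ 1 / Lr ^ 5) (hW0 : 0 ≤ W) (hWX : 1000 * Lr ^ 4 * W ≤ X) (hB : B ≤ W) :
    k * (T * (2 * V ^ 2 * (δ2 + τ) * Z + 2 * o) + 2 * B) ≤
      ((10 * A * τ + 1 / Lr) * V + 1 / Lr ^ 2) * X * Z := by
  have hLr : 0 < Lr := by linarith
  have hL1 : 1 ≤ Lr := by linarith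
  have hXZ : X ≤ X * Z := le_mul_of_one_le_right (by linarith) hZ
  have hXZ0 : 0 ≤ X * Z := by linarith
  have h1 : T * (2 * (k * V) * (δ2 + τ) * Z) ≤ (10 * A * δ2 + 10 * A * τ) * (X * Z) := by
    calc T * (2 * (k * V) * (δ2 + τ) * Z) ≤ 5 * X * (2 * A * (δ2 + τ) * Z) := by
          refine mul_le_mul hT ?_ ?_ (by linarith)
          · refine mul_le_mul_of_nonneg_right ?_ (by linarith)
            exact mul_le_mul_of_nonneg_right (by linarith) (by linarith)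
          · exact mul_nonneg (mul_nonneg (mul_nonneg (by norm_num) (mul_nonneg hk0 hV0))
              (by linarith)) (by linarith)
      _ = _ := by ring
  have h2 : 10 * A * δ2 * (X * Z) ≤ 1 / (8 * Lr) * (X * Z) :=
    mul_le_mul_of_nonneg_right hd hXZ0
  have h2' : 1 / (8 * Lr) * (X * Z) ≤ 1 / Lr * (X * Z) := by
    refine mul_le_mul_of_nonneg_right ?_ hXZ0
    exact one_div_le_one_div_of_le hLr (by linarith)
  have hV1 : T * (2 * (k * V) * (δ2 + τ) * Z) * V ≤ (10 * A * τ + 1 / Lr) * (X * Z) * V := by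
    refine mul_le_mul_of_nonneg_right ?_ hV0
    linarith
  have hL4 : Lr ^ 3 ≤ Lr ^ 4 := pow_le_pow_right₀ hL1 (by norm_num)
  have h3 : k * T * (2 * o) ≤ 1 / (8 * Lr ^ 2) * (X * Z) := by
    have e1 : k * T * (2 * o) ≤ k * T * (2 * (1 / Lr ^ 5)) :=
      mul_le_mul_of_nonneg_left (by linarith) (mul_nonneg hk0 hT0)
    have e2 : k * T * (2 * (1 / Lr ^ 5)) ≤ Lr * (5 * X) * (2 * (1 / Lr ^ 5)) := by
      refine mul_le_mul_of_nonneg_right ?_ (by positivity)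
      exact mul_le_mul hkL hT hT0 hLr.le
    have e3 : Lr * (5 * X) * (2 * (1 / Lr ^ 5)) = 10 * X / Lr ^ 4 := by
      field_simp
      ring
    have e4 : 10 * X / Lr ^ 4 ≤ 1 / (8 * Lr ^ 2) * X := by
      rw [div_mul_eq_mul_div, one_mul, div_le_div_iff₀ (by positivity) (by positivity)]
      have e5 : 80 * Lr ^ 2 ≤ Lr ^ 4 := by
        have e8 : 80 ≤ Lr ^ 2 := by nlinarith
        calc 80 * Lr ^ 2 ≤ Lr ^ 2 * Lr ^ 2 := mul_le_mul_of_nonneg_right e8 (sq_nonneg _)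
          _ = Lr ^ 4 := by ring
      have e6 : (80 * Lr ^ 2) * X ≤ Lr ^ 4 * X :=
        mul_le_mul_of_nonneg_right e5 (by linarith)
      linarith
    have e7 : 1 / (8 * Lr ^ 2) * X ≤ 1 / (8 * Lr ^ 2) * (X * Z) :=
      mul_le_mul_of_nonneg_left hXZ (by positivity)
    linarith
  have h4 : k * (2 * B) ≤ 1 / (8 * Lr ^ 2) * (X * Z) := by
    have e1 : k * (2 * B) ≤ Lr * (2 * W) := by
      calc k * (2 * B) ≤ k * (2 * W) := mul_le_mul_of_nonneg_left (by linarith) hk0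
        _ ≤ Lr * (2 * W) := mul_le_mul_of_nonneg_right hkL (by linarith)
    have e2 : Lr * (2 * W) ≤ 1 / (8 * Lr ^ 2) * X := by
      rw [div_mul_eq_mul_div, one_mul, le_div_iff₀ (by positivity)]
      have e5 : (Lr ^ 3) * W ≤ Lr ^ 4 * W := mul_le_mul_of_nonneg_right hL4 hW0
      have e6 : 0 ≤ Lr ^ 4 * W := by positivity
      have e7 : Lr * (2 * W) * (8 * Lr ^ 2) = 16 * (Lr ^ 3 * W) := by ring
      rw [e7]
      linarith
    have e7 : 1 / (8 * Lr ^ 2) * X ≤ 1 / (8 * Lr ^ 2) * (X * Z) :=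
      mul_le_mul_of_nonneg_left hXZ (by positivity)
    linarith
  have h5 : k * (T * (2 * V ^ 2 * (δ2 + τ) * Z + 2 * o) + 2 * B) =
      T * (2 * (k * V) * (δ2 + τ) * Z) * V + k * T * (2 * o) + k * (2 * B) := by ring
  have h6 : ((10 * A * τ + 1 / Lr) * V + 1 / Lr ^ 2) * X * Z =
      (10 * A * τ + 1 / Lr) * (X * Z) * V + 8 * (1 / (8 * Lr ^ 2) * (X * Z)) := by
    field_simp
  have h7 : 0 ≤ 1 / (8 * Lr ^ 2) * (X * Z) := by
    exact mul_nonneg (by positivity) hXZ0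
  rw [h5, h6]
  linarith

open Classical in
theorem eg3 {CV0 CV : ℝ} {G r P L M : ℕ} {R : Finset ℤ} {g s m1 d N : ℕ}
    (sg : SG CV0 CV G r P L M R g s m1 d N) (b : ℕ) :
    ∑ n ∈ (Nw P 0 M b).filter (fun n : ℕ => n.Prime ∧ ∃ c ∈ R, ∀ q : ℕ, q.Prime → L ^ 6 < q →
        q ≤ 2 ^ s → ¬ (q : ℤ) ∣ (n : ℤ) - c),
      gg L m1 s d r R (n : ℤ) ^ 2 ≤
      ((10 * CV0 * RR G r * Real.exp (1 - ((r : ℝ) + 1) ^ 2 / (400 * ((1000 : ℕ) : ℝ))) + 1 / L) *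
        Pg L m1 R 1 + 1 / L ^ 2) * ((P : ℝ) / M) * Zg L m1 s d R := by
  have pb := sg.pb
  have pl := pb.pl
  have hL6 := pb.big
  have hLr : (10 : ℝ) ^ 6 ≤ L := by exact_mod_cast hL6
  have hL0 : (0 : ℝ) < L := by linarith
  obtain ⟨z1, -, -, z6, z7, -⟩ := sz_g sg
  obtain ⟨zw, -⟩ := sz_w hL6
  have hss := ss_g sg
  have hhy := hy_g L m1 s R
  have hMp := hM_g (m1 := m1) (s := s) (R := R) sg.hM
  have hZ1 := Zg_one sg
  have hcard : Fintype.card {b : ℤ // b ∈ R} = R.card := Fintype.card_coe R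
  have hkLr : (R.card : ℝ) ≤ L := by
    have := sg.hkL
    exact_mod_cast (by omega : R.card ≤ L)
  have hψ0 : ∀ m, 0 ≤ psg L m1 r R m := hss.nonneg
  have hms : (2 : ℕ) ^ m1 ≤ 2 ^ s := Nat.pow_le_pow_right (by norm_num) pl.m_le_s
  have hsd : (2 : ℕ) ^ s ≤ 2 ^ dd L := Nat.pow_le_pow_right (by norm_num) pb.s_le
  obtain ⟨n0, T, hT, hprog⟩ := prog (P := P) (H := 0) sg.hM0 (Nat.zero_le _) b
  -- primes are rough
  have hpr : ∀ n ∈ Nw P 0 M b, n.Prime → psg L m1 r R ((n : ℤ) - 0) = 1 := by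
    intro n hn hp
    have hn1 : P < n := by
      unfold Nw at hn
      rw [mem_filter, mem_Ioc] at hn
      omega
    refine psiV_one fun i hi q hq hdv => ?_
    rw [sub_zero] at hdv
    have h7 : q ∣ n := by exact_mod_cast hdv
    have h8 := (Nat.prime_dvd_prime_iff_eq (bk_mem hq).1 hp).1 h7
    have h9 := (bk_mem hq).2.2.1
    omega
  -- one element
  have hone : ∀ j : {b : ℤ // b ∈ R},
      ∑ n ∈ (Nw P 0 M b).filter (fun n : ℕ => n.Prime ∧ ∀ q : ℕ, q.Prime → L ^ 6 < q →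
        q ≤ 2 ^ s → ¬ (q : ℤ) ∣ (n : ℤ) - (j : ℤ)),
      gg L m1 s d r R (n : ℤ) ^ 2 ≤
      ∑ t ∈ range T, (psg L m1 r R (n0 + M * (t : ℤ) - 0) *
          psg L m1 r R (n0 + M * (t : ℤ) - ar R j)) *
        GZ (pg L m1 s R) (ar R) (psg L m1 r R) (Zm (pg L m1 s R) (wg L m1 s R) (2 ^ d) j)
          (n0 + M * (t : ℤ)) ^ 2 := by
    intro j
    have h1 := hprog (fun n => (psg L m1 r R (n - 0) * psg L m1 r R (n - ar R j)) *
        GZ (pg L m1 s R) (ar R) (psg L m1 r R)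
          (Zm (pg L m1 s R) (wg L m1 s R) (2 ^ d) j) n ^ 2)
      (fun _ => True) (fun n => mul_nonneg (mul_nonneg (hψ0 _) (hψ0 _)) (sq_nonneg _))
    simp only [Finset.filter_true] at h1
    refine le_trans ?_ h1
    refine le_trans (sum_le_sum fun n hn => ?_)
      (sum_le_sum_of_subset_of_nonneg (filter_subset _ _)
        fun n _ _ => mul_nonneg (mul_nonneg (hψ0 _) (hψ0 _)) (sq_nonneg _))
    obtain ⟨h2, h3, h3'⟩ := mem_filter.1 hn
    have k2 := hpr n h2 h3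
    have k4 : psg L m1 r R ((n : ℤ) - ar R j) = 1 := by
      refine psiV_one fun i hi q hq => ?_
      exact h3' q (bk_mem hq).1 (bk_mem hq).2.1 ((bk_mem hq).2.2.1.trans hms)
    have h10 : gg L m1 s d r R (n : ℤ) =
        GZ (pg L m1 s R) (ar R) (psg L m1 r R)
          (Zm (pg L m1 s R) (wg L m1 s R) (2 ^ d) j) (n : ℤ) :=
      rough_idV pg_two (ar R) (psg L m1 r R) (wg L m1 s R) (wg_empty _ _ _ _) j (n : ℤ)
        (fun i => h3' _ (pg_mem i).1 (pg_mem i).2.2.2.1 (pg_mem i).2.2.1) k4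
    rw [h10, k2, k4, one_mul, one_mul]
  -- union bound
  have hun : ∑ n ∈ (Nw P 0 M b).filter (fun n : ℕ => n.Prime ∧ ∃ c ∈ R, ∀ q : ℕ, q.Prime →
        L ^ 6 < q → q ≤ 2 ^ s → ¬ (q : ℤ) ∣ (n : ℤ) - c),
      gg L m1 s d r R (n : ℤ) ^ 2 ≤
      ∑ j : {b : ℤ // b ∈ R},
        ∑ n ∈ (Nw P 0 M b).filter (fun n : ℕ => n.Prime ∧ ∀ q : ℕ, q.Prime → L ^ 6 < q →
          q ≤ 2 ^ s → ¬ (q : ℤ) ∣ (n : ℤ) - (j : ℤ)),
        gg L m1 s d r R (n : ℤ) ^ 2 := by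
    rw [sum_filter]
    simp_rw [sum_filter]
    rw [sum_comm]
    refine sum_le_sum fun n _ => ?_
    have hnn : ∀ j : {b : ℤ // b ∈ R}, 0 ≤ (if n.Prime ∧ ∀ q : ℕ, q.Prime → L ^ 6 < q →
          q ≤ 2 ^ s → ¬ (q : ℤ) ∣ (n : ℤ) - (j : ℤ) then
        gg L m1 s d r R (n : ℤ) ^ 2 else 0) := by
      intro j
      split_ifs
      · exact sq_nonneg _
      · exact le_rfl
    by_cases h : n.Prime ∧ ∃ c ∈ R, ∀ q : ℕ, q.Prime → L ^ 6 < q → q ≤ 2 ^ s →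
        ¬ (q : ℤ) ∣ (n : ℤ) - c
    · rw [if_pos h]
      obtain ⟨h0, c, hc, h3⟩ := h
      have h4 := single_le_sum (f := fun j : {b : ℤ // b ∈ R} =>
        if n.Prime ∧ ∀ q : ℕ, q.Prime → L ^ 6 < q →
          q ≤ 2 ^ s → ¬ (q : ℤ) ∣ (n : ℤ) - (j : ℤ) then
        gg L m1 s d r R (n : ℤ) ^ 2 else 0) (fun j _ => hnn j) (mem_univ ⟨c, hc⟩)
      simp only [if_pos (And.intro h0 h3)] at h4
      exact h4
    · rw [if_neg h]
      exact sum_nonneg fun j _ => hnn j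
  refine (le_of_eq ?_).trans (hun.trans ((sum_le_sum fun j _ => hone j).trans ?_))
  · refine sum_congr ?_ fun _ _ => rfl
    ext n
    simp only [mem_filter]
  -- the moments
  have hS : (1 : ℝ) ≤ (2 : ℝ) ^ s := one_le_pow₀ (by norm_num)
  have htr := fun j : {b : ℤ // b ∈ R} => tr2' hhy hMp hss (D := (2 : ℝ) ^ d)
    (D2 := (2 : ℝ) ^ d / 2 ^ s) (y := wg L m1 s R)
    (fun S hS => by
      rw [pl.hN]
      exact pg_card pl.m_pos S hS)
    (fun S => wg_abs sg S)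
    (fun U => cc1_g sg U)
    (cc_g sg)
    (tail_g sg)
    (cnt_g sg (pow_nonneg zero_le_two _)) n0 T j
  refine (sum_le_sum fun j _ => htr j).trans ?_
  rw [sum_const, card_univ, hcard, nsmul_eq_mul]
  have hoff := offB_g sg
  have hRR : (0 : ℝ) ≤ RR G r := Nat.cast_nonneg _
  have hCV := sg.CV0pos
  have hm1 : (0 : ℝ) < m1 := by exact_mod_cast pl.m_pos
  have hk0 : (0 : ℝ) ≤ R.card := Nat.cast_nonneg _
  have hV : (R.card : ℝ) * Pg L m1 R 1 ≤ CV0 * RR G r := by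
    refine sg.hkV.trans (mul_le_mul_of_nonneg_left ?_ hCV.le)
    rw [div_le_iff₀ hm1]
    exact_mod_cast pl.L_le
  have hT5 : (T : ℝ) ≤ 5 * ((P : ℝ) / M) := by
    refine hT.trans ?_
    rw [mul_div_assoc]
    linarith
  have hV10 : 0 ≤ Pg L m1 R 1 := hss.V1_nonneg
  have e3 : (0 : ℝ) ≤ 2 ^ (L / 100) := pow_nonneg zero_le_two _
  have e4 : 1000 * (L : ℝ) ^ 4 * 2 ^ (L / 100) ≤ (P : ℝ) / M := zw.trans z1
  have e5 := W_g sg
  have hd := pb.dl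
  have hd2 : 10 * (CV0 * RR G r) * (2 * (RR G r : ℝ) / 2 ^ m1) ^ 2 ≤ 1 / (8 * (L : ℝ)) := by
    have h1 : CV0 ≤ |CV| := sg.CVle.trans (le_abs_self CV)
    have h2 : 20 * CV0 * RR G r * (2 * (RR G r : ℝ) / 2 ^ m1) ^ 2 ≤ 1 / (4 * (L : ℝ)) := by
      refine le_trans ?_ hd
      refine mul_le_mul_of_nonneg_right ?_ (sq_nonneg _)
      refine mul_le_mul_of_nonneg_right ?_ hRR
      linarith
    have h3 : 1 / (8 * (L : ℝ)) = (1 / (4 * (L : ℝ))) / 2 := by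
      field_simp
      norm_num
    rw [h3]
    linarith
  generalize (2 : ℝ) ^ (L / 100) = W at e3 e4 e5
  generalize (2 * ((2 : ℝ) ^ d) ^ 2 * (3 * 2 ^ (m1 * (4 * r + 4))) ^ N) ^ 2 *
    (2 ^ (m1 * (4 * r + 4))) ^ 2 = B at e5 ⊢
  have hfin := eg3_num (τ := Real.exp (1 - ((r : ℝ) + 1) ^ 2 / (400 * ((1000 : ℕ) : ℝ))))
    hZ1 z6 hLr hk0 hkLr (Nat.cast_nonneg T) hT5 (mul_nonneg hCV.le hRR) hV
    hV10 (sq_nonneg _) (Real.exp_pos _).le hd2 hoff e3 e4 e5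
  refine hfin.trans (le_of_eq ?_)
  ring

end Pool.Agent.UW
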