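import Pool.Agent.UW.Gb
import Pool.Agent.VOID.AbsV
import Pool.Agent.AT.Prog

/-! UW/EG4.  The large values of the weight (the general version of UW/EU4).

PLAN.  Copy of UW/EU4 (or of AV/EV4, with `tr1'` of UW/MomU and the extra factor `psg n`, `a0 = 0`) with the facts of `Gb`
(`hy_g`, `hM_g`, `ss_g`, `wg_abs`, `sup_g`, `cnt_g`, `W_g`, `offB_g`, `sz_g`, `Zg_one`).  The attracted prime is `n` itself
(`H = 0`); `psg n = 1` for a prime `n > P > 2^(dd L) ≥ 2^s` (`psiV_one`).  `n ∉ R` gives `n - c ≠ 0` in `sup_g`, and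
`|n - c| ≤ 4 P + 2^L ≤ 2^(L+4)`. -/

set_option autoImplicit false

open Finset Pool.Agent.RS Pool.Agent.AT Pool.Agent.VOID Pool.Agent.AV

namespace Pool.Agent.UW

/-- the final numerical step -/
private theorem eg4_num {A B Z X Lr V q o W T k : ℝ} (hZ : 1 ≤ Z) (hX : 1 ≤ X)
    (hL : 10 ^ 6 ≤ Lr) (hk0 : 0 ≤ k) (hkL : k ≤ Lr) (hT0 : 0 ≤ T) (hT : T ≤ 5 * X)
    (hA' : q ≤ 2 * A) (hq : 0 ≤ q) (hV0 : 0 ≤ V)
    (ho : o ≤ 1 / Lr ^ 5) (hW0 : 0 ≤ W) (hWX : 1000 * Lr ^ 4 * W ≤ X) (hB : B ≤ W) :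
    T * (V * (q * Z) + 2 * k * o) + 2 * k * B ≤ (10 * A * V + 1 / Lr ^ 2) * X * Z := by
  have hLr : 0 < Lr := by linarith
  have hL1 : 1 ≤ Lr := by linarith
  have hXZ : X ≤ X * Z := le_mul_of_one_le_right (by linarith) hZ
  have h1 : T * (V * (q * Z)) ≤ 10 * A * V * X * Z := by
    calc T * (V * (q * Z)) ≤ 5 * X * (V * (2 * A * Z)) := by
          refine mul_le_mul hT ?_ (mul_nonneg hV0 (mul_nonneg hq (by linarith))) (by linarith)
          refine mul_le_mul_of_nonneg_left ?_ hV0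
          exact mul_le_mul_of_nonneg_right hA' (by linarith)
      _ = 10 * A * V * X * Z := by ring
  have h2 : T * (2 * k * o) ≤ 1 / (2 * Lr ^ 2) * (X * Z) := by
    have e1 : T * (2 * k * o) ≤ T * (2 * Lr * (1 / Lr ^ 5)) := by
      refine mul_le_mul_of_nonneg_left ?_ hT0
      calc 2 * k * o ≤ 2 * k * (1 / Lr ^ 5) := mul_le_mul_of_nonneg_left ho (by positivity)
        _ ≤ 2 * Lr * (1 / Lr ^ 5) := mul_le_mul_of_nonneg_right (by linarith) (by positivity)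
    have e2 : T * (2 * Lr * (1 / Lr ^ 5)) ≤ 5 * X * (2 * Lr * (1 / Lr ^ 5)) :=
      mul_le_mul_of_nonneg_right hT (by positivity)
    have e3 : 5 * X * (2 * Lr * (1 / Lr ^ 5)) = 10 * X / Lr ^ 4 := by
      field_simp
      ring
    have e4 : 10 * X / Lr ^ 4 ≤ 1 / (2 * Lr ^ 2) * X := by
      rw [div_mul_eq_mul_div, one_mul, div_le_div_iff₀ (by positivity) (by positivity)]
      have e5 : 20 * Lr ^ 2 ≤ Lr ^ 4 := by
        have e8 : 20 ≤ Lr ^ 2 := by nlinarith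
        calc 20 * Lr ^ 2 ≤ Lr ^ 2 * Lr ^ 2 := mul_le_mul_of_nonneg_right e8 (sq_nonneg _)
          _ = Lr ^ 4 := by ring
      have e6 : (20 * Lr ^ 2) * X ≤ Lr ^ 4 * X :=
        mul_le_mul_of_nonneg_right e5 (by linarith)
      linarith
    have e7 : 1 / (2 * Lr ^ 2) * X ≤ 1 / (2 * Lr ^ 2) * (X * Z) :=
      mul_le_mul_of_nonneg_left hXZ (by positivity)
    linarith
  have h3 : 2 * k * B ≤ 1 / (2 * Lr ^ 2) * (X * Z) := by
    have e1 : 2 * k * B ≤ 2 * Lr * W := by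
      calc 2 * k * B ≤ 2 * k * W := mul_le_mul_of_nonneg_left hB (by positivity)
        _ ≤ 2 * Lr * W := mul_le_mul_of_nonneg_right (by linarith) hW0
    have e2 : 2 * Lr * W ≤ 1 / (2 * Lr ^ 2) * X := by
      rw [div_mul_eq_mul_div, one_mul, le_div_iff₀ (by positivity)]
      have hL4 : Lr ^ 3 ≤ Lr ^ 4 := pow_le_pow_right₀ hL1 (by norm_num)
      have e5 : (Lr ^ 3) * W ≤ Lr ^ 4 * W := mul_le_mul_of_nonneg_right hL4 hW0
      have e6 : 0 ≤ Lr ^ 4 * W := by positivity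
      have e7 : 2 * Lr * W * (2 * Lr ^ 2) = 4 * (Lr ^ 3 * W) := by ring
      rw [e7]
      linarith
    have e7 : 1 / (2 * Lr ^ 2) * X ≤ 1 / (2 * Lr ^ 2) * (X * Z) :=
      mul_le_mul_of_nonneg_left hXZ (by positivity)
    linarith
  have h4 : T * (V * (q * Z) + 2 * k * o) = T * (V * (q * Z)) + T * (2 * k * o) := by ring
  have h5 : (10 * A * V + 1 / Lr ^ 2) * X * Z =
      10 * A * V * X * Z + 1 / (2 * Lr ^ 2) * (X * Z) + 1 / (2 * Lr ^ 2) * (X * Z) := by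
    field_simp
    ring
  rw [h4, h5]
  linarith

open Classical in
theorem eg4 {CV0 CV : ℝ} {G r P L M : ℕ} {R : Finset ℤ} {g s m1 d N : ℕ}
    (sg : SG CV0 CV G r P L M R g s m1 d N) (b : ℕ) {K' : ℝ} (hK : 0 < K') :
    ∑ n ∈ (Nw P 0 M b).filter (fun n : ℕ => n.Prime ∧ (n : ℤ) ∉ R ∧
        Real.exp (2 * (2 ^ (RR G r + 4) * E2 G r) * K') * Zg L m1 s d R <
          gg L m1 s d r R (n : ℤ) ^ 2),
      gg L m1 s d r R (n : ℤ) ^ 2 ≤
      1 / K' * (10 * (CV0 * RR G r + RR G r) * Pg L m1 R 1 + 1 / L ^ 2) * ((P : ℝ) / M) *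
        Zg L m1 s d R := by
  have pb := sg.pb
  have pl := pb.pl
  have hL6 := pb.big
  have hLr : (10 : ℝ) ^ 6 ≤ L := by exact_mod_cast hL6
  have hL0 : (0 : ℝ) < L := by linarith
  obtain ⟨z1, -, -, z6, z7, -⟩ := sz_g sg
  obtain ⟨zw, -⟩ := sz_w hL6
  have hss := ss_g sg
  have hhy := hy_g L m1 s R
  have hMp := hM_g (m1 := m1) (s := s) (R := R) sg.hM
  have hZ1 := Zg_one sg
  have hcard : Fintype.card {b : ℤ // b ∈ R} = R.card := Fintype.card_coe R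
  have hkLr : (R.card : ℝ) ≤ L := by
    have := sg.hkL
    exact_mod_cast (by omega : R.card ≤ L)
  set Bs : ℝ := 2 ^ (RR G r + 4) * E2 G r with hBs
  have hBs0 : 0 ≤ Bs := by
    rw [hBs]
    unfold E2
    exact mul_nonneg (pow_nonneg zero_le_two _) (Real.exp_pos _).le
  have hψ0 : ∀ m, 0 ≤ psg L m1 r R m := hss.nonneg
  set X : ℤ → ℝ := fun n => ∑ j, psg L m1 r R (n - ar R j) with hX
  have hX0 : ∀ n, 0 ≤ X n := fun n => sum_nonneg fun j _ => hψ0 _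
  have hms : (2 : ℕ) ^ m1 ≤ 2 ^ s := Nat.pow_le_pow_right (by norm_num) pl.m_le_s
  have hsd : (2 : ℕ) ^ s ≤ 2 ^ dd L := Nat.pow_le_pow_right (by norm_num) pb.s_le
  obtain ⟨n0, T, hT, hprog⟩ := prog (P := P) (H := 0) sg.hM0 (Nat.zero_le _) b
  have hwin : ∀ n ∈ Nw P 0 M b, P < n ∧ n ≤ 4 * P := by
    intro n hn
    unfold Nw at hn
    rw [mem_filter, mem_Ioc] at hn
    omega
  -- primes are rough
  have hpr : ∀ n ∈ Nw P 0 M b, n.Prime → psg L m1 r R ((n : ℤ) - 0) = 1 := by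
    intro n hn hp
    have hn1 := (hwin n hn).1
    refine psiV_one fun i hi q hq hdv => ?_
    rw [sub_zero] at hdv
    have h7 : q ∣ n := by exact_mod_cast hdv
    have h8 := (Nat.prime_dvd_prime_iff_eq (bk_mem hq).1 hp).1 h7
    have h9 := (bk_mem hq).2.2.1
    omega
  -- the pointwise bound
  have hpt : ∀ n ∈ Nw P 0 M b, (n : ℤ) ∉ R → Real.exp (2 * Bs * K') * Zg L m1 s d R <
      gg L m1 s d r R (n : ℤ) ^ 2 → K' < X (n : ℤ) := by
    intro n hn hnR hlt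
    by_contra hcon
    push Not at hcon
    have h1 : |gg L m1 s d r R (n : ℤ)| ≤ Real.exp (Bs * X (n : ℤ)) := by
      refine supV (ar R) (wg L m1 s R) (wg_empty _ _ _ _) (2 ^ d) (n : ℤ) hψ0 fun j => ?_
      refine sup_g sg ?_ ?_
      · intro h0
        apply hnR
        have h2 : (n : ℤ) = (j : ℤ) := by
          unfold ar at h0
          omega
        rw [h2]
        exact j.2
      · have hj : |(j : ℤ)| ≤ 2 ^ L := sg.hR _ j.2
        have hn2 := (hwin n hn).2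
        have hP4 := sg.hP4
        have h3 : (n : ℤ) ≤ 2 ^ L := by
          have : n ≤ 2 ^ L := hn2.trans hP4
          exact_mod_cast this
        have h4 : (0 : ℤ) ≤ (n : ℤ) := Int.natCast_nonneg _
        have h5 : (2 : ℤ) ^ (L + 4) = 16 * 2 ^ L := by
          rw [pow_add]
          ring
        have h6 : |(n : ℤ) - ar R j| ≤ |(n : ℤ)| + |(j : ℤ)| := abs_sub _ _
        rw [abs_of_nonneg h4] at h6
        rw [h5]
        linarith
    have h2 : gg L m1 s d r R (n : ℤ) ^ 2 ≤ Real.exp (2 * Bs * K') := by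
      rw [← sq_abs]
      refine (pow_le_pow_left₀ (abs_nonneg _) h1 2).trans ?_
      rw [← Real.exp_nat_mul]
      refine Real.exp_le_exp.2 ?_
      push_cast
      have := mul_le_mul_of_nonneg_left hcon hBs0
      linarith
    have h3 : Real.exp (2 * Bs * K') ≤ Real.exp (2 * Bs * K') * Zg L m1 s d R :=
      le_mul_of_one_le_right (Real.exp_pos _).le hZ1
    linarith
  -- summation
  have hsum : ∑ n ∈ (Nw P 0 M b).filter (fun n : ℕ => n.Prime ∧ (n : ℤ) ∉ R ∧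
        Real.exp (2 * Bs * K') * Zg L m1 s d R < gg L m1 s d r R (n : ℤ) ^ 2),
      gg L m1 s d r R (n : ℤ) ^ 2 ≤
      1 / K' * ∑ t ∈ range T, psg L m1 r R (n0 + M * (t : ℤ) - 0) *
        ((∑ j, psg L m1 r R (n0 + M * (t : ℤ) - ar R j)) *
          GZ (pg L m1 s R) (ar R) (psg L m1 r R) (Yd (pg L m1 s R) (wg L m1 s R) (2 ^ d))
            (n0 + M * (t : ℤ)) ^ 2) := by
    have hF0 : ∀ n : ℤ, 0 ≤ psg L m1 r R (n - 0) * ((∑ j, psg L m1 r R (n - ar R j)) *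
        GZ (pg L m1 s R) (ar R) (psg L m1 r R) (Yd (pg L m1 s R) (wg L m1 s R) (2 ^ d)) n ^ 2) :=
      fun n => mul_nonneg (hψ0 _) (mul_nonneg (hX0 n) (sq_nonneg _))
    have h1 := hprog (fun n => psg L m1 r R (n - 0) * ((∑ j, psg L m1 r R (n - ar R j)) *
        GZ (pg L m1 s R) (ar R) (psg L m1 r R) (Yd (pg L m1 s R) (wg L m1 s R) (2 ^ d)) n ^ 2))
      (fun _ => True) hF0
    simp only [Finset.filter_true] at h1
    refine le_trans ?_ (mul_le_mul_of_nonneg_left h1 (one_div_pos.2 hK).le)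
    rw [mul_sum]
    refine le_trans (sum_le_sum fun n hn => ?_)
      (sum_le_sum_of_subset_of_nonneg (filter_subset _ _)
        fun n _ _ => mul_nonneg (one_div_pos.2 hK).le (hF0 _))
    obtain ⟨h2, h3, h4, h5⟩ := mem_filter.1 hn
    have h6 := hpt n h2 h4 h5
    have h7 : 1 ≤ 1 / K' * X (n : ℤ) := by
      rw [one_div, inv_mul_eq_div, le_div_iff₀ hK, one_mul]
      exact h6.le
    have h8 := mul_le_mul_of_nonneg_right h7 (sq_nonneg (gg L m1 s d r R (n : ℤ)))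
    rw [hpr n h2 h3, one_mul]
    rw [one_mul, mul_assoc] at h8
    exact h8
  refine hsum.trans ?_
  have htr := tr1' hhy hMp hss (D := (2 : ℝ) ^ d) (y := wg L m1 s R)
    (fun S hS => by
      rw [pl.hN]
      exact pg_card pl.m_pos S hS)
    (fun S => wg_abs sg S)
    (cnt_g sg (pow_nonneg zero_le_two _)) n0 T
  have h1 : ∑ t ∈ range T, psg L m1 r R (n0 + M * (t : ℤ) - 0) *
        ((∑ j, psg L m1 r R (n0 + M * (t : ℤ) - ar R j)) *
          GZ (pg L m1 s R) (ar R) (psg L m1 r R) (Yd (pg L m1 s R) (wg L m1 s R) (2 ^ d))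
            (n0 + M * (t : ℤ)) ^ 2) ≤
      (10 * (CV0 * RR G r + RR G r) * Pg L m1 R 1 + 1 / L ^ 2) * ((P : ℝ) / M) *
        Zg L m1 s d R := by
    refine htr.trans ?_
    rw [hcard]
    have hoff := offB_g sg
    have hRR : (0 : ℝ) ≤ RR G r := Nat.cast_nonneg _
    have hCV := sg.CV0pos
    have hm1 : (0 : ℝ) < m1 := by exact_mod_cast pl.m_pos
    have hk0 : (0 : ℝ) ≤ R.card := Nat.cast_nonneg _
    have hV : (R.card : ℝ) * Pg L m1 R 1 ≤ CV0 * RR G r := by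
      refine sg.hkV.trans (mul_le_mul_of_nonneg_left ?_ hCV.le)
      rw [div_le_iff₀ hm1]
      exact_mod_cast pl.L_le
    have hNle : (N : ℝ) ≤ RR G r := by exact_mod_cast pl.N_le
    have hT5 : (T : ℝ) ≤ 5 * ((P : ℝ) / M) := by
      refine hT.trans ?_
      rw [mul_div_assoc]
      linarith
    have hV10 : 0 ≤ Pg L m1 R 1 := hss.V1_nonneg
    have e1 : 2 * (R.card : ℝ) * Pg L m1 R 1 + 2 * (N : ℝ) ≤ 2 * (CV0 * RR G r + RR G r) := by
      linarith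
    have e2 : 0 ≤ 2 * (R.card : ℝ) * Pg L m1 R 1 + 2 * (N : ℝ) :=
      add_nonneg (mul_nonneg (mul_nonneg zero_le_two hk0) hV10)
        (mul_nonneg zero_le_two (Nat.cast_nonneg N))
    have e3 : (0 : ℝ) ≤ 2 ^ (L / 100) := pow_nonneg zero_le_two _
    have e4 : 1000 * (L : ℝ) ^ 4 * 2 ^ (L / 100) ≤ (P : ℝ) / M := zw.trans z1
    have e5 := W_g sg
    generalize (2 : ℝ) ^ (L / 100) = W at e3 e4 e5
    generalize (2 * ((2 : ℝ) ^ d) ^ 2 * (3 * 2 ^ (m1 * (4 * r + 4))) ^ N) ^ 2 *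
      (2 ^ (m1 * (4 * r + 4))) ^ 2 = B at e5 ⊢
    exact eg4_num hZ1 z6 hLr hk0 hkLr (Nat.cast_nonneg T) hT5 e1 e2 hV10 hoff e3 e4 e5
  calc 1 / K' * _ ≤ 1 / K' * ((10 * (CV0 * RR G r + RR G r) * Pg L m1 R 1 + 1 / L ^ 2) *
        ((P : ℝ) / M) * Zg L m1 s d R) :=
        mul_le_mul_of_nonneg_left h1 (one_div_pos.2 hK).le
    _ = _ := by ring

end Pool.Agent.UW
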