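import Pool.Agent.UW.MomU
import Pool.Agent.AV.Sd
import Pool.Agent.VOID.AbsV
import Pool.Agent.AT.Prog

/-! UW/EU3.  The killed elements, for the `n` with `n + j0` prime.

PLAN (compare AV/EV3, AV/EV4, AV/EV2).  Union bound over `j ∈ R`.  If `n + j0` and `n + j` are primes, `n ∈ Nw P H M b`, then
(`n > 2^(dd L)`, `sz`) no `py` divides `n + j`, `psy (n + j) = 1`, `psy (n + j0) = 1` (`psiV_one`, as `hrough` in AV/EV2),
so `rough_idV` (VOID/Rough) gives `gy = GZ .. (Zm .. j)`, hence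
`gy ^ 2 = (psy (n - a0) * psy (n - ax R j)) * GZ .. (Zm .. j) n ^ 2` with `a0 = -j0`.
`prog` (AT/Prog) and `tr2'` (UW/MomU) with `δ = 2 RR/2^m1` (`cc_y`), `τ = exp(1 - (r+1)^2/(400*1000))` (`tail_y`),
`D = 2^d`, `D2 = 2^d/2^s`, `cc_wt_abs`, `C = 2 (2^d)^2` (`cnt_y`), `hs = ss_py pb sd.h4 (ao a0 (ax R))` (all elements in
`(-L^2, L^2)` and different because `j0 ∉ R`), `h = hy_py (ax R)`:
`∑ ≤ R.card * (T (2 V1^2 (δ²+τ) Zy + 2 offB) + 2 W)`, `V1 = Piy L m1 1`, `W ≤ 2^(L/100)` by `pb.w2`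
(`3^N ≤ 3^(3 RR)`, `Wψ^N ≤ Wψ^(N+2)`, `2^d ≤ 2^d 2^dd 2^dd`), `T ≤ 5 P/M`.
`R.card V1 ≤ CV0 L/m1 ≤ CV0 RR`, so the main term is `≤ 10 CV0 RR V1 (δ² + τ) (P/M) Zy`, and `10 CV0 RR δ² ≤ 1/L` (`pb.dl`,
`CV0 ≤ CV`).  The rest: `offB_le` (`≤ 1/L^5`), `sz_w`, `R.card ≤ L`, `1 ≤ Zy`. -/

set_option autoImplicit false

open Finset Pool.Agent.RS Pool.Agent.AT Pool.Agent.VOID Pool.Agent.AV

namespace Pool.Agent.UW

/-- the final numerical step -/
private theorem eu3_num {A δ2 τ Z X Lr o W T k V B : ℝ} (hZ : 1 ≤ Z) (hX : 1 ≤ X)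
    (hL : 10 ^ 6 ≤ Lr) (hk0 : 0 ≤ k) (hkL : k ≤ Lr) (hT0 : 0 ≤ T) (hT : T ≤ 5 * X) (hA0 : 0 ≤ A)
    (hV : k * V ≤ A) (hV0 : 0 ≤ V) (hδ : 0 ≤ δ2) (hτ : 0 ≤ τ) (hd : 10 * A * δ2 ≤ 1 / (8 * Lr))
    (ho : o ≤ 1 / Lr ^ 5) (hW0 : 0 ≤ W) (hWX : 1000 * Lr ^ 4 * W ≤ X) (hB : B ≤ W) :
    k * (T * (2 * V ^ 2 * (δ2 + τ) * Z + 2 * o) + 2 * B) ≤
      ((10 * A * τ + 1 / Lr) * V + 1 / Lr ^ 2) * X * Z := by
  have hLr : 0 < Lr := by linarith
  have hL1 : 1 ≤ Lr := by linarith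
  have hXZ : X ≤ X * Z := le_mul_of_one_le_right (by linarith) hZ
  have hXZ0 : 0 ≤ X * Z := by linarith
  have h1 : T * (2 * (k * V) * (δ2 + τ) * Z) ≤ (10 * A * δ2 + 10 * A * τ) * (X * Z) := by
    calc T * (2 * (k * V) * (δ2 + τ) * Z) ≤ 5 * X * (2 * A * (δ2 + τ) * Z) := by
          refine mul_le_mul hT ?_ ?_ (by linarith)
          · refine mul_le_mul_of_nonneg_right ?_ (by linarith)
            exact mul_le_mul_of_nonneg_right (by linarith) (by linarith)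
          · exact mul_nonneg (mul_nonneg (mul_nonneg (by norm_num) (mul_nonneg hk0 hV0))
              (by linarith)) (by linarith)
      _ = _ := by ring
  have h2 : 10 * A * δ2 * (X * Z) ≤ 1 / (8 * Lr) * (X * Z) :=
    mul_le_mul_of_nonneg_right hd hXZ0
  have h2' : 1 / (8 * Lr) * (X * Z) ≤ 1 / Lr * (X * Z) := by
    refine mul_le_mul_of_nonneg_right ?_ hXZ0
    exact one_div_le_one_div_of_le hLr (by linarith)
  have hV1 : T * (2 * (k * V) * (δ2 + τ) * Z) * V ≤ (10 * A * τ + 1 / Lr) * (X * Z) * V := by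
    refine mul_le_mul_of_nonneg_right ?_ hV0
    linarith
  have hL4 : Lr ^ 3 ≤ Lr ^ 4 := pow_le_pow_right₀ hL1 (by norm_num)
  have h3 : k * T * (2 * o) ≤ 1 / (8 * Lr ^ 2) * (X * Z) := by
    have e1 : k * T * (2 * o) ≤ k * T * (2 * (1 / Lr ^ 5)) :=
      mul_le_mul_of_nonneg_left (by linarith) (mul_nonneg hk0 hT0)
    have e2 : k * T * (2 * (1 / Lr ^ 5)) ≤ Lr * (5 * X) * (2 * (1 / Lr ^ 5)) := by
      refine mul_le_mul_of_nonneg_right ?_ (by positivity)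
      exact mul_le_mul hkL hT hT0 hLr.le
    have e3 : Lr * (5 * X) * (2 * (1 / Lr ^ 5)) = 10 * X / Lr ^ 4 := by
      field_simp
      ring
    have e4 : 10 * X / Lr ^ 4 ≤ 1 / (8 * Lr ^ 2) * X := by
      rw [div_mul_eq_mul_div, one_mul, div_le_div_iff₀ (by positivity) (by positivity)]
      have e5 : 80 * Lr ^ 2 ≤ Lr ^ 4 := by
        have e8 : 80 ≤ Lr ^ 2 := by nlinarith
        calc 80 * Lr ^ 2 ≤ Lr ^ 2 * Lr ^ 2 := mul_le_mul_of_nonneg_right e8 (sq_nonneg _)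
          _ = Lr ^ 4 := by ring
      have e6 : (80 * Lr ^ 2) * X ≤ Lr ^ 4 * X :=
        mul_le_mul_of_nonneg_right e5 (by linarith)
      linarith
    have e7 : 1 / (8 * Lr ^ 2) * X ≤ 1 / (8 * Lr ^ 2) * (X * Z) :=
      mul_le_mul_of_nonneg_left hXZ (by positivity)
    linarith
  have h4 : k * (2 * B) ≤ 1 / (8 * Lr ^ 2) * (X * Z) := by
    have e1 : k * (2 * B) ≤ Lr * (2 * W) := by
      calc k * (2 * B) ≤ k * (2 * W) := mul_le_mul_of_nonneg_left (by linarith) hk0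
        _ ≤ Lr * (2 * W) := mul_le_mul_of_nonneg_right hkL (by linarith)
    have e2 : Lr * (2 * W) ≤ 1 / (8 * Lr ^ 2) * X := by
      rw [div_mul_eq_mul_div, one_mul, le_div_iff₀ (by positivity)]
      have e5 : (Lr ^ 3) * W ≤ Lr ^ 4 * W := mul_le_mul_of_nonneg_right hL4 hW0
      have e6 : 0 ≤ Lr ^ 4 * W := by positivity
      have e7 : Lr * (2 * W) * (8 * Lr ^ 2) = 16 * (Lr ^ 3 * W) := by ring
      rw [e7]
      linarith
    have e7 : 1 / (8 * Lr ^ 2) * X ≤ 1 / (8 * Lr ^ 2) * (X * Z) :=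
      mul_le_mul_of_nonneg_left hXZ (by positivity)
    linarith
  have h5 : k * (T * (2 * V ^ 2 * (δ2 + τ) * Z + 2 * o) + 2 * B) =
      T * (2 * (k * V) * (δ2 + τ) * Z) * V + k * T * (2 * o) + k * (2 * B) := by ring
  have h6 : ((10 * A * τ + 1 / Lr) * V + 1 / Lr ^ 2) * X * Z =
      (10 * A * τ + 1 / Lr) * (X * Z) * V + 8 * (1 / (8 * Lr ^ 2) * (X * Z)) := by
    field_simp
  have h7 : 0 ≤ 1 / (8 * Lr ^ 2) * (X * Z) := by
    exact mul_nonneg (by positivity) hXZ0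
  rw [h5, h6]
  linarith

/-- the element `j0` together with `R` -/
private theorem eu3_ao {L H : ℕ} {R : Finset ℕ} (hH : H ≤ L ^ 2) (hR : R ⊆ range H) {j0 : ℕ}
    (hj0 : j0 < H) (hj0R : j0 ∉ R) :
    (∀ o, |ao (-(j0 : ℤ)) (ax R) o| < L ^ 2) ∧ Function.Injective (ao (-(j0 : ℤ)) (ax R)) := by
  obtain ⟨ha, hinj⟩ := ax_ok hH hR
  refine ⟨?_, ?_⟩
  · intro o
    cases o with
    | none =>
      change |(-(j0 : ℤ))| < L ^ 2
      rw [abs_neg, Nat.abs_cast]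
      exact_mod_cast lt_of_lt_of_le hj0 hH
    | some j => exact ha j
  · have hne : ∀ j : {j : ℕ // j ∈ R}, (-(j0 : ℤ)) ≠ ax R j := by
      intro j hj
      unfold ax at hj
      have h1 := neg_injective hj
      have h2 : j0 = (j : ℕ) := by exact_mod_cast h1
      exact hj0R (h2 ▸ j.2)
    intro o o' h
    cases o with
    | none =>
      cases o' with
      | none => rfl
      | some j => exact absurd h (hne j)
    | some j =>
      cases o' with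
      | none => exact absurd h.symm (hne j)
      | some j' => exact congrArg some (hinj h)

theorem eu3 {CV0 CV : ℝ} {G r P L M H : ℕ} {R : Finset ℕ} {g s m1 d N : ℕ}
    (sd : SD CV0 CV G r P L M H R g s m1 d N) (b j0 : ℕ) (hj0 : j0 < H) (hj0R : j0 ∉ R) :
    ∑ n ∈ (Nw P H M b).filter (fun n => (n + j0).Prime ∧ ∃ j ∈ R, (n + j).Prime),
      gy L m1 s d r R (n : ℤ) ^ 2 ≤
      ((10 * CV0 * RR G r * Real.exp (1 - ((r : ℝ) + 1) ^ 2 / (400 * ((1000 : ℕ) : ℝ))) + 1 / L) *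
        Piy L m1 1 + 1 / L ^ 2) * ((P : ℝ) / M) * Zy L m1 s d R := by
  have pb := sd.pb
  have pl := pb.pl
  have hL6 := pb.big
  have hLr : (10 : ℝ) ^ 6 ≤ L := by exact_mod_cast hL6
  have hL0 : (0 : ℝ) < L := by linarith
  obtain ⟨z1, -, -, -, z5, z6, z7⟩ := sz sd.hL hL6 sd.hM0 sd.hMP sd.hH
  obtain ⟨zw, -⟩ := sz_w hL6
  obtain ⟨ha, hinj⟩ := ax_ok sd.hH sd.hR
  obtain ⟨hao, haoi⟩ := eu3_ao sd.hH sd.hR hj0 hj0R
  have hss := ss_py pb sd.h4 (ao (-(j0 : ℤ)) (ax R)) hao haoi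
  have hhy := hy_py (m1 := m1) (by omega : 2 ≤ L) (ax R) ha hinj
  have hMp := hM_py (m1 := m1) sd.hM
  have hZ1 := Zy_one pb R
  have hcard : Fintype.card {j : ℕ // j ∈ R} = R.card := Fintype.card_coe R
  have hkL2 : Fintype.card {j : ℕ // j ∈ R} ≤ L + 2 := by
    rw [hcard]
    have := sd.hkL
    omega
  have hkLr : (R.card : ℝ) ≤ L := by exact_mod_cast sd.hkL
  have hψ0 : ∀ m, 0 ≤ psy L m1 r m := hss.nonneg
  have hp2 : ∀ i : Iy L m1, 2 ≤ py L m1 i := fun i => (py_mem i).1.two_le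
  obtain ⟨n0, T, hT, hprog⟩ := prog sd.hM0 z5 b
  -- primes are rough
  have hro : ∀ n ∈ Nw P H M b, ∀ i : ℕ, (n + i).Prime →
      (∀ q : ℕ, q.Prime → q ≤ 2 ^ dd L → ¬ (q : ℤ) ∣ (n : ℤ) - (-(i : ℤ))) ∧
      psy L m1 r ((n : ℤ) - (-(i : ℤ))) = 1 := by
    intro n hn i hp
    obtain ⟨n1, -⟩ := z7 b n hn
    have h5 : (n : ℤ) - (-(i : ℤ)) = ((n + i : ℕ) : ℤ) := by
      push_cast
      ring
    have h6 : ∀ q : ℕ, q.Prime → q ≤ 2 ^ dd L → ¬ (q : ℤ) ∣ (n : ℤ) - (-(i : ℤ)) := by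
      intro q hq hle hdv
      rw [h5] at hdv
      have h7 : q ∣ n + i := by exact_mod_cast hdv
      have h8 := (Nat.prime_dvd_prime_iff_eq hq hp).1 h7
      omega
    refine ⟨h6, ?_⟩
    refine psiV_one fun i hi q hq => h6 q (bk_mem hq).1 ?_
    refine (bk_mem hq).2.2.1.trans (Nat.pow_le_pow_right (by norm_num) ?_)
    exact pl.m_le_s.trans pb.s_le
  -- one element
  have hone : ∀ j : {j : ℕ // j ∈ R},
      ∑ n ∈ (Nw P H M b).filter (fun n => (n + j0).Prime ∧ (n + (j : ℕ)).Prime),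
      gy L m1 s d r R (n : ℤ) ^ 2 ≤
      ∑ t ∈ range T, (psy L m1 r (n0 + M * (t : ℤ) - (-(j0 : ℤ))) *
          psy L m1 r (n0 + M * (t : ℤ) - ax R j)) *
        GZ (py L m1) (ax R) (psy L m1 r) (Zm (py L m1) (yy L m1 s) (2 ^ d) j)
          (n0 + M * (t : ℤ)) ^ 2 := by
    intro j
    have h1 := hprog (fun n => (psy L m1 r (n - (-(j0 : ℤ))) * psy L m1 r (n - ax R j)) *
        GZ (py L m1) (ax R) (psy L m1 r) (Zm (py L m1) (yy L m1 s) (2 ^ d) j) n ^ 2)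
      (fun _ => True) (fun n => mul_nonneg (mul_nonneg (hψ0 _) (hψ0 _)) (sq_nonneg _))
    simp only [Finset.filter_true] at h1
    refine le_trans ?_ h1
    refine le_trans (sum_le_sum fun n hn => ?_)
      (sum_le_sum_of_subset_of_nonneg (filter_subset _ _)
        fun n _ _ => mul_nonneg (mul_nonneg (hψ0 _) (hψ0 _)) (sq_nonneg _))
    obtain ⟨h2, h3, h3'⟩ := mem_filter.1 hn
    obtain ⟨-, k2⟩ := hro n h2 j0 h3
    obtain ⟨k3, k4⟩ := hro n h2 (j : ℕ) h3'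
    have h10 : gy L m1 s d r R (n : ℤ) =
        GZ (py L m1) (ax R) (psy L m1 r) (Zm (py L m1) (yy L m1 s) (2 ^ d) j) (n : ℤ) :=
      rough_idV hp2 (ax R) (psy L m1 r) (yy L m1 s) (wt_empty _ _) j (n : ℤ)
        (fun i => k3 _ (py_mem i).1 (py_mem i).2.2.1) k4
    have k5 : psy L m1 r ((n : ℤ) - ax R j) = 1 := k4
    rw [h10, k2, k5, one_mul, one_mul]
  -- union bound
  have hun : ∑ n ∈ (Nw P H M b).filter (fun n => (n + j0).Prime ∧ ∃ j ∈ R, (n + j).Prime),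
      gy L m1 s d r R (n : ℤ) ^ 2 ≤
      ∑ j : {j : ℕ // j ∈ R},
        ∑ n ∈ (Nw P H M b).filter (fun n => (n + j0).Prime ∧ (n + (j : ℕ)).Prime),
        gy L m1 s d r R (n : ℤ) ^ 2 := by
    rw [sum_filter]
    simp_rw [sum_filter]
    rw [sum_comm]
    refine sum_le_sum fun n _ => ?_
    have hnn : ∀ j : {j : ℕ // j ∈ R}, 0 ≤ (if (n + j0).Prime ∧ (n + (j : ℕ)).Prime then
        gy L m1 s d r R (n : ℤ) ^ 2 else 0) := by
      intro j
      split_ifs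
      · exact sq_nonneg _
      · exact le_rfl
    by_cases h : (n + j0).Prime ∧ ∃ j ∈ R, (n + j).Prime
    · rw [if_pos h]
      obtain ⟨h0, j, hj, h3⟩ := h
      have h4 := single_le_sum (f := fun j : {j : ℕ // j ∈ R} =>
        if (n + j0).Prime ∧ (n + (j : ℕ)).Prime then
        gy L m1 s d r R (n : ℤ) ^ 2 else 0) (fun j _ => hnn j) (mem_univ ⟨j, hj⟩)
      simp only [if_pos (And.intro h0 h3)] at h4
      exact h4
    · rw [if_neg h]
      exact sum_nonneg fun j _ => hnn j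
  refine (le_of_eq ?_).trans (hun.trans ((sum_le_sum fun j _ => hone j).trans ?_))
  · refine sum_congr ?_ fun _ _ => rfl
    ext n
    simp only [mem_filter]
  -- the moments
  have hS : (1 : ℝ) ≤ (2 : ℝ) ^ s := one_le_pow₀ (by norm_num)
  have htr := fun j : {j : ℕ // j ∈ R} => tr2' hhy hMp hss (D := (2 : ℝ) ^ d)
    (D2 := (2 : ℝ) ^ d / 2 ^ s) (y := yy L m1 s)
    (fun S hS => by
      rw [pl.hN]
      exact py_card pl.m_pos S hS)
    (fun S => wt_abs hp2 (hlog_y pb sd.hG3).2 S)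
    (fun U => cc_wt_abs hp2 (hlog_y pb sd.hG3).1 U)
    (cc_y pb sd.hG3)
    (tail_y pb (sd.CV0pos.trans_le sd.CVle) sd.hG2 sd.hG3
      (sd.hkV.trans (mul_le_mul_of_nonneg_right sd.CVle (div_nonneg hL0.le (Nat.cast_nonneg _)))))
    (cnt_y (by omega : 4 ≤ L) {j : ℕ // j ∈ R} hkL2 (pow_nonneg zero_le_two _)) n0 T j
  refine (sum_le_sum fun j _ => htr j).trans ?_
  rw [sum_const, card_univ, hcard, nsmul_eq_mul]
  have hoff := offB_le pb {j : ℕ // j ∈ R} hkL2 pl.N_le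
  have hRR : (0 : ℝ) ≤ RR G r := Nat.cast_nonneg _
  have hCV := sd.CV0pos
  have hm1 : (0 : ℝ) < m1 := by exact_mod_cast pl.m_pos
  have hk0 : (0 : ℝ) ≤ R.card := Nat.cast_nonneg _
  have hV : (R.card : ℝ) * Piy L m1 1 ≤ CV0 * RR G r := by
    refine sd.hkV.trans (mul_le_mul_of_nonneg_left ?_ hCV.le)
    rw [div_le_iff₀ hm1]
    exact_mod_cast pl.L_le
  have hT5 : (T : ℝ) ≤ 5 * ((P : ℝ) / M) := by
    refine hT.trans ?_
    rw [mul_div_assoc]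
    linarith
  have hV10 : 0 ≤ Piy L m1 1 := hss.V1_nonneg
  have e3 : (0 : ℝ) ≤ 2 ^ (L / 100) := pow_nonneg zero_le_two _
  have e4 : 1000 * (L : ℝ) ^ 4 * 2 ^ (L / 100) ≤ (P : ℝ) / M := zw.trans z1
  have e5 : (2 * ((2 : ℝ) ^ d) ^ 2 * (3 * 2 ^ (m1 * (4 * r + 4))) ^ N) ^ 2 *
      (2 ^ (m1 * (4 * r + 4))) ^ 2 ≤ 2 ^ (L / 100) := by
    refine le_trans ?_ pb.w2
    have hW1 : (1 : ℝ) ≤ 2 ^ (m1 * (4 * r + 4)) := one_le_pow₀ (by norm_num)
    have hd1 : (1 : ℝ) ≤ 2 ^ dd L := one_le_pow₀ (by norm_num)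
    have hd0 : (0 : ℝ) ≤ 2 ^ d := by positivity
    refine mul_le_mul_of_nonneg_right ?_ (sq_nonneg _)
    refine pow_le_pow_left₀ (by positivity) ?_ 2
    refine mul_le_mul ?_ ?_ (by positivity) (by positivity)
    · refine mul_le_mul_of_nonneg_left ?_ (by norm_num)
      refine pow_le_pow_left₀ hd0 ?_ 2
      calc (2 : ℝ) ^ d ≤ 2 ^ d * 2 ^ dd L := le_mul_of_one_le_right hd0 hd1
        _ ≤ 2 ^ d * 2 ^ dd L * 2 ^ dd L := le_mul_of_one_le_right (by positivity) hd1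
    · rw [mul_pow]
      refine mul_le_mul ?_ ?_ (by positivity) (by positivity)
      · exact pow_le_pow_right₀ (by norm_num) (pl.N_le.trans (by omega))
      · exact pow_le_pow_right₀ hW1 (by omega)
  have hd := pb.dl
  have hd2 : 10 * (CV0 * RR G r) * (2 * (RR G r : ℝ) / 2 ^ m1) ^ 2 ≤ 1 / (8 * (L : ℝ)) := by
    have h1 : CV0 ≤ |CV| := sd.CVle.trans (le_abs_self CV)
    have h2 : 20 * CV0 * RR G r * (2 * (RR G r : ℝ) / 2 ^ m1) ^ 2 ≤ 1 / (4 * (L : ℝ)) := by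
      refine le_trans ?_ hd
      refine mul_le_mul_of_nonneg_right ?_ (sq_nonneg _)
      refine mul_le_mul_of_nonneg_right ?_ hRR
      linarith
    have h3 : 1 / (8 * (L : ℝ)) = (1 / (4 * (L : ℝ))) / 2 := by
      field_simp
      norm_num
    rw [h3]
    linarith
  generalize (2 : ℝ) ^ (L / 100) = W at e3 e4 e5
  generalize (2 * ((2 : ℝ) ^ d) ^ 2 * (3 * 2 ^ (m1 * (4 * r + 4))) ^ N) ^ 2 *
    (2 ^ (m1 * (4 * r + 4))) ^ 2 = B at e5 ⊢
  have hfin := eu3_num (τ := Real.exp (1 - ((r : ℝ) + 1) ^ 2 / (400 * ((1000 : ℕ) : ℝ))))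
    hZ1 z6 hLr hk0 hkLr (Nat.cast_nonneg T) hT5 (mul_nonneg hCV.le hRR) hV
    hV10 (sq_nonneg _) (Real.exp_pos _).le hd2 hoff e3 e4 e5
  refine hfin.trans (le_of_eq ?_)
  ring

end Pool.Agent.UW
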