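import Pool.Agent.UW.MomU
import Pool.Agent.AV.Sd
import Pool.Agent.VOID.AbsV
import Pool.Agent.AT.Prog

/-! UW/EU4.  The large values of the weight carry little mass on the `n` with `n + j0` prime. -/

set_option autoImplicit false

open Finset Pool.Agent.RS Pool.Agent.AT Pool.Agent.VOID Pool.Agent.AV

namespace Pool.Agent.UW

private theorem eu4_sq : ∀ L : ℕ, 4 ≤ L → L ^ 2 ≤ 2 ^ L := by
  intro L hL
  induction L, hL using Nat.le_induction with
  | base => norm_num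
  | succ n hn ih =>
    rw [pow_succ 2 n]
    nlinarith

/-- the final numerical step -/
private theorem eu4_num {A B Z X Lr q o W T k V : ℝ} (hZ : 1 ≤ Z) (hX : 1 ≤ X) (hL : 10 ^ 6 ≤ Lr)
    (hk0 : 0 ≤ k) (hkL : k ≤ Lr) (hT0 : 0 ≤ T) (hT : T ≤ 5 * X) (hA' : q ≤ 2 * A)
    (hq : 0 ≤ q) (hV : 0 ≤ V) (ho : o ≤ 1 / Lr ^ 5) (hW0 : 0 ≤ W) (hWX : 1000 * Lr ^ 4 * W ≤ X)
    (hB : B ≤ W) :
    T * (V * (q * Z) + 2 * k * o) + 2 * k * B ≤ (10 * A * V + 1 / Lr ^ 2) * X * Z := by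
  have hLr : 0 < Lr := by linarith
  have hL1 : 1 ≤ Lr := by linarith
  have hXZ : X ≤ X * Z := le_mul_of_one_le_right (by linarith) hZ
  have hXZ0 : 0 ≤ X * Z := by linarith
  have hA0 : 0 ≤ A := by linarith
  have h1 : T * (V * (q * Z)) ≤ 10 * A * V * (X * Z) := by
    calc T * (V * (q * Z)) ≤ 5 * X * (V * (2 * A * Z)) := by
          refine mul_le_mul hT ?_ (mul_nonneg hV (mul_nonneg hq (by linarith))) (by positivity)
          refine mul_le_mul_of_nonneg_left ?_ hV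
          exact mul_le_mul_of_nonneg_right hA' (by linarith)
      _ = 10 * A * V * (X * Z) := by ring
  have h2 : T * (2 * k * o) ≤ 1 / (2 * Lr ^ 2) * (X * Z) := by
    have e0 : 2 * k * o ≤ 2 * Lr * (1 / Lr ^ 5) := by
      calc 2 * k * o ≤ 2 * k * (1 / Lr ^ 5) := mul_le_mul_of_nonneg_left ho (by positivity)
        _ ≤ 2 * Lr * (1 / Lr ^ 5) := mul_le_mul_of_nonneg_right (by linarith) (by positivity)
    have e1 : T * (2 * k * o) ≤ T * (2 * Lr * (1 / Lr ^ 5)) :=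
      mul_le_mul_of_nonneg_left e0 hT0
    have e2 : T * (2 * Lr * (1 / Lr ^ 5)) ≤ 5 * X * (2 * Lr * (1 / Lr ^ 5)) :=
      mul_le_mul_of_nonneg_right hT (by positivity)
    have e3 : 5 * X * (2 * Lr * (1 / Lr ^ 5)) = 10 * X / Lr ^ 4 := by
      field_simp
      ring
    have e4 : 10 * X / Lr ^ 4 ≤ 1 / (2 * Lr ^ 2) * X := by
      rw [div_mul_eq_mul_div, one_mul, div_le_div_iff₀ (by positivity) (by positivity)]
      have e5 : 20 * Lr ^ 2 ≤ Lr ^ 4 := by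
        have e8 : 20 ≤ Lr ^ 2 := by nlinarith
        calc 20 * Lr ^ 2 ≤ Lr ^ 2 * Lr ^ 2 := mul_le_mul_of_nonneg_right e8 (sq_nonneg _)
          _ = Lr ^ 4 := by ring
      have e6 : (20 * Lr ^ 2) * X ≤ Lr ^ 4 * X :=
        mul_le_mul_of_nonneg_right e5 (by linarith)
      linarith
    have e7 : 1 / (2 * Lr ^ 2) * X ≤ 1 / (2 * Lr ^ 2) * (X * Z) :=
      mul_le_mul_of_nonneg_left hXZ (by positivity)
    linarith
  have hL4 : Lr ^ 3 ≤ Lr ^ 4 := pow_le_pow_right₀ hL1 (by norm_num)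
  have h3 : 2 * k * B ≤ 1 / (2 * Lr ^ 2) * (X * Z) := by
    have e1 : 2 * k * B ≤ Lr * (2 * W) := by
      calc 2 * k * B ≤ 2 * k * W := mul_le_mul_of_nonneg_left hB (by positivity)
        _ = k * (2 * W) := by ring
        _ ≤ Lr * (2 * W) := mul_le_mul_of_nonneg_right hkL (by linarith)
    have e2 : Lr * (2 * W) ≤ 1 / (2 * Lr ^ 2) * X := by
      rw [div_mul_eq_mul_div, one_mul, le_div_iff₀ (by positivity)]
      have e5 : (Lr ^ 3) * W ≤ Lr ^ 4 * W := mul_le_mul_of_nonneg_right hL4 hW0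
      have e6 : 0 ≤ Lr ^ 4 * W := by positivity
      have e7 : Lr * (2 * W) * (2 * Lr ^ 2) = 4 * (Lr ^ 3 * W) := by ring
      rw [e7]
      linarith
    have e7 : 1 / (2 * Lr ^ 2) * X ≤ 1 / (2 * Lr ^ 2) * (X * Z) :=
      mul_le_mul_of_nonneg_left hXZ (by positivity)
    linarith
  have h4 : T * (V * (q * Z) + 2 * k * o) = T * (V * (q * Z)) + T * (2 * k * o) := by ring
  have h5 : (10 * A * V + 1 / Lr ^ 2) * X * Z =
      10 * A * V * (X * Z) + 1 / (2 * Lr ^ 2) * (X * Z) + 1 / (2 * Lr ^ 2) * (X * Z) := by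
    field_simp
    ring
  rw [h4, h5]
  linarith

/-- the element `j0` together with `R` -/
private theorem eu4_ao {L H : ℕ} {R : Finset ℕ} (hH : H ≤ L ^ 2) (hR : R ⊆ range H) {j0 : ℕ}
    (hj0 : j0 < H) (hj0R : j0 ∉ R) :
    (∀ o, |ao (-(j0 : ℤ)) (ax R) o| < L ^ 2) ∧ Function.Injective (ao (-(j0 : ℤ)) (ax R)) := by
  obtain ⟨ha, hinj⟩ := ax_ok hH hR
  refine ⟨?_, ?_⟩
  · intro o
    cases o with
    | none =>
      change |(-(j0 : ℤ))| < L ^ 2
      rw [abs_neg, Nat.abs_cast]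
      exact_mod_cast lt_of_lt_of_le hj0 hH
    | some j => exact ha j
  · have hne : ∀ j : {j : ℕ // j ∈ R}, (-(j0 : ℤ)) ≠ ax R j := by
      intro j hj
      unfold ax at hj
      have h1 := neg_injective hj
      have h2 : j0 = (j : ℕ) := by exact_mod_cast h1
      exact hj0R (h2 ▸ j.2)
    intro o o' h
    cases o with
    | none =>
      cases o' with
      | none => rfl
      | some j => exact absurd h (hne j)
    | some j =>
      cases o' with
      | none => exact absurd h.symm (hne j)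
      | some j' => exact congrArg some (hinj h)

open Classical in
theorem eu4 {CV0 CV : ℝ} {G r P L M H : ℕ} {R : Finset ℕ} {g s m1 d N : ℕ}
    (sd : SD CV0 CV G r P L M H R g s m1 d N) (b j0 : ℕ) (hj0 : j0 < H) (hj0R : j0 ∉ R)
    {K' : ℝ} (hK : 0 < K') :
    ∑ n ∈ (Nw P H M b).filter (fun n : ℕ => (n + j0).Prime ∧
        Real.exp (2 * (2 ^ (RR G r + 4) * E2 G r) * K') * Zy L m1 s d R <
          gy L m1 s d r R (n : ℤ) ^ 2),
      gy L m1 s d r R (n : ℤ) ^ 2 ≤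
      1 / K' * (10 * (CV0 * RR G r + RR G r) * Piy L m1 1 + 1 / L ^ 2) * ((P : ℝ) / M) *
        Zy L m1 s d R := by
  have pb := sd.pb
  have pl := pb.pl
  have hL6 := pb.big
  have hLr : (10 : ℝ) ^ 6 ≤ L := by exact_mod_cast hL6
  have hL0 : (0 : ℝ) < L := by linarith
  obtain ⟨z1, -, -, -, z5, z6, z7⟩ := sz sd.hL hL6 sd.hM0 sd.hMP sd.hH
  obtain ⟨zw, -⟩ := sz_w hL6
  obtain ⟨ha, hinj⟩ := ax_ok sd.hH sd.hR
  obtain ⟨hao, haoi⟩ := eu4_ao sd.hH sd.hR hj0 hj0R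
  have hss := ss_py pb sd.h4 (ao (-(j0 : ℤ)) (ax R)) hao haoi
  have hhy := hy_py (m1 := m1) (by omega : 2 ≤ L) (ax R) ha hinj
  have hMp := hM_py (m1 := m1) sd.hM
  have hZ1 := Zy_one pb R
  have hcard : Fintype.card {j : ℕ // j ∈ R} = R.card := Fintype.card_coe R
  have hkL2 : Fintype.card {j : ℕ // j ∈ R} ≤ L + 2 := by
    rw [hcard]
    have := sd.hkL
    omega
  have hkLr : (R.card : ℝ) ≤ L := by exact_mod_cast sd.hkL
  set Bs : ℝ := 2 ^ (RR G r + 4) * E2 G r with hBs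
  have hBs0 : 0 ≤ Bs := by
    rw [hBs]
    unfold E2
    exact mul_nonneg (pow_nonneg zero_le_two _) (Real.exp_pos _).le
  set X : ℤ → ℝ := fun n => ∑ j, psy L m1 r (n - ax R j) with hX
  have hψ0 : ∀ m, 0 ≤ psy L m1 r m := hss.nonneg
  have hX0 : ∀ n, 0 ≤ X n := fun n => sum_nonneg fun j _ => hψ0 _
  -- the pointwise bound
  have hpt : ∀ n ∈ Nw P H M b, Real.exp (2 * Bs * K') * Zy L m1 s d R <
      gy L m1 s d r R (n : ℤ) ^ 2 → K' < X (n : ℤ) := by
    intro n hn hlt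
    by_contra hcon
    push Not at hcon
    obtain ⟨n1, n2⟩ := z7 b n hn
    have h1 : |gy L m1 s d r R (n : ℤ)| ≤ Real.exp (Bs * X (n : ℤ)) := by
      refine supV (ax R) (yy L m1 s) (wt_empty _ _) (2 ^ d) (n : ℤ) hψ0 fun j => ?_
      refine sup_y pb sd.hG3 ?_ ?_
      · unfold ax
        have : 0 < n := lt_of_le_of_lt (Nat.zero_le _) n1
        omega
      · have hj : (j : ℕ) < H := mem_range.1 (sd.hR j.2)
        have hH := sd.hH
        have hsq := eu4_sq L (by omega)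
        have h2 : (2 : ℕ) ^ (L + 4) = 2 ^ (L + 3) + 2 ^ (L + 3) := by
          rw [pow_succ 2 (L + 3)]
          ring
        have h3 : (2 : ℕ) ^ L ≤ 2 ^ (L + 3) := Nat.pow_le_pow_right (by norm_num) (by omega)
        have h4 : n + (j : ℕ) ≤ 2 ^ (L + 4) := by omega
        have h5 : (n : ℤ) - ax R j = ((n + (j : ℕ) : ℕ) : ℤ) := by
          unfold ax
          push_cast
          ring
        rw [h5, abs_of_nonneg (Int.natCast_nonneg _)]
        exact_mod_cast h4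
    have h2 : gy L m1 s d r R (n : ℤ) ^ 2 ≤ Real.exp (2 * Bs * K') := by
      rw [← sq_abs]
      refine (pow_le_pow_left₀ (abs_nonneg _) h1 2).trans ?_
      rw [← Real.exp_nat_mul]
      refine Real.exp_le_exp.2 ?_
      push_cast
      have := mul_le_mul_of_nonneg_left hcon hBs0
      linarith
    have h3 : Real.exp (2 * Bs * K') ≤ Real.exp (2 * Bs * K') * Zy L m1 s d R :=
      le_mul_of_one_le_right (Real.exp_pos _).le hZ1
    linarith
  -- primes are rough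
  have hro : ∀ n ∈ Nw P H M b, (n + j0).Prime →
      psy L m1 r ((n : ℤ) - (-(j0 : ℤ))) = 1 := by
    intro n hn hp
    obtain ⟨n1, -⟩ := z7 b n hn
    have h5 : (n : ℤ) - (-(j0 : ℤ)) = ((n + j0 : ℕ) : ℤ) := by
      push_cast
      ring
    have h6 : ∀ q : ℕ, q.Prime → q ≤ 2 ^ dd L → ¬ (q : ℤ) ∣ (n : ℤ) - (-(j0 : ℤ)) := by
      intro q hq hle hdv
      rw [h5] at hdv
      have h7 : q ∣ n + j0 := by exact_mod_cast hdv
      have h8 := (Nat.prime_dvd_prime_iff_eq hq hp).1 h7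
      omega
    refine psiV_one fun i hi q hq => h6 q (bk_mem hq).1 ?_
    refine (bk_mem hq).2.2.1.trans (Nat.pow_le_pow_right (by norm_num) ?_)
    exact pl.m_le_s.trans pb.s_le
  -- summation
  obtain ⟨n0, T, hT, hprog⟩ := prog sd.hM0 z5 b
  have hsum : ∑ n ∈ (Nw P H M b).filter (fun n : ℕ => (n + j0).Prime ∧
        Real.exp (2 * Bs * K') * Zy L m1 s d R < gy L m1 s d r R (n : ℤ) ^ 2),
      gy L m1 s d r R (n : ℤ) ^ 2 ≤
      1 / K' * ∑ t ∈ range T, psy L m1 r (n0 + M * (t : ℤ) - (-(j0 : ℤ))) *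
        (X (n0 + M * (t : ℤ)) * gy L m1 s d r R (n0 + M * (t : ℤ)) ^ 2) := by
    have h1 := hprog (fun n => psy L m1 r (n - (-(j0 : ℤ))) * (X n * gy L m1 s d r R n ^ 2))
      (fun _ => True)
      (fun n => mul_nonneg (hψ0 _) (mul_nonneg (hX0 n) (sq_nonneg _)))
    simp only [Finset.filter_true] at h1
    have h3 : ∑ n ∈ (Nw P H M b).filter (fun n : ℕ => (n + j0).Prime ∧
          Real.exp (2 * Bs * K') * Zy L m1 s d R < gy L m1 s d r R (n : ℤ) ^ 2),
        gy L m1 s d r R (n : ℤ) ^ 2 ≤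
        1 / K' * ∑ n ∈ (Nw P H M b).filter (fun n : ℕ => (n + j0).Prime ∧
          Real.exp (2 * Bs * K') * Zy L m1 s d R < gy L m1 s d r R (n : ℤ) ^ 2),
        psy L m1 r ((n : ℤ) - (-(j0 : ℤ))) *
          (X (n : ℤ) * gy L m1 s d r R (n : ℤ) ^ 2) := by
      rw [mul_sum]
      refine sum_le_sum fun n hn => ?_
      obtain ⟨h4, h5, h6⟩ := mem_filter.1 hn
      have h7 := hpt n h4 h6
      have h8 : 1 ≤ 1 / K' * X (n : ℤ) := by
        rw [one_div, inv_mul_eq_div, le_div_iff₀ hK, one_mul]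
        exact h7.le
      have h9 := mul_le_mul_of_nonneg_right h8 (sq_nonneg (gy L m1 s d r R (n : ℤ)))
      rw [hro n h4 h5, one_mul]
      linarith
    have h2 : ∑ n ∈ (Nw P H M b).filter (fun n : ℕ => (n + j0).Prime ∧
          Real.exp (2 * Bs * K') * Zy L m1 s d R < gy L m1 s d r R (n : ℤ) ^ 2),
        psy L m1 r ((n : ℤ) - (-(j0 : ℤ))) *
          (X (n : ℤ) * gy L m1 s d r R (n : ℤ) ^ 2) ≤
        ∑ n ∈ Nw P H M b, psy L m1 r ((n : ℤ) - (-(j0 : ℤ))) *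
          (X (n : ℤ) * gy L m1 s d r R (n : ℤ) ^ 2) :=
      sum_le_sum_of_subset_of_nonneg (filter_subset _ _)
        fun n _ _ => mul_nonneg (hψ0 _) (mul_nonneg (hX0 _) (sq_nonneg _))
    exact h3.trans (mul_le_mul_of_nonneg_left (h2.trans h1) (one_div_pos.2 hK).le)
  refine hsum.trans ?_
  have htr := tr1' hhy hMp hss (D := (2 : ℝ) ^ d) (y := yy L m1 s)
    (fun S hS => by
      rw [pl.hN]
      exact py_card pl.m_pos S hS)
    (fun S => wt_abs (fun i => (py_mem i).1.two_le) (hlog_y pb sd.hG3).2 S)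
    (cnt_y (by omega : 4 ≤ L) {j : ℕ // j ∈ R} hkL2 (pow_nonneg zero_le_two _)) n0 T
  have h1 : ∑ t ∈ range T, psy L m1 r (n0 + M * (t : ℤ) - (-(j0 : ℤ))) *
        (X (n0 + M * (t : ℤ)) * gy L m1 s d r R (n0 + M * (t : ℤ)) ^ 2) ≤
      (10 * (CV0 * RR G r + RR G r) * Piy L m1 1 + 1 / (L : ℝ) ^ 2) * ((P : ℝ) / M) *
        Zy L m1 s d R := by
    refine htr.trans ?_
    rw [hcard]
    have hoff := offB_le pb {j : ℕ // j ∈ R} hkL2 pl.N_le
    have hRR : (0 : ℝ) ≤ RR G r := Nat.cast_nonneg _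
    have hCV := sd.CV0pos
    have hm1 : (0 : ℝ) < m1 := by exact_mod_cast pl.m_pos
    have hk0 : (0 : ℝ) ≤ R.card := Nat.cast_nonneg _
    have hV : (R.card : ℝ) * Piy L m1 1 ≤ CV0 * RR G r := by
      refine sd.hkV.trans (mul_le_mul_of_nonneg_left ?_ hCV.le)
      rw [div_le_iff₀ hm1]
      exact_mod_cast pl.L_le
    have hNle : (N : ℝ) ≤ RR G r := by exact_mod_cast pl.N_le
    have hT5 : (T : ℝ) ≤ 5 * ((P : ℝ) / M) := by
      refine hT.trans ?_
      rw [mul_div_assoc]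
      linarith
    have hV10 : 0 ≤ Piy L m1 1 := hss.V1_nonneg
    have e1 : 2 * (R.card : ℝ) * Piy L m1 1 + 2 * (N : ℝ) ≤ 2 * (CV0 * RR G r + RR G r) := by
      linarith
    have e2 : 0 ≤ 2 * (R.card : ℝ) * Piy L m1 1 + 2 * (N : ℝ) :=
      add_nonneg (mul_nonneg (mul_nonneg zero_le_two hk0) hV10)
        (mul_nonneg zero_le_two (Nat.cast_nonneg N))
    have e3 : (0 : ℝ) ≤ 2 ^ (L / 100) := pow_nonneg zero_le_two _
    have e4 : 1000 * (L : ℝ) ^ 4 * 2 ^ (L / 100) ≤ (P : ℝ) / M := zw.trans z1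
    have e5 : (2 * ((2 : ℝ) ^ d) ^ 2 * (3 * 2 ^ (m1 * (4 * r + 4))) ^ N) ^ 2 *
        (2 ^ (m1 * (4 * r + 4))) ^ 2 ≤ 2 ^ (L / 100) := by
      refine le_trans ?_ pb.w2
      have hW1 : (1 : ℝ) ≤ 2 ^ (m1 * (4 * r + 4)) := one_le_pow₀ (by norm_num)
      have hd1 : (1 : ℝ) ≤ 2 ^ dd L := one_le_pow₀ (by norm_num)
      have hd0 : (0 : ℝ) ≤ 2 ^ d := by positivity
      refine mul_le_mul_of_nonneg_right ?_ (sq_nonneg _)
      refine pow_le_pow_left₀ (by positivity) ?_ 2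
      refine mul_le_mul ?_ ?_ (by positivity) (by positivity)
      · refine mul_le_mul_of_nonneg_left ?_ (by norm_num)
        refine pow_le_pow_left₀ hd0 ?_ 2
        calc (2 : ℝ) ^ d ≤ 2 ^ d * 2 ^ dd L := le_mul_of_one_le_right hd0 hd1
          _ ≤ 2 ^ d * 2 ^ dd L * 2 ^ dd L := le_mul_of_one_le_right (by positivity) hd1
      · rw [mul_pow]
        refine mul_le_mul ?_ ?_ (by positivity) (by positivity)
        · exact pow_le_pow_right₀ (by norm_num) (pl.N_le.trans (by omega))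
        · exact pow_le_pow_right₀ hW1 (by omega)
    generalize (2 : ℝ) ^ (L / 100) = W at e3 e4 e5
    generalize (2 * ((2 : ℝ) ^ d) ^ 2 * (3 * 2 ^ (m1 * (4 * r + 4))) ^ N) ^ 2 *
      (2 ^ (m1 * (4 * r + 4))) ^ 2 = B at e5 ⊢
    exact eu4_num hZ1 z6 hLr hk0 hkLr (Nat.cast_nonneg T) hT5 e1 e2 hV10 hoff e3 e4 e5
  calc 1 / K' * ∑ t ∈ range T, psy L m1 r (n0 + M * (t : ℤ) - (-(j0 : ℤ))) *
        (X (n0 + M * (t : ℤ)) * gy L m1 s d r R (n0 + M * (t : ℤ)) ^ 2) ≤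
        1 / K' * ((10 * (CV0 * RR G r + RR G r) * Piy L m1 1 + 1 / (L : ℝ) ^ 2) *
          ((P : ℝ) / M) * Zy L m1 s d R) :=
        mul_le_mul_of_nonneg_left h1 (one_div_pos.2 hK).le
    _ = _ := by ring

end Pool.Agent.UW
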