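import Pool.Agent.UW.EU3
import Pool.Agent.UW.EU4
import Pool.Agent.AV.EV1
import Pool.Agent.AV.ParE
import Pool.Agent.VOID.ParA

/-! UW/EU5.  One residue class: many `n` with `n + j0` prime and `n + j` composite for all `j ∈ R`. -/

set_option autoImplicit false

open Finset Pool.Agent.RS Pool.Agent.AT Pool.Agent.VOID Pool.Agent.AV

namespace Pool.Agent.UW

private theorem eu5_log {x y : ℕ} (h : 2 ^ x ≤ y) : x ≤ Nat.log 2 y :=
  Nat.le_log_of_pow_le (by norm_num) h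

/-- the lower bound for the mass on the primes -/
private theorem eu5_num1 {c1 lam X Z L lP S ps : ℝ} (hc1 : 0 < c1) (hlam : 1 ≤ lam) (hX : 0 < X)
    (hZ : 1 ≤ Z) (hL : 0 < L) (hLc : 1 / L ≤ c1 / 12) (hlP : lP ≤ L) (hS : 0 ≤ S)
    (hps : c1 * (lam * X) ≤ ps) (h : 1 / 3 * Z * ps - Z * X / L ≤ 2 * lP * S) :
    c1 / 8 * (lam / L) * X * Z ≤ S := by
  have hZ0 : 0 < Z := by linarith
  have hZX : 0 ≤ Z * X := (mul_pos hZ0 hX).le
  have e1 : 2 * lP * S ≤ 2 * L * S := mul_le_mul_of_nonneg_right (by linarith) hS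
  have e2 : 1 / 3 * Z * (c1 * (lam * X)) ≤ 1 / 3 * Z * ps :=
    mul_le_mul_of_nonneg_left hps (by linarith)
  have e3 : Z * X / L ≤ Z * X * (c1 / 12 * lam) := by
    have e4 : Z * X / L = Z * X * (1 / L) := by ring
    rw [e4]
    apply mul_le_mul_of_nonneg_left _ hZX
    calc 1 / L ≤ c1 / 12 := hLc
      _ = c1 / 12 * 1 := (mul_one _).symm
      _ ≤ c1 / 12 * lam := mul_le_mul_of_nonneg_left hlam (by linarith)
  have e5 : 1 / 3 * Z * (c1 * (lam * X)) - Z * X * (c1 / 12 * lam) =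
      2 * (c1 / 8 * lam * X * Z) := by ring
  have e6 : c1 / 8 * lam * X * Z ≤ L * S := by linarith
  have e7 : c1 / 8 * (lam / L) * X * Z = c1 / 8 * lam * X * Z / L := by ring
  rw [e7, div_le_iff₀ hL]
  linarith

/-- the mass of the killed elements -/
private theorem eu5_num3 {c1 w q V K2 L : ℝ} (hc1 : 0 < c1) (hq : 0 ≤ q) (hL : 0 < L)
    (hw : 0 ≤ w) (hwL : 1 / L ≤ w) (hV : V ≤ K2 * w) (hqK : q * K2 ≤ c1 / 128)
    (hKL : 1 / L * K2 ≤ c1 / 128) (hL1 : 1 / L ≤ c1 / 128) :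
    (q + 1 / L) * V + 1 / L ^ 2 ≤ c1 / 32 * w := by
  have hi : 0 ≤ 1 / L := (one_div_pos.2 hL).le
  have e1 : q * V ≤ c1 / 128 * w := by
    calc q * V ≤ q * (K2 * w) := mul_le_mul_of_nonneg_left hV hq
      _ = q * K2 * w := by ring
      _ ≤ c1 / 128 * w := mul_le_mul_of_nonneg_right hqK hw
  have e2 : 1 / L * V ≤ c1 / 128 * w := by
    calc 1 / L * V ≤ 1 / L * (K2 * w) := mul_le_mul_of_nonneg_left hV hi
      _ = 1 / L * K2 * w := by ring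
      _ ≤ c1 / 128 * w := mul_le_mul_of_nonneg_right hKL hw
  have e3 : 1 / L ^ 2 ≤ c1 / 128 * w := by
    calc 1 / L ^ 2 = 1 / L * (1 / L) := by ring
      _ ≤ c1 / 128 * w := mul_le_mul hL1 hwL hi (by linarith)
  have e4 : 0 ≤ c1 * w := mul_nonneg hc1.le hw
  have e5 : (q + 1 / L) * V + 1 / L ^ 2 = q * V + 1 / L * V + 1 / L ^ 2 := by ring
  rw [e5]
  linarith

/-- the mass of the large values -/
private theorem eu5_num4 {c1 w A V K2 L K' : ℝ} (hc1 : 0 < c1) (hA : 0 ≤ A) (hL : 0 < L)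
    (hw : 0 ≤ w) (hwL : 1 / L ≤ w) (hV : V ≤ K2 * w) (hK1 : 1 ≤ K')
    (hK : 64 * (A * K2) ≤ c1 * K') (hL1 : 1 / L ≤ c1 / 128) :
    1 / K' * (A * V + 1 / L ^ 2) ≤ c1 / 32 * w := by
  have hi : 0 ≤ 1 / L := (one_div_pos.2 hL).le
  have hK0 : 0 < K' := by linarith
  have e1 : A * V ≤ A * K2 * w := by
    calc A * V ≤ A * (K2 * w) := mul_le_mul_of_nonneg_left hV hA
      _ = A * K2 * w := by ring
  have e3 : 1 / L ^ 2 ≤ c1 / 128 * w := by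
    calc 1 / L ^ 2 = 1 / L * (1 / L) := by ring
      _ ≤ c1 / 128 * w := mul_le_mul hL1 hwL hi (by linarith)
  have e4 : 0 ≤ c1 * w := mul_nonneg hc1.le hw
  have e5 : 1 / K' * (A * V + 1 / L ^ 2) = (A * V + 1 / L ^ 2) / K' := by ring
  rw [e5, div_le_iff₀ hK0]
  have e6 : A * K2 * w ≤ c1 * K' / 64 * w := mul_le_mul_of_nonneg_right (by linarith) hw
  have e7 : c1 / 128 * w ≤ c1 / 128 * w * K' := by
    calc c1 / 128 * w = c1 / 128 * w * 1 := (mul_one _).symm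
      _ ≤ c1 / 128 * w * K' := mul_le_mul_of_nonneg_left hK1 (by linarith)
  have e8 : 0 ≤ c1 * w * K' := mul_nonneg e4 hK0.le
  have e9 : c1 * K' / 64 * w + c1 / 128 * w * K' + c1 * w * K' / 128 = c1 / 32 * w * K' := by ring
  linarith

/-- the tail -/
private theorem eu5_tau {CV CV0 CA RRr c1 x : ℝ} (hc1 : 0 < c1) (_hCV0 : 0 ≤ CV0) (_hCA : 0 ≤ CA)
    (hR : 0 ≤ RRr) (hCVp : 0 < CV) (hCV : 4 * (CV0 * CA) ≤ c1 * CV ^ 2)
    (h : 32 * CV * RRr * Real.exp (1 - x / (400 * 2000)) ≤ 1) :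
    10 * CV0 * RRr * Real.exp (1 - x / (400 * 1000)) * (CA * RRr) ≤ c1 / 128 := by
  set E := Real.exp (1 - x / (400 * 2000)) with hE
  set τ := Real.exp (1 - x / (400 * 1000)) with hτ
  have hE0 : 0 < E := Real.exp_pos _
  have hτ0 : 0 < τ := Real.exp_pos _
  have h1 : τ ≤ E ^ 2 := by
    rw [hE, hτ, ← Real.exp_nat_mul]
    apply Real.exp_le_exp.2
    have e : ((2 : ℕ) : ℝ) * (1 - x / (400 * 2000)) = 2 - x / (400 * 1000) := by
      push_cast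
      ring
    rw [e]
    linarith
  have h2 : (32 * CV * RRr * E) ^ 2 ≤ 1 := by
    have h3 : 0 ≤ 32 * CV * RRr * E :=
      mul_nonneg (mul_nonneg (by linarith) hR) hE0.le
    calc (32 * CV * RRr * E) ^ 2 ≤ 1 ^ 2 := pow_le_pow_left₀ h3 h 2
      _ = 1 := one_pow 2
  have h3 : 1024 * (CV ^ 2 * (RRr ^ 2 * τ)) ≤ 1 := by
    refine le_trans ?_ h2
    have e : (32 * CV * RRr * E) ^ 2 = 1024 * (CV ^ 2 * (RRr ^ 2 * E ^ 2)) := by ring
    rw [e]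
    apply mul_le_mul_of_nonneg_left _ (by norm_num)
    apply mul_le_mul_of_nonneg_left _ (sq_nonneg _)
    exact mul_le_mul_of_nonneg_left h1 (sq_nonneg _)
  have h4 : 0 ≤ RRr ^ 2 * τ := mul_nonneg (sq_nonneg _) hτ0.le
  have h5 : 4 * (CV0 * CA) * (RRr ^ 2 * τ) ≤ c1 * CV ^ 2 * (RRr ^ 2 * τ) :=
    mul_le_mul_of_nonneg_right hCV h4
  have h6 : c1 * (1024 * (CV ^ 2 * (RRr ^ 2 * τ))) ≤ c1 * 1 :=
    mul_le_mul_of_nonneg_left h3 hc1.le
  have e1 : 10 * CV0 * RRr * τ * (CA * RRr) = 10 * (CV0 * CA * (RRr ^ 2 * τ)) := by ring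
  rw [e1]
  have e2 : 4 * (CV0 * CA) * (RRr ^ 2 * τ) = 4 * (CV0 * CA * (RRr ^ 2 * τ)) := by ring
  have e3 : c1 * (1024 * (CV ^ 2 * (RRr ^ 2 * τ))) = 1024 * (c1 * CV ^ 2 * (RRr ^ 2 * τ)) := by ring
  linarith

/-- splitting of the mass -/
private theorem eu5_split (S : Finset ℕ) (f : ℕ → ℝ) (hf : ∀ n, 0 ≤ f n) (p : ℕ → Prop)
    (q : ℕ → Prop) [DecidablePred p] [DecidablePred q] (bd : ℝ) (hbd : 0 ≤ bd)
    {S3 S4 : ℝ} (h3 : ∑ n ∈ S.filter (fun n => p n ∧ q n), f n ≤ S3)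
    (h4 : ∑ n ∈ S.filter (fun n => p n ∧ bd < f n), f n ≤ S4) :
    ∑ n ∈ S.filter p, f n ≤
      ((S.filter (fun n => p n ∧ ¬ q n)).card : ℝ) * bd + S3 + S4 := by
  have h5 : ∑ n ∈ S.filter p, f n ≤ ∑ n ∈ S, ((if p n ∧ ¬ q n then bd else 0) +
      (if p n ∧ q n then f n else 0) + (if p n ∧ bd < f n then f n else 0)) := by
    rw [Finset.sum_filter]
    refine Finset.sum_le_sum fun n _ => ?_
    have hfn := hf n
    by_cases hp : p n
    · by_cases hq : q n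
      · have g2 : ¬ (p n ∧ ¬ q n) := fun h => h.2 hq
        rw [if_pos hp, if_neg g2, if_pos (show p n ∧ q n from ⟨hp, hq⟩)]
        split_ifs <;> linarith
      · have g2 : ¬ (p n ∧ q n) := fun h => hq h.2
        rw [if_pos hp, if_pos (show p n ∧ ¬ q n from ⟨hp, hq⟩), if_neg g2]
        by_cases hb : bd < f n
        · rw [if_pos (show p n ∧ bd < f n from ⟨hp, hb⟩)]
          linarith
        · have g3 : ¬ (p n ∧ bd < f n) := fun h => hb h.2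
          rw [if_neg g3]
          linarith [not_lt.1 hb]
    · have g1 : ¬ (p n ∧ ¬ q n) := fun h => hp h.1
      have g2 : ¬ (p n ∧ q n) := fun h => hp h.1
      have g3 : ¬ (p n ∧ bd < f n) := fun h => hp h.1
      rw [if_neg hp, if_neg g1, if_neg g2, if_neg g3]
      linarith
  refine h5.trans ?_
  rw [Finset.sum_add_distrib, Finset.sum_add_distrib, ← Finset.sum_filter, ← Finset.sum_filter,
    ← Finset.sum_filter, Finset.sum_const, nsmul_eq_mul]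
  exact add_le_add (add_le_add le_rfl h3) h4

/-- the bound for the density -/
private theorem eu5_V1 {e9 l2 lam L m1 RRr V : ℝ} (he : 0 < e9) (hl : 0 < l2) (hlam : 1 ≤ lam)
    (hL : 0 < L) (hm : 0 < m1) (hLm : L ≤ RRr * m1)
    (hV : V ≤ 12 * e9 * (lam + 1) / (m1 * l2)) :
    V ≤ 24 * e9 / l2 * RRr * (lam / L) := by
  have h1 : 12 * e9 * (lam + 1) / (m1 * l2) ≤ 24 * e9 / l2 * lam * (1 / m1) := by
    have e : 24 * e9 / l2 * lam * (1 / m1) = (24 * e9 * lam) / (m1 * l2) := by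
      field_simp
    rw [e]
    apply div_le_div_of_nonneg_right _ (mul_pos hm hl).le
    have h2 : e9 * 1 ≤ e9 * lam := mul_le_mul_of_nonneg_left hlam he.le
    linarith
  have h2 : 1 / m1 ≤ RRr / L := by
    rw [div_le_div_iff₀ hm hL]
    linarith
  have h3 : 0 ≤ 24 * e9 / l2 * lam := mul_nonneg (div_pos (by linarith) hl).le (by linarith)
  calc V ≤ 12 * e9 * (lam + 1) / (m1 * l2) := hV
    _ ≤ 24 * e9 / l2 * lam * (1 / m1) := h1
    _ ≤ 24 * e9 / l2 * lam * (RRr / L) := mul_le_mul_of_nonneg_left h2 h3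
    _ = 24 * e9 / l2 * RRr * (lam / L) := by ring

/-- the conclusion -/
private theorem eu5_fin {c1 w X Z E S1 S3 S4 K : ℝ} (_hc1 : 0 < c1) (_hw : 0 ≤ w) (_hX : 0 < X)
    (hZ : 1 ≤ Z) (h1 : c1 / 8 * w * X * Z ≤ S1) (h3 : S3 ≤ c1 / 32 * w * X * Z)
    (h4 : S4 ≤ c1 / 32 * w * X * Z) (h : S1 ≤ K * (Real.exp E * Z) + S3 + S4) :
    c1 / 16 * Real.exp (-E) * (w * X) ≤ K := by
  have hZ0 : 0 < Z := by linarith
  have hE := Real.exp_pos E
  have e1 : c1 / 16 * (w * X) * Z ≤ (K * Real.exp E) * Z := by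
    have e2 : c1 / 16 * (w * X) * Z =
        c1 / 8 * w * X * Z - c1 / 32 * w * X * Z - c1 / 32 * w * X * Z := by ring
    have e3 : K * (Real.exp E * Z) = (K * Real.exp E) * Z := by ring
    rw [e2, ← e3]
    linarith
  have e4 : c1 / 16 * (w * X) ≤ K * Real.exp E := le_of_mul_le_mul_right e1 hZ0
  have e5 : Real.exp (-E) * Real.exp E = 1 := by
    rw [← Real.exp_add]
    simp
  have hE' := Real.exp_pos (-E)
  calc c1 / 16 * Real.exp (-E) * (w * X) = Real.exp (-E) * (c1 / 16 * (w * X)) := by ring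
    _ ≤ Real.exp (-E) * (K * Real.exp E) := mul_le_mul_of_nonneg_left e4 hE'.le
    _ = K * (Real.exp (-E) * Real.exp E) := by ring
    _ = K := by rw [e5, mul_one]

theorem eu5 (Λ c1 : ℝ) (hΛ : 0 < Λ) (hc1 : 0 < c1) : ∃ c : ℝ, 0 < c ∧ ∃ P0 : ℕ, ∀ P : ℕ, P0 ≤ P →
    ∀ (L M H : ℕ) (R : Finset ℕ), AdmV Λ P L M H R → ∀ b j0 : ℕ, j0 < H → j0 ∉ R →
    Nat.Coprime (b + j0) M → c1 * ((Nat.log 2 L : ℝ) * ((P : ℝ) / M)) ≤ psi M (b + j0) P →
    c * ((Nat.log 2 L : ℝ) / L * ((P : ℝ) / M)) ≤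
      (((Nw P H M b).filter (fun n => (n + j0).Prime ∧ ∀ j ∈ R, ¬ (n + j).Prime)).card : ℝ) := by
  obtain ⟨L1, h1⟩ := ev1
  have hl2 : 0 < Real.log 2 := Real.log_pos (by norm_num)
  have he9 : 0 < Real.exp 9 := Real.exp_pos _
  obtain ⟨CA, hCA⟩ : ∃ x : ℝ, x = 24 * Real.exp 9 / Real.log 2 := ⟨_, rfl⟩
  have hCAp : 0 < CA := by
    rw [hCA]
    exact div_pos (mul_pos (by norm_num) he9) hl2
  obtain ⟨CV0, hCV0⟩ : ∃ x : ℝ, x = CA * Λ := ⟨_, rfl⟩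
  have hCV0p : 0 < CV0 := by
    rw [hCV0]
    exact mul_pos hCAp hΛ
  have hCV0' : 24 * Real.exp 9 * Λ / Real.log 2 ≤ CV0 := by
    rw [hCV0, hCA]
    apply le_of_eq
    ring
  have hCAc : 0 < 2 * CA / c1 := div_pos (by linarith) hc1
  obtain ⟨CV, hCV⟩ : ∃ x : ℝ, x = CV0 + 2 + 2 * CA / c1 := ⟨_, rfl⟩
  have hCVp : 0 < CV := by
    rw [hCV]
    linarith
  have hCVle : CV0 ≤ CV := by
    rw [hCV]
    linarith
  have hCVsq : 4 * (CV0 * CA) ≤ c1 * CV ^ 2 := by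
    have g1 : 2 * (CV0 * (2 * CA / c1)) ≤ CV ^ 2 := by
      have g2 : CV ^ 2 = 2 * (CV0 * (2 * CA / c1)) +
          (CV0 ^ 2 + (2 * CA / c1) ^ 2 + 4 + 4 * CV0 + 4 * (2 * CA / c1)) := by
        rw [hCV]
        ring
      rw [g2]
      have g3 := sq_nonneg CV0
      have g4 := sq_nonneg (2 * CA / c1)
      linarith
    have g5 : c1 * (2 * (CV0 * (2 * CA / c1))) = 4 * (CV0 * CA) := by
      field_simp
      ring
    rw [← g5]
    exact mul_le_mul_of_nonneg_left g1 hc1.le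
  obtain ⟨G, r, hG1, -, hr, hG2, hG3, h4, h5⟩ := parA CV hCVp 0 2000 (by norm_num)
  obtain ⟨L0, hpb⟩ := pb_exists CV G r hG1 (by omega)
  have hRR : (0 : ℝ) ≤ (RR G r : ℝ) := Nat.cast_nonneg _
  obtain ⟨K2, hK2⟩ : ∃ x : ℝ, x = CA * RR G r := ⟨_, rfl⟩
  have hK2p : 0 ≤ K2 := by
    rw [hK2]
    exact mul_nonneg hCAp.le hRR
  obtain ⟨A, hA⟩ : ∃ x : ℝ, x = 10 * (CV0 * RR G r + RR G r) := ⟨_, rfl⟩
  have hAp : 0 ≤ A := by
    rw [hA]
    have := mul_nonneg hCV0p.le hRR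
    linarith
  obtain ⟨K', hK'⟩ : ∃ K' : ℝ, K' = 1 + 64 * (A * K2) / c1 := ⟨_, rfl⟩
  have hAK : 0 ≤ 64 * (A * K2) / c1 := div_nonneg (by
    have := mul_nonneg hAp hK2p
    linarith) hc1.le
  have hK1 : 1 ≤ K' := by
    rw [hK']
    linarith
  have hKc : 64 * (A * K2) ≤ c1 * K' := by
    have g1 : c1 * K' = c1 + 64 * (A * K2) := by
      rw [hK']
      field_simp
    rw [g1]
    linarith
  have hK'p : 0 < K' := by linarith
  obtain ⟨E, hE⟩ : ∃ x : ℝ, x = 2 * (2 ^ (RR G r + 4) * E2 G r) * K' := ⟨_, rfl⟩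
  refine ⟨c1 / 16 * Real.exp (-E), mul_pos (by linarith) (Real.exp_pos _),
    2 ^ (max (max L0 L1) (max (2 ^ (⌈Λ⌉₊ + 1)) (max (⌈128 / c1⌉₊ + 1) (⌈128 * K2 / c1⌉₊ + 1)))),
    ?_⟩
  intro P hP L M H R adm b j0 hj0 hj0R hcop hpsi
  have hLP : max (max L0 L1) (max (2 ^ (⌈Λ⌉₊ + 1))
      (max (⌈128 / c1⌉₊ + 1) (⌈128 * K2 / c1⌉₊ + 1))) ≤ L := by
    rw [adm.hL]
    exact eu5_log hP
  obtain ⟨hLa, hLb⟩ := max_le_iff.1 hLP
  obtain ⟨hL0, hL1⟩ := max_le_iff.1 hLa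
  obtain ⟨hL2, hLc⟩ := max_le_iff.1 hLb
  obtain ⟨hL3, hL4⟩ := max_le_iff.1 hLc
  have hlog : ⌈Λ⌉₊ + 1 ≤ Nat.log 2 L := eu5_log hL2
  have hlogΛ : Λ ≤ (Nat.log 2 L : ℝ) := by
    have h6 : Λ ≤ (⌈Λ⌉₊ : ℝ) := Nat.le_ceil Λ
    have h7 : ((⌈Λ⌉₊ + 1 : ℕ) : ℝ) ≤ (Nat.log 2 L : ℝ) := by exact_mod_cast hlog
    push_cast at h7
    linarith
  have hlam1 : (1 : ℝ) ≤ (Nat.log 2 L : ℝ) := by
    have h7 : 1 ≤ Nat.log 2 L := by omega
    exact_mod_cast h7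
  have hlogp : (0 : ℝ) < (Nat.log 2 L : ℝ) := by linarith
  have hLc1 : 128 / c1 ≤ (L : ℝ) := by
    have h6 : 128 / c1 ≤ (⌈128 / c1⌉₊ : ℝ) := Nat.le_ceil _
    have h7 : ((⌈128 / c1⌉₊ + 1 : ℕ) : ℝ) ≤ (L : ℝ) := by exact_mod_cast hL3
    push_cast at h7
    linarith
  have hLc2 : 128 * K2 / c1 ≤ (L : ℝ) := by
    have h6 : 128 * K2 / c1 ≤ (⌈128 * K2 / c1⌉₊ : ℝ) := Nat.le_ceil _
    have h7 : ((⌈128 * K2 / c1⌉₊ + 1 : ℕ) : ℝ) ≤ (L : ℝ) := by exact_mod_cast hL4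
    push_cast at h7
    linarith
  have hLp : (0 : ℝ) < (L : ℝ) := (div_pos (by norm_num) hc1).trans_le hLc1
  have hLi1 : 1 / (L : ℝ) ≤ c1 / 128 := by
    rw [div_le_iff₀ hc1] at hLc1
    rw [div_le_div_iff₀ hLp (by norm_num)]
    linarith
  have hLi2 : 1 / (L : ℝ) * K2 ≤ c1 / 128 := by
    rw [div_le_iff₀ hc1] at hLc2
    rw [one_div_mul_eq_div, div_le_div_iff₀ hLp (by norm_num)]
    linarith
  have hkL : R.card ≤ L := by
    have h6 : (R.card : ℝ) * (Nat.log 2 L : ℝ) ≤ (L : ℝ) * (Nat.log 2 L : ℝ) := by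
      calc (R.card : ℝ) * (Nat.log 2 L : ℝ) ≤ Λ * L := adm.hk
        _ ≤ (Nat.log 2 L : ℝ) * L := mul_le_mul_of_nonneg_right hlogΛ hLp.le
        _ = (L : ℝ) * (Nat.log 2 L : ℝ) := mul_comm _ _
    exact_mod_cast le_of_mul_le_mul_right h6 hlogp
  obtain ⟨g, s, m1, d, N, pb⟩ := hpb L hL0
  have hG2' : 6400 * ((1000 : ℕ) : ℝ) * Real.exp 9 * CV / Real.log 2 ≤ G := by
    refine le_trans ?_ hG2
    apply div_le_div_of_nonneg_right _ hl2.le
    have g1 : 0 ≤ Real.exp 9 * CV := (mul_pos he9 hCVp).le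
    have g2 : 6400 * ((1000 : ℕ) : ℝ) * Real.exp 9 * CV =
        6400000 * (Real.exp 9 * CV) := by push_cast; ring
    have g3 : 6400 * ((2000 : ℕ) : ℝ) * Real.exp 9 * CV =
        12800000 * (Real.exp 9 * CV) := by push_cast; ring
    rw [g2, g3]
    linarith
  have sd : SD CV0 CV G r P L M H R g s m1 d N :=
    { pb := pb
      CV0pos := hCV0p
      CVle := hCVle
      h4 := h4
      hG2 := hG2'
      hG3 := hG3
      hL := adm.hL
      hM0 := adm.hM0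
      hM := adm.hM
      hMP := adm.hMP
      hH := adm.hH
      hR := adm.hR
      hkL := hkL
      hkV := kV_y hΛ pb hCV0' adm.hk }
  obtain ⟨-, -, s3, s4, -, s6, -⟩ := sz adm.hL pb.big adm.hM0 adm.hMP adm.hH
  have hZ1 : 1 ≤ Zy L m1 s d R := Zy_one pb R
  have hZ0 : 0 < Zy L m1 s d R := zero_lt_one.trans_le hZ1
  have hX : 0 < (P : ℝ) / M := zero_lt_one.trans_le s6
  have hP0 : (0 : ℝ) < P := by
    have h6 : 0 < 2 ^ L := by positivity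
    have h7 : 0 < P := lt_of_lt_of_le h6 s4
    exact_mod_cast h7
  have hlP : Real.log (P : ℝ) ≤ L := by
    refine le_trans ?_ s3
    apply Real.log_le_log hP0
    linarith
  have hw : 0 ≤ (Nat.log 2 L : ℝ) / L := (div_pos hlogp hLp).le
  have hwL : 1 / (L : ℝ) ≤ (Nat.log 2 L : ℝ) / L := div_le_div_of_nonneg_right hlam1 hLp.le
  have hm0 : (0 : ℝ) < m1 := by exact_mod_cast pb.pl.m_pos
  have hV : Piy L m1 1 ≤ K2 * ((Nat.log 2 L : ℝ) / L) := by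
    have hL16 := pb.pl.L16
    have g1 : Piy L m1 1 ≤ 12 * Real.exp 9 * ((Nat.log 2 L : ℝ) + 1) / (m1 * Real.log 2) :=
      V1_le (by omega) pb.pl.m_pos (B := ∅) (fun b hb => absurd hb (notMem_empty b)) (by simp)
    have g2 : (L : ℝ) ≤ (RR G r : ℝ) * m1 := by exact_mod_cast pb.pl.L_le
    have g3 := eu5_V1 he9 hl2 hlam1 hLp hm0 g2 g1
    rw [hK2, hCA]
    exact g3
  -- the mass on the primes
  have hS1 := eu5_num1 hc1 hlam1 hX hZ1 hLp (hLi1.trans (by linarith)) hlP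
    (Finset.sum_nonneg fun n _ => sq_nonneg _) hpsi
    (h1 CV0 CV G r P L M H R g s m1 d N sd hL1 b j0 hj0 hj0R hcop)
  -- the killed elements
  have hτ := eu5_tau (x := ((r : ℝ) + 1) ^ 2) hc1 hCV0p.le hCAp.le hRR hCVp hCVsq (by
    have g1 : ((2000 : ℕ) : ℝ) = 2000 := by norm_num
    rw [g1] at h5
    exact h5)
  have hS3 := eu3 sd b j0 hj0 hj0R
  have hS3' : ∑ n ∈ (Nw P H M b).filter (fun n => (n + j0).Prime ∧ ∃ j ∈ R, (n + j).Prime),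
      gy L m1 s d r R (n : ℤ) ^ 2 ≤
      c1 / 32 * ((Nat.log 2 L : ℝ) / L) * ((P : ℝ) / M) * Zy L m1 s d R := by
    refine hS3.trans ?_
    apply mul_le_mul_of_nonneg_right _ hZ0.le
    apply mul_le_mul_of_nonneg_right _ hX.le
    refine eu5_num3 hc1 (mul_nonneg (mul_nonneg (by linarith) hRR) (Real.exp_pos _).le) hLp hw hwL
      hV ?_ hLi2 hLi1
    have g1 : ((1000 : ℕ) : ℝ) = 1000 := by norm_num
    rw [g1, hK2]
    exact hτ
  -- the large values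
  have hS4 := eu4 sd b j0 hj0 hj0R hK'p
  have hS4' : ∑ n ∈ (Nw P H M b).filter (fun n => (n + j0).Prime ∧
      Real.exp E * Zy L m1 s d R < gy L m1 s d r R (n : ℤ) ^ 2),
      gy L m1 s d r R (n : ℤ) ^ 2 ≤
      c1 / 32 * ((Nat.log 2 L : ℝ) / L) * ((P : ℝ) / M) * Zy L m1 s d R := by
    rw [hE]
    refine le_trans (le_of_eq ?_) (hS4.trans ?_)
    · apply Finset.sum_congr _ fun _ _ => rfl
      ext n
      simp only [mem_filter]
    · apply mul_le_mul_of_nonneg_right _ hZ0.le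
      apply mul_le_mul_of_nonneg_right _ hX.le
      rw [← hA]
      exact eu5_num4 hc1 hAp hLp hw hwL hV hK1 hKc hLi1
  have hsplit := eu5_split (Nw P H M b) (fun n => gy L m1 s d r R (n : ℤ) ^ 2)
    (fun n => sq_nonneg _) (fun n => (n + j0).Prime) (fun n => ∃ j ∈ R, (n + j).Prime)
    (Real.exp E * Zy L m1 s d R) (mul_pos (Real.exp_pos _) hZ0).le hS3' hS4'
  have hfin := eu5_fin hc1 hw hX hZ1 hS1 le_rfl le_rfl hsplit
  refine hfin.trans (le_of_eq ?_)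
  congr 2
  ext n
  rw [mem_filter, mem_filter]
  constructor
  · rintro ⟨g1, g2, g3⟩
    refine ⟨g1, g2, fun j hj hpj => g3 ⟨j, hj, hpj⟩⟩
  · rintro ⟨g1, g2, g3⟩
    refine ⟨g1, g2, ?_⟩
    rintro ⟨j, hj, hpj⟩
    exact g3 j hj hpj

end Pool.Agent.UW
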