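import Pool.Agent.UW.Cls
import Pool.Agent.UW.Par
import Pool.Agent.REC.ModTot
import Pool.Agent.AT.E2

/-! UW/Sel.  Choice of the residue class modulo `pmod w`.

PLAN.  `N = pmod w`, `F` = the classes `b < N` with `(b + q0, N) = 1`, `|F| = N dens w` (`count_one` of REC/SsDef).
Bad classes: `|J_b| > K`; their number is `≤ N dens^2 S / K` (`cls_avg`).  `∑_F psi ≥ c1 P` (`psi_sum`, `theta_int` of AT/Av),
`psi ≤ C (P/N) log_2 L` (`BT` of AT/E2), `dens w ≤ 8/log_2 L` (`Mod_totient` with `R = ∅`, `Mod w ∅ = pmod w`,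
`φ(N) = N dens w`, `Nat.log 2 w ≥ (Nat.log 2 L)/2` from `L ≤ w ^ 2`).  So the bad classes contribute at most
`N dens^2 S/K * C (P/N) log_2 L ≤ 64 C P S/(K log_2 L) ≤ c1 P/2` if `S ≤ c K log_2 L`, `c = c1/(128 C)`; hence some good class has
`psi ≥ c1 P/(2 |F|) = c1 P/(2 N dens) ≥ (P/N) c1 log_2 L/16 ≥ P/N`. -/

set_option autoImplicit false

namespace Pool.Agent.UW

open Finset Pool.Agent.REC

private theorem sel_mod (w : ℕ) : Mod w ∅ = pmod w := by
  unfold REC.Mod pmod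
  rw [sdiff_empty]

private theorem sel_dens {w : ℕ} (hw : 2 ≤ w) : dens w ≤ 4 / (Nat.log 2 w : ℝ) := by
  have h1 := Mod_totient hw (R := ∅) (empty_subset _) (by simp)
  rw [sel_mod] at h1
  have h2 := count_one w 0
  have h3 : ((range (pmod w)).filter (fun b => Nat.Coprime (b + 0) (pmod w))).card =
      Nat.totient (pmod w) := by
    rw [Nat.totient]
    congr 1
    ext b
    simp only [mem_filter, add_zero]
    rw [Nat.coprime_comm]
  rw [h3] at h2
  rw [h2] at h1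
  have hN : (0 : ℝ) < pmod w := by exact_mod_cast pmod_pos w
  have h4 : (pmod w : ℝ) * dens w ≤ pmod w * (4 / (Nat.log 2 w : ℝ)) := by
    rw [← mul_div_assoc, mul_comm (pmod w : ℝ) 4]
    exact h1
  exact le_of_mul_le_mul_left h4 hN

private theorem sel_log {w L : ℕ} (hL : L ≤ w ^ 2) : Nat.log 2 L ≤ 2 * Nat.log 2 w + 1 := by
  have h1 : w < 2 ^ (Nat.log 2 w + 1) := Nat.lt_pow_succ_log_self (by norm_num) w
  have h2 : L < 2 ^ (2 * Nat.log 2 w + 1 + 1) := by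
    calc L ≤ w ^ 2 := hL
      _ < (2 ^ (Nat.log 2 w + 1)) ^ 2 := Nat.pow_lt_pow_left h1 (by norm_num)
      _ = 2 ^ (2 * Nat.log 2 w + 1 + 1) := by
        rw [← pow_mul]
        congr 1
        ring
  exact Nat.lt_succ_iff.1 (Nat.log_lt_of_lt_pow' (by omega) h2)

private theorem sel_size {P L w : ℕ} (hP : 1 ≤ P) (hL : L = Nat.log 2 P) (hw : 10000 * w ≤ L) :
    ((pmod w : ℕ) : ℝ) ≤ (P : ℝ) ^ (1 / 1000 : ℝ) := by
  have h1 := Mod_le w ∅
  rw [sel_mod] at h1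
  refine h1.trans ?_
  have h2 : 2 ^ L ≤ P := by
    rw [hL]
    exact Nat.pow_log_le_self 2 (by omega)
  have h3 : ((2 : ℝ) ^ L) ^ (1 / 1000 : ℝ) ≤ (P : ℝ) ^ (1 / 1000 : ℝ) := by
    refine Real.rpow_le_rpow (by positivity) ?_ (by norm_num)
    exact_mod_cast h2
  refine le_trans ?_ h3
  have h4 : (4 : ℝ) ^ w = (2 : ℝ) ^ ((2 * w : ℕ) : ℝ) := by
    rw [Real.rpow_natCast, pow_mul]
    norm_num
  have h5 : ((2 : ℝ) ^ L) ^ (1 / 1000 : ℝ) = (2 : ℝ) ^ ((L : ℝ) * (1 / 1000)) := by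
    rw [← Real.rpow_natCast 2 L, ← Real.rpow_mul (by norm_num)]
  rw [h4, h5]
  refine Real.rpow_le_rpow_of_exponent_le (by norm_num) ?_
  have h6 : (10000 : ℝ) * (w : ℝ) ≤ (L : ℝ) := by exact_mod_cast hw
  push_cast
  have h7 : (0 : ℝ) ≤ (w : ℝ) := Nat.cast_nonneg w
  linarith

open Classical in
private theorem sel_avg {F : Finset ℕ} {J psi : ℕ → ℝ} {K X Y B Q : ℝ} (hK : 0 < K)
    (hJ0 : ∀ b ∈ F, 0 ≤ J b) (hJ : ∑ b ∈ F, J b ≤ X) (hY0 : 0 ≤ Y) (hY : ∀ b ∈ F, psi b ≤ Y)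
    (hB : B ≤ ∑ b ∈ F, psi b) (hQ0 : 0 ≤ Q) (hlt : X / K * Y + F.card * Q < B) :
    ∃ b ∈ F, J b ≤ K ∧ Q ≤ psi b := by
  by_contra hcon
  push Not at hcon
  have h1 : ((F.filter (fun b => ¬ J b ≤ K)).card : ℝ) * K ≤ X := by
    refine le_trans ?_ hJ
    calc ((F.filter (fun b => ¬ J b ≤ K)).card : ℝ) * K
        = ∑ b ∈ F.filter (fun b => ¬ J b ≤ K), K := by rw [sum_const, nsmul_eq_mul]
      _ ≤ ∑ b ∈ F.filter (fun b => ¬ J b ≤ K), J b := by
        refine sum_le_sum fun b hb => ?_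
        exact (not_le.1 (mem_filter.1 hb).2).le
      _ ≤ ∑ b ∈ F, J b :=
        sum_le_sum_of_subset_of_nonneg (filter_subset _ _) fun b hb _ => hJ0 b hb
  have h2 : ((F.filter (fun b => ¬ J b ≤ K)).card : ℝ) ≤ X / K := (le_div_iff₀ hK).2 h1
  have h3 : ∑ b ∈ F, psi b ≤ X / K * Y + F.card * Q := by
    rw [← sum_filter_add_sum_filter_not F (fun b => J b ≤ K) psi, add_comm]
    refine add_le_add ?_ ?_
    · calc ∑ b ∈ F.filter (fun b => ¬ J b ≤ K), psi b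
          ≤ ∑ b ∈ F.filter (fun b => ¬ J b ≤ K), Y :=
            sum_le_sum fun b hb => hY b (mem_filter.1 hb).1
        _ = ((F.filter (fun b => ¬ J b ≤ K)).card : ℝ) * Y := by rw [sum_const, nsmul_eq_mul]
        _ ≤ X / K * Y := mul_le_mul_of_nonneg_right h2 hY0
    · calc ∑ b ∈ F.filter (fun b => J b ≤ K), psi b
          ≤ ∑ b ∈ F.filter (fun b => J b ≤ K), Q :=
            sum_le_sum fun b hb => (hcon b (mem_filter.1 hb).1 (mem_filter.1 hb).2).le
        _ = ((F.filter (fun b => J b ≤ K)).card : ℝ) * Q := by rw [sum_const, nsmul_eq_mul]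
        _ ≤ F.card * Q := by
          refine mul_le_mul_of_nonneg_right ?_ hQ0
          exact_mod_cast card_le_card (filter_subset _ _)
  linarith

theorem sel : ∃ c : ℝ, 0 < c ∧ ∃ P0 : ℕ, ∀ P : ℕ, P0 ≤ P → ∀ (L w q0 : ℕ) (A : Finset ℕ) (K : ℝ),
    L = Nat.log 2 P → L ≤ w ^ 2 → 10000 * w ≤ L → q0 ∉ A → 0 < K →
    ∑ q ∈ A, ff (max q0 q - min q0 q) ≤ c * K * (Nat.log 2 L : ℝ) →
    ∃ b : ℕ, Nat.Coprime (b + q0) (pmod w) ∧
      ((A.filter (fun q => Nat.Coprime (b + q) (pmod w))).card : ℝ) ≤ K ∧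
      (P : ℝ) / (pmod w : ℕ) ≤ AT.psi (pmod w) (rr (pmod w) q0 b) P := by
  obtain ⟨C, hC, PB, hBT⟩ := AT.BT
  obtain ⟨c1, hc1, PT, hTh⟩ := AT.theta_int
  set l0 : ℕ := ⌈32 / c1⌉₊ + 3 with hl0
  refine ⟨c1 / (512 * C), by positivity, PB + PT + 2 ^ 2 ^ l0, ?_⟩
  intro P hP L w q0 A K hL hLw hwL hq0 hK hS
  have hPB : PB ≤ P := by
    have := Nat.zero_le (2 ^ 2 ^ l0)
    omega
  have hPT : PT ≤ P := by
    have := Nat.zero_le (2 ^ 2 ^ l0)
    omega
  have hP2 : 2 ^ 2 ^ l0 ≤ P := by omega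
  have hP1 : 1 ≤ P := le_trans (Nat.one_le_two_pow) hP2
  have hL2 : 2 ^ l0 ≤ L := by
    rw [hL]
    exact Nat.le_log_of_pow_le (by norm_num) hP2
  have hl : l0 ≤ Nat.log 2 L := Nat.le_log_of_pow_le (by norm_num) hL2
  obtain ⟨l, hldef⟩ : ∃ l : ℕ, l = Nat.log 2 L := ⟨_, rfl⟩
  rw [← hldef] at hl hS
  have hl3 : 3 ≤ l := by omega
  have h8 : (8 : ℕ) ≤ L := by
    refine le_trans ?_ hL2
    calc 8 = 2 ^ 3 := by norm_num
      _ ≤ 2 ^ l0 := Nat.pow_le_pow_right (by norm_num) (by omega)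
  have hw2 : 2 ≤ w := by
    by_contra h
    have h1 : w ≤ 1 := by omega
    have h2 : w ^ 2 ≤ 1 ^ 2 := Nat.pow_le_pow_left h1 2
    omega
  have hlw : l ≤ 2 * Nat.log 2 w + 1 := by
    rw [hldef]
    exact sel_log hLw
  have hN0 : 0 < pmod w := pmod_pos w
  have hN : (0 : ℝ) < (pmod w : ℕ) := by exact_mod_cast hN0
  have hlR : (3 : ℝ) ≤ l := by exact_mod_cast hl3
  have hlpos : (0 : ℝ) < l := by linarith
  have hdens : dens w ≤ 16 / l := by
    refine (sel_dens hw2).trans ?_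
    have h1 : l ≤ 4 * Nat.log 2 w := by omega
    have h2 : (l : ℝ) ≤ 4 * (Nat.log 2 w : ℝ) := by exact_mod_cast h1
    have h3 : (0 : ℝ) < (Nat.log 2 w : ℝ) := by linarith
    rw [div_le_div_iff₀ h3 hlpos]
    linarith
  have hdens0 : 0 ≤ dens w := by
    unfold REC.dens
    refine prod_nonneg fun p hp => ?_
    have h1 : (1 : ℝ) ≤ p := by exact_mod_cast (mem_prs.1 hp).1.one_lt.le
    have h2 : 1 / (p : ℝ) ≤ 1 := by
      rw [div_le_one (by linarith)]
      exact h1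
    linarith
  have hPr : (0 : ℝ) < (P : ℝ) := by exact_mod_cast hP1
  have hprime : ∀ q : ℕ, q.Prime → q ∣ pmod w → q ≤ w := by
    intro q hq hd
    rw [← sel_mod] at hd
    exact ((prime_dvd_Mod hq).1 hd).1
  have hLP : L ≤ P := by
    rw [hL]
    exact Nat.log_le_self 2 P
  have hbt : ∀ b : ℕ, AT.psi (pmod w) (rr (pmod w) q0 b) P ≤ C * ((P : ℝ) / (pmod w : ℕ)) * l := by
    intro b
    rw [hldef]
    refine hBT P hPB L (pmod w) _ hL hN0 ?_ (sel_size hP1 hL hwL)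
    intro q hq hLq
    rw [Nat.coprime_comm, hq.coprime_iff_not_dvd]
    intro hd
    have h1 := hprime q hq hd
    have h2 : L ^ 1 ≤ L ^ 6 := Nat.pow_le_pow_right (by omega) (by norm_num)
    rw [pow_one] at h2
    omega
  set S := ∑ q ∈ A, ff (max q0 q - min q0 q) with hSdef
  set F := (range (pmod w)).filter (fun b => Nat.Coprime (b + q0) (pmod w)) with hF
  have hFc : (F.card : ℝ) = pmod w * dens w := count_one w q0
  have havg := cls_avg w q0 A hq0
  rw [← hF, ← hSdef] at havg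
  have hpsi := psi_sum hN0 (P := P) (fun q hq hd => by have := hprime q hq hd; omega) q0
  rw [← hF] at hpsi
  have hth := (hTh P hPT).trans hpsi
  have hlt : pmod w * dens w ^ 2 * S / K * (C * ((P : ℝ) / (pmod w : ℕ)) * l) +
      F.card * ((P : ℝ) / (pmod w : ℕ)) < c1 * P := by
    have e1 : (pmod w : ℝ) * dens w ^ 2 * S / K * (C * ((P : ℝ) / (pmod w : ℕ)) * l) =
        C * P * (dens w ^ 2 * (S / K * l)) := by
      field_simp
    have e2 : (F.card : ℝ) * ((P : ℝ) / (pmod w : ℕ)) = P * dens w := by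
      rw [hFc]
      field_simp
    rw [e1, e2]
    have h1 : S / K ≤ c1 / (512 * C) * l := by
      rw [div_le_iff₀ hK]
      calc S ≤ c1 / (512 * C) * K * l := hS
        _ = c1 / (512 * C) * l * K := by ring
    have h2 : dens w ^ 2 ≤ (16 / l) ^ 2 := pow_le_pow_left₀ hdens0 hdens 2
    have h3 : dens w ^ 2 * (S / K * l) ≤ (16 / l) ^ 2 * (c1 / (512 * C) * l * l) := by
      refine le_trans (mul_le_mul_of_nonneg_left
        (mul_le_mul_of_nonneg_right h1 hlpos.le) (by positivity)) ?_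
      exact mul_le_mul_of_nonneg_right h2 (by positivity)
    have h4 : (16 / (l : ℝ)) ^ 2 * (c1 / (512 * C) * l * l) = c1 / (2 * C) := by
      field_simp
      norm_num
    have h5 : C * P * (dens w ^ 2 * (S / K * l)) ≤ c1 * P / 2 := by
      rw [h4] at h3
      calc C * P * (dens w ^ 2 * (S / K * l)) ≤ C * P * (c1 / (2 * C)) :=
            mul_le_mul_of_nonneg_left h3 (by positivity)
        _ = c1 * P / 2 := by field_simp
    have h6 : dens w < c1 / 2 := by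
      refine lt_of_le_of_lt hdens ?_
      rw [div_lt_div_iff₀ hlpos (by norm_num)]
      have h7 : 32 / c1 < l := by
        have h8 : 32 / c1 ≤ (⌈32 / c1⌉₊ : ℝ) := Nat.le_ceil _
        have h9 : ((⌈32 / c1⌉₊ + 3 : ℕ) : ℝ) ≤ l := by exact_mod_cast hl
        push_cast at h9
        linarith
      rw [div_lt_iff₀ hc1] at h7
      linarith
    have h7 : (P : ℝ) * dens w < P * (c1 / 2) := mul_lt_mul_of_pos_left h6 hPr
    linarith
  obtain ⟨b, hbF, hb1, hb2⟩ := sel_avg (F := F)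
    (J := fun b => ((A.filter (fun q => Nat.Coprime (b + q) (pmod w))).card : ℝ))
    (psi := fun b => AT.psi (pmod w) (rr (pmod w) q0 b) P) (K := K)
    (X := pmod w * dens w ^ 2 * S) (Y := C * ((P : ℝ) / (pmod w : ℕ)) * l) (B := c1 * P)
    (Q := (P : ℝ) / (pmod w : ℕ)) hK (fun b _ => Nat.cast_nonneg _) havg (by positivity)
    (fun b _ => hbt b) hth (by positivity) hlt
  exact ⟨b, (mem_filter.1 hbF).2, hb1, hb2⟩

end Pool.Agent.UW
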