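import Pool.Agent.UW.App
import Pool.Agent.UW.Sel

/-! UW/Fin1.  Theorem U1: a unique witness for `x^(1-δ)` of the `n ≤ x`.

`a = Nat.log 2 x - 2`, `P = 2 ^ a`, `L = a + 4`, so `4P ≤ x < 8P`, `2 ^ L = 16 P`;
`η = min (δ/20) (1/10000)`, `d = ⌊η L⌋`, `w = d / 2`, `M = pmod w ≤ 4 ^ w ≤ 2 ^ d`, `K = c0 d`. -/

set_option autoImplicit false

namespace Pool.Agent.UW

open Finset Pool.Agent.REC

private theorem f1_M (w d : ℕ) (h : 2 * w ≤ d) : pmod w ≤ 2 ^ d := by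
  have h1 := Mod_le w ∅
  have h2 : REC.Mod w ∅ = pmod w := by
    unfold REC.Mod pmod
    rw [sdiff_empty]
  rw [h2] at h1
  have h3 : ((pmod w : ℕ) : ℝ) ≤ (2 : ℝ) ^ d := by
    refine h1.trans ?_
    rw [show (4 : ℝ) = 2 ^ 2 by norm_num, ← pow_mul]
    exact pow_le_pow_right₀ (by norm_num) h
  exact_mod_cast h3

private theorem f1_dvd {w q : ℕ} (hq : q.Prime) (h : q ∣ pmod w) : q ≤ w := by
  unfold pmod at h
  obtain ⟨p, hp, hqp⟩ := (Nat.Prime.prime hq).exists_mem_finset_dvd h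
  have h1 := mem_prs.1 hp
  have h2 := (Nat.prime_dvd_prime_iff_eq hq h1.1).1 hqp
  omega

private theorem f1_c0 : 0 < c0 ∧ c0 ≤ 1 := by
  unfold c0
  have h1 : 0 < Real.exp (-9) := Real.exp_pos _
  have h2 : Real.exp (-9) ≤ 1 := Real.exp_le_one_iff.2 (by norm_num)
  exact ⟨by positivity, by rw [div_le_one (by norm_num)]; linarith⟩

/-- parameters -/
private theorem f1_par {η : ℝ} (hη : 0 < η) (hη1 : η ≤ 1 / 10000) {L : ℕ}
    (h1 : 32 / η ≤ L) (h2 : (2 / η) ^ 4 ≤ L) (h3 : 64 / η ^ 2 ≤ L) :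
    ∃ d : ℕ, (d : ℝ) ≤ η * L ∧ η * L / 2 ≤ d ∧ L ^ 3 ≤ d ^ 4 ∧ 16 ≤ d ∧ L ≤ (d / 2) ^ 2 ∧
      10000 * d ≤ L := by
  have hL0 : (0 : ℝ) < L := lt_of_lt_of_le (by positivity) h1
  have h32 : 32 ≤ η * L := by
    rw [div_le_iff₀ hη] at h1
    linarith
  refine ⟨⌊η * L⌋₊, Nat.floor_le (by positivity), ?_, ?_, ?_, ?_, ?_⟩
  · have := Nat.lt_floor_add_one (η * L)
    linarith
  · have h4 : η * L / 2 ≤ (⌊η * L⌋₊ : ℝ) := by
      have := Nat.lt_floor_add_one (η * L)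
      linarith
    have h5 : (L : ℝ) ^ 3 ≤ (⌊η * L⌋₊ : ℝ) ^ 4 := by
      calc (L : ℝ) ^ 3 = (η / 2) ^ 4 * (2 / η) ^ 4 * (L : ℝ) ^ 3 := by
            field_simp
        _ ≤ (η / 2) ^ 4 * L * (L : ℝ) ^ 3 := by gcongr
        _ = (η * L / 2) ^ 4 := by ring
        _ ≤ _ := pow_le_pow_left₀ (by positivity) h4 4
    exact_mod_cast h5
  · exact Nat.le_floor (by push_cast; linarith)
  · have h4 : η * L / 2 ≤ (⌊η * L⌋₊ : ℝ) := by
      have := Nat.lt_floor_add_one (η * L)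
      linarith
    have h6 : η * L / 8 ≤ ((⌊η * L⌋₊ / 2 : ℕ) : ℝ) := by
      have h7 : ((⌊η * L⌋₊ : ℕ) : ℝ) ≤ 2 * ((⌊η * L⌋₊ / 2 : ℕ) : ℝ) + 1 := by
        have : ⌊η * L⌋₊ ≤ 2 * (⌊η * L⌋₊ / 2) + 1 := by omega
        exact_mod_cast this
      linarith
    have h5 : (L : ℝ) ≤ ((⌊η * L⌋₊ / 2 : ℕ) : ℝ) ^ 2 := by
      calc (L : ℝ) = (η ^ 2 / 64) * (64 / η ^ 2) * L := by
            field_simp
        _ ≤ (η ^ 2 / 64) * L * L := by gcongr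
        _ = (η * L / 8) ^ 2 := by ring
        _ ≤ _ := pow_le_pow_left₀ (by positivity) h6 2
    exact_mod_cast h5
  · have h4 : (⌊η * L⌋₊ : ℝ) ≤ η * L := Nat.floor_le (by positivity)
    have h5 : (10000 : ℝ) * ⌊η * L⌋₊ ≤ L := by nlinarith
    exact_mod_cast h5

private theorem f1_pow {d : ℕ} (h : 16 ≤ d) : d ^ 4 ≤ 2 ^ d := by
  induction d, h using Nat.le_induction with
  | base => norm_num
  | succ d hd ih =>
    have h1 : (d + 1) ^ 4 ≤ 2 * d ^ 4 := by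
      have h2 : (16 * (d + 1)) ≤ 17 * d := by omega
      have h3 : (16 * (d + 1)) ^ 4 ≤ (17 * d) ^ 4 := Nat.pow_le_pow_left h2 4
      rw [mul_pow, mul_pow] at h3
      norm_num at h3
      have h4 : 83521 * d ^ 4 ≤ 131072 * d ^ 4 := Nat.mul_le_mul_right _ (by norm_num)
      omega
    calc (d + 1) ^ 4 ≤ 2 * d ^ 4 := h1
      _ ≤ 2 * 2 ^ d := by omega
      _ = 2 ^ (d + 1) := by ring

private theorem f1_log {a : ℕ} (ha : 16 ≤ a) : Real.log (2 * a) ≤ 2 * (Nat.log 2 a : ℝ) := by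
  have h1 : a < 2 ^ (Nat.log 2 a + 1) := Nat.lt_pow_succ_log_self (by norm_num) a
  have h2 : 4 ≤ Nat.log 2 a := Nat.le_log_of_pow_le (by norm_num) (by simpa using ha)
  have h3 : (2 * a : ℝ) ≤ 2 ^ (Nat.log 2 a + 2) := by
    have : 2 * a ≤ 2 ^ (Nat.log 2 a + 2) := by
      rw [pow_succ 2 (Nat.log 2 a + 1)]
      omega
    exact_mod_cast this
  have ha0 : (0 : ℝ) < a := by exact_mod_cast (by omega : 0 < a)
  have h4 := Real.log_le_log (by positivity) h3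
  rw [Real.log_pow] at h4
  have h5 := Real.log_two_lt_d9
  have h6 : (4 : ℝ) ≤ (Nat.log 2 a : ℝ) := by exact_mod_cast h2
  push_cast at h4
  nlinarith

/-- the right hand side -/
private theorem f1_S {c : ℝ} (hc : 0 < c) {x a : ℕ} (ha : 16 ≤ a) (hx1 : 2 ^ (a + 2) ≤ x)
    (hx2 : x < 2 ^ (a + 3)) :
    c * (Real.log x * Real.log (Real.log x)) ≤ 2 * c * ((a + 4 : ℕ) : ℝ) * (Nat.log 2 a : ℝ) := by
  have hx0 : (0 : ℝ) < x := by
    have : 0 < x := lt_of_lt_of_le (by positivity) hx1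
    exact_mod_cast this
  have hl2 : (0 : ℝ) < Real.log 2 := Real.log_pos (by norm_num)
  have h1 : Real.log x ≤ (a + 4 : ℕ) := by
    have h2 : (x : ℝ) ≤ 2 ^ (a + 3) := by exact_mod_cast hx2.le
    have h3 := Real.log_le_log hx0 h2
    rw [Real.log_pow] at h3
    have h5 := Real.log_two_lt_d9
    push_cast at h3 ⊢
    have h6 : (0 : ℝ) ≤ (a : ℝ) := Nat.cast_nonneg _
    nlinarith
  have h1' : 1 ≤ Real.log x := by
    have h2 : ((2 ^ (a + 2) : ℕ) : ℝ) ≤ x := by exact_mod_cast hx1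
    have h3 := Real.log_le_log (by positivity) h2
    push_cast at h3
    rw [Real.log_pow] at h3
    have h5 := Real.log_two_gt_d9
    have h6 : (16 : ℝ) ≤ (a : ℝ) := by exact_mod_cast ha
    push_cast at h3
    nlinarith
  have h2 : Real.log (Real.log x) ≤ 2 * (Nat.log 2 a : ℝ) := by
    refine le_trans (Real.log_le_log (by linarith) (h1.trans ?_)) (f1_log ha)
    have : a + 4 ≤ 2 * a := by omega
    exact_mod_cast this
  have h3 : 0 ≤ Real.log (Real.log x) := Real.log_nonneg h1'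
  have h4 : Real.log x * Real.log (Real.log x) ≤ ((a + 4 : ℕ) : ℝ) * (2 * (Nat.log 2 a : ℝ)) :=
    mul_le_mul h1 h2 h3 (Nat.cast_nonneg _)
  have h5 := mul_le_mul_of_nonneg_left h4 hc.le
  linarith

/-- the final inequality between the exponents -/
private theorem f1_final {δ η : ℝ} (hδ : 0 < δ) (hδ1 : δ ≤ 1 / 2) (hη : η ≤ δ / 20) {x a d M : ℕ}
    (hx2 : x < 2 ^ (a + 3)) (hM0 : 0 < M) (hM : M ≤ 2 ^ d) (hd : (d : ℝ) ≤ η * ((a + 4 : ℕ) : ℝ))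
    (hLd : a + 4 ≤ 2 ^ d) (ha : 6 / δ ≤ a) :
    (x : ℝ) ^ (1 - δ) ≤ (((2 ^ a : ℕ) : ℝ) / M) / (((a + 4 : ℕ) : ℝ) * 2 ^ (5 * d)) := by
  have hM0' : (0 : ℝ) < M := by exact_mod_cast hM0
  have h1 : (x : ℝ) ^ (1 - δ) ≤ (2 : ℝ) ^ (((a : ℝ) + 3) * (1 - δ)) := by
    have h2 : (x : ℝ) ≤ 2 ^ (a + 3) := by exact_mod_cast hx2.le
    have h3 := Real.rpow_le_rpow (Nat.cast_nonneg x) h2 (by linarith : (0 : ℝ) ≤ 1 - δ)
    refine h3.trans (le_of_eq ?_)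
    rw [Real.rpow_mul (by norm_num)]
    congr 1
    rw [← Real.rpow_natCast]
    push_cast
    rfl
  have hη2 : η * ((a + 4 : ℕ) : ℝ) ≤ δ / 20 * ((a + 4 : ℕ) : ℝ) :=
    mul_le_mul_of_nonneg_right hη (Nat.cast_nonneg _)
  have h6 : 6 ≤ δ * a := by
    rw [div_le_iff₀ hδ] at ha
    linarith
  have h2 : ((a : ℝ) + 3) * (1 - δ) ≤ (a : ℝ) - 7 * d := by
    push_cast at hη2 hd
    nlinarith
  have h3 : (2 : ℝ) ^ (((a : ℝ) + 3) * (1 - δ)) ≤ (2 : ℝ) ^ ((a : ℝ) - 7 * d) :=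
    Real.rpow_le_rpow_of_exponent_le (by norm_num) h2
  refine h1.trans (h3.trans ?_)
  have h4 : (2 : ℝ) ^ ((a : ℝ) - 7 * d) = 2 ^ a / 2 ^ (7 * d) := by
    rw [Real.rpow_sub (by norm_num), Real.rpow_natCast]
    congr 1
    rw [← Real.rpow_natCast]
    push_cast
    rfl
  rw [h4, div_div]
  push_cast
  refine div_le_div_of_nonneg_left (by positivity) (by positivity) ?_
  have h5 : (M : ℝ) ≤ 2 ^ d := by exact_mod_cast hM
  have h7 : (a : ℝ) + 4 ≤ 2 ^ d := by exact_mod_cast hLd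
  calc (M : ℝ) * (((a : ℝ) + 4) * 2 ^ (5 * d)) ≤ 2 ^ d * (2 ^ d * 2 ^ (5 * d)) := by gcongr
    _ = 2 ^ (7 * d) := by
        rw [← pow_add, ← pow_add]
        congr 1
        omega

private theorem f1_core (δ : ℝ) (hδ : 0 < δ) (hδ1 : δ ≤ 1 / 2) : ∃ c : ℝ, 0 < c ∧
    ∃ x0 : ℕ, ∀ x : ℕ, x0 ≤ x →
    ∀ (A : Finset ℕ) (q0 : ℕ), q0 ≤ x → Odd q0 → q0 ∉ A →
    ∑ q ∈ A, ff (max q0 q - min q0 q) ≤ c * (Real.log x * Real.log (Real.log x)) →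
    (x : ℝ) ^ (1 - δ) ≤ (((Icc 1 x).filter (fun n => q0 ≤ 2 * n ∧ (2 * n - q0).Prime ∧
      ∀ q ∈ A, q ≤ 2 * n → ¬ (2 * n - q).Prime)).card : ℝ) := by
  obtain ⟨cs, hcs, Ps, hsel⟩ := sel
  obtain ⟨Pa, happ⟩ := app
  obtain ⟨hc00, hc01⟩ := f1_c0
  obtain ⟨η, hη0, hη1, hη2⟩ : ∃ η : ℝ, 0 < η ∧ η ≤ 1 / 10000 ∧ η ≤ δ / 20 :=
    ⟨min (δ / 20) (1 / 10000), lt_min (by positivity) (by norm_num), min_le_right _ _,
      min_le_left _ _⟩
  obtain ⟨c, hc0, hc⟩ : ∃ c : ℝ, 0 < c ∧ 4 * c ≤ cs * c0 * η :=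
    ⟨cs * c0 * η / 4, by positivity, by linarith⟩
  obtain ⟨a0, ha0⟩ := exists_nat_ge (32 / η + (2 / η) ^ 4 + 64 / η ^ 2 + 2 * c + 6 / δ)
  refine ⟨c, hc0, 2 ^ (a0 + Ps + Pa + 16 + 2), ?_⟩
  intro x hx A q0 hq0x hodd hq0A hS
  obtain ⟨a, ha, hx1, hx2⟩ : ∃ a : ℕ, a0 + Ps + Pa + 16 ≤ a ∧ 2 ^ (a + 2) ≤ x ∧ x < 2 ^ (a + 3) := by
    have hx0 : x ≠ 0 := by
      have : 0 < 2 ^ (a0 + Ps + Pa + 16 + 2) := by positivity
      omega
    have h1 : a0 + Ps + Pa + 16 + 2 ≤ Nat.log 2 x := Nat.le_log_of_pow_le (by norm_num) hx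
    refine ⟨Nat.log 2 x - 2, by omega, ?_, ?_⟩
    · rw [Nat.sub_add_cancel (by omega)]
      exact Nat.pow_log_le_self 2 hx0
    · have h2 : Nat.log 2 x - 2 + 3 = Nat.log 2 x + 1 := by omega
      rw [h2]
      exact Nat.lt_pow_succ_log_self (by norm_num) x
  have haR : (a0 : ℝ) ≤ ((a + 4 : ℕ) : ℝ) := by exact_mod_cast (by omega : a0 ≤ a + 4)
  have haR' : (a0 : ℝ) ≤ (a : ℝ) := by exact_mod_cast (by omega : a0 ≤ a)
  have p1 : 0 < 32 / η := by positivity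
  have p2 : 0 < (2 / η) ^ 4 := by positivity
  have p3 : 0 < 64 / η ^ 2 := by positivity
  have p4 : 0 < 6 / δ := by positivity
  obtain ⟨d, hd1, hd2, hd3, hd4, hd5, hd6⟩ := f1_par (L := a + 4) hη0 hη1 (by linarith)
    (by linarith) (by linarith)
  have hw : 2 * (d / 2) ≤ d := by omega
  have hM := f1_M (d / 2) d hw
  have hM0 := pmod_pos (d / 2)
  have ha16 : 16 ≤ a := by omega
  have hk1 : 4 ≤ Nat.log 2 a := Nat.le_log_of_pow_le (by norm_num) (by simpa using ha16)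
  have hkR : (4 : ℝ) ≤ (Nat.log 2 a : ℝ) := by exact_mod_cast hk1
  have hd0 : (0 : ℝ) < d := by exact_mod_cast (by omega : 0 < d)
  have hS2 := hS.trans (f1_S hc0 ha16 hx1 hx2)
  have hlogP : Nat.log 2 (2 ^ a) = a := Nat.log_pow (by norm_num) a
  -- the class
  have hPa : a < 2 ^ a := Nat.lt_two_pow_self
  have hselS : ∑ q ∈ A, ff (max q0 q - min q0 q) ≤ cs * (c0 * d) * (Nat.log 2 a : ℝ) := by
    refine hS2.trans ?_
    have h1 : 2 * c * ((a + 4 : ℕ) : ℝ) ≤ cs * (c0 * d) := by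
      have h2 : cs * c0 * (η * ((a + 4 : ℕ) : ℝ) / 2) ≤ cs * c0 * d :=
        mul_le_mul_of_nonneg_left hd2 (by positivity)
      have h3 : 4 * c * ((a + 4 : ℕ) : ℝ) ≤ cs * c0 * η * ((a + 4 : ℕ) : ℝ) :=
        mul_le_mul_of_nonneg_right hc (Nat.cast_nonneg _)
      linarith
    exact mul_le_mul_of_nonneg_right h1 (by linarith)
  obtain ⟨b, hb1, hb2, hb3⟩ := hsel (2 ^ a) (by omega) a (d / 2) q0 A (c0 * d) hlogP.symm
    (by omega) (by omega) hq0A (by positivity) hselS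
  -- the number of elements
  have hcard : A.card ≤ 2 ^ d := by
    have h1 : (A.card : ℝ) ≤ ∑ q ∈ A, ff (max q0 q - min q0 q) := by
      have h2 : ∑ q ∈ A, (1 : ℝ) ≤ ∑ q ∈ A, ff (max q0 q - min q0 q) := by
        refine Finset.sum_le_sum fun q hq => one_le_ff ?_
        have h3 : q ≠ q0 := fun h => hq0A (h ▸ hq)
        rcases Nat.lt_or_gt_of_ne h3 with h4 | h4
        · rw [max_eq_left h4.le, min_eq_right h4.le]
          omega
        · rw [max_eq_right h4.le, min_eq_left h4.le]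
          omega
      simpa using h2
    have h2 : (A.card : ℝ) ≤ ((a + 4 : ℕ) : ℝ) ^ 3 := by
      refine (h1.trans hS2).trans ?_
      have h3 : 2 * c ≤ ((a + 4 : ℕ) : ℝ) := by linarith
      have h4 : (Nat.log 2 a : ℝ) ≤ ((a + 4 : ℕ) : ℝ) := by
        have := Nat.log_le_self 2 a
        exact_mod_cast (by omega : Nat.log 2 a ≤ a + 4)
      calc 2 * c * ((a + 4 : ℕ) : ℝ) * (Nat.log 2 a : ℝ) ≤
          ((a + 4 : ℕ) : ℝ) * ((a + 4 : ℕ) : ℝ) * ((a + 4 : ℕ) : ℝ) := by gcongr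
        _ = _ := by ring
    have h3 : A.card ≤ (a + 4) ^ 3 := by exact_mod_cast h2
    exact h3.trans (hd3.trans (f1_pow hd4))
  have h4P : 4 * 2 ^ a + q0 ≤ 2 ^ (a + 4) := by
    have e1 : 2 ^ (a + 4) = 16 * 2 ^ a := by ring
    have e2 : 2 ^ (a + 3) = 8 * 2 ^ a := by ring
    omega
  have hfin := happ (2 ^ a) (by omega) (a + 4) d (pmod (d / 2)) q0 b A
    (by rw [pow_add]; omega) h4P hd3 hd6 hM0
    (by
      intro q hq hqM
      have h1 := f1_dvd hq hqM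
      have h2 : d < 2 ^ d := Nat.lt_two_pow_self
      have h3 : a + 4 ≤ (a + 4) ^ 6 := Nat.le_self_pow (by norm_num) _
      omega)
    hM hodd hq0A hcard hb1
    (by
      refine le_trans ?_ hb2
      have h1 : A.filter (fun q => q ≤ 4 * 2 ^ a + q0 ∧ Nat.Coprime (b + q) (pmod (d / 2))) ⊆
          A.filter (fun q => Nat.Coprime (b + q) (pmod (d / 2))) := by
        intro q hq
        rw [mem_filter] at hq ⊢
        exact ⟨hq.1, hq.2.2⟩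
      exact_mod_cast card_le_card h1)
    hb3
  have hLd : a + 4 ≤ 2 ^ d := by
    refine le_trans ?_ (hd3.trans (f1_pow hd4))
    exact Nat.le_self_pow (by norm_num) _
  have hex := f1_final hδ hδ1 hη2 hx2 hM0 hM hd1 hLd (by linarith)
  refine hex.trans (hfin.trans ?_)
  have hsub : (Icc 1 (2 * 2 ^ a + q0)).filter (fun n => 2 * n ≤ 4 * 2 ^ a + q0 ∧ q0 ≤ 2 * n ∧
      (2 * n - q0).Prime ∧ ∀ q ∈ A, q ≤ 2 * n → ¬ (2 * n - q).Prime) ⊆
      (Icc 1 x).filter (fun n => q0 ≤ 2 * n ∧ (2 * n - q0).Prime ∧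
        ∀ q ∈ A, q ≤ 2 * n → ¬ (2 * n - q).Prime) := by
    intro n hn
    rw [mem_filter, mem_Icc] at hn ⊢
    obtain ⟨⟨h1, _⟩, h2, h3⟩ := hn
    have e2 : 2 ^ (a + 2) = 4 * 2 ^ a := by ring
    exact ⟨⟨h1, by omega⟩, h3⟩
  exact_mod_cast card_le_card hsub

theorem fin1 (δ : ℝ) (hδ : 0 < δ) : ∃ c : ℝ, 0 < c ∧ ∃ x0 : ℕ, ∀ x : ℕ, x0 ≤ x →
    ∀ (A : Finset ℕ) (q0 : ℕ), q0 ≤ x → Odd q0 → q0 ∉ A →
    ∑ q ∈ A, ff (max q0 q - min q0 q) ≤ c * (Real.log x * Real.log (Real.log x)) →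
    (x : ℝ) ^ (1 - δ) ≤ (((Icc 1 x).filter (fun n => q0 ≤ 2 * n ∧ (2 * n - q0).Prime ∧
      ∀ q ∈ A, q ≤ 2 * n → ¬ (2 * n - q).Prime)).card : ℝ) := by
  obtain ⟨c, hc, x0, h⟩ := f1_core (min δ (1 / 2)) (lt_min hδ (by norm_num)) (min_le_right _ _)
  refine ⟨c, hc, max x0 1, ?_⟩
  intro x hx A q0 hq0 hodd hq0A hS
  refine le_trans ?_ (h x (le_trans (le_max_left _ _) hx) A q0 hq0 hodd hq0A hS)
  have h1 : (1 : ℝ) ≤ x := by exact_mod_cast le_trans (le_max_right _ _) hx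
  exact Real.rpow_le_rpow_of_exponent_le h1 (by linarith [min_le_left δ (1 / 2)])

end Pool.Agent.UW
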