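import Pool.Agent.UW.EU5
import Pool.Agent.UW.SelU

/-! UW/FinU.  Theorem U2: a unique witness for `≫ x/log x` of the `n ≤ x`.

`P = x/4`, `L = Nat.log 2 P`, `w = L/10000`, `M = pmod w`, `H' = ⌊(log x)^2⌋₊`, `H = H' + 1`, `j0 = H' - q0`; the classes
`b` of `selU`, `eu5` for each of them, and the injective map `n ↦ (n + H')/2`. -/

set_option autoImplicit false

namespace Pool.Agent.UW

open Finset Pool.Agent.REC

private theorem fu_mod (w : ℕ) : REC.Mod w ∅ = pmod w := by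
  unfold REC.Mod pmod
  rw [sdiff_empty]

private theorem fu_dvd {w q : ℕ} (hq : q.Prime) (h : q ∣ pmod w) : q ≤ w := by
  unfold pmod at h
  obtain ⟨p, hp, hqp⟩ := (Nat.Prime.prime hq).exists_mem_finset_dvd h
  have h1 := mem_prs.1 hp
  have h2 := (Nat.prime_dvd_prime_iff_eq hq h1.1).1 hqp
  omega

private theorem fu_size {P L w : ℕ} (hP : 1 ≤ P) (hL : L = Nat.log 2 P) (hw : 10000 * w ≤ L) :
    ((pmod w : ℕ) : ℝ) ≤ (P : ℝ) ^ (1 / 1000 : ℝ) := by
  have h1 := Mod_le w ∅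
  rw [fu_mod] at h1
  refine h1.trans ?_
  have h2 : 2 ^ L ≤ P := by
    rw [hL]
    exact Nat.pow_log_le_self 2 (by omega)
  have h3 : ((2 : ℝ) ^ L) ^ (1 / 1000 : ℝ) ≤ (P : ℝ) ^ (1 / 1000 : ℝ) := by
    refine Real.rpow_le_rpow (by positivity) ?_ (by norm_num)
    exact_mod_cast h2
  refine le_trans ?_ h3
  have h4 : (4 : ℝ) ^ w = (2 : ℝ) ^ ((2 * w : ℕ) : ℝ) := by
    rw [Real.rpow_natCast, pow_mul]
    norm_num
  have h5 : ((2 : ℝ) ^ L) ^ (1 / 1000 : ℝ) = (2 : ℝ) ^ ((L : ℝ) * (1 / 1000)) := by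
    rw [← Real.rpow_natCast 2 L, ← Real.rpow_mul (by norm_num)]
  rw [h4, h5]
  refine Real.rpow_le_rpow_of_exponent_le (by norm_num) ?_
  have h6 : (10000 : ℝ) * (w : ℝ) ≤ (L : ℝ) := by exact_mod_cast hw
  push_cast
  have h7 : (0 : ℝ) ≤ (w : ℝ) := Nat.cast_nonneg w
  linarith

private theorem fu_pow {d : ℕ} (h : 16 ≤ d) : d ^ 4 ≤ 2 ^ d := by
  induction d, h using Nat.le_induction with
  | base => norm_num
  | succ d hd ih =>
    have h1 : (d + 1) ^ 4 ≤ 2 * d ^ 4 := by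
      have h2 : (16 * (d + 1)) ≤ 17 * d := by omega
      have h3 : (16 * (d + 1)) ^ 4 ≤ (17 * d) ^ 4 := Nat.pow_le_pow_left h2 4
      rw [mul_pow, mul_pow] at h3
      norm_num at h3
      have h4 : 83521 * d ^ 4 ≤ 131072 * d ^ 4 := Nat.mul_le_mul_right _ (by norm_num)
      omega
    calc (d + 1) ^ 4 ≤ 2 * d ^ 4 := h1
      _ ≤ 2 * 2 ^ d := by omega
      _ = 2 ^ (d + 1) := by ring

/-- numerical facts -/
private theorem fu_num {x P L : ℕ} (hP : P = x / 4) (hL : L = Nat.log 2 P) (hL0 : 100 ≤ L) :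
    Real.log x ≤ L ∧ Real.log x ^ 2 + 1 ≤ (L : ℝ) ^ 2 ∧ 0 ≤ Real.log x ∧
      (x : ℝ) / Real.log x ≤ 16 * ((P : ℝ) / L) := by
  have hP0 : P ≠ 0 := by
    rintro rfl
    simp at hL
    omega
  have h1 : 2 ^ L ≤ P := by
    rw [hL]
    exact Nat.pow_log_le_self 2 hP0
  have h2 : P < 2 ^ (L + 1) := by
    rw [hL]
    exact Nat.lt_pow_succ_log_self (by norm_num) P
  have h3 : x < 2 ^ (L + 3) := by
    have e : 2 ^ (L + 3) = 4 * 2 ^ (L + 1) := by ring
    omega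
  have h4 : 2 ^ (L + 2) ≤ x := by
    have e : 2 ^ (L + 2) = 4 * 2 ^ L := by ring
    omega
  have hx8 : x ≤ 8 * P := by omega
  have hx0 : (0 : ℝ) < x := by
    have : 0 < x := by omega
    exact_mod_cast this
  have hLR : (100 : ℝ) ≤ (L : ℝ) := by exact_mod_cast hL0
  have h5 : Real.log x ≤ ((L : ℝ) + 3) * Real.log 2 := by
    have h6 : (x : ℝ) ≤ 2 ^ (L + 3) := by exact_mod_cast h3.le
    have h7 := Real.log_le_log hx0 h6
    rw [Real.log_pow] at h7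
    push_cast at h7
    exact h7
  have h6 : ((L : ℝ) + 2) * Real.log 2 ≤ Real.log x := by
    have h7 : ((2 ^ (L + 2) : ℕ) : ℝ) ≤ x := by exact_mod_cast h4
    have h8 := Real.log_le_log (by positivity) h7
    push_cast at h8
    rw [Real.log_pow] at h8
    push_cast at h8
    exact h8
  have g1 := Real.log_two_gt_d9
  have g2 := Real.log_two_lt_d9
  have h7 : Real.log x ≤ 3 / 4 * L := by nlinarith
  have h8 : (L : ℝ) / 2 ≤ Real.log x := by nlinarith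
  have h9 : 0 < Real.log x := by linarith
  refine ⟨by linarith, by nlinarith, h9.le, ?_⟩
  have hxP : (x : ℝ) ≤ 8 * P := by exact_mod_cast hx8
  rw [div_le_iff₀ h9]
  have hL1 : (0 : ℝ) < L := by linarith
  calc (x : ℝ) ≤ 8 * P := hxP
    _ = 16 * ((P : ℝ) / L) * (L / 2) := by
        field_simp
        norm_num
    _ ≤ 16 * ((P : ℝ) / L) * Real.log x := by gcongr

/-- disjoint classes and the injective map `n ↦ (n + H')/2` -/
private theorem fu_count {M H' : ℕ} {F T : Finset ℕ} (S : ℕ → Finset ℕ) (hF : ∀ b ∈ F, b < M)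
    (hS : ∀ b ∈ F, ∀ n ∈ S b, n ≡ b [MOD M] ∧ Even (n + H') ∧ (n + H') / 2 ∈ T) :
    ∑ b ∈ F, (S b).card ≤ T.card := by
  classical
  have h1 : ∑ b ∈ F, (S b).card = (F.biUnion S).card := by
    rw [card_biUnion]
    intro a ha b hb hab
    refine disjoint_left.2 ?_
    intro n hn hn'
    have h2 := (hS a ha n hn).1
    have h3 := (hS b hb n hn').1
    have h4 := h2.symm.trans h3
    exact hab (Nat.ModEq.eq_of_lt_of_lt h4 (hF a ha) (hF b hb))
  rw [h1]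
  refine card_le_card_of_injOn (fun n => (n + H') / 2) ?_ ?_
  · intro n hn
    rw [mem_coe, mem_biUnion] at hn
    obtain ⟨b, hb, hn⟩ := hn
    exact (hS b hb n hn).2.2
  · intro n hn m hm h
    rw [mem_coe, mem_biUnion] at hn hm
    obtain ⟨b, hb, hn⟩ := hn
    obtain ⟨b', hb', hm⟩ := hm
    obtain ⟨u, hu⟩ := (hS b hb n hn).2.1
    obtain ⟨v, hv⟩ := (hS b' hb' m hm).2.1
    dsimp only at h
    omega

/-- one `n` -/
private theorem fu_elem {P x L w H' q0 b n : ℕ} {A : Finset ℕ} (hP : P = x / 4)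
    (hL : 100 ≤ L) (hw : w ≤ L) (hLP : 2 ^ L ≤ P) (hH : H' + 1 ≤ L ^ 2)
    (hq0 : q0 ≤ H') (hA : ∀ q ∈ A, q ≤ H') (hodd : Odd q0)
    (hn : n ∈ AT.Nw P (H' + 1) (pmod w) b) (hn1 : (n + (H' - q0)).Prime)
    (hn2 : ∀ j ∈ (A.image (fun q => H' - q)).filter (fun j => Nat.Coprime (b + j) (pmod w)),
      ¬ (n + j).Prime) :
    n ≡ b [MOD pmod w] ∧ Even (n + H') ∧ (n + H') / 2 ∈ (Icc 1 x).filter (fun n => q0 ≤ 2 * n ∧
      (2 * n - q0).Prime ∧ ∀ q ∈ A, q ≤ 2 * n → ¬ (2 * n - q).Prime) := by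
  unfold AT.Nw at hn
  rw [mem_filter, mem_Ioc] at hn
  obtain ⟨⟨hn3, hn4⟩, hn5⟩ := hn
  have h4 := fu_pow (d := L) (by omega)
  have h5 : L ^ 4 = L ^ 2 * L ^ 2 := by ring
  have h6 : 100 * 100 ≤ L ^ 2 := by nlinarith
  have h7 : 100 * L ≤ L ^ 2 := by nlinarith
  have h8 : 10000 * L ^ 2 ≤ L ^ 2 * L ^ 2 := Nat.mul_le_mul_right _ (by omega)
  have hPbig : 10000 * L ^ 2 ≤ P := by omega
  have hnbig : w < n := by omega
  have hev : Even (n + H') := by
    have h9 : Odd (n + (H' - q0)) := hn1.odd_of_ne_two (by omega)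
    have h10 : n + H' = (n + (H' - q0)) + q0 := by omega
    rw [h10]
    exact h9.add_odd hodd
  refine ⟨hn5, hev, ?_⟩
  obtain ⟨k, hk⟩ := hev
  have hk2 : (n + H') / 2 = k := by omega
  rw [hk2, mem_filter, mem_Icc]
  refine ⟨⟨by omega, by omega⟩, by omega, ?_, ?_⟩
  · have h9 : 2 * k - q0 = n + (H' - q0) := by omega
    rw [h9]
    exact hn1
  · intro q hq _
    have hqH := hA q hq
    have h9 : 2 * k - q = n + (H' - q) := by omega
    rw [h9]
    by_cases hc : Nat.Coprime (b + (H' - q)) (pmod w)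
    · exact hn2 (H' - q) (mem_filter.2 ⟨mem_image.2 ⟨q, hq, rfl⟩, hc⟩)
    · intro hpr
      obtain ⟨p, hp, hp1, hp2⟩ := Nat.Prime.not_coprime_iff_dvd.1 hc
      have h10 := fu_dvd hp hp2
      have h11 : n + (H' - q) ≡ b + (H' - q) [MOD p] := (hn5.of_dvd hp2).add_right _
      have h12 : p ∣ n + (H' - q) := (h11.dvd_iff dvd_rfl).2 hp1
      have h13 := (Nat.prime_dvd_prime_iff_eq hp hpr).1 h12
      omega

theorem finU (Λ : ℝ) (hΛ : 0 < Λ) : ∃ c : ℝ, 0 < c ∧ ∃ x0 : ℕ, ∀ x : ℕ, x0 ≤ x →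
    ∀ (A : Finset ℕ) (q0 : ℕ), (q0 : ℝ) ≤ Real.log x ^ 2 → (∀ q ∈ A, (q : ℝ) ≤ Real.log x ^ 2) →
    Odd q0 → q0 ∉ A → ∑ q ∈ A, ff (max q0 q - min q0 q) ≤ Λ * Real.log x →
    c * (x / Real.log x) ≤ (((Icc 1 x).filter (fun n => q0 ≤ 2 * n ∧ (2 * n - q0).Prime ∧
      ∀ q ∈ A, q ≤ 2 * n → ¬ (2 * n - q).Prime)).card : ℝ) := by
  classical
  obtain ⟨Λ', c1, c2, hΛ', hc1, hc2, P1, hsel⟩ := selU Λ hΛ
  obtain ⟨c3, hc3, P2, heu⟩ := eu5 Λ' c1 hΛ' hc1
  obtain ⟨L0, hL0⟩ : ∃ L0 : ℕ, 10 ^ 9 ≤ L0 := ⟨_, le_refl _⟩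
  refine ⟨c2 * c3 / 16, by positivity, 4 * (P1 + P2 + 2 ^ L0), ?_⟩
  intro x hx A q0 hq0 hA hodd hq0A hS
  obtain ⟨P, hP⟩ : ∃ P : ℕ, P = x / 4 := ⟨_, rfl⟩
  obtain ⟨L, hL⟩ : ∃ L : ℕ, L = Nat.log 2 P := ⟨_, rfl⟩
  obtain ⟨w, hw⟩ : ∃ w : ℕ, w = L / 10000 := ⟨_, rfl⟩
  have h2L0 : 0 < 2 ^ L0 := by positivity
  have hP1 : P1 ≤ P := by omega
  have hP2 : P2 ≤ P := by omega
  have hP3 : 2 ^ L0 ≤ P := by omega
  have hLL : L0 ≤ L := by
    rw [hL]
    exact Nat.le_log_of_pow_le (by norm_num) hP3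
  have hL9 : 10 ^ 9 ≤ L := hL0.trans hLL
  have hL100 : 100 ≤ L := by omega
  obtain ⟨n1, n2, n3, n4⟩ := fu_num hP hL hL100
  have hLP : 2 ^ L ≤ P := by
    rw [hL]
    exact Nat.pow_log_le_self 2 (by omega)
  obtain ⟨H', hH'⟩ : ∃ H' : ℕ, H' = ⌊Real.log x ^ 2⌋₊ := ⟨_, rfl⟩
  have hH : H' + 1 ≤ L ^ 2 := by
    have h1 : (H' : ℝ) ≤ Real.log x ^ 2 := by
      rw [hH']
      exact Nat.floor_le (by positivity)
    have h2 : ((H' + 1 : ℕ) : ℝ) ≤ ((L ^ 2 : ℕ) : ℝ) := by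
      push_cast
      linarith
    exact_mod_cast h2
  have hq0H : q0 ≤ H' := by
    rw [hH']
    exact Nat.le_floor hq0
  have hAH : ∀ q ∈ A, q ≤ H' := by
    intro q hq
    rw [hH']
    exact Nat.le_floor (hA q hq)
  have hinj : Set.InjOn (fun q => H' - q) (A : Set ℕ) := by
    intro q hq q' hq' h
    have h1 := hAH q (mem_coe.1 hq)
    have h2 := hAH q' (mem_coe.1 hq')
    dsimp only at h
    omega
  have hj0 : H' - q0 ∉ A.image (fun q => H' - q) := by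
    intro h
    obtain ⟨q, hq, h1⟩ := mem_image.1 h
    have h2 := hAH q hq
    have h3 : q = q0 := by omega
    exact hq0A (h3 ▸ hq)
  have hsum : ∑ j ∈ A.image (fun q => H' - q), ff (max (H' - q0) j - min (H' - q0) j) ≤ Λ * L := by
    rw [sum_image hinj]
    refine le_trans (le_of_eq ?_) (hS.trans (mul_le_mul_of_nonneg_left n1 hΛ.le))
    refine sum_congr rfl fun q hq => ?_
    have h2 := hAH q hq
    have h3 : max (H' - q0) (H' - q) - min (H' - q0) (H' - q) = max q0 q - min q0 q := by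
      rcases le_total q0 q with h | h
      · rw [max_eq_right h, min_eq_left h, max_eq_left (by omega), min_eq_right (by omega)]
        omega
      · rw [max_eq_left h, min_eq_right h, max_eq_right (by omega), min_eq_left (by omega)]
        omega
    rw [h3]
  have hw1 : 10000 * w ≤ L := by omega
  have hw2 : L ≤ w ^ 2 := by
    have h1 : L ≤ 20000 * w := by omega
    have h2 : 20000 ≤ w := by omega
    nlinarith
  have hwL : w ≤ L := by omega
  have hF := hsel P hP1 L w (H' - q0) (A.image (fun q => H' - q)) hL hw2 hw1 hj0 hsum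
  set F := (range (pmod w)).filter (fun b : ℕ => Nat.Coprime (b + (H' - q0)) (pmod w) ∧
        (((A.image (fun q => H' - q)).filter
          (fun j => Nat.Coprime (b + j) (pmod w))).card : ℝ) * (Nat.log 2 L : ℝ) ≤ Λ' * L ∧
        c1 * ((Nat.log 2 L : ℝ) * ((P : ℝ) / (pmod w : ℕ))) ≤
          AT.psi (pmod w) (b + (H' - q0)) P) with hFdef
  have hM0 := pmod_pos w
  have hM0' : (0 : ℝ) < (pmod w : ℕ) := by exact_mod_cast hM0
  have hlog : 0 < Nat.log 2 L := Nat.log_pos (by norm_num) (by omega)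
  have hlog' : (0 : ℝ) < (Nat.log 2 L : ℝ) := by exact_mod_cast hlog
  have hLpos : (0 : ℝ) < (L : ℝ) := by exact_mod_cast (by omega : 0 < L)
  have hcls : ∀ b ∈ F, c3 * ((Nat.log 2 L : ℝ) / L * ((P : ℝ) / (pmod w : ℕ))) ≤
      (((AT.Nw P (H' + 1) (pmod w) b).filter (fun n => (n + (H' - q0)).Prime ∧
        ∀ j ∈ (A.image (fun q => H' - q)).filter (fun j => Nat.Coprime (b + j) (pmod w)),
          ¬ (n + j).Prime)).card : ℝ) := by
    intro b hb
    obtain ⟨hb0, hb1, hb2, hb3⟩ := mem_filter.1 hb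
    refine heu P hP2 L (pmod w) (H' + 1) _ ?_ b (H' - q0) (by omega) ?_ hb1 hb3
    · refine ⟨hL, hM0, ?_, fu_size (by omega) hL hw1, hH, ?_, hb2⟩
      · intro q hq hLq
        rw [Nat.coprime_comm, hq.coprime_iff_not_dvd]
        intro hd
        have h1 := fu_dvd hq hd
        have h2 : L ^ 1 ≤ L ^ 6 := Nat.pow_le_pow_right (by omega) (by norm_num)
        rw [pow_one] at h2
        omega
      · intro j hj
        obtain ⟨q, hq, h1⟩ := mem_image.1 (mem_filter.1 hj).1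
        rw [mem_range]
        omega
    · intro h
      exact hj0 (mem_filter.1 h).1
  have htot : c2 * c3 * ((P : ℝ) / L) ≤ ∑ b ∈ F,
      (((AT.Nw P (H' + 1) (pmod w) b).filter (fun n => (n + (H' - q0)).Prime ∧
        ∀ j ∈ (A.image (fun q => H' - q)).filter (fun j => Nat.Coprime (b + j) (pmod w)),
          ¬ (n + j).Prime)).card : ℝ) := by
    calc c2 * c3 * ((P : ℝ) / L) = c2 * ((pmod w : ℕ) / (Nat.log 2 L : ℝ)) *
          (c3 * ((Nat.log 2 L : ℝ) / L * ((P : ℝ) / (pmod w : ℕ)))) := by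
          field_simp
      _ ≤ F.card * (c3 * ((Nat.log 2 L : ℝ) / L * ((P : ℝ) / (pmod w : ℕ)))) := by
          refine mul_le_mul_of_nonneg_right hF ?_
          positivity
      _ = ∑ b ∈ F, c3 * ((Nat.log 2 L : ℝ) / L * ((P : ℝ) / (pmod w : ℕ))) := by
          rw [sum_const, nsmul_eq_mul]
      _ ≤ _ := sum_le_sum hcls
  have hcount := fu_count (M := pmod w) (H' := H') (F := F)
    (T := (Icc 1 x).filter (fun n => q0 ≤ 2 * n ∧
      (2 * n - q0).Prime ∧ ∀ q ∈ A, q ≤ 2 * n → ¬ (2 * n - q).Prime))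
    (fun b => (AT.Nw P (H' + 1) (pmod w) b).filter (fun n => (n + (H' - q0)).Prime ∧
        ∀ j ∈ (A.image (fun q => H' - q)).filter (fun j => Nat.Coprime (b + j) (pmod w)),
          ¬ (n + j).Prime))
    (fun b hb => mem_range.1 (mem_filter.1 hb).1)
    (by
      intro b hb n hn
      obtain ⟨h1, h2, h3⟩ := mem_filter.1 hn
      exact fu_elem hP hL100 hwL hLP hH hq0H hAH hodd h1 h2 h3)
  have hcount' := Nat.cast_le (α := ℝ) |>.2 hcount
  rw [Nat.cast_sum] at hcount'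
  refine le_trans ?_ (htot.trans hcount')
  calc c2 * c3 / 16 * (x / Real.log x) ≤ c2 * c3 / 16 * (16 * ((P : ℝ) / L)) :=
        mul_le_mul_of_nonneg_left n4 (by positivity)
    _ = c2 * c3 * ((P : ℝ) / L) := by ring

end Pool.Agent.UW
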