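import Pool.Agent.UW.MomU
import Pool.Agent.AV.Cc
import Pool.Agent.AV.Blks
import Pool.Agent.AV.Sz
import Pool.Agent.VOID.EpsV
import Pool.Agent.VOID.ChernV
import Pool.Agent.VOID.SumE
import Pool.Agent.VOID.Off
import Pool.Agent.RS.Count
import Pool.Agent.RS.Tot

/-! UW/Gb.  The VOID weights for an arbitrary finite set `R` of nonzero integers (the values `n - b`, `b ∈ R`, are repelled,
`n` itself is attracted): the concrete objects and their properties. Everything is a variation of AV/PyF, AV/H1f, AV/Sd,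
with the large primes `prz (2^s) \ EB L m1 s (insert 0 R)` and the blocks `Bk L m1 (insert 0 R)`. -/

set_option autoImplicit false

open Finset Pool.Agent.RS Pool.Agent.AT Pool.Agent.VOID Pool.Agent.AV

namespace Pool.Agent.UW

/-- the set `R` together with the attracted element `0` -/
def ins (R : Finset ℤ) : Finset ℤ := insert 0 R

/-- the large primes -/
abbrev Ig (L m1 s : ℕ) (R : Finset ℤ) : Type := {q : ℕ // q ∈ prz (2 ^ s) \ EB L m1 s (ins R)}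

def pg (L m1 s : ℕ) (R : Finset ℤ) : Ig L m1 s R → ℕ := fun q => (q : ℕ)

/-- the weights -/
noncomputable def wg (L m1 s : ℕ) (R : Finset ℤ) : Finset (Ig L m1 s R) → ℝ :=
  wt (pg L m1 s R) (2 ^ s)

/-- the block sieve on the small primes -/
noncomputable def psg (L m1 r : ℕ) (R : Finset ℤ) : ℤ → ℝ :=
  psiV (Bk L m1 (ins R)) r (Nat.log 2 m1)

/-- its density -/
noncomputable def Pg (L m1 : ℕ) (R : Finset ℤ) : ℕ → ℝ := PiV (Bk L m1 (ins R)) (Nat.log 2 m1)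

/-- the modulus of the block sieve -/
noncomputable def Qg (L m1 : ℕ) (R : Finset ℤ) : ℕ := QV (Bk L m1 (ins R)) (Nat.log 2 m1)

/-- the elements -/
def ar (R : Finset ℤ) : {b : ℤ // b ∈ R} → ℤ := fun b => (b : ℤ)

/-- the weight -/
noncomputable def gg (L m1 s d r : ℕ) (R : Finset ℤ) (n : ℤ) : ℝ :=
  GZ (pg L m1 s R) (ar R) (psg L m1 r R) (Yd (pg L m1 s R) (wg L m1 s R) (2 ^ d)) n

/-- its mean square, up to constants -/
noncomputable def Zg (L m1 s d : ℕ) (R : Finset ℤ) : ℝ :=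
  ZZ {b : ℤ // b ∈ R} (pg L m1 s R) (wg L m1 s R) (2 ^ d) (Pg L m1 R)

/-- all the data -/
structure SG (CV0 CV : ℝ) (G r P L M : ℕ) (R : Finset ℤ) (g s m1 d N : ℕ) : Prop where
  pb : PB CV G r L g s m1 d N
  CV0pos : 0 < CV0
  CVle : CV0 ≤ CV
  h4 : 16 * (RR G r : ℝ) * (((2 : ℝ) ^ (G + 1)) ^ (2 * r))⁻¹ *
      Real.exp (16 * 2 ^ (G + 1) * 8) ≤ Real.log 2
  hG2 : 6400 * ((1000 : ℕ) : ℝ) * Real.exp 9 * CV / Real.log 2 ≤ G
  hG3 : 8 * Real.exp 9 / Real.log 2 ≤ G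
  hP4 : 4 * P ≤ 2 ^ L
  hP6 : 2 ^ L ≤ 64 * P
  hM0 : 0 < M
  hM : ∀ q : ℕ, q.Prime → L ^ 6 < q → Nat.Coprime M q
  hMP : (M : ℝ) ≤ (P : ℝ) ^ (1 / 1000 : ℝ)
  hR : ∀ b ∈ R, |b| ≤ 2 ^ L
  h0 : (0 : ℤ) ∉ R
  hkL : R.card + 1 ≤ L
  hkV : (R.card : ℝ) * Pg L m1 R 1 ≤ CV0 * (L / m1)

attribute [local irreducible] RR

/-! ### the set -/

theorem ins_abs {L : ℕ} {R : Finset ℤ} (hR : ∀ b ∈ R, |b| ≤ 2 ^ L) : ∀ b ∈ ins R, |b| ≤ 2 ^ L := by
  intro b hb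
  unfold ins at hb
  rcases Finset.mem_insert.1 hb with rfl | hb
  · rw [abs_zero]
    positivity
  · exact hR b hb

theorem ins_card {L : ℕ} {R : Finset ℤ} (h : R.card + 1 ≤ L) : (ins R).card ≤ L :=
  (Finset.card_insert_le _ _).trans h

theorem mem_ins0 (R : Finset ℤ) : (0 : ℤ) ∈ ins R := Finset.mem_insert_self _ _

theorem mem_ins {R : Finset ℤ} {b : ℤ} (h : b ∈ R) : b ∈ ins R := Finset.mem_insert_of_mem h

theorem ar_mem {R : Finset ℤ} (j : {b : ℤ // b ∈ R}) : ar R j ∈ ins R := mem_ins j.2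

theorem ar_inj (R : Finset ℤ) : Function.Injective (ar R) := Subtype.val_injective

theorem ao_mem {R : Finset ℤ} (j : Option {b : ℤ // b ∈ R}) : ao 0 (ar R) j ∈ ins R := by
  rcases j with _ | j
  · exact mem_ins0 R
  · exact ar_mem j

theorem ao_inj {R : Finset ℤ} (h0 : (0 : ℤ) ∉ R) : Function.Injective (ao 0 (ar R)) := by
  intro o o' h
  rcases o with _ | x <;> rcases o' with _ | x'
  · rfl
  · exfalso
    apply h0
    have h1 : (0 : ℤ) = (x' : ℤ) := h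
    rw [h1]
    exact x'.2
  · exfalso
    apply h0
    have h1 : (x : ℤ) = (0 : ℤ) := h
    rw [← h1]
    exact x.2
  · exact congrArg some (Subtype.ext h)

theorem ar_ne_zero {R : Finset ℤ} (h0 : (0 : ℤ) ∉ R) (j : {b : ℤ // b ∈ R}) : ar R j ≠ 0 := by
  intro h
  apply h0
  have h1 : (j : ℤ) = 0 := h
  rw [← h1]
  exact j.2

/-! ### the large primes -/

theorem pg_mem {L m1 s : ℕ} {R : Finset ℤ} (i : Ig L m1 s R) : (pg L m1 s R i).Prime ∧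
    2 ^ m1 < pg L m1 s R i ∧ pg L m1 s R i ≤ 2 ^ s ∧ L ^ 6 < pg L m1 s R i ∧
    (∀ b ∈ ins R, ∀ b' ∈ ins R, b ≠ b' → ¬ ((pg L m1 s R i : ℕ) : ℤ) ∣ b - b') := big_mem i.2

theorem pg_inj (L m1 s : ℕ) (R : Finset ℤ) : Function.Injective (pg L m1 s R) :=
  Subtype.val_injective

theorem pg_two {L m1 s : ℕ} {R : Finset ℤ} (i : Ig L m1 s R) : 2 ≤ pg L m1 s R i :=
  (pg_mem i).1.two_le

theorem pg_z {L m1 s : ℕ} {R : Finset ℤ} (i : Ig L m1 s R) :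
    (2 : ℝ) ^ m1 ≤ (pg L m1 s R i : ℝ) - 1 := by
  have h1 : 2 ^ m1 + 1 ≤ pg L m1 s R i := (pg_mem i).2.1
  have h2 : ((2 : ℝ) ^ m1 + 1) ≤ (pg L m1 s R i : ℝ) := by exact_mod_cast h1
  linarith

theorem pg_card {L m1 s e : ℕ} {R : Finset ℤ} (hm : 1 ≤ m1) (S : Finset (Ig L m1 s R))
    (h : PP (pg L m1 s R) S ≤ 2 ^ e) : S.card ≤ e / m1 := by
  rw [Nat.le_div_iff_mul_le (by omega)]
  have h1 : ((2 : ℝ) ^ m1) ^ S.card ≤ PP (pg L m1 s R) S := by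
    unfold PP
    rw [← Finset.prod_const]
    exact Finset.prod_le_prod (fun _ _ => by positivity)
      (fun i _ => by exact_mod_cast (pg_mem i).2.1.le)
  rw [← pow_mul] at h1
  have h2 : (2 : ℝ) ^ (m1 * S.card) ≤ 2 ^ e := h1.trans h
  have h3 := (pow_le_pow_iff_right₀ (by norm_num : (1 : ℝ) < 2)).1 h2
  rw [mul_comm]
  exact h3

theorem pg_prod {CV : ℝ} {G r L g s m1 d N : ℕ} (pb : PB CV G r L g s m1 d N) (R : Finset ℤ) :
    ∏ i : Ig L m1 s R, (1 + 1 / ((pg L m1 s R i : ℝ) - 1)) ≤ E2 G r := by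
  have h1 : s ≤ m1 * 2 ^ ((Nat.log 2 (RR G r) + 1) + 1) := by
    have h2 : s ≤ L := by
      have h21 := pb.s_le
      have h22 : dd L ≤ L := by
        unfold dd
        exact Nat.div_le_self _ _
      omega
    have h3 : RR G r < 2 ^ (Nat.log 2 (RR G r) + 1) :=
      Nat.lt_pow_succ_log_self (by norm_num) _
    have h4 : 2 ^ ((Nat.log 2 (RR G r) + 1) + 1) = 2 ^ (Nat.log 2 (RR G r) + 1) * 2 := pow_succ _ _
    have h5 : RR G r * m1 ≤ 2 ^ (Nat.log 2 (RR G r) + 1) * m1 := Nat.mul_le_mul_right _ h3.le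
    have h6 : m1 * (2 ^ (Nat.log 2 (RR G r) + 1) * 2) =
        2 ^ (Nat.log 2 (RR G r) + 1) * m1 + 2 ^ (Nat.log 2 (RR G r) + 1) * m1 := by ring
    have h7 := pb.pl.L_le
    rw [h4, h6]
    omega
  exact big_prod (L := L) (m1 := m1) (s := s) (g := Nat.log 2 (RR G r) + 1) pb.pl.m_pos (ins R) h1

theorem pg_prod0 (L m1 s : ℕ) (R : Finset ℤ) :
    0 ≤ ∏ i : Ig L m1 s R, (1 + 1 / ((pg L m1 s R i : ℝ) - 1)) := by
  apply prod_nonneg
  intro i _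
  have h1 : (2 : ℝ) ≤ (pg L m1 s R i : ℝ) := by exact_mod_cast pg_two i
  have h3 : 0 < 1 / ((pg L m1 s R i : ℝ) - 1) := div_pos one_pos (by linarith)
  linarith

private theorem qg_cop {L m1 : ℕ} {R : Finset ℤ} (n : ℕ)
    (hnq : ∀ q : ℕ, q.Prime → L ^ 6 < q → q ≤ 2 ^ m1 → Nat.Coprime n q) :
    Nat.Coprime n (Qg L m1 R) := by
  unfold Qg QV
  exact Nat.Coprime.prod_right fun i _ => Nat.Coprime.prod_right fun q hq =>
    hnq q (bk_mem hq).1 (bk_mem hq).2.1 (bk_mem hq).2.2.1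

theorem hy_g (L m1 s : ℕ) (R : Finset ℤ) :
    Hy (pg L m1 s R) (Qg L m1 R) (ar R) ((2 : ℝ) ^ m1) := by
  have hpp : ∀ i, (pg L m1 s R i).Prime := fun i => (pg_mem i).1
  refine ⟨fun i => (hpp i).two_le, ?_, ?_, ?_, ?_, by positivity, pg_z⟩
  · intro i j hij
    exact (Nat.coprime_primes (hpp i) (hpp j)).2 fun h => hij (pg_inj L m1 s R h)
  · unfold Qg QV
    exact prod_pos fun i _ => prod_pos fun q hq => (bk_mem hq).1.pos
  · intro i
    refine (qg_cop (pg L m1 s R i) fun q hq _ hqm => ?_).symm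
    refine (Nat.coprime_primes (hpp i) hq).2 fun h => ?_
    have := (pg_mem i).2.1
    omega
  · intro i j j' hjj
    exact (pg_mem i).2.2.2.2 _ (ar_mem j) _ (ar_mem j') fun h => hjj (ar_inj R h)

theorem hM_g {L m1 s M : ℕ} {R : Finset ℤ} (hM : ∀ q : ℕ, q.Prime → L ^ 6 < q → Nat.Coprime M q) :
    Nat.Coprime M (Qg L m1 R * ∏ i, pg L m1 s R i) := by
  refine Nat.Coprime.mul_right (qg_cop M fun q hq h1 _ => hM q hq h1) ?_
  exact Nat.Coprime.prod_right fun i _ => hM (pg L m1 s R i) (pg_mem i).1 (pg_mem i).2.2.2.1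

theorem elim_g (L m1 s : ℕ) (R : Finset ℤ) :
    Function.Injective (Sum.elim (p1 (Bk L m1 (ins R)) (Nat.log 2 m1)) (pg L m1 s R)) := by
  have hne : ∀ (x : I1 (Bk L m1 (ins R)) (Nat.log 2 m1)) (y : Ig L m1 s R),
      p1 (Bk L m1 (ins R)) (Nat.log 2 m1) x ≠ pg L m1 s R y := by
    intro x y h
    have h1 : p1 (Bk L m1 (ins R)) (Nat.log 2 m1) x ≤ 2 ^ m1 := (bk_mem x.2.2).2.2.1
    have h2 := (pg_mem y).2.1
    omega
  rintro (⟨i, q, hq⟩ | x) (⟨i', q', hq'⟩ | y) h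
  · simp only [Sum.elim_inl, p1] at h
    subst h
    have hi : i = i' := by
      by_contra hne'
      have h1 : (i : ℕ) ≠ (i' : ℕ) := fun h2 => hne' (Fin.ext h2)
      exact Finset.disjoint_left.1 (bk_disj h1) hq hq'
    subst hi
    rfl
  · exact absurd h (hne _ _)
  · exact absurd h.symm (hne _ _)
  · simp only [Sum.elim_inr] at h
    rw [pg_inj L m1 s R h]

/-! ### the small sieve -/

private theorem gb_num {K ρ X Y l : ℝ} (hX : 0 ≤ X) (hY : 0 ≤ Y)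
    (h3 : K ≤ 4 * ρ) (h4 : 16 * ρ * X * Y ≤ l) (hρ : 0 ≤ ρ) : K * (2 * X * Y) ≤ l := by
  have h1 : 0 ≤ ρ * X * Y := by positivity
  have h2 : 0 ≤ 2 * X * Y := by positivity
  have h5 := mul_le_mul_of_nonneg_right h3 h2
  nlinarith

private theorem gb_R1 (G r : ℕ) : 1 ≤ RR G r :=
  Nat.one_le_iff_ne_zero.2 (by unfold RR; positivity)

theorem eps_g {L m1 G r N : ℕ} {R : Finset ℤ} (hN : N ≤ RR G r) (hG1 : 1 ≤ G)
    (h4 : 16 * (RR G r : ℝ) * (((2 : ℝ) ^ (G + 1)) ^ (2 * r))⁻¹ *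
      Real.exp (16 * 2 ^ (G + 1) * 8) ≤ Real.log 2) :
    (∏ i ∈ range (Nat.log 2 m1), (1 + epsS (Bk L m1 (ins R) i) (r + i))) ^ (2 * N + 2) ≤ 2 := by
  have hR1 := gb_R1 G r
  have hl : (2 : ℝ) ≤ 2 ^ (G + 1) := by
    calc (2 : ℝ) = 2 ^ 1 := by norm_num
      _ ≤ 2 ^ (G + 1) := pow_le_pow_right₀ (by norm_num) (by omega)
  have h1 := eps_total (Bk L m1 (ins R)) r (Nat.log 2 m1) hl (s := 8) (fun i hi => bk_sum hi)
  have h0 : 0 ≤ ∏ i ∈ range (Nat.log 2 m1), (1 + epsS (Bk L m1 (ins R) i) (r + i)) :=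
    prod_nonneg fun i _ => by have := epsS_nonneg (Bk L m1 (ins R) i) (r + i); linarith
  have h2 := pow_le_pow_left₀ h0 h1 (2 * N + 2)
  refine h2.trans ?_
  rw [← Real.exp_nat_mul]
  have h3 : ((2 * N + 2 : ℕ) : ℝ) ≤ 4 * (RR G r : ℝ) := by
    have : 2 * N + 2 ≤ 4 * RR G r := by omega
    exact_mod_cast this
  have h5 := gb_num (by positivity) (Real.exp_nonneg (16 * 2 ^ (G + 1) * 8))
    h3 h4 (Nat.cast_nonneg (RR G r))
  exact (Real.exp_le_exp.2 h5).trans (Real.exp_log (by norm_num)).le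

theorem ss_g {CV0 CV : ℝ} {G r P L M : ℕ} {R : Finset ℤ} {g s m1 d N : ℕ}
    (sg : SG CV0 CV G r P L M R g s m1 d N) :
    SS (Qg L m1 R) (psg L m1 r R) ((2 : ℝ) ^ (m1 * (4 * r + 4)))
      (Pg L m1 R) (Pg L m1 R 1) (2 * N + 2) (ao 0 (ar R)) := by
  have pb := sg.pb
  have hss0 := brun_ss (κ := Option {b : ℤ // b ∈ R}) (Bl := Bk L m1 (ins R)) (r := r)
    (I := Nat.log 2 m1)
    (K := 2 * N + 2) (a := ao 0 (ar R)) (fun i _ q hq => (bk_mem hq).1)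
    (fun i _ i' _ h => bk_disj h)
    (fun i _ q hq j j' hjj => (bk_mem hq).2.2.2 _ (ao_mem j) _ (ao_mem j')
      fun h => hjj (ao_inj sg.h0 h))
    (fun i _ q hq => by
      have h1 := (bk_mem hq).2.1
      have h2 := pb.pl.K_le
      have h3 := pb.pl.N_le
      omega)
    (eps_g pb.pl.N_le pb.G1 sg.h4)
  have hWle : ∏ i ∈ range (Nat.log 2 m1), (((Bk L m1 (ins R) i).card : ℝ) + 1) ^ (2 * (r + i)) ≤
      2 ^ (m1 * (4 * r + 4)) := bk_card L m1 (ins R) r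
  exact { hss0 with
      rep := hss0.rep.mono hWle
      one_le_W := one_le_pow₀ (by norm_num) }

private theorem gb_sumsq {L m1 : ℕ} {R : Finset ℤ} (hL : 4 ≤ L) :
    ∑ i ∈ range (Nat.log 2 m1), ∑ q ∈ Bk L m1 (ins R) i, 1 / (q : ℝ) ^ 2 ≤ 1 / (L : ℝ) ^ 6 := by
  classical
  rw [← Finset.sum_biUnion (fun i _ i' _ h => bk_disj h)]
  refine (Finset.sum_le_sum_of_subset_of_nonneg ?_ fun q _ _ => by positivity).trans
    (sum_inv_sq hL (ins R) (2 ^ m1))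
  intro q hq
  rw [Finset.mem_biUnion] at hq
  obtain ⟨i, _, hq⟩ := hq
  have h1 := bk_mem hq
  rw [Finset.mem_sdiff]
  constructor
  · unfold prz
    rw [Finset.mem_filter, Finset.mem_Icc]
    exact ⟨⟨h1.1.pos, h1.2.2.1⟩, h1.1⟩
  · unfold excl
    rw [Finset.mem_filter]
    rintro ⟨_, h2 | ⟨b, hb, b', hb', hne, hd⟩⟩
    · exact absurd h2 (not_le.2 h1.2.1)
    · exact h1.2.2.2 b hb b' hb' hne hd

theorem sx_g {CV0 CV : ℝ} {G r P L M : ℕ} {R : Finset ℤ} {g s m1 d N : ℕ}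
    (sg : SG CV0 CV G r P L M R g s m1 d N) :
    SX (p1 (Bk L m1 (ins R)) (Nat.log 2 m1)) 0 (psg L m1 r R) (Pg L m1 R) (CK (2 * N + 2))
      (2 * N + 2) (ar R) := by
  have pb := sg.pb
  have hL16 := pb.pl.L16
  have hR1 := gb_R1 G r
  have hN := pb.pl.N_le
  have hrl := pb.rl
  have hL6 : L ≤ L ^ 6 := Nat.le_self_pow (by norm_num) _
  have hLr : (16 : ℝ) ≤ L := by exact_mod_cast hL16
  refine sx_blocks (fun i _ q hq => (bk_mem hq).1) (fun i _ q hq => ?_) (fun i hi => bk_sum hi) ?_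
    (eps_g hN pb.G1 sg.h4) (ar R) 0
    (fun i _ q hq j => (bk_mem hq).2.2.2 _ (ar_mem j) _ (mem_ins0 R) (ar_ne_zero sg.h0 j))
    (fun i _ q hq j j' hjj => (bk_mem hq).2.2.2 _ (ar_mem j) _ (ar_mem j')
      fun h => hjj (ar_inj R h))
  · have h1 := (bk_mem hq).2.1
    omega
  · have h1 := gb_sumsq (L := L) (m1 := m1) (R := R) (le_trans (by norm_num) hL16)
    have h2 : ∑ i ∈ range (Nat.log 2 m1), ∑ q ∈ Bk L m1 (ins R) i,
        4 * ((2 * N + 2 : ℕ) : ℝ) / (q : ℝ) ^ 2 =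
        4 * ((2 * N + 2 : ℕ) : ℝ) * ∑ i ∈ range (Nat.log 2 m1), ∑ q ∈ Bk L m1 (ins R) i,
          1 / (q : ℝ) ^ 2 := by
      rw [mul_sum]
      refine sum_congr rfl fun i _ => ?_
      rw [mul_sum]
      refine sum_congr rfl fun q _ => ?_
      rw [mul_one_div]
    rw [h2]
    have h3 : ((2 * N + 2 : ℕ) : ℝ) ≤ L := by
      have : 2 * N + 2 ≤ L := by omega
      exact_mod_cast this
    have h5 : 4 * ((2 * N + 2 : ℕ) : ℝ) * ∑ i ∈ range (Nat.log 2 m1),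
        ∑ q ∈ Bk L m1 (ins R) i, 1 / (q : ℝ) ^ 2 ≤ (4 * (L : ℝ)) * (1 / (L : ℝ) ^ 6) :=
      mul_le_mul (by linarith) h1
        (sum_nonneg fun i _ => sum_nonneg fun q _ => by positivity) (by linarith)
    refine h5.trans ?_
    rw [mul_one_div, div_le_div_iff₀ (by positivity) (by norm_num)]
    have c1 : (16 : ℝ) ≤ (L : ℝ) ^ 2 := by nlinarith
    have c2 : (1 : ℝ) ≤ (L : ℝ) ^ 3 := one_le_pow₀ (by linarith)
    have c3 : (L : ℝ) ^ 6 = (L : ℝ) * (L ^ 2 * L ^ 3) := by ring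
    have c4 : (16 : ℝ) ≤ (L : ℝ) ^ 2 * (L : ℝ) ^ 3 := by nlinarith
    rw [c3]
    nlinarith

/-! ### the weights -/

private theorem gb_tail {CV k V1 H G r N1 L s m1 d : ℝ} (hCV : 0 < CV)
    (hm : 1 ≤ m1) (hs : 1 ≤ s) (hr : 0 ≤ r) (hN1 : 1 ≤ N1) (hG : 0 < G) (hd : 0 ≤ d)
    (hkV : k * V1 ≤ CV * (L / m1)) (hkV0 : 0 ≤ k * V1)
    (hH : Real.exp (-9) * (G * (r + 1)) / (8 * m1) ≤ H)
    (hG2 : 6400 * N1 * Real.exp 9 * CV / Real.log 2 ≤ G)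
    (hL : L ≤ 200 * N1 * (r + 1) * d) (hsd : s * (r + 1) ^ 2 ≤ 200 * N1 * d) :
    ((2 : ℝ) ^ d / 2 ^ s) ^ (-(1 / (s * Real.log 2))) *
      Real.exp (V1 * (2 / (H * (s * Real.log 2))) * k) ≤
      Real.exp (1 - (r + 1) ^ 2 / (400 * N1)) := by
  have hl2 : 0 < Real.log 2 := Real.log_pos (by norm_num)
  have hr1 : 0 < r + 1 := by linarith
  have hs0 : 0 < s := by linarith
  have hm0 : 0 < m1 := by linarith
  have hN0 : 0 < N1 := by linarith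
  have hH0 : 0 < H := lt_of_lt_of_le (by positivity) hH
  rw [← Real.rpow_sub (by norm_num : (0 : ℝ) < 2), ← Real.rpow_mul (by norm_num),
    Real.rpow_def_of_pos (by norm_num : (0 : ℝ) < 2), ← Real.exp_add]
  apply Real.exp_le_exp.2
  have e1 : Real.log 2 * ((d - s) * -(1 / (s * Real.log 2))) = 1 - d / s := by
    field_simp
    ring
  rw [e1]
  have e2 : V1 * (2 / (H * (s * Real.log 2))) * k = (k * V1) * (2 / (H * (s * Real.log 2))) := by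
    ring
  rw [e2]
  have e3 : (k * V1) * (2 / (H * (s * Real.log 2))) ≤
      (CV * (L / m1)) * (2 / ((Real.exp (-9) * (G * (r + 1)) / (8 * m1)) * (s * Real.log 2))) := by
    apply mul_le_mul hkV _ (by positivity) (le_trans hkV0 hkV)
    apply div_le_div_of_nonneg_left (by norm_num) (by positivity)
    exact mul_le_mul_of_nonneg_right hH (by positivity)
  have e4 : (CV * (L / m1)) * (2 / ((Real.exp (-9) * (G * (r + 1)) / (8 * m1)) * (s * Real.log 2))) =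
      16 * Real.exp 9 * CV * L / (G * (r + 1) * s * Real.log 2) := by
    rw [Real.exp_neg]
    have := (Real.exp_pos 9).ne'
    field_simp
    ring
  have e5 : 16 * Real.exp 9 * CV * L / (G * (r + 1) * s * Real.log 2) ≤
      16 * Real.exp 9 * CV * (200 * N1 * (r + 1) * d) / (G * (r + 1) * s * Real.log 2) := by
    apply div_le_div_of_nonneg_right _ (by positivity)
    exact mul_le_mul_of_nonneg_left hL (by positivity)
  have e6 : 16 * Real.exp 9 * CV * (200 * N1 * (r + 1) * d) / (G * (r + 1) * s * Real.log 2) =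
      (6400 * N1 * Real.exp 9 * CV / Real.log 2) / G * (d / (2 * s)) := by
    field_simp
    ring
  have e7 : (6400 * N1 * Real.exp 9 * CV / Real.log 2) / G ≤ 1 := (div_le_one hG).2 hG2
  have e8 : (6400 * N1 * Real.exp 9 * CV / Real.log 2) / G * (d / (2 * s)) ≤ d / (2 * s) :=
    mul_le_of_le_one_left (by positivity) e7
  have e9 : (r + 1) ^ 2 / (400 * N1) ≤ d / (2 * s) := by
    rw [div_le_div_iff₀ (by positivity) (by positivity)]
    nlinarith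
  have e10 : d / s = d / (2 * s) + d / (2 * s) := by
    field_simp
    ring
  rw [e4] at e3
  rw [e6] at e5
  linarith

private theorem gb_Hpos {G r m1 H : ℝ} (hG : 1 ≤ G) (hr : 0 ≤ r) (hm : 1 ≤ m1)
    (hH : Real.exp (-9) * (G * (r + 1)) / (8 * m1) ≤ H) : 0 < H :=
  lt_of_lt_of_le (by positivity) hH

private theorem gb_Hlog {G r m1 H l : ℝ} (hG : 1 ≤ G) (hr : 0 ≤ r) (hm : 1 ≤ m1)
    (hH : Real.exp (-9) * (G * (r + 1)) / (8 * m1) ≤ H)
    (hG3 : 8 * Real.exp 9 / Real.log 2 ≤ G) (h1 : m1 * Real.log 2 ≤ l) : 1 ≤ H * l := by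
  have hl2 : 0 < Real.log 2 := Real.log_pos (by norm_num)
  have hm0 : 0 < m1 := by linarith
  have hHpos := gb_Hpos hG hr hm hH
  have h2 : (Real.exp (-9) * (G * (r + 1)) / (8 * m1)) * (m1 * Real.log 2) ≤ H * l :=
    mul_le_mul hH h1 (by positivity) hHpos.le
  refine le_trans ?_ h2
  have h3 : (Real.exp (-9) * (G * (r + 1)) / (8 * m1)) * (m1 * Real.log 2) =
      (G * Real.log 2 / (8 * Real.exp 9)) * (r + 1) := by
    rw [Real.exp_neg]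
    field_simp
  rw [h3]
  have h6 : 1 ≤ G * Real.log 2 / (8 * Real.exp 9) := by
    rw [div_le_iff₀ hl2] at hG3
    rw [one_le_div (by positivity)]
    exact hG3
  exact one_le_mul_of_one_le_of_one_le h6 (by linarith)

private theorem gb_H {CV : ℝ} {G r L g s m1 d N : ℕ} (pb : PB CV G r L g s m1 d N) {R : Finset ℤ}
    (hR : ∀ b ∈ R, |b| ≤ 2 ^ L) (hk : R.card + 1 ≤ L) :
    Real.exp (-9) * ((G : ℝ) * ((r : ℝ) + 1)) / (8 * (m1 : ℝ)) ≤
      H1 (pg L m1 s R) ((2 : ℝ) ^ s) := by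
  have h1 := big_H1 (L := L) (m1 := m1) (s := s) (g := g) (by have := pb.pl.L16; omega)
    pb.pl.m_pos pb.pl.L6 (ins_abs hR) (ins_card hk) (by have := pb.pl.hg; omega) pb.pl.s_low
  have h2 : (g : ℝ) - 16 = G * ((r : ℝ) + 1) := by
    rw [pb.pl.hg]
    push_cast
    ring
  rw [h2] at h1
  exact h1

theorem hlog_g {CV0 CV : ℝ} {G r P L M : ℕ} {R : Finset ℤ} {g s m1 d N : ℕ}
    (sg : SG CV0 CV G r P L M R g s m1 d N) :
    0 < H1 (pg L m1 s R) ((2 : ℝ) ^ s) ∧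
      ∀ i, 1 ≤ H1 (pg L m1 s R) ((2 : ℝ) ^ s) * Real.log (pg L m1 s R i) := by
  have pb := sg.pb
  have hG : (1 : ℝ) ≤ G := by exact_mod_cast pb.G1
  have hr : (0 : ℝ) ≤ r := Nat.cast_nonneg r
  have hm : (1 : ℝ) ≤ m1 := by exact_mod_cast pb.pl.m_pos
  have hH := gb_H pb sg.hR sg.hkL
  refine ⟨gb_Hpos hG hr hm hH, fun i => gb_Hlog hG hr hm hH sg.hG3 ?_⟩
  rw [← Real.log_pow]
  apply Real.log_le_log (by positivity)
  exact_mod_cast (pg_mem i).2.1.le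

theorem wg_empty (L m1 s : ℕ) (R : Finset ℤ) : wg L m1 s R ∅ = 1 := wt_empty _ _

theorem wg_abs {CV0 CV : ℝ} {G r P L M : ℕ} {R : Finset ℤ} {g s m1 d N : ℕ}
    (sg : SG CV0 CV G r P L M R g s m1 d N) (S : Finset (Ig L m1 s R)) : |wg L m1 s R S| ≤ 1 :=
  wt_abs pg_two (hlog_g sg).2 S

theorem Zg_one {CV0 CV : ℝ} {G r P L M : ℕ} {R : Finset ℤ} {g s m1 d N : ℕ}
    (sg : SG CV0 CV G r P L M R g s m1 d N) : 1 ≤ Zg L m1 s d R :=
  ZZ_ge_one (κ := {b : ℤ // b ∈ R}) (pg L m1 s R) (wg L m1 s R) pg_two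
    (wg_empty _ _ _ _) (one_le_pow₀ (by norm_num)) (ss_g sg).pi_nonneg (ss_g sg).pi_zero

theorem tail_g {CV0 CV : ℝ} {G r P L M : ℕ} {R : Finset ℤ} {g s m1 d N : ℕ}
    (sg : SG CV0 CV G r P L M R g s m1 d N) :
    ∑ σ ∈ (univ : Finset (Ig L m1 s R → Option {b : ℤ // b ∈ R})).filter
        (fun σ => (2 : ℝ) ^ d / 2 ^ s < PP (pg L m1 s R) (supp σ)),
      Yd (pg L m1 s R) (wg L m1 s R) (2 ^ d) σ ^ 2 / PH (pg L m1 s R) (supp σ) *
        Pg L m1 R (Tc σ).card ≤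
      Real.exp (1 - ((r : ℝ) + 1) ^ 2 / (400 * ((1000 : ℕ) : ℝ))) * Zg L m1 s d R := by
  have pb := sg.pb
  have hss := ss_g sg
  have hG : (1 : ℝ) ≤ G := by exact_mod_cast pb.G1
  have hr : (0 : ℝ) ≤ r := Nat.cast_nonneg r
  have hm : (1 : ℝ) ≤ m1 := by exact_mod_cast pb.pl.m_pos
  have hs1 : 1 ≤ s := pb.pl.m_pos.trans pb.pl.m_le_s
  have hs1r : (1 : ℝ) ≤ s := by exact_mod_cast hs1
  have hl2 : 0 < Real.log 2 := Real.log_pos (by norm_num)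
  have h2pow : ∀ n : ℕ, (0 : ℝ) < 2 ^ n := fun n => pow_pos two_pos n
  obtain ⟨hHpos, hHlog⟩ := hlog_g sg
  have hH := gb_H pb sg.hR sg.hkL
  have hS1 : (1 : ℝ) < 2 ^ s := one_lt_pow₀ (by norm_num) (by omega)
  have hlogS : Real.log ((2 : ℝ) ^ s) = s * Real.log 2 := Real.log_pow _ _
  have hsl : 0 < (s : ℝ) * Real.log 2 := mul_pos (lt_of_lt_of_le one_pos hs1r) hl2
  have hlS1 : 0 ≤ 1 / ((s : ℝ) * Real.log 2) := (one_div_pos.2 hsl).le
  have hlS2 : 0 ≤ 2 / (H1 (pg L m1 s R) ((2 : ℝ) ^ s) * ((s : ℝ) * Real.log 2)) :=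
    (div_pos two_pos (mul_pos hHpos hsl)).le
  have hcard : (Fintype.card {b : ℤ // b ∈ R} : ℝ) = R.card := by simp
  have htl := tailV (κ := {b : ℤ // b ∈ R}) pg_two (wt (pg L m1 s R) ((2 : ℝ) ^ s))
    (wt_empty _ _)
    (D := (2 : ℝ) ^ d) (D2 := (2 : ℝ) ^ d / 2 ^ s) (lam := 1 / Real.log ((2 : ℝ) ^ s))
    (θ := 2 / (H1 (pg L m1 s R) ((2 : ℝ) ^ s) * Real.log ((2 : ℝ) ^ s))) (V1 := Pg L m1 R 1)
    (div_pos (h2pow d) (h2pow s))
    (by rw [hlogS]; exact hlS1) (by rw [hlogS]; exact hlS2)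
    (wt_theta pg_two hS1 hHpos) (Pg L m1 R) hss.pi_nonneg hss.V1_nonneg hss.pi_step
  refine htl.trans ?_
  have hZ1 := Zg_one sg
  have hZZ0 : 0 ≤ ZZ {b : ℤ // b ∈ R} (pg L m1 s R) (wt (pg L m1 s R) ((2 : ℝ) ^ s))
      ((2 : ℝ) ^ d) (Pg L m1 R) := by
    have h : Zg L m1 s d R = ZZ {b : ℤ // b ∈ R} (pg L m1 s R)
      (wt (pg L m1 s R) ((2 : ℝ) ^ s)) ((2 : ℝ) ^ d) (Pg L m1 R) := rfl
    rw [← h]
    linarith
  apply mul_le_mul_of_nonneg_right _ hZZ0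
  rw [hlogS, hcard]
  have hsdr : (s : ℝ) * ((r : ℝ) + 1) ^ 2 ≤ 200 * ((1000 : ℕ) : ℝ) * d := by
    exact_mod_cast pb.pl.sd
  have hLd : (L : ℝ) ≤ 200 * ((1000 : ℕ) : ℝ) * ((r : ℝ) + 1) * d := by
    exact_mod_cast pb.pl.L_le_d
  have hkV : (R.card : ℝ) * Pg L m1 R 1 ≤ CV * (L / m1) := by
    refine sg.hkV.trans (mul_le_mul_of_nonneg_right sg.CVle (by positivity))
  have hCV : 0 < CV := lt_of_lt_of_le sg.CV0pos sg.CVle
  have h1 := gb_tail (CV := CV) (k := (R.card : ℝ)) (V1 := Pg L m1 R 1)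
    (H := H1 (pg L m1 s R) ((2 : ℝ) ^ s)) (G := G) (r := r)
    (N1 := ((1000 : ℕ) : ℝ)) (L := L) (s := s) (m1 := m1) (d := d) hCV hm hs1r hr
    (by norm_num) (by linarith) (Nat.cast_nonneg d) hkV
    (mul_nonneg (Nat.cast_nonneg _) hss.V1_nonneg) hH sg.hG2 hLd hsdr
  rw [Real.rpow_natCast, Real.rpow_natCast] at h1
  exact h1

theorem cc1_g {CV0 CV : ℝ} {G r P L M : ℕ} {R : Finset ℤ} {g s m1 d N : ℕ}
    (sg : SG CV0 CV G r P L M R g s m1 d N) (U : Finset (Ig L m1 s R)) :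
    |cc (pg L m1 s R) (wg L m1 s R) (2 ^ d) U| ≤ 1 :=
  cc_wt_abs pg_two (hlog_g sg).1 U

theorem cc_g {CV0 CV : ℝ} {G r P L M : ℕ} {R : Finset ℤ} {g s m1 d N : ℕ}
    (sg : SG CV0 CV G r P L M R g s m1 d N) (U : Finset (Ig L m1 s R))
    (hU : PP (pg L m1 s R) U ≤ (2 : ℝ) ^ d / 2 ^ s) :
    |cc (pg L m1 s R) (wg L m1 s R) (2 ^ d) U| ≤ 2 * (RR G r : ℝ) / 2 ^ m1 := by
  have pb := sg.pb
  have h2pow : ∀ n : ℕ, (0 : ℝ) < 2 ^ n := fun n => pow_pos two_pos n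
  obtain ⟨hHpos, hHlog⟩ := hlog_g sg
  have hU1 : PP (pg L m1 s R) U * (2 : ℝ) ^ s ≤ 2 ^ d := by
    rwa [le_div_iff₀ (h2pow s)] at hU
  refine (cc_wt_small pg_two hHpos hHlog U hU1).trans ?_
  have h1 : ∑ i ∈ U, 2 / ((pg L m1 s R i : ℝ) - 1) ≤ ∑ _i ∈ U, 2 / (2 : ℝ) ^ m1 := by
    refine sum_le_sum fun i _ => ?_
    exact div_le_div_of_nonneg_left zero_le_two (h2pow m1) (pg_z i)
  refine h1.trans ?_
  rw [sum_const, nsmul_eq_mul]
  have hS1 : (1 : ℝ) ≤ 2 ^ s := one_le_pow₀ (by norm_num)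
  have hsd0 : (2 : ℝ) ^ d / 2 ^ s ≤ 2 ^ d := div_le_self (h2pow d).le hS1
  have h2 : (U.card : ℝ) ≤ RR G r := by
    have h3 : U.card ≤ d / m1 := pg_card pb.pl.m_pos U (hU.trans hsd0)
    have h4 : d / m1 ≤ RR G r := by
      rw [← pb.pl.hN]
      exact pb.pl.N_le
    exact_mod_cast h3.trans h4
  rw [mul_div_assoc', mul_comm (U.card : ℝ) 2]
  apply div_le_div_of_nonneg_right _ (h2pow m1).le
  linarith only [h2]

theorem sup_g {CV0 CV : ℝ} {G r P L M : ℕ} {R : Finset ℤ} {g s m1 d N : ℕ}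
    (sg : SG CV0 CV G r P L M R g s m1 d N) {m : ℤ} (hm0 : m ≠ 0) (hmL : |m| ≤ 2 ^ (L + 4)) :
    ∑ S ∈ (univ : Finset (Finset (Ig L m1 s R))).filter (fun S => S ≠ ∅),
      |wg L m1 s R S| * ∏ i ∈ S, |ee (pg L m1 s R i) m| ≤ 2 ^ (RR G r + 4) * E2 G r := by
  have pb := sg.pb
  have h1 : ∑ S ∈ (univ : Finset (Finset (Ig L m1 s R))).filter (fun S => S ≠ ∅),
        |wg L m1 s R S| * ∏ i ∈ S, |ee (pg L m1 s R i) m| ≤
      ∑ S : Finset (Ig L m1 s R), ∏ i ∈ S, |ee (pg L m1 s R i) m| := by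
    refine le_trans (sum_le_sum (g := fun S => ∏ i ∈ S, |ee (pg L m1 s R i) m|) fun S _ => ?_) ?_
    · exact mul_le_of_le_one_left (prod_nonneg fun _ _ => abs_nonneg _) (wg_abs sg S)
    · exact sum_le_sum_of_subset_of_nonneg (filter_subset _ _)
        fun S _ _ => prod_nonneg fun _ _ => abs_nonneg _
  have hm := pb.pl.m_pos
  have hLle := pb.pl.L_le
  refine h1.trans ((sumE (R := RR G r + 4) pg_two m ?_).trans ?_)
  · intro U hU
    have h2 := card_dvd (fun i => (pg_mem i).1) (pg_inj L m1 s R) (z := m1) (A := L + 4)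
      (fun i => (pg_mem i).2.1.le) hm0 hmL U hU
    by_contra hcon
    push Not at hcon
    have h3 : m1 * (RR G r + 5) ≤ m1 * U.card := Nat.mul_le_mul_left _ hcon
    have h4 : m1 * (RR G r + 5) = RR G r * m1 + 5 * m1 := by ring
    omega
  · exact mul_le_mul_of_nonneg_left (pg_prod pb R) (by positivity)

open Classical in
theorem cnt_g {CV0 CV : ℝ} {G r P L M : ℕ} {R : Finset ℤ} {g s m1 d N : ℕ}
    (sg : SG CV0 CV G r P L M R g s m1 d N) {D : ℝ} (hD : 0 ≤ D) :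
    (((univ : Finset (Ig L m1 s R → Option {b : ℤ // b ∈ R})).filter
      (fun σ => PP (pg L m1 s R) (supp σ) ≤ D)).card : ℝ) ≤ 2 * D ^ 2 := by
  have hL4 : 4 ≤ L := by have := sg.pb.pl.L16; omega
  have hc : (Fintype.card {b : ℤ // b ∈ R} : ℝ) ≤ ((ins R).card : ℝ) := by
    rw [Fintype.card_coe]
    exact_mod_cast Finset.card_le_card (Finset.subset_insert (0 : ℤ) R)
  refine count_le pg_two ?_ hD
  refine le_trans (Finset.sum_le_sum fun i _ => ?_) (big_sq (m1 := m1) (s := s) hL4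
    (B := ins R) (ins_card sg.hkL))
  exact div_le_div_of_nonneg_right hc (by positivity)

/-! ### numerical facts -/

private theorem gb_main {CV : ℝ} {G r L g s m1 d N : ℕ} (pb : PB CV G r L g s m1 d N)
    (R : Finset ℤ) {x : ℝ}
    (hx0 : 0 ≤ x) (hx : x ≤ 4 * ((L : ℝ) + 4)) {e : ℕ} (he : e ≤ 16 * RR G r) :
    x ^ e * ∏ i : Ig L m1 s R, (1 + 1 / ((pg L m1 s R i : ℝ) - 1)) ≤
      ((2 : ℝ) ^ m1) ^ (1 / 8 : ℝ) := by
  have hL0 : (0 : ℝ) ≤ (L : ℝ) := Nat.cast_nonneg L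
  have h1 : x ^ e ≤ (4 * ((L : ℝ) + 4)) ^ (16 * RR G r) :=
    (pow_le_pow_left₀ hx0 hx e).trans (pow_le_pow_right₀ (by linarith) he)
  have h3 : (0 : ℝ) ≤ (4 * ((L : ℝ) + 4)) ^ (16 * RR G r) := pow_nonneg (by linarith) _
  exact (mul_le_mul h1 (pg_prod pb R) (pg_prod0 _ _ _ _) h3).trans pb.off2

private theorem gb_rp {z l A : ℝ} (hl : 0 < l) (hz1 : 1 ≤ z) (h6 : l ^ 6 ≤ z)
    (hA : A ≤ z ^ (1 / 8 : ℝ)) : A / z ≤ 1 / l ^ 5 := by
  have hz0 : (0 : ℝ) < z := lt_of_lt_of_le one_pos hz1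
  have h5 : l ^ 5 ≤ z ^ (7 / 8 : ℝ) := by
    have e1 : l ^ 5 = (l ^ 6) ^ (5 / 6 : ℝ) := by
      rw [← Real.rpow_natCast l 6, ← Real.rpow_mul hl.le, ← Real.rpow_natCast l 5]
      norm_num
    rw [e1]
    exact (Real.rpow_le_rpow (pow_nonneg hl.le 6) h6 (by norm_num)).trans
      (Real.rpow_le_rpow_of_exponent_le hz1 (by norm_num))
  have e2 : z ^ (1 / 8 : ℝ) * z ^ (7 / 8 : ℝ) = z := by
    rw [← Real.rpow_add hz0]
    norm_num
  rw [div_le_div_iff₀ hz0 (pow_pos hl 5), one_mul]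
  calc A * l ^ 5 ≤ z ^ (1 / 8 : ℝ) * z ^ (7 / 8 : ℝ) :=
        mul_le_mul hA h5 (pow_nonneg hl.le 5) (Real.rpow_nonneg hz0.le _)
    _ = z := e2

theorem offB_g {CV0 CV : ℝ} {G r P L M : ℕ} {R : Finset ℤ} {g s m1 d N : ℕ}
    (sg : SG CV0 CV G r P L M R g s m1 d N) :
    offB {b : ℤ // b ∈ R} (pg L m1 s R) N ((2 : ℝ) ^ m1) ≤ 1 / (L : ℝ) ^ 5 := by
  have pb := sg.pb
  have hk : (Fintype.card {b : ℤ // b ∈ R} : ℝ) ≤ (L : ℝ) := by
    rw [Fintype.card_coe]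
    have := sg.hkL
    exact_mod_cast (by omega : R.card ≤ L)
  have hk0 : (0 : ℝ) ≤ (Fintype.card {b : ℤ // b ∈ R} : ℝ) := Nat.cast_nonneg _
  have hL0 : (0 : ℝ) < (L : ℝ) := by
    have h := pb.big
    exact_mod_cast (lt_of_lt_of_le (by norm_num) h : 0 < L)
  have hN := pb.pl.N_le
  have h1 := gb_main pb R (x := (Fintype.card {b : ℤ // b ∈ R} : ℝ) + 1) (e := 2 * N)
    (by linarith) (by linarith) (by omega)
  have h6 : (L : ℝ) ^ 6 ≤ (2 : ℝ) ^ m1 := by exact_mod_cast pb.pl.L6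
  unfold offB
  exact gb_rp hL0 (one_le_pow₀ one_le_two) h6 h1

theorem offA_g {CV0 CV : ℝ} {G r P L M : ℕ} {R : Finset ℤ} {g s m1 d N : ℕ}
    (sg : SG CV0 CV G r P L M R g s m1 d N) :
    offA {b : ℤ // b ∈ R} (pg L m1 s R) N ≤ ((2 : ℝ) ^ m1) ^ (1 / 4 : ℝ) := by
  have pb := sg.pb
  have hk : (Fintype.card {b : ℤ // b ∈ R} : ℝ) ≤ (L : ℝ) := by
    rw [Fintype.card_coe]
    have := sg.hkL
    exact_mod_cast (by omega : R.card ≤ L)
  have hk0 : (0 : ℝ) ≤ (Fintype.card {b : ℤ // b ∈ R} : ℝ) := Nat.cast_nonneg _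
  have hN := pb.pl.N_le
  have h1 := gb_main pb R (x := 4 * ((Fintype.card {b : ℤ // b ∈ R} : ℝ) + 1)) (e := 4 * N)
    (by linarith) (by linarith) (by omega)
  unfold offA
  exact h1.trans (Real.rpow_le_rpow_of_exponent_le (one_le_pow₀ (by norm_num)) (by norm_num))

theorem V1_g {CV0 CV : ℝ} {G r P L M : ℕ} {R : Finset ℤ} {g s m1 d N : ℕ}
    (sg : SG CV0 CV G r P L M R g s m1 d N) :
    Pg L m1 R 1 ≤ 12 * Real.exp 9 * ((Nat.log 2 L : ℝ) + 1) / (m1 * Real.log 2) :=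
  V1_le (by have := sg.pb.pl.L16; omega) sg.pb.pl.m_pos (ins_abs sg.hR) (ins_card sg.hkL)

/-- the condition `hkV` from the number of the elements -/
theorem kV_g {Λ CV CV' : ℝ} (_hΛ : 0 < Λ) {G r L g s m1 d N : ℕ} (pb : PB CV' G r L g s m1 d N)
    (hCV : 24 * Real.exp 9 * Λ / Real.log 2 ≤ CV) {R : Finset ℤ} (hR : ∀ b ∈ R, |b| ≤ 2 ^ L)
    (hkL : R.card + 1 ≤ L) (hk : (R.card : ℝ) * (Nat.log 2 L : ℝ) ≤ Λ * L) :
    (R.card : ℝ) * Pg L m1 R 1 ≤ CV * (L / m1) := by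
  have hL16 := pb.pl.L16
  have hlam1 : (1 : ℝ) ≤ (Nat.log 2 L : ℝ) := by
    have h1 : Nat.log 2 16 ≤ Nat.log 2 L := Nat.log_mono_right hL16
    have h2 : Nat.log 2 16 = 4 := by
      rw [show (16 : ℕ) = 2 ^ 4 by norm_num, Nat.log_pow (by norm_num)]
    have h3 : 1 ≤ Nat.log 2 L := by omega
    exact_mod_cast h3
  have hV : Pg L m1 R 1 ≤ 12 * Real.exp 9 * ((Nat.log 2 L : ℝ) + 1) / (m1 * Real.log 2) :=
    V1_le (by omega) pb.pl.m_pos (ins_abs hR) (ins_card hkL)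
  have hl2 : 0 < Real.log 2 := Real.log_pos (by norm_num)
  have hm : (1 : ℝ) ≤ m1 := by exact_mod_cast pb.pl.m_pos
  have hm0 : (0 : ℝ) < m1 := by linarith
  have hE : 0 < Real.exp 9 := Real.exp_pos 9
  have hk0 : (0 : ℝ) ≤ (R.card : ℝ) := Nat.cast_nonneg _
  generalize (Nat.log 2 L : ℝ) = lam at *
  calc (R.card : ℝ) * Pg L m1 R 1 ≤
      (R.card : ℝ) * (12 * Real.exp 9 * (lam + 1) / (m1 * Real.log 2)) :=
        mul_le_mul_of_nonneg_left hV hk0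
    _ ≤ (R.card : ℝ) * (12 * Real.exp 9 * (2 * lam) / (m1 * Real.log 2)) := by
        apply mul_le_mul_of_nonneg_left _ hk0
        apply div_le_div_of_nonneg_right _ (by positivity)
        apply mul_le_mul_of_nonneg_left _ (by positivity)
        linarith
    _ = ((R.card : ℝ) * lam) * (24 * Real.exp 9 / (m1 * Real.log 2)) := by ring
    _ ≤ (Λ * L) * (24 * Real.exp 9 / (m1 * Real.log 2)) :=
        mul_le_mul_of_nonneg_right hk (by positivity)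
    _ = (24 * Real.exp 9 * Λ / Real.log 2) * (L / m1) := by
        field_simp
    _ ≤ CV * (L / m1) := mul_le_mul_of_nonneg_right hCV (by positivity)

/-- the weights of the transfer theorems (`pb.w2`) -/
theorem W_g {CV0 CV : ℝ} {G r P L M : ℕ} {R : Finset ℤ} {g s m1 d N : ℕ}
    (sg : SG CV0 CV G r P L M R g s m1 d N) :
    (2 * ((2 : ℝ) ^ d) ^ 2 * (3 * 2 ^ (m1 * (4 * r + 4))) ^ N) ^ 2 *
      ((2 : ℝ) ^ (m1 * (4 * r + 4))) ^ 2 ≤ 2 ^ (L / 100) := by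
  have pb := sg.pb
  refine le_trans ?_ pb.w2
  have hw : (1 : ℝ) ≤ 2 ^ (m1 * (4 * r + 4)) := one_le_pow₀ (by norm_num)
  have hd1 : (1 : ℝ) ≤ 2 ^ dd L := one_le_pow₀ (by norm_num)
  have hd0 : (0 : ℝ) ≤ (2 : ℝ) ^ d := by positivity
  have hN := pb.pl.N_le
  generalize (2 : ℝ) ^ (m1 * (4 * r + 4)) = w at *
  generalize (2 : ℝ) ^ dd L = D at *
  generalize (2 : ℝ) ^ d = E at *
  refine mul_le_mul_of_nonneg_right ?_ (by positivity)
  refine pow_le_pow_left₀ (by positivity) ?_ 2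
  rw [mul_pow 3 w N]
  refine mul_le_mul ?_ ?_ (by positivity) (by positivity)
  · refine mul_le_mul_of_nonneg_left ?_ zero_le_two
    refine pow_le_pow_left₀ hd0 ?_ 2
    have h1 : E ≤ E * D := le_mul_of_one_le_right hd0 hd1
    exact h1.trans (le_mul_of_one_le_right (by positivity) hd1)
  · refine mul_le_mul ?_ ?_ (by positivity) (by positivity)
    · exact pow_le_pow_right₀ (by norm_num) (by omega)
    · exact pow_le_pow_right₀ hw (by omega)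

/-- the same without the factors `Wψ` -/
theorem W0_g {CV0 CV : ℝ} {G r P L M : ℕ} {R : Finset ℤ} {g s m1 d N : ℕ}
    (sg : SG CV0 CV G r P L M R g s m1 d N) :
    (2 * ((2 : ℝ) ^ d) ^ 2 * (3 * 2 ^ (m1 * (4 * r + 4))) ^ N) ^ 2 ≤ 2 ^ (L / 100) := by
  refine le_trans ?_ (W_g sg)
  refine le_mul_of_one_le_right (by positivity) ?_
  exact one_le_pow₀ (one_le_pow₀ (by norm_num))

/-- sizes -/
theorem sz_g {CV0 CV : ℝ} {G r P L M : ℕ} {R : Finset ℤ} {g s m1 d N : ℕ}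
    (sg : SG CV0 CV G r P L M R g s m1 d N) :
    (2 : ℝ) ^ (9 * (L / 10)) ≤ (P : ℝ) / M ∧ √(P : ℝ) ≤ 2 ^ (5 * (L / 10) + 5) ∧
      Real.log (4 * P) ≤ L ∧ 1 ≤ (P : ℝ) / M ∧ 2 ^ dd L < P ∧
      (2 : ℝ) ^ (L / 5000) ≤ (P : ℝ) ^ (1 / 1000 : ℝ) := by
  have hbig := sg.pb.big
  have hP4 := sg.hP4
  have hP6 := sg.hP6
  have hM0 : (0 : ℝ) < M := by exact_mod_cast sg.hM0
  -- `2 ^ (L - 6) ≤ P`
  have hPL : 2 ^ (L - 6) ≤ P := by
    have e : 2 ^ L = 64 * 2 ^ (L - 6) := by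
      have h : L = (L - 6) + 6 := by omega
      calc 2 ^ L = 2 ^ ((L - 6) + 6) := by rw [← h]
        _ = 64 * 2 ^ (L - 6) := by rw [pow_add]; ring
    rw [e] at hP6
    omega
  have hPr : (2 : ℝ) ^ (L - 6) ≤ P := by exact_mod_cast hPL
  have hP1 : (1 : ℝ) ≤ P := (one_le_pow₀ (by norm_num)).trans hPr
  have hP0 : (0 : ℝ) < P := by linarith
  obtain ⟨q, hq⟩ : ∃ q, q = L / 10 := ⟨_, rfl⟩
  rw [← hq]
  have hL1 : 10 * q ≤ L := by omega
  have hL2 : L < 10 * q + 10 := by omega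
  have h1 : (2 : ℝ) ^ (9 * q) ≤ (P : ℝ) / M := by
    rw [le_div_iff₀ hM0]
    have h2 : (2 : ℝ) ^ (9 * q) ≤ (P : ℝ) ^ (999 / 1000 : ℝ) := by
      have h3 : (2 : ℝ) ^ (9 * q) = ((2 : ℝ) ^ (L - 6)) ^ (((9 * q : ℕ) : ℝ) / ((L - 6 : ℕ) : ℝ)) := by
        have h4 : (0 : ℝ) < ((L - 6 : ℕ) : ℝ) := by
          have : 0 < L - 6 := by omega
          exact_mod_cast this
        rw [← Real.rpow_natCast 2 (L - 6), ← Real.rpow_mul (by norm_num),
          mul_div_cancel₀ _ h4.ne', Real.rpow_natCast]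
      rw [h3]
      refine (Real.rpow_le_rpow_of_exponent_le (one_le_pow₀ (by norm_num)) ?_).trans
        (Real.rpow_le_rpow (by positivity) hPr (by norm_num))
      have h4 : (0 : ℝ) < ((L - 6 : ℕ) : ℝ) := by
        have : 0 < L - 6 := by omega
        exact_mod_cast this
      rw [div_le_iff₀ h4]
      have h5 : 1000 * (9 * q) ≤ 999 * (L - 6) := by omega
      have h6 : (1000 : ℝ) * ((9 * q : ℕ) : ℝ) ≤ 999 * ((L - 6 : ℕ) : ℝ) := by exact_mod_cast h5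
      linarith
    have h3 : (0 : ℝ) < (P : ℝ) ^ (999 / 1000 : ℝ) := Real.rpow_pos_of_pos hP0 _
    calc (2 : ℝ) ^ (9 * q) * M ≤ (P : ℝ) ^ (999 / 1000 : ℝ) * (P : ℝ) ^ (1 / 1000 : ℝ) :=
          mul_le_mul h2 sg.hMP hM0.le h3.le
      _ = (P : ℝ) := by
          rw [← Real.rpow_add hP0]
          norm_num
  refine ⟨h1, ?_, ?_, ?_, ?_, ?_⟩
  · rw [Real.sqrt_le_left (by positivity), ← pow_mul]
    have h2 : P ≤ 2 ^ ((5 * q + 5) * 2) := by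
      have h3 : 2 ^ L ≤ 2 ^ ((5 * q + 5) * 2) := Nat.pow_le_pow_right (by norm_num) (by omega)
      omega
    exact_mod_cast h2
  · have h2 : (4 * (P : ℝ)) ≤ 2 ^ L := by exact_mod_cast hP4
    have h3 : Real.log (4 * P) ≤ Real.log ((2 : ℝ) ^ L) := Real.log_le_log (by linarith) h2
    rw [Real.log_pow] at h3
    have h4 : Real.log 2 ≤ 1 := by
      have := Real.log_two_lt_d9
      linarith
    have h5 : (0 : ℝ) ≤ (L : ℝ) := Nat.cast_nonneg L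
    nlinarith
  · exact (one_le_pow₀ (by norm_num)).trans h1
  · refine lt_of_lt_of_le ?_ hPL
    refine Nat.pow_lt_pow_right (by norm_num) ?_
    unfold dd
    omega
  · have h2 : (2 : ℝ) ^ (L / 5000) = (2 : ℝ) ^ (((L / 5000 : ℕ) : ℝ)) := (Real.rpow_natCast _ _).symm
    have h3 : (((L / 5000 : ℕ) : ℝ)) ≤ ((L - 6 : ℕ) : ℝ) * (1 / 1000) := by
      have h4 : 1000 * (L / 5000) ≤ L - 6 := by omega
      have h5 : (1000 : ℝ) * ((L / 5000 : ℕ) : ℝ) ≤ ((L - 6 : ℕ) : ℝ) := by exact_mod_cast h4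
      linarith
    rw [h2]
    calc (2 : ℝ) ^ (((L / 5000 : ℕ) : ℝ)) ≤ (2 : ℝ) ^ (((L - 6 : ℕ) : ℝ) * (1 / 1000)) :=
          Real.rpow_le_rpow_of_exponent_le (by norm_num) h3
      _ = ((2 : ℝ) ^ (L - 6)) ^ (1 / 1000 : ℝ) := by
          rw [Real.rpow_mul (by norm_num), Real.rpow_natCast]
      _ ≤ (P : ℝ) ^ (1 / 1000 : ℝ) := Real.rpow_le_rpow (by positivity) hPr (by norm_num)

/-- the level -/
theorem lev_g {CV0 CV : ℝ} {G r P L M : ℕ} {R : Finset ℤ} {g s m1 d N : ℕ}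
    (sg : SG CV0 CV G r P L M R g s m1 d N) :
    ((2 : ℝ) ^ d * (2 ^ (m1 * (4 * r + 4))) ^ N) ^ 2 ≤ 2 ^ (L / 5000) := by
  have pl := sg.pb.pl
  have hmd : m1 ≤ d := pl.m_le_s.trans pl.s_le_d
  have h1 : (r + 1) * (N * m1) ≤ (r + 1) * d := Nat.mul_le_mul_left _ pl.Nm_le
  have h2 : 10 ^ 5 * ((r + 1) * d) ≤ L := by
    calc 10 ^ 5 * ((r + 1) * d) = d * (100 * 1000 * (r + 1)) := by ring
      _ ≤ L := by rw [pl.hd]; exact Nat.div_mul_le_self _ _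
  have h3 : m1 * (4 * r + 4) * N = 4 * ((r + 1) * (N * m1)) := by ring
  have h4 : d ≤ (r + 1) * d := Nat.le_mul_of_pos_left _ (by omega)
  have e : ((2 : ℝ) ^ d * (2 ^ (m1 * (4 * r + 4))) ^ N) ^ 2 =
      2 ^ (2 * d + 2 * (m1 * (4 * r + 4) * N)) := by
    rw [← pow_mul, ← pow_add, ← pow_mul]
    congr 1
    ring
  rw [e]
  have h5 : 2 * d + 2 * (m1 * (4 * r + 4) * N) ≤ 10 * ((r + 1) * d) := by
    rw [h3]
    omega
  exact pow_le_pow_right₀ (by norm_num) (by omega)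

end Pool.Agent.UW
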