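import Pool.Agent.VOID.AbsT

/-! UW/MomU.  Moments of the VOID weight with one extra factor `ψ (n - a0)` (adaptation of MomU, MomB, MomC, AbsT
of VOID).  The small sieve is given on `Option κ`, `none` standing for the element `a0` to be attracted. -/

set_option autoImplicit false

open Finset Pool.Agent.RS Pool.Agent.VOID

namespace Pool.Agent.UW

variable {ι κ : Type} [Fintype ι] [DecidableEq ι] [DecidableEq κ] [Fintype κ]

/-- the elements together with `a0` -/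
def ao (a0 : ℤ) (a : κ → ℤ) : Option κ → ℤ := fun o => o.elim a0 a

section mom

variable {Q1 : ℕ} {ψ : ℤ → ℝ} {Wψ : ℝ} {Pi : ℕ → ℝ} {V1 : ℝ} {K : ℕ} {a : κ → ℤ} {a0 : ℤ}

/-- restriction of the small sieve -/
theorem ss_some (h : SS Q1 ψ Wψ Pi V1 K (ao a0 a)) : SS Q1 ψ Wψ Pi V1 K a where
  nonneg := h.nonneg
  rep := h.rep
  one_le_W := h.one_le_W
  pi_zero := h.pi_zero
  pi_nonneg := h.pi_nonneg
  pi_step := h.pi_step
  V1_nonneg := h.V1_nonneg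
  V1_le_one := h.V1_le_one
  low := by
    intro T hT
    have h1 := h.low (T.map Function.Embedding.some) (by rw [card_map]; exact hT)
    rw [card_map] at h1
    refine h1.trans (le_of_eq ?_)
    congr 1
    funext n
    rw [prod_map]
    rfl
  up := by
    intro T e hT he
    have h1 := h.up (T.map Function.Embedding.some) (fun o => o.elim 1 e)
      (by rw [card_map]; exact hT) (by
        intro o ho
        rw [mem_map] at ho
        obtain ⟨j, hj, rfl⟩ := ho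
        exact he j hj)
    rw [card_map] at h1
    refine le_trans (le_of_eq ?_) h1
    congr 1
    funext n
    rw [prod_map]
    rfl

theorem up0 (h : SS Q1 ψ Wψ Pi V1 K (ao a0 a)) (T : Finset κ) (e : κ → ℕ) (hT : T.card + 1 ≤ K)
    (he : ∀ j ∈ T, 1 ≤ e j ∧ e j ≤ 3) :
    mean Q1 (fun n => ψ (n - a0) * ∏ j ∈ T, ψ (n - a j) ^ e j) ≤ 2 * (V1 * Pi T.card) := by
  have hn : none ∉ T.map Function.Embedding.some := by
    intro hh
    rw [mem_map] at hh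
    obtain ⟨j, _, hj⟩ := hh
    exact Option.some_ne_none j hj
  have h1 := h.up (insert none (T.map Function.Embedding.some)) (fun o => o.elim 1 e)
    (by rw [card_insert_of_notMem hn, card_map]; exact hT) (by
      intro o ho
      rw [mem_insert, mem_map] at ho
      rcases ho with rfl | ⟨j, hj, rfl⟩
      · exact ⟨le_rfl, by norm_num⟩
      · exact he j hj)
  rw [card_insert_of_notMem hn, card_map] at h1
  have h2 : mean Q1 (fun n => ψ (n - a0) * ∏ j ∈ T, ψ (n - a j) ^ e j) =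
      mean Q1 (fun n => ∏ o ∈ insert none (T.map Function.Embedding.some),
        ψ (n - ao a0 a o) ^ (fun o : Option κ => o.elim 1 e) o) := by
    congr 1
    funext n
    rw [prod_insert hn, prod_map]
    show _ = ψ (n - a0) ^ 1 * _
    rw [pow_one]
    rfl
  rw [h2]
  refine h1.trans ?_
  have h3 := h.pi_step T.card
  linarith

omit [Fintype κ] in
private theorem uwm_ext {T U : Finset κ} (hT : T ⊆ U) (f : κ → ℝ) :
    ∏ j ∈ T, f j = ∏ j ∈ U, f j ^ (if j ∈ T then 1 else 0) := by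
  rw [← Finset.prod_subset hT (fun j _ hj => by rw [if_neg hj, pow_zero])]
  refine Finset.prod_congr rfl fun j hj => ?_
  rw [if_pos hj, pow_one]

omit [Fintype κ] in
private theorem uwm_single {U : Finset κ} {j : κ} (hj : j ∈ U) (f : κ → ℝ) :
    f j = ∏ k ∈ U, f k ^ (if k = j then 1 else 0) := by
  have h := uwm_ext (T := {j}) (U := U) (Finset.singleton_subset_iff.2 hj) f
  rw [Finset.prod_singleton] at h
  simpa only [Finset.mem_singleton] using h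

private theorem uwm_ps_nonneg (h : SS Q1 ψ Wψ Pi V1 K a) (σ : ι → Option κ) (n : ℤ) :
    0 ≤ Ps ψ a σ n := Finset.prod_nonneg fun _ _ => h.nonneg _

theorem mix2 (h : SS Q1 ψ Wψ Pi V1 K (ao a0 a)) {N : ℕ} (hK : 2 * N + 2 ≤ K) (j : κ)
    (σ σ' : ι → Option κ) (hσ : (Tc σ).card ≤ N) (hσ' : (Tc σ').card ≤ N) :
    |mean Q1 (fun n => (ψ (n - a0) * ψ (n - a j)) * (Ps ψ a σ n * Ps ψ a σ' n))| ≤ 2 := by
  have hs := ss_some h
  rw [abs_of_nonneg (mean_nonneg fun n =>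
    mul_nonneg (mul_nonneg (h.nonneg _) (h.nonneg _))
      (mul_nonneg (uwm_ps_nonneg hs σ n) (uwm_ps_nonneg hs σ' n)))]
  obtain ⟨U, hUdef⟩ : ∃ U, U = insert j (Tc σ ∪ Tc σ') := ⟨_, rfl⟩
  have hU : U.card + 1 ≤ K := by
    rw [hUdef]
    have h1 := Finset.card_insert_le j (Tc σ ∪ Tc σ')
    have := Finset.card_union_le (Tc σ) (Tc σ')
    omega
  have hs1 : Tc σ ⊆ U := by
    rw [hUdef]
    exact Finset.subset_union_left.trans (Finset.subset_insert _ _)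
  have hs2 : Tc σ' ⊆ U := by
    rw [hUdef]
    exact Finset.subset_union_right.trans (Finset.subset_insert _ _)
  have hj : j ∈ U := by
    rw [hUdef]
    exact Finset.mem_insert_self _ _
  have h1 := up0 h U (fun k => (if k = j then 1 else 0) + ((if k ∈ Tc σ then 1 else 0) +
    (if k ∈ Tc σ' then 1 else 0))) hU (by
      intro k hk
      rw [hUdef, Finset.mem_insert, Finset.mem_union] at hk
      split_ifs with h1 h2 h3 <;> simp_all)
  have h2 : (fun n => (ψ (n - a0) * ψ (n - a j)) * (Ps ψ a σ n * Ps ψ a σ' n)) =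
      fun n => ψ (n - a0) * ∏ k ∈ U,
      ψ (n - a k) ^ ((if k = j then 1 else 0) + ((if k ∈ Tc σ then 1 else 0) +
        (if k ∈ Tc σ' then 1 else 0))) := by
    funext n
    unfold Ps
    rw [uwm_ext hs1 (fun j => ψ (n - a j)), uwm_ext hs2 (fun j => ψ (n - a j)),
      ← Finset.prod_mul_distrib, uwm_single hj (fun j => ψ (n - a j)), mul_assoc,
      ← Finset.prod_mul_distrib]
    congr 1
    refine Finset.prod_congr rfl fun k _ => ?_
    rw [pow_add, pow_add]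
  rw [h2]
  refine h1.trans ?_
  have h3 : V1 * Pi U.card ≤ 1 * 1 :=
    mul_le_mul h.V1_le_one (h.pi_le_one U.card) (h.pi_nonneg _) zero_le_one
  linarith

theorem sq_in2 (h : SS Q1 ψ Wψ Pi V1 K (ao a0 a)) (σ : ι → Option κ) (hσ : (Tc σ).card + 1 ≤ K)
    (j : κ) (hj : j ∈ Tc σ) :
    mean Q1 (fun n => (ψ (n - a0) * ψ (n - a j)) * Ps ψ a σ n ^ 2) ≤
      2 * (V1 * Pi (Tc σ).card) := by
  have h1 := up0 h (Tc σ) (fun k => (if k = j then 1 else 0) + 2) hσ (by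
    intro k _
    split_ifs <;> omega)
  have h2 : (fun n => (ψ (n - a0) * ψ (n - a j)) * Ps ψ a σ n ^ 2) =
      fun n => ψ (n - a0) * ∏ k ∈ Tc σ,
      ψ (n - a k) ^ ((if k = j then 1 else 0) + 2) := by
    funext n
    unfold Ps
    rw [← Finset.prod_pow, uwm_single hj (fun j => ψ (n - a j)), mul_assoc,
      ← Finset.prod_mul_distrib]
    congr 1
    refine Finset.prod_congr rfl fun k _ => ?_
    rw [pow_add]
  rw [h2]
  exact h1

theorem sq_out2 (h : SS Q1 ψ Wψ Pi V1 K (ao a0 a)) (σ : ι → Option κ) (hσ : (Tc σ).card + 2 ≤ K)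
    (j : κ) (hj : j ∉ Tc σ) :
    mean Q1 (fun n => (ψ (n - a0) * ψ (n - a j)) * Ps ψ a σ n ^ 2) ≤
      2 * (V1 * (V1 * Pi (Tc σ).card)) := by
  have hc : (insert j (Tc σ)).card = (Tc σ).card + 1 := Finset.card_insert_of_notMem hj
  have h1 := up0 h (insert j (Tc σ)) (fun k => if k = j then 1 else 2) (by omega) (by
    intro k _
    split_ifs <;> omega)
  have h2 : (fun n => (ψ (n - a0) * ψ (n - a j)) * Ps ψ a σ n ^ 2) =
      fun n => ψ (n - a0) * ∏ k ∈ insert j (Tc σ),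
      ψ (n - a k) ^ (if k = j then 1 else 2) := by
    funext n
    unfold Ps
    rw [Finset.prod_insert hj, if_pos rfl, pow_one, ← Finset.prod_pow, mul_assoc]
    congr 2
    refine Finset.prod_congr rfl fun k hk => ?_
    have hkj : k ≠ j := fun e => hj (e ▸ hk)
    rw [if_neg hkj]
  rw [h2]
  refine h1.trans ?_
  rw [hc]
  have h3 := mul_le_mul_of_nonneg_left (h.pi_step (Tc σ).card) h.V1_nonneg
  linarith

end mom

omit [DecidableEq ι] [DecidableEq κ] [Fintype κ] in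
private theorem uwm_PH {p : ι → ℕ} (hp : ∀ i, 2 ≤ p i) (U : Finset ι) : 0 ≤ PH p U := by
  unfold PH
  refine Finset.prod_nonneg fun i _ => ?_
  have h1 : (2 : ℝ) ≤ (p i : ℝ) := by exact_mod_cast hp i
  linarith

private theorem uwm_per {Q1 : ℕ} {ψ : ℤ → ℝ} (h : Per Q1 ψ) (c c' : ℤ) :
    Per Q1 (fun n => ψ (n - c) * ψ (n - c')) := by
  intro n
  have h1 := h (n - c)
  have h2 := h (n - c')
  have h3 : n + (Q1 : ℤ) - c = n - c + (Q1 : ℤ) := by ring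
  have h4 : n + (Q1 : ℤ) - c' = n - c' + (Q1 : ℤ) := by ring
  show ψ (n + (Q1 : ℤ) - c) * ψ (n + (Q1 : ℤ) - c') = ψ (n - c) * ψ (n - c')
  rw [h3, h4, h1, h2]

private theorem momb_one' {p : ι → ℕ} {Q1 : ℕ} {a : κ → ℤ} {a0 : ℤ} {z : ℝ} (h : Hy p Q1 a z)
    {ψ : ℤ → ℝ} {Wψ : ℝ} {Pi : ℕ → ℝ} {V1 : ℝ} {N : ℕ}
    (hs : SS Q1 ψ Wψ Pi V1 (2 * N + 2) (ao a0 a)) {D : ℝ}
    (hN : ∀ S : Finset ι, PP p S ≤ D → S.card ≤ N) {y : Finset ι → ℝ} (hy1 : ∀ S, |y S| ≤ 1)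
    (j : κ) :
    mean (Q1 * ∏ i, p i) (fun n => (ψ (n - a0) * ψ (n - a j)) * GZ p a ψ (Yd p y D) n ^ 2) ≤
      (∑ σ : ι → Option κ, Yd p y D σ ^ 2 / PH p (supp σ) * Pi (Tc σ).card *
        (V1 * (2 * (if j ∈ Tc σ then 1 else V1)))) + 2 * offB κ p N z := by
  have hcard : ∀ σ : ι → Option κ, Yd p y D σ ≠ 0 → (supp σ).card ≤ N := fun σ hσ =>
    hN _ (Yd_supp hσ)
  have hTc : ∀ σ : ι → Option κ, Yd p y D σ ≠ 0 → (Tc σ).card ≤ N := fun σ hσ =>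
    (card_Tc_le σ).trans (hcard σ hσ)
  have hq := quad h.two h.cop h.Q1pos h.copQ h.sep hs.per (uwm_per hs.per a0 (a j)) (Yd p y D)
    (U := 2) (by norm_num) (fun σ σ' hσ hσ' =>
      mix2 hs (N := N) (by omega) j σ σ' (hTc σ hσ) (hTc σ' hσ'))
  have hoff := off h.two h.zpos h.zle (Yd p y D) (Yd_abs hy1 D) hcard
  have h1 := (abs_le.1 hq).2
  have h2 : ∑ σ : ι → Option κ, Yd p y D σ ^ 2 / PH p (supp σ) *
      mean Q1 (fun n => (ψ (n - a0) * ψ (n - a j)) * Ps ψ a σ n ^ 2) ≤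
      ∑ σ : ι → Option κ, Yd p y D σ ^ 2 / PH p (supp σ) * Pi (Tc σ).card *
        (V1 * (2 * (if j ∈ Tc σ then 1 else V1))) := by
    refine Finset.sum_le_sum fun σ _ => ?_
    by_cases h0 : Yd p y D σ = 0
    · rw [h0]
      simp
    · have hw : 0 ≤ Yd p y D σ ^ 2 / PH p (supp σ) :=
        div_nonneg (sq_nonneg _) (uwm_PH h.two _)
      have hc := hTc σ h0
      rw [mul_assoc]
      refine mul_le_mul_of_nonneg_left ?_ hw
      by_cases hj : j ∈ Tc σ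
      · rw [if_pos hj]
        have h3 := sq_in2 hs σ (by omega) j hj
        linarith
      · rw [if_neg hj]
        have h3 := sq_out2 hs σ (by omega) j hj
        linarith
  linarith

theorem mom1sum' {p : ι → ℕ} {Q1 : ℕ} {a : κ → ℤ} {a0 : ℤ} {z : ℝ} (h : Hy p Q1 a z)
    {ψ : ℤ → ℝ} {Wψ : ℝ} {Pi : ℕ → ℝ} {V1 : ℝ} {N : ℕ}
    (hs : SS Q1 ψ Wψ Pi V1 (2 * N + 2) (ao a0 a)) {D : ℝ}
    (hN : ∀ S : Finset ι, PP p S ≤ D → S.card ≤ N) {y : Finset ι → ℝ} (hy1 : ∀ S, |y S| ≤ 1) :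
    ∑ j, mean (Q1 * ∏ i, p i)
        (fun n => (ψ (n - a0) * ψ (n - a j)) * GZ p a ψ (Yd p y D) n ^ 2) ≤
      V1 * ((2 * (Fintype.card κ : ℝ) * V1 + 2 * N) * ZZ κ p y D Pi) +
        2 * (Fintype.card κ : ℝ) * offB κ p N z := by
  refine (Finset.sum_le_sum fun j _ => momb_one' h hs hN hy1 j).trans ?_
  rw [Finset.sum_add_distrib, Finset.sum_const, nsmul_eq_mul, Finset.card_univ, Finset.sum_comm]
  have h1 : ∑ σ : ι → Option κ, ∑ j : κ, Yd p y D σ ^ 2 / PH p (supp σ) * Pi (Tc σ).card *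
      (V1 * (2 * (if j ∈ Tc σ then 1 else V1))) ≤
      V1 * ((2 * (Fintype.card κ : ℝ) * V1 + 2 * N) * ZZ κ p y D Pi) := by
    unfold ZZ
    rw [Finset.mul_sum, Finset.mul_sum]
    refine Finset.sum_le_sum fun σ _ => ?_
    rw [← Finset.mul_sum, ← Finset.mul_sum, ← Finset.mul_sum]
    by_cases h0 : Yd p y D σ = 0
    · rw [h0]
      simp
    · have hw : 0 ≤ Yd p y D σ ^ 2 / PH p (supp σ) * Pi (Tc σ).card :=
        mul_nonneg (div_nonneg (sq_nonneg _) (uwm_PH h.two _)) (hs.pi_nonneg _)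
      have hc : (Tc σ).card ≤ N := (card_Tc_le σ).trans (hN _ (Yd_supp h0))
      have h2 : ∑ j : κ, (if j ∈ Tc σ then (1 : ℝ) else V1) ≤ N + Fintype.card κ * V1 := by
        have h3 : ∀ j : κ, (if j ∈ Tc σ then (1 : ℝ) else V1) ≤
            (if j ∈ Tc σ then (1 : ℝ) else 0) + V1 := by
          intro j
          have := hs.V1_nonneg
          split_ifs <;> linarith
        refine (Finset.sum_le_sum fun j _ => h3 j).trans ?_
        rw [Finset.sum_add_distrib, Finset.sum_const, nsmul_eq_mul, Finset.card_univ,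
          Finset.sum_ite_mem, Finset.univ_inter, Finset.sum_const, nsmul_eq_mul, mul_one]
        have h4 : ((Tc σ).card : ℝ) ≤ N := by exact_mod_cast hc
        linarith
      calc Yd p y D σ ^ 2 / PH p (supp σ) * Pi (Tc σ).card *
            (V1 * (2 * ∑ j : κ, (if j ∈ Tc σ then (1 : ℝ) else V1)))
          ≤ Yd p y D σ ^ 2 / PH p (supp σ) * Pi (Tc σ).card *
            (V1 * (2 * (N + Fintype.card κ * V1))) :=
            mul_le_mul_of_nonneg_left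
              (mul_le_mul_of_nonneg_left (by linarith) hs.V1_nonneg) hw
        _ = V1 * ((2 * (Fintype.card κ : ℝ) * V1 + 2 * N) *
            (Yd p y D σ ^ 2 / PH p (supp σ) * Pi (Tc σ).card)) := by ring
  have h2 : (Fintype.card κ : ℝ) * (2 * offB κ p N z) =
      2 * (Fintype.card κ : ℝ) * offB κ p N z := by ring
  linarith

theorem mom2' {p : ι → ℕ} {Q1 : ℕ} {a : κ → ℤ} {a0 : ℤ} {z : ℝ} (h : Hy p Q1 a z)
    {ψ : ℤ → ℝ} {Wψ : ℝ} {Pi : ℕ → ℝ} {V1 : ℝ} {N : ℕ}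
    (hs : SS Q1 ψ Wψ Pi V1 (2 * N + 2) (ao a0 a)) {D : ℝ}
    (hN : ∀ S : Finset ι, PP p S ≤ D → S.card ≤ N) {y : Finset ι → ℝ} (hy1 : ∀ S, |y S| ≤ 1)
    (hc1 : ∀ U, |cc p y D U| ≤ 1) (m : κ) :
    mean (Q1 * ∏ i, p i)
        (fun n => (ψ (n - a0) * ψ (n - a m)) * GZ p a ψ (Zm p y D m) n ^ 2) ≤
      2 * V1 ^ 2 * (∑ σ, Zm p y D m σ ^ 2 / PH p (supp σ) * Pi (Tc σ).card) +
        2 * offB κ p N z := by
  classical
  have hPH : ∀ σ : ι → Option κ, 0 < PH p (supp σ) := fun σ =>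
    lt_of_lt_of_le one_pos (one_le_PH h.two _)
  have hcard : ∀ σ, Zm p y D m σ ≠ 0 → (supp σ).card ≤ N := fun σ hσ =>
    hN _ (Zm_supp h.two y m σ hσ)
  have hTc : ∀ σ, Zm p y D m σ ≠ 0 → (Tc σ).card ≤ N := fun σ hσ =>
    (card_Tc_le σ).trans (hcard σ hσ)
  have h1 := quad h.two h.cop h.Q1pos h.copQ h.sep hs.per (uwm_per hs.per a0 (a m)) (Zm p y D m)
    (U := 2) (by norm_num) fun σ σ' hσ hσ' =>
      mix2 hs (by omega) m σ σ' (hTc σ hσ) (hTc σ' hσ')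
  have h2 := off h.two h.zpos h.zle (Zm p y D m) (Zm_abs y hy1 hc1 m) hcard
  have h3 : ∑ σ, Zm p y D m σ ^ 2 / PH p (supp σ) *
      mean Q1 (fun n => (ψ (n - a0) * ψ (n - a m)) * Ps ψ a σ n ^ 2) ≤
      2 * V1 ^ 2 * (∑ σ, Zm p y D m σ ^ 2 / PH p (supp σ) * Pi (Tc σ).card) := by
    rw [Finset.mul_sum]
    refine Finset.sum_le_sum fun σ _ => ?_
    by_cases hz : Zm p y D m σ = 0
    · rw [hz]
      simp
    · have hm : m ∉ Tc σ := by
        intro hm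
        apply hz
        unfold Zm
        rw [if_neg]
        exact (Finset.mem_filter.1 hm).2
      have h4 := sq_out2 hs σ (by have := hTc σ hz; omega) m hm
      have hq : 0 ≤ Zm p y D m σ ^ 2 / PH p (supp σ) := div_nonneg (sq_nonneg _) (hPH σ).le
      calc Zm p y D m σ ^ 2 / PH p (supp σ) *
            mean Q1 (fun n => (ψ (n - a0) * ψ (n - a m)) * Ps ψ a σ n ^ 2)
          ≤ Zm p y D m σ ^ 2 / PH p (supp σ) * (2 * (V1 * (V1 * Pi (Tc σ).card))) :=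
            mul_le_mul_of_nonneg_left h4 hq
        _ = 2 * V1 ^ 2 * (Zm p y D m σ ^ 2 / PH p (supp σ) * Pi (Tc σ).card) := by ring
  have h5 := (abs_le.1 h1).2
  linarith

/-! ### transfer -/

omit [DecidableEq ι] [DecidableEq κ] [Fintype κ] [Fintype ι] in
private theorem uwm_pp {p : ι → ℕ} (hp : ∀ i, 2 ≤ p i) (S : Finset ι) : 1 ≤ PP p S := by
  classical
  unfold PP
  refine Finset.induction_on S (by simp) fun i S hi ih => ?_
  rw [Finset.prod_insert hi]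
  have h1 : (2 : ℝ) ≤ (p i : ℝ) := by exact_mod_cast hp i
  nlinarith

private theorem uwm_zm {p : ι → ℕ} {y : Finset ι → ℝ} (hy1 : ∀ S, |y S| ≤ 1)
    {D : ℝ} (hc1 : ∀ U, |cc p y D U| ≤ 1) (m : κ) (σ : ι → Option κ) :
    |Zm p y D m σ| ≤ 1 := by
  unfold Zm
  split_ifs
  · rw [abs_mul, Yt, Finset.abs_prod]
    exact mul_le_one₀ (Finset.prod_le_one (fun j _ => abs_nonneg _) fun j _ => hy1 _)
      (abs_nonneg _) (hc1 _)
  · rw [abs_zero]
    exact zero_le_one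

private theorem uwm_zm_supp {p : ι → ℕ} (hp : ∀ i, 2 ≤ p i) {y : Finset ι → ℝ}
    {D : ℝ} {m : κ} {σ : ι → Option κ} (h : Zm p y D m σ ≠ 0) : PP p (supp σ) ≤ D := by
  unfold Zm at h
  have h1 : cc p y D (supp σ) ≠ 0 := by
    intro h0
    rw [h0, mul_zero] at h
    simp at h
  unfold cc at h1
  obtain ⟨S, _, hS⟩ := Finset.exists_ne_zero_of_sum_ne_zero h1
  have h2 : PP p S * PP p (supp σ) ≤ D := by
    by_contra h3
    rw [if_neg h3] at hS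
    exact hS rfl
  have h3 := uwm_pp hp S
  have h4 := uwm_pp hp (supp σ)
  nlinarith

open Classical in
private theorem uwm_card {P : (ι → Option κ) → Prop} {Z : (ι → Option κ) → ℝ}
    (hZ : ∀ σ, Z σ ≠ 0 → P σ) {C : ℝ}
    (hC : (((univ : Finset (ι → Option κ)).filter P).card : ℝ) ≤ C) :
    (((univ : Finset (ι → Option κ)).filter (fun σ => Z σ ≠ 0)).card : ℝ) ≤ C := by
  refine le_trans ?_ hC
  exact_mod_cast Finset.card_le_card fun σ hσ =>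
    Finset.mem_filter.2 ⟨Finset.mem_univ _, hZ σ (Finset.mem_filter.1 hσ).2⟩

private theorem uwm_sq {Q : ℕ} {f : ℤ → ℝ} {W : ℝ} (h : Rep Q f W) :
    Rep Q (fun n => f n ^ 2) (W ^ 2) := by
  have h1 := Rep.mul h h
  have e : (fun n => f n * f n) = fun n => f n ^ 2 := by
    funext n
    ring
  rwa [e, ← pow_two] at h1

private theorem uwm_ps {Q1 R : ℕ} {ψ f : ℤ → ℝ} {W Wψ : ℝ} (hψ : Rep Q1 ψ Wψ) (c c' : ℤ)
    (h : Rep (Q1 * R) f W) :
    Rep (Q1 * R) (fun n => (ψ (n - c) * ψ (n - c')) * f n ^ 2) (W ^ 2 * Wψ ^ 2) := by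
  have h1 := Rep.mul (Rep.mul (Rep.dvd_mono (Dvd.intro R rfl) (Rep.shift hψ c))
    (Rep.dvd_mono (Dvd.intro R rfl) (Rep.shift hψ c'))) (uwm_sq h)
  have e : Wψ * Wψ * W ^ 2 = W ^ 2 * Wψ ^ 2 := by ring
  rwa [e] at h1

private theorem uwm_Qpos {p : ι → ℕ} {Q1 : ℕ} {a : κ → ℤ} {z : ℝ} (h : Hy p Q1 a z) :
    0 < Q1 * ∏ i, p i :=
  Nat.mul_pos h.Q1pos (Finset.prod_pos fun i _ => by have := h.two i; omega)

open Classical in
theorem tr1' {p : ι → ℕ} {Q1 M : ℕ} {a : κ → ℤ} {a0 : ℤ} {z : ℝ} (h : Hy p Q1 a z)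
    (hM : Nat.Coprime M (Q1 * ∏ i, p i)) {ψ : ℤ → ℝ} {Wψ : ℝ}
    {Pi : ℕ → ℝ} {V1 : ℝ} {N : ℕ} (hs : SS Q1 ψ Wψ Pi V1 (2 * N + 2) (ao a0 a)) {D : ℝ}
    (hN : ∀ S : Finset ι, PP p S ≤ D → S.card ≤ N) {y : Finset ι → ℝ} (hy1 : ∀ S, |y S| ≤ 1)
    {C : ℝ} (hC : (((univ : Finset (ι → Option κ)).filter
      (fun σ => PP p (supp σ) ≤ D)).card : ℝ) ≤ C) (n0 : ℤ) (T : ℕ) :
    ∑ t ∈ range T, ψ (n0 + M * (t : ℤ) - a0) * ((∑ j, ψ (n0 + M * (t : ℤ) - a j)) *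
        GZ p a ψ (Yd p y D) (n0 + M * (t : ℤ)) ^ 2) ≤
      (T : ℝ) * (V1 * ((2 * (Fintype.card κ : ℝ) * V1 + 2 * N) * ZZ κ p y D Pi) +
        2 * (Fintype.card κ : ℝ) * offB κ p N z) +
        2 * (Fintype.card κ : ℝ) * ((C * (3 * Wψ) ^ N) ^ 2 * Wψ ^ 2) := by
  have hrep : Rep (Q1 * ∏ i, p i) (GZ p a ψ (Yd p y D)) (C * (3 * Wψ) ^ N) :=
    rep_GZ h.two hs.rep hs.one_le_W a (Yd p y D) (Yd_abs hy1 D)
      (fun _ hσ => hN _ (Yd_supp hσ)) (uwm_card (fun _ hσ => Yd_supp hσ) hC)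
  have h1 : ∀ j, ∑ t ∈ range T, (ψ (n0 + M * (t : ℤ) - a0) * ψ (n0 + M * (t : ℤ) - a j)) *
      GZ p a ψ (Yd p y D) (n0 + M * (t : ℤ)) ^ 2 ≤
      (T : ℝ) * mean (Q1 * ∏ i, p i)
        (fun n => (ψ (n - a0) * ψ (n - a j)) * GZ p a ψ (Yd p y D) n ^ 2) +
        2 * ((C * (3 * Wψ) ^ N) ^ 2 * Wψ ^ 2) := by
    intro j
    have h2 := Rep.avg (uwm_Qpos h) hM (uwm_ps hs.rep a0 (a j) hrep) T n0
    have h3 := (abs_le.1 h2).2
    linarith
  have h2 := mom1sum' h hs hN hy1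
  have h3 := mul_le_mul_of_nonneg_left h2 (Nat.cast_nonneg (α := ℝ) T)
  calc ∑ t ∈ range T, ψ (n0 + M * (t : ℤ) - a0) * ((∑ j, ψ (n0 + M * (t : ℤ) - a j)) *
        GZ p a ψ (Yd p y D) (n0 + M * (t : ℤ)) ^ 2)
      = ∑ j, ∑ t ∈ range T, (ψ (n0 + M * (t : ℤ) - a0) * ψ (n0 + M * (t : ℤ) - a j)) *
          GZ p a ψ (Yd p y D) (n0 + M * (t : ℤ)) ^ 2 := by
        rw [Finset.sum_comm]
        refine Finset.sum_congr rfl fun t _ => ?_
        rw [Finset.sum_mul, Finset.mul_sum]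
        refine Finset.sum_congr rfl fun j _ => ?_
        ring
    _ ≤ ∑ j, ((T : ℝ) * mean (Q1 * ∏ i, p i)
          (fun n => (ψ (n - a0) * ψ (n - a j)) * GZ p a ψ (Yd p y D) n ^ 2) +
          2 * ((C * (3 * Wψ) ^ N) ^ 2 * Wψ ^ 2)) := Finset.sum_le_sum fun j _ => h1 j
    _ = (T : ℝ) * ∑ j, mean (Q1 * ∏ i, p i)
          (fun n => (ψ (n - a0) * ψ (n - a j)) * GZ p a ψ (Yd p y D) n ^ 2) +
          2 * (Fintype.card κ : ℝ) * ((C * (3 * Wψ) ^ N) ^ 2 * Wψ ^ 2) := by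
        rw [Finset.sum_add_distrib, ← Finset.mul_sum, Finset.sum_const, Finset.card_univ,
          nsmul_eq_mul]
        ring
    _ ≤ _ := by linarith

open Classical in
theorem tr2' {p : ι → ℕ} {Q1 M : ℕ} {a : κ → ℤ} {a0 : ℤ} {z : ℝ} (h : Hy p Q1 a z)
    (hM : Nat.Coprime M (Q1 * ∏ i, p i)) {ψ : ℤ → ℝ} {Wψ : ℝ}
    {Pi : ℕ → ℝ} {V1 : ℝ} {N : ℕ} (hs : SS Q1 ψ Wψ Pi V1 (2 * N + 2) (ao a0 a)) {D D2 : ℝ}
    (hN : ∀ S : Finset ι, PP p S ≤ D → S.card ≤ N) {y : Finset ι → ℝ} (hy1 : ∀ S, |y S| ≤ 1)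
    {δ τ : ℝ} (hc1 : ∀ U, |cc p y D U| ≤ 1) (hc2 : ∀ U, PP p U ≤ D2 → |cc p y D U| ≤ δ)
    (htail : ∑ σ ∈ (univ : Finset (ι → Option κ)).filter (fun σ => D2 < PP p (supp σ)),
        Yd p y D σ ^ 2 / PH p (supp σ) * Pi (Tc σ).card ≤ τ * ZZ κ p y D Pi)
    {C : ℝ} (hC : (((univ : Finset (ι → Option κ)).filter
      (fun σ => PP p (supp σ) ≤ D)).card : ℝ) ≤ C) (n0 : ℤ) (T : ℕ) (m : κ) :
    ∑ t ∈ range T, (ψ (n0 + M * (t : ℤ) - a0) * ψ (n0 + M * (t : ℤ) - a m)) *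
        GZ p a ψ (Zm p y D m) (n0 + M * (t : ℤ)) ^ 2 ≤
      (T : ℝ) * (2 * V1 ^ 2 * (δ ^ 2 + τ) * ZZ κ p y D Pi + 2 * offB κ p N z) +
        2 * ((C * (3 * Wψ) ^ N) ^ 2 * Wψ ^ 2) := by
  have hrep : Rep (Q1 * ∏ i, p i) (GZ p a ψ (Zm p y D m)) (C * (3 * Wψ) ^ N) :=
    rep_GZ h.two hs.rep hs.one_le_W a (Zm p y D m) (uwm_zm hy1 hc1 m)
      (fun _ hσ => hN _ (uwm_zm_supp h.two hσ)) (uwm_card (fun _ hσ => uwm_zm_supp h.two hσ) hC)
  have h1 := Rep.avg (uwm_Qpos h) hM (uwm_ps hs.rep a0 (a m) hrep) T n0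
  have h2 := (abs_le.1 h1).2
  have h3 := mom2' h hs hN hy1 hc1 m
  have h4 := zm_sumV h.two y hs.pi_nonneg hc1 hc2 htail m
  have h5 := mul_le_mul_of_nonneg_left h4 (mul_nonneg zero_le_two (sq_nonneg V1))
  have h6 : mean (Q1 * ∏ i, p i)
      (fun n => (ψ (n - a0) * ψ (n - a m)) * GZ p a ψ (Zm p y D m) n ^ 2) ≤
      2 * V1 ^ 2 * (δ ^ 2 + τ) * ZZ κ p y D Pi + 2 * offB κ p N z := by
    refine h3.trans ?_
    have h7 : 2 * V1 ^ 2 * ((δ ^ 2 + τ) * ZZ κ p y D Pi) =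
        2 * V1 ^ 2 * (δ ^ 2 + τ) * ZZ κ p y D Pi := by ring
    linarith
  have h7 := mul_le_mul_of_nonneg_left h6 (Nat.cast_nonneg (α := ℝ) T)
  linarith

end Pool.Agent.UW
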