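import Pool.Agent.Helper24.PairBound

/-! UW/RLin.  Two linear forms: `m` and `|s m + D|` both prime, and a sum over `s`.

PLAN.
* `lin_pair`: copy of `card_shifted_pairs` in Helper54/TotSieve (same `residue_sieve`, `Fsum` lemmas): forbidden classes
`linΩ s D p = if (p : ℤ) ∣ s * D then {0} else {0, ((-D : ZMod p) * (s : ZMod p)⁻¹).val}`; `|linΩ| = 1` if `p ∣ s D`, else `2`
(for `p ∤ s D`: `-D/s ≠ 0` in `ZMod p`), and `p = 2` divides `s D`.  For `m` in the set and `p ≤ Z^2`: `p ∤ m` and `p ∤ s m + D`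
(primes `> Z^2 ≥ p`), so `m % p ∉ linΩ`.  No coprimality of `s` and `D` is needed.
* `sum_s`: `∏_{p ∣ s} (1 + 1/p) ≤ ∑_{e ∣ s} 1/e` (`Finset.prod_one_add` and `∏ t ∣ s` for `t ⊆ primeFactors s`), so the sum is
`≤ ∑_{e ≤ S} (1/e^2) ∑_{s' ≤ S/e} 1/s' ≤ 2 (1 + log S)`. -/

set_option autoImplicit false

namespace Pool.Agent.UW

open Finset Nat Pool.Agent.Helper24

private noncomputable def linΩ (s : ℕ) (D : ℤ) (p : ℕ) : Finset ℕ :=
  if p ∣ s * D.natAbs then {0} else {0, (-(D : ZMod p) * (s : ZMod p)⁻¹).val}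

private theorem linΩ_lt {s : ℕ} {D : ℤ} {p c : ℕ} (hp : 0 < p) (hc : c ∈ linΩ s D p) : c < p := by
  have : NeZero p := ⟨hp.ne'⟩
  rw [linΩ] at hc
  split_ifs at hc
  · rw [mem_singleton] at hc; omega
  · rw [mem_insert, mem_singleton] at hc
    rcases hc with rfl | rfl
    · exact hp
    · exact ZMod.val_lt _

private theorem card_linΩ_of_dvd {s : ℕ} {D : ℤ} {p : ℕ} (hd : p ∣ s * D.natAbs) :
    (linΩ s D p).card = 1 := by
  rw [linΩ, if_pos hd]
  rfl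

private theorem cast_D {D : ℤ} {p : ℕ} (hd : ¬ p ∣ D.natAbs) : (D : ZMod p) ≠ 0 := by
  rw [Ne, ZMod.intCast_zmod_eq_zero_iff_dvd]
  rwa [Int.natCast_dvd]

private theorem cast_s {s : ℕ} {p : ℕ} (hd : ¬ p ∣ s) : (s : ZMod p) ≠ 0 := by
  rwa [Ne, ZMod.natCast_eq_zero_iff]

private theorem card_linΩ_of_not_dvd {s : ℕ} {D : ℤ} {p : ℕ} (hp : p.Prime)
    (hd : ¬ p ∣ s * D.natAbs) : (linΩ s D p).card = 2 := by
  have := Fact.mk hp
  have h1 : ¬ p ∣ s := fun h => hd (h.mul_right _)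
  have h2 : ¬ p ∣ D.natAbs := fun h => hd (h.mul_left _)
  rw [linΩ, if_neg hd, card_pair]
  intro h3
  have h4 : -(D : ZMod p) * (s : ZMod p)⁻¹ = 0 := by
    rw [← ZMod.val_eq_zero]; exact h3.symm
  exact (mul_ne_zero (neg_ne_zero.2 (cast_D h2)) (inv_ne_zero (cast_s h1))) h4

private theorem two_dvd {s : ℕ} {D : ℤ} (hev : (2 : ℤ) ∣ s * D) : 2 ∣ s * D.natAbs := by
  have h := Int.natAbs_dvd_natAbs.2 hev
  rw [Int.natAbs_mul] at h
  simpa using h

private theorem card_linΩ_lt {s : ℕ} {D : ℤ} (hev : (2 : ℤ) ∣ s * D) {p : ℕ} (hp : p.Prime) :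
    (linΩ s D p).card < p := by
  by_cases hd : p ∣ s * D.natAbs
  · rw [card_linΩ_of_dvd hd]; exact hp.one_lt
  · rw [card_linΩ_of_not_dvd hp hd]
    have h2 : p ≠ 2 := by
      rintro rfl
      exact hd (two_dvd hev)
    have := hp.two_le
    omega

private theorem lin_density {s : ℕ} {D : ℤ} (hs : 1 ≤ s) (hD : D ≠ 0) (hev : (2 : ℤ) ∣ s * D)
    (Z : ℕ) :
    (Real.log Z) ^ 2 / 4 ≤ (∏ p ∈ (s * D.natAbs).primeFactors, (1 + 1 / (p : ℝ))) *
      ∑ l ∈ (Icc 1 (Z ^ 2)).filter Squarefree, hterm (linΩ s D) l := by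
  have hh0 : s * D.natAbs ≠ 0 := Nat.mul_ne_zero (by omega) (by simpa using hD)
  have h1 := log_le_two_mul_Fsum_inv Z
  have h2 := sq_Fsum_inv_le Z
  have hlog : 0 ≤ Real.log Z := Real.log_natCast_nonneg Z
  have h3 : (Real.log Z) ^ 2 / 4 ≤ (Fsum Z (fun p => 1 / (p : ℝ))) ^ 2 := by
    have : Real.log Z ^ 2 ≤ (2 * Fsum Z (fun p => 1 / (p : ℝ))) ^ 2 := by gcongr
    nlinarith
  refine h3.trans (h2.trans ?_)
  set g : ℕ → ℝ := fun p => ((linΩ s D p).card : ℝ) / ((p : ℝ) - (linΩ s D p).card) with hg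
  have hg0 : ∀ p, p.Prime → 0 ≤ g p := by
    intro p hp
    have : ((linΩ s D p).card : ℝ) < p := by exact_mod_cast card_linΩ_lt hev hp
    have : (0 : ℝ) < (p : ℝ) - (linΩ s D p).card := sub_pos.2 this
    rw [hg]; positivity
  have h4 : Fsum (Z ^ 2) (fun p => 2 / (p : ℝ) + 1 / (p : ℝ) ^ 2) ≤
      Fsum (Z ^ 2) (fun p => g p + if p ∈ (s * D.natAbs).primeFactors then 1 / (p : ℝ) else 0) := by
    refine Fsum_mono _ (fun p _ _ => by positivity) fun p hp _ => ?_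
    have hp0 : (0 : ℝ) < p := by exact_mod_cast hp.pos
    by_cases hd : p ∣ s * D.natAbs
    · rw [if_pos (Nat.mem_primeFactors.2 ⟨hp, hd, hh0⟩), hg]
      simp only
      rw [card_linΩ_of_dvd hd]
      have hp1 : (1 : ℝ) < p := by exact_mod_cast hp.one_lt
      have hp2 : (0 : ℝ) < (p : ℝ) - 1 := by linarith
      push_cast
      have : 1 / (p : ℝ) + 1 / (p : ℝ) ^ 2 ≤ 1 / ((p : ℝ) - 1) := by
        rw [div_add_div _ _ hp0.ne' (by positivity), div_le_div_iff₀ (by positivity) hp2]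
        nlinarith
      have e : 2 / (p : ℝ) = 1 / p + 1 / p := by ring
      rw [e]
      linarith
    · have hp3 : (3 : ℝ) ≤ p := by
        have h2 : p ≠ 2 := by
          rintro rfl
          exact hd (two_dvd hev)
        have := hp.two_le
        exact_mod_cast (by omega : 3 ≤ p)
      rw [if_neg (fun h' => hd (Nat.dvd_of_mem_primeFactors h')), hg, add_zero]
      simp only
      rw [card_linΩ_of_not_dvd hp hd]
      have hp2 : (0 : ℝ) < (p : ℝ) - 2 := by linarith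
      push_cast
      rw [div_add_div _ _ hp0.ne' (by positivity), div_le_div_iff₀ (by positivity) hp2]
      nlinarith
  refine h4.trans ?_
  exact Fsum_add_le _ (fun p hp _ => hg0 p hp) (s * D.natAbs).primeFactors
    (fun p hp => Nat.prime_of_mem_primeFactors hp) (fun p => 1 / (p : ℝ))
    (fun p _ => by positivity)

theorem lin_pair {s : ℕ} {D : ℤ} (hs : 1 ≤ s) (hD : D ≠ 0) (hev : (2 : ℤ) ∣ s * D) (M Z : ℕ)
    (hZ : 2 ≤ Z) :
    ((((Ioc 0 M).filter (fun m : ℕ => (m.Prime ∧ Z ^ 2 < m) ∧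
      ((s : ℤ) * m + D).natAbs.Prime ∧ Z ^ 2 < ((s : ℤ) * m + D).natAbs)).card : ℕ) : ℝ) ≤
      4 * M * (∏ p ∈ (s * D.natAbs).primeFactors, (1 + 1 / (p : ℝ))) / (Real.log Z) ^ 2 +
        (Z : ℝ) ^ 12 := by
  have hlog : 0 < Real.log Z := Real.log_pos (by exact_mod_cast (by omega : 1 < Z))
  set B := (Ioc 0 M).filter (fun m : ℕ => (m.Prime ∧ Z ^ 2 < m) ∧
      ((s : ℤ) * m + D).natAbs.Prime ∧ Z ^ 2 < ((s : ℤ) * m + D).natAbs) with hB
  have hΩ : ∀ p, Nat.Prime p → p ≤ Z ^ 2 →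
      (∀ c ∈ linΩ s D p, c < p) ∧ (linΩ s D p).card < p :=
    fun p hp _ => ⟨fun c hc => linΩ_lt hp.pos hc, card_linΩ_lt hev hp⟩
  have hZ2 : 1 ≤ Z ^ 2 := Nat.one_le_pow _ _ (by omega)
  have h1 := residue_sieve (A := 0) (M := M) hZ2 hΩ B ?_ ?_
  rotate_left
  · intro r hr
    rw [hB, mem_filter] at hr
    simpa using hr.1
  · intro r hr p hp hpZ
    rw [hB, mem_filter] at hr
    obtain ⟨hr1, ⟨hrp, hrZ⟩, hrq, hrq2⟩ := hr
    have := Fact.mk hp
    have hnd : r % p ≠ 0 := by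
      intro h0
      have := (Nat.prime_dvd_prime_iff_eq hp hrp).1 (Nat.dvd_of_mod_eq_zero h0)
      omega
    rw [linΩ]
    split_ifs with hpa
    · rw [mem_singleton]; exact hnd
    · rw [mem_insert, mem_singleton]
      rintro (h0 | h0)
      · exact hnd h0
      · have h5 : (s : ZMod p) ≠ 0 := cast_s fun h => hpa (h.mul_right _)
        have h6 : (r : ZMod p) = -(D : ZMod p) * (s : ZMod p)⁻¹ := by
          have e1 : ((r % p : ℕ) : ZMod p) = (r : ZMod p) := ZMod.natCast_mod r p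
          rw [← e1, h0, ZMod.natCast_zmod_val]
        have h7 : (((s : ℤ) * r + D : ℤ) : ZMod p) = 0 := by
          push_cast
          rw [h6]
          field_simp
          ring
        rw [ZMod.intCast_zmod_eq_zero_iff_dvd, Int.natCast_dvd] at h7
        have h8 := (Nat.prime_dvd_prime_iff_eq hp hrq).1 h7
        omega
  have h2 := lin_density hs hD hev Z
  set G := ∑ l ∈ (Icc 1 (Z ^ 2)).filter Squarefree, hterm (linΩ s D) l with hG
  set Pr := ∏ p ∈ (s * D.natAbs).primeFactors, (1 + 1 / (p : ℝ)) with hPr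
  have hPr0 : 0 < Pr := prod_pos fun p _ => by positivity
  have hG0 : 0 < G := by
    by_contra hcon
    push Not at hcon
    have : Pr * G ≤ 0 := mul_nonpos_of_nonneg_of_nonpos hPr0.le hcon
    have : 0 < Real.log Z ^ 2 / 4 := by positivity
    linarith
  have h3 : (M : ℝ) / G ≤ 4 * M * Pr / (Real.log Z) ^ 2 := by
    rw [div_le_div_iff₀ hG0 (by positivity)]
    have hx : (0 : ℝ) ≤ M := by positivity
    nlinarith
  have h6 : (((Z ^ 2 : ℕ)) : ℝ) ^ 6 = (Z : ℝ) ^ 12 := by push_cast; ring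
  rw [h6] at h1
  linarith

private theorem harm (n : ℕ) : ∑ i ∈ Icc 1 n, (1 / (i : ℝ)) ≤ 1 + Real.log n := by
  have h := harmonic_le_one_add_log n
  rw [harmonic_eq_sum_Icc] at h
  push_cast at h
  simpa using h

private theorem sq_inv (n : ℕ) : ∑ i ∈ Icc 1 n, (1 / (i : ℝ) ^ 2) ≤ 2 := by
  have h : ∀ n : ℕ, ∑ i ∈ Icc 1 (n + 1), (1 / (i : ℝ) ^ 2) ≤ 2 - 1 / ((n : ℝ) + 1) := by
    intro n
    induction n with
    | zero => norm_num
    | succ n ih =>
      rw [Finset.sum_Icc_succ_top (by omega)]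
      have h1 : (0 : ℝ) < (n : ℝ) + 1 := by positivity
      have h2 : 1 / ((n : ℝ) + 1 + 1) ^ 2 ≤ 1 / ((n : ℝ) + 1) - 1 / ((n : ℝ) + 1 + 1) := by
        rw [div_sub_div _ _ h1.ne' (by positivity), div_le_div_iff₀ (by positivity) (by positivity)]
        nlinarith
      push_cast
      linarith
  rcases n with _ | n
  · norm_num
  · refine (h n).trans ?_
    have : (0 : ℝ) ≤ 1 / ((n : ℝ) + 1) := by positivity
    linarith

private theorem prod_le_divisors {s : ℕ} (hs : s ≠ 0) :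
    ∏ p ∈ s.primeFactors, (1 + 1 / (p : ℝ)) ≤ ∑ e ∈ s.divisors, 1 / (e : ℝ) := by
  rw [Finset.prod_one_add]
  have hinj : Set.InjOn (fun t : Finset ℕ => ∏ p ∈ t, p) (s.primeFactors.powerset : Set (Finset ℕ)) := by
    intro t ht t' ht' h
    simp only [coe_powerset, Set.mem_preimage, Set.mem_powerset_iff, coe_subset] at ht ht'
    have e1 := Nat.primeFactors_prod (s := t) fun p hp => Nat.prime_of_mem_primeFactors (ht hp)
    have e2 := Nat.primeFactors_prod (s := t') fun p hp => Nat.prime_of_mem_primeFactors (ht' hp)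
    rw [← e1, ← e2]
    exact congrArg Nat.primeFactors h
  have e : ∑ t ∈ s.primeFactors.powerset, ∏ p ∈ t, (1 / (p : ℝ)) =
      ∑ e ∈ s.primeFactors.powerset.image (fun t : Finset ℕ => ∏ p ∈ t, p), 1 / (e : ℝ) := by
    rw [Finset.sum_image hinj]
    refine Finset.sum_congr rfl fun t _ => ?_
    rw [Finset.prod_div_distrib, Finset.prod_const_one]
    push_cast
    rfl
  rw [e]
  refine Finset.sum_le_sum_of_subset_of_nonneg ?_ fun i _ _ => by positivity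
  intro x hx
  rw [mem_image] at hx
  obtain ⟨t, ht, rfl⟩ := hx
  rw [mem_powerset] at ht
  rw [Nat.mem_divisors]
  exact ⟨(Finset.prod_dvd_prod_of_subset _ _ _ ht).trans (Nat.prod_primeFactors_dvd s), hs⟩

theorem sum_s (S : ℕ) : ∑ s ∈ Icc 1 S, (1 / (s : ℝ)) * ∏ p ∈ s.primeFactors, (1 + 1 / (p : ℝ)) ≤
    2 * (1 + Real.log S) := by
  have h1 : ∑ s ∈ Icc 1 S, (1 / (s : ℝ)) * ∏ p ∈ s.primeFactors, (1 + 1 / (p : ℝ)) ≤
      ∑ s ∈ Icc 1 S, ∑ e ∈ s.divisors, (1 / (s : ℝ)) * (1 / (e : ℝ)) := by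
    refine Finset.sum_le_sum fun s hs => ?_
    rw [mem_Icc] at hs
    rw [← Finset.mul_sum]
    exact mul_le_mul_of_nonneg_left (prod_le_divisors (by omega)) (by positivity)
  refine h1.trans ?_
  have h2 : ∑ s ∈ Icc 1 S, ∑ e ∈ s.divisors, (1 / (s : ℝ)) * (1 / (e : ℝ)) ≤
      ∑ e ∈ Icc 1 S, ∑ m ∈ Icc 1 S, (1 / (e : ℝ) ^ 2) * (1 / (m : ℝ)) := by
    rw [← Finset.sum_product', Finset.sum_sigma']
    set T := (Icc 1 S).sigma fun s => s.divisors with hT
    have hmem : ∀ x ∈ T, 1 ≤ x.1 ∧ x.1 ≤ S ∧ x.2 ∣ x.1 ∧ 0 < x.2 := by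
      intro x hx
      rw [hT, Finset.mem_sigma, mem_Icc, Nat.mem_divisors] at hx
      exact ⟨hx.1.1, hx.1.2, hx.2.1, Nat.pos_of_dvd_of_pos hx.2.1 hx.1.1⟩
    have hinj : Set.InjOn (fun x : (_ : ℕ) × ℕ => (x.2, x.1 / x.2)) (T : Set ((_ : ℕ) × ℕ)) := by
      rintro ⟨s, e⟩ hx ⟨s', e'⟩ hx' h
      obtain ⟨-, -, h1, h2⟩ := hmem _ hx
      obtain ⟨-, -, h3, h4⟩ := hmem _ hx'
      simp only [Prod.mk.injEq] at h1 h2 h3 h4 h
      obtain ⟨rfl, h⟩ := h
      have e1 := Nat.div_mul_cancel h1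
      have e2 := Nat.div_mul_cancel h3
      rw [h] at e1
      have : s = s' := e1.symm.trans e2
      rw [this]
    have e : ∑ x ∈ T, (1 / (x.1 : ℝ)) * (1 / (x.2 : ℝ)) =
        ∑ y ∈ T.image (fun x : (_ : ℕ) × ℕ => (x.2, x.1 / x.2)),
          (1 / (y.1 : ℝ) ^ 2) * (1 / (y.2 : ℝ)) := by
      rw [Finset.sum_image hinj]
      refine Finset.sum_congr rfl fun x hx => ?_
      obtain ⟨h0, -, h1, h2⟩ := hmem x hx
      obtain ⟨k, hk⟩ := h1
      have hk0 : x.1 / x.2 = k := by rw [hk]; exact Nat.mul_div_cancel_left k h2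
      have hkp : 0 < k := by
        rcases Nat.eq_zero_or_pos k with h | h
        · rw [h] at hk; omega
        · exact h
      simp only
      rw [hk0, hk]
      have : (0 : ℝ) < x.2 := by exact_mod_cast h2
      have : (0 : ℝ) < k := by exact_mod_cast hkp
      push_cast
      field_simp
    rw [e]
    refine Finset.sum_le_sum_of_subset_of_nonneg ?_ fun i _ _ => by positivity
    intro y hy
    rw [mem_image] at hy
    obtain ⟨x, hx, rfl⟩ := hy
    obtain ⟨h0, h1, h2, h3⟩ := hmem x hx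
    rw [mem_product, mem_Icc, mem_Icc]
    have h4 := Nat.le_of_dvd (by omega) h2
    refine ⟨⟨h3, h4.trans h1⟩, ?_, (Nat.div_le_self _ _).trans h1⟩
    exact Nat.div_pos h4 h3
  refine h2.trans ?_
  have h3 : ∑ e ∈ Icc 1 S, ∑ m ∈ Icc 1 S, (1 / (e : ℝ) ^ 2) * (1 / (m : ℝ)) =
      (∑ e ∈ Icc 1 S, 1 / (e : ℝ) ^ 2) * ∑ m ∈ Icc 1 S, (1 / (m : ℝ)) := by
    rw [Finset.sum_mul_sum]
  rw [h3]
  have h4 := harm S
  have h5 := sq_inv S
  have h6 : 0 ≤ ∑ m ∈ Icc 1 S, (1 / (m : ℝ)) := Finset.sum_nonneg fun i _ => by positivity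
  calc (∑ e ∈ Icc 1 S, 1 / (e : ℝ) ^ 2) * ∑ m ∈ Icc 1 S, (1 / (m : ℝ)) ≤
      2 * ∑ m ∈ Icc 1 S, (1 / (m : ℝ)) := mul_le_mul_of_nonneg_right h5 h6
    _ ≤ 2 * (1 + Real.log S) := by linarith

end Pool.Agent.UW
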