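import Pool.Agent.UW.RSh

/-! UW/RMean.  Choice of the prime `P0` and of the small class `b1`: the average number of survivors. -/

set_option autoImplicit false

namespace Pool.Agent.UW

open Finset Pool.Agent.Helper9.GW Pool.Agent.REC

private theorem rm_exch (A R C : Finset ℕ) (p q : ℕ → ℕ → Prop) [∀ j, DecidablePred fun h => p h j]
    [∀ j, DecidablePred fun b => q b j] [∀ ω : ℕ × ℕ, DecidablePred fun j => p ω.1 j ∧ q ω.2 j] :
    ∑ ω ∈ A ×ˢ R, ((C.filter (fun j => p ω.1 j ∧ q ω.2 j)).card : ℝ) =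
      ∑ j ∈ C, ((A.filter (fun h => p h j)).card : ℝ) * ((R.filter (fun b => q b j)).card : ℝ) := by
  classical
  have h1 : ∀ ω : ℕ × ℕ, ((C.filter (fun j => p ω.1 j ∧ q ω.2 j)).card : ℝ) =
      ∑ j ∈ C, if p ω.1 j ∧ q ω.2 j then (1 : ℝ) else 0 := by
    intro ω
    rw [card_filter, Nat.cast_sum]
    refine sum_congr rfl fun j _ => ?_
    split_ifs <;> simp
  rw [sum_congr rfl fun ω _ => h1 ω, sum_comm]
  refine sum_congr rfl fun j _ => ?_
  have h2 := filter_product (s := A) (t := R) (fun h => p h j) (fun b => q b j)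
  rw [← Nat.cast_mul, ← card_product, ← h2, card_filter, Nat.cast_sum]
  refine sum_congr rfl fun ω _ => ?_
  split_ifs <;> simp

private theorem rm_pc (n : ℕ) : Nat.primeCounting n = (prs n).card := by
  unfold Nat.primeCounting Nat.primeCounting'
  rw [Nat.count_eq_card_filter_range]
  congr 1
  ext p
  rw [mem_filter, mem_range, mem_prs]
  constructor
  · rintro ⟨h1, h2⟩
    exact ⟨h2, by omega⟩
  · rintro ⟨h1, h2⟩
    exact ⟨by omega, h1⟩

private theorem rm_logHH {k : ℕ} {l l2 l3 : ℝ} (h : Par k l l2 l3) :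
    Real.log (HH l 3) ≤ 2 * l := by
  obtain ⟨_, _, _, g1, g2, g3⟩ := h.facts
  obtain ⟨H1, H2, H3⟩ := h.HH_facts 3
  have hl1 : 1 ≤ l := by linarith
  have h2 : (HH l 3 : ℝ) ≤ Real.exp (2 * l) := by
    refine H2.trans ?_
    have h3 : l ^ 3 ≤ l ^ 4 := pow_le_pow_right₀ hl1 (by norm_num)
    have h4 : Real.exp (l / 2) ≤ Real.exp l := Real.exp_le_exp.2 (by linarith)
    have h5 : l ^ 3 ≤ Real.exp l := h3.trans (h.grow.trans h4)
    calc Real.exp l * l ^ 3 ≤ Real.exp l * Real.exp l :=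
          mul_le_mul_of_nonneg_left h5 (Real.exp_pos l).le
      _ = Real.exp (2 * l) := by
          rw [← Real.exp_add]
          congr 1
          ring
  have h6 : (0 : ℝ) < HH l 3 := lt_of_lt_of_le (Real.exp_pos l) H3
  have h7 := Real.log_le_log h6 h2
  rwa [Real.log_exp] at h7

private theorem rm_cheb : ∃ N0 : ℕ, ∀ N : ℕ, N0 ≤ N →
    (N : ℝ) / 2 ≤ Nat.primeCounting N * Real.log N := by
  have h1 := (Real.isLittleO_log_id_atTop).bound (c := 1 / 20) (by norm_num)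
  have h2 : Filter.Tendsto (fun k : ℕ => (k : ℝ) + 1) Filter.atTop Filter.atTop :=
    Filter.tendsto_atTop_add_const_right _ _ tendsto_natCast_atTop_atTop
  obtain ⟨N1, hN1⟩ := Filter.eventually_atTop.1 (h2.eventually h1)
  refine ⟨max N1 2, fun N hN => ?_⟩
  have hk := hN1 N (le_trans (le_max_left _ _) hN)
  have hN2 : 2 ≤ N := le_trans (le_max_right _ _) hN
  have hN2' : (2 : ℝ) ≤ N := by exact_mod_cast hN2
  simp only [id] at hk
  rw [Real.norm_of_nonneg (Real.log_nonneg (by linarith)),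
    Real.norm_of_nonneg (by linarith)] at hk
  have h3 := Chebyshev.pi_ge N
  have h4 : 0 < Real.log N := Real.log_pos (by linarith)
  rw [div_le_iff₀ h4] at h3
  have h5 := Real.log_two_gt_d9
  refine le_trans ?_ h3
  nlinarith

/-- the primes `P0` -/
private def TT (z2 H : ℕ) : Finset ℕ := (Icc 1 H).filter (fun P => P.Prime ∧ z2 < P)

private theorem rm_count : ∃ k0 : ℕ, ∀ (k : ℕ) (l l2 l3 : ℝ), k0 ≤ k → Par k l l2 l3 →
    (HH l 3 : ℝ) / (8 * l) ≤ ((TT (zz l) (HH l 3)).card : ℝ) := by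
  obtain ⟨N0, hN0⟩ := rm_cheb
  refine ⟨N0, fun k l l2 l3 hk h => ?_⟩
  obtain ⟨e1, e2, e3, g1, g2, g3⟩ := h.facts
  obtain ⟨H1, H2, H3⟩ := h.HH_facts 3
  have q2 := rm_logHH h
  obtain ⟨_, zf2, _⟩ := h.zz_facts
  have p1 := h.p1
  obtain ⟨X, hX⟩ : ∃ X : ℕ, X = HH l 3 := ⟨_, rfl⟩
  rw [← hX] at q2 H1 H2 H3 ⊢
  have hl8 : 8 ≤ l := by linarith
  have h1 := hN0 X (hk.trans H1)
  rw [rm_pc] at h1
  have h2 : (prs X).card ≤ (TT (zz l) X).card + zz l := by
    have h3 : prs X \ Icc 1 (zz l) ⊆ TT (zz l) X := by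
      intro p hp
      rw [mem_sdiff, mem_prs, mem_Icc] at hp
      obtain ⟨⟨hp1, hp2⟩, hp3⟩ := hp
      have := hp1.pos
      unfold TT
      rw [mem_filter, mem_Icc]
      exact ⟨⟨by omega, hp2⟩, hp1, by omega⟩
    have h4 := card_le_card_sdiff_add_card (s := prs X) (t := Icc 1 (zz l))
    rw [Nat.card_Icc] at h4
    have h5 := card_le_card h3
    omega
  have h3 : ((prs X).card : ℝ) ≤ ((TT (zz l) X).card : ℝ) + zz l := by exact_mod_cast h2
  have h4 : (X : ℝ) / (4 * l) ≤ (prs X).card := by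
    rw [div_le_iff₀ (by positivity)]
    have h5 : ((prs X).card : ℝ) * Real.log X ≤ (prs X).card * (2 * l) :=
      mul_le_mul_of_nonneg_left q2 (Nat.cast_nonneg _)
    linarith
  have h5 : (zz l : ℝ) ≤ X / (8 * l) := by
    refine zf2.trans ?_
    rw [div_le_div_iff₀ (by positivity) (by positivity)]
    have h6 : 8 * l ≤ l ^ 2 := by nlinarith
    exact mul_le_mul H3 h6 (by positivity) (Nat.cast_nonneg _)
  have h6 : (X : ℝ) / (4 * l) = X / (8 * l) + X / (8 * l) := by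
    field_simp
    ring
  linarith

/-- an element below the average -/
private theorem rm_avg {α : Type*} {s : Finset α} (hs : s.Nonempty) (f : α → ℝ) {B : ℝ}
    (h : ∑ x ∈ s, f x ≤ s.card * B) : ∃ x ∈ s, f x ≤ B := by
  by_contra hcon
  push Not at hcon
  have h1 : ∑ x ∈ s, B < ∑ x ∈ s, f x := sum_lt_sum_of_nonempty hs hcon
  rw [sum_const, nsmul_eq_mul] at h1
  linarith

theorem r_choice : ∃ k0 : ℕ, ∀ (k : ℕ) (l l2 l3 : ℝ), k0 ≤ k → Par k l l2 l3 → 16 ≤ l3 →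
    ∀ (q0 : ℕ) (A : Finset ℕ), q0 ≤ HH l 3 → (∀ q ∈ A, q ≠ q0 ∧ Even (q0 + q) ∧ q ≤ HH l 3) →
    ∃ P b1 : ℕ, P.Prime ∧ zz l < P ∧ Nat.Coprime (b1 + q0) (pmod (2 ^ bb l l2 l3)) ∧
      ((A.filter (fun q => (∀ ℓ ∈ medium (2 ^ bb l l2 l3) (zz l), ¬ q ≡ P + q0 [MOD ℓ]) ∧
        Nat.Coprime (b1 + q) (pmod (2 ^ bb l l2 l3)))).card : ℝ) ≤
        80000000 * (l2 ^ 2 / (l ^ 2 * l3) * ∑ q ∈ A, ff (max q0 q - min q0 q) ^ 2) := by
  classical
  obtain ⟨k0, hk0⟩ := rm_count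
  refine ⟨k0, fun k l l2 l3 hk h h16 q0 A hq0 hA => ?_⟩
  have hcnt := hk0 k l l2 l3 hk h
  obtain ⟨e1, e2, e3, g1, g2, g3⟩ := h.facts
  obtain ⟨H1, H2, H3⟩ := h.HH_facts 3
  obtain ⟨d1, d2⟩ := dens_bounds h
  have p1 := h.p1
  have p2 := h.p2
  have p3 : 0 < l3 := by linarith [h.h3]
  have hsh : ∀ q ∈ A, ((Tq (2 ^ bb l l2 l3) (zz l) (HH l 3) q0 q).card : ℝ) ≤
      600000 * (HH l 3 * (l2 / l ^ 2)) * ff (max q0 q - min q0 q) := fun q hq =>
    shift_prime h h16 (hA q hq).1 (hA q hq).2.1 (hA q hq).2.2 hq0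
  obtain ⟨z1, hz1⟩ : ∃ z1 : ℕ, z1 = 2 ^ bb l l2 l3 := ⟨_, rfl⟩
  obtain ⟨X, hX⟩ : ∃ X : ℕ, X = HH l 3 := ⟨_, rfl⟩
  obtain ⟨T, hT⟩ : ∃ T : Finset ℕ, T = TT (zz l) X := ⟨_, rfl⟩
  obtain ⟨F, hF⟩ : ∃ F : Finset ℕ,
    F = (range (pmod z1)).filter (fun b => Nat.Coprime (b + q0) (pmod z1)) := ⟨_, rfl⟩
  obtain ⟨M, hM⟩ : ∃ M : ℝ, M = pmod z1 := ⟨_, rfl⟩
  obtain ⟨dn, hdn⟩ : ∃ dn : ℝ, dn = dens z1 := ⟨_, rfl⟩
  obtain ⟨S, hS⟩ : ∃ S : ℝ, S = ∑ q ∈ A, ff (max q0 q - min q0 q) ^ 2 := ⟨_, rfl⟩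
  rw [← hX] at H1 H2 H3 hcnt
  rw [← hz1] at d1 d2
  rw [← hT] at hcnt
  rw [← hz1, ← hX] at hsh
  rw [← hz1, ← hS]
  rw [← hdn] at d1 d2
  have hX0 : (0 : ℝ) < X := lt_of_lt_of_le (Real.exp_pos _) H3
  have hM0 : 0 < M := by
    rw [hM]
    exact_mod_cast pmod_pos z1
  have hd0 : 0 < dn := by
    refine lt_of_lt_of_le ?_ d1
    positivity
  have hFc : (F.card : ℝ) = M * dn := by
    rw [hF, hM, hdn]
    exact count_one z1 q0
  have hTc : 0 < (T.card : ℝ) := lt_of_lt_of_le (by positivity) hcnt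
  have hFc0 : 0 < (F.card : ℝ) := by
    rw [hFc]
    positivity
  have hne : (T ×ˢ F).Nonempty := by
    rw [nonempty_product]
    constructor
    · rw [← card_pos]
      exact_mod_cast hTc
    · rw [← card_pos]
      exact_mod_cast hFc0
  have hS0 : 0 ≤ S := by
    rw [hS]
    exact sum_nonneg fun q _ => sq_nonneg _
  -- the sum
  have hsum : ∑ ω ∈ T ×ˢ F, ((A.filter (fun q => (∀ ℓ ∈ medium z1 (zz l),
      ¬ q ≡ ω.1 + q0 [MOD ℓ]) ∧ Nat.Coprime (ω.2 + q) (pmod z1))).card : ℝ) ≤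
      600000 * (X * (l2 / l ^ 2)) * (M * dn ^ 2) * S := by
    rw [rm_exch T F A (fun P q => ∀ ℓ ∈ medium z1 (zz l), ¬ q ≡ P + q0 [MOD ℓ])
      (fun b q => Nat.Coprime (b + q) (pmod z1)), hS, mul_sum]
    refine sum_le_sum fun q hq => ?_
    have h1 : T.filter (fun P => ∀ ℓ ∈ medium z1 (zz l), ¬ q ≡ P + q0 [MOD ℓ]) =
        Tq z1 (zz l) X q0 q := by
      rw [hT]
      unfold TT Tq
      rw [filter_filter]
    have h2 : F.filter (fun b => Nat.Coprime (b + q) (pmod z1)) =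
        (range (pmod z1)).filter (fun b => Nat.Coprime (b + q0) (pmod z1) ∧
          Nat.Coprime (b + q) (pmod z1)) := by
      rw [hF, filter_filter]
    rw [h1, h2]
    have h3 := hsh q hq
    have hne' : q0 ≠ q := fun h => (hA q hq).1 h.symm
    have h4 := pair_b z1 q0 q hne'
    have h5 : max q0 q - min q0 q ≠ 0 := by
      rcases lt_or_gt_of_ne hne' with h | h
      · rw [max_eq_right h.le, min_eq_left h.le]
        omega
      · rw [max_eq_left h.le, min_eq_right h.le]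
        omega
    rw [ff_eq h5, ← hM, ← hdn] at h4
    calc _ ≤ 600000 * (X * (l2 / l ^ 2)) * ff (max q0 q - min q0 q) *
          (M * dn ^ 2 * ff (max q0 q - min q0 q)) :=
          mul_le_mul h3 h4 (Nat.cast_nonneg _) ((Nat.cast_nonneg _).trans h3)
      _ = _ := by ring
  obtain ⟨ω, hω, hωle⟩ := rm_avg hne _ (B := 80000000 * (l2 ^ 2 / (l ^ 2 * l3) * S))
    (hsum.trans (by
      rw [card_product]
      push_cast
      rw [hFc]
      calc 600000 * (X * (l2 / l ^ 2)) * (M * dn ^ 2) * S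
          = (X / (8 * l)) * (M * dn) * (4800000 * (l2 / l) * dn * S) := by
            field_simp
            ring
        _ ≤ T.card * (M * dn) * (4800000 * (l2 / l) * (16 * (l2 / (l * l3))) * S) := by
            gcongr
        _ = T.card * (M * dn) * (76800000 * (l2 ^ 2 / (l ^ 2 * l3) * S)) := by
            field_simp
            ring
        _ ≤ T.card * (M * dn) * (80000000 * (l2 ^ 2 / (l ^ 2 * l3) * S)) := by
            gcongr
            norm_num))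
  rw [mem_product] at hω
  obtain ⟨hω1, hω2⟩ := hω
  rw [hT] at hω1
  unfold TT at hω1
  rw [mem_filter] at hω1
  rw [hF, mem_filter] at hω2
  exact ⟨ω.1, ω.2, hω1.2.1, hω1.2.2, hω2.2, hωle⟩

end Pool.Agent.UW
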