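import Pool.Agent.REC.RecPar

/-! UW/RPar.  Parameters at the Rankin scale. -/

set_option autoImplicit false

namespace Pool.Agent.UW

open Filter Pool.Agent.Helper9.GW Pool.Agent.REC

theorem r_par (k0 : ℕ) : ∀ᶠ P : ℕ in atTop, ∀ X l l2 l3 : ℝ, X = Real.log P → l = Real.log X →
    l2 = Real.log l → l3 = Real.log l2 → ∀ (k : ℕ) (l' l2' l3' : ℝ), k = ⌊X⌋₊ → l' = Real.log k →
    l2' = Real.log l' → l3' = Real.log l2' →
    (k0 ≤ k ∧ Par k l' l2' l3' ∧ 16 ≤ l3') ∧ ((k0 : ℝ) ≤ l3 ∧ 1 ≤ l3 ∧ l3 ≤ l2 ∧ l2 ≤ l ∧ l ≤ X) ∧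
    (2 ≤ zz l' ∧ (zz l' : ℝ) ≤ X / 100 ∧ (zz l' : ℝ) ≤ 4 * (X / l ^ 2) ∧
      l ≤ 2 * (Nat.log 2 (zz l') : ℝ)) ∧
    (HH l' 3 : ℝ) ≤ X ^ 2 ∧
    (∀ H : ℕ, (H : ℝ) ≤ 32 * (X * (l ^ 3 * l3 / l2 ^ 2)) →
      H ≤ HH l' 3 ∧ ((H : ℝ) + zz l') / l ^ 4 ≤ X / l) ∧
    l2' ^ 2 / (l' ^ 2 * l3') ≤ 2 * (l2 ^ 2 / (l ^ 2 * l3)) := by
  have hcast : Tendsto (fun k : ℕ => (k : ℝ)) atTop atTop := tendsto_natCast_atTop_atTop
  have t1 : Tendsto (fun k : ℕ => Real.log k) atTop atTop := Real.tendsto_log_atTop.comp hcast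
  have t2 : Tendsto (fun k : ℕ => Real.log (Real.log k)) atTop atTop :=
    Real.tendsto_log_atTop.comp t1
  have t3 : Tendsto (fun k : ℕ => Real.log (Real.log (Real.log k))) atTop atTop :=
    Real.tendsto_log_atTop.comp t2
  have hk : Tendsto (fun x : ℕ => ⌊Real.log x⌋₊) atTop atTop :=
    tendsto_nat_floor_atTop.comp t1
  have tk3 : Tendsto (fun x : ℕ => Real.log (Real.log (Real.log (⌊Real.log x⌋₊ : ℕ)))) atTop atTop :=
    t3.comp hk
  filter_upwards [rec_par (k0 + 600), tk3.eventually_ge_atTop 16, t1.eventually_ge_atTop 40,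
    t2.eventually_ge_atTop 100] with P hrec g16 g1 g2
  intro X l l2 l3 hX hl hl2 hl3 k l' l2' l3' hkk hl' hl2' hl3'
  obtain ⟨L, hL⟩ : ∃ L : ℕ, L = Nat.log 2 P := ⟨_, rfl⟩
  obtain ⟨r1, hPar, r3, r4, r5, r6, r7, r8, r9, r10, r11, r12, r13, r14, r15⟩ :=
    hrec X l l2 l3 hX hl hl2 hl3 k l' l2' l3' hkk hl' hl2' hl3' L hL
  rw [← hX] at g16 g1 g2
  rw [← hkk, ← hl', ← hl2', ← hl3'] at g16
  rw [← hl] at g2
  push_cast at r12
  have hk00 : (0 : ℝ) ≤ k0 := Nat.cast_nonneg _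
  have X0 : 0 < X := by linarith
  have l0 : 0 < l := by linarith
  have l30 : 600 ≤ l3 := by linarith
  have l20 : 0 < l2 := by
    by_contra hcon
    push Not at hcon
    have h1 : Real.log l2 ≤ l2 := by
      rcases lt_or_eq_of_le hcon with h2 | h2
      · have h3 : Real.log l2 = Real.log (-l2) := (Real.log_neg_eq_log l2).symm
        have h4 : l3 = Real.log (-l2) := by rw [hl3, h3]
        -- `l2 = log l ≥ 0` because `l ≥ 1`
        have h5 : 0 ≤ l2 := by
          rw [hl2]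
          exact Real.log_nonneg (by linarith)
        linarith
      · rw [h2, Real.log_zero]
    linarith
  have hl3l2 : l3 ≤ l2 := by
    rw [hl3]
    exact Real.log_le_self l20.le
  have hl2l : l2 ≤ l := by
    rw [hl2]
    exact Real.log_le_self l0.le
  have hlX : l ≤ X := by
    rw [hl]
    exact Real.log_le_self X0.le
  have hku : (k : ℝ) ≤ X := by rw [hkk]; exact Nat.floor_le X0.le
  have hkl : X / 2 ≤ (k : ℝ) := by
    have := Nat.lt_floor_add_one X
    rw [← hkk] at this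
    linarith
  have hk0 : (0 : ℝ) < k := by linarith
  have hl'l : l / 2 ≤ l' := by
    have h1 : Real.log (X / 2) ≤ l' := by
      rw [hl']
      exact Real.log_le_log (by positivity) hkl
    rw [Real.log_div X0.ne' (by norm_num), ← hl] at h1
    have := Real.log_two_lt_d9
    linarith
  have hl'0 : 0 < l' := by linarith
  have hexp : Real.exp l' = k := by rw [hl']; exact Real.exp_log hk0
  have hz1 : (zz l' : ℝ) ≤ k / l' ^ 2 := by
    unfold zz
    rw [hexp]
    exact Nat.floor_le (by positivity)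
  refine ⟨⟨by omega, hPar, g16⟩, ⟨by linarith, by linarith, hl3l2, hl2l, hlX⟩,
    ⟨by omega, r3, ?_, r11⟩, ?_, ?_, r14⟩
  · refine hz1.trans ?_
    calc (k : ℝ) / l' ^ 2 ≤ X / (l / 2) ^ 2 := by
          apply div_le_div₀ X0.le hku (by positivity)
          exact pow_le_pow_left₀ (by positivity) hl'l 2
      _ = 4 * (X / l ^ 2) := by
          field_simp
          norm_num
  · obtain ⟨H1, H2, H3⟩ := hPar.HH_facts 3
    refine H2.trans ?_
    have h1 : (1 : ℝ) ≤ l' := by linarith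
    have h2 : l' ^ 3 ≤ l' ^ 4 := pow_le_pow_right₀ h1 (by norm_num)
    have h3 : Real.exp (l' / 2) ≤ Real.exp l' := Real.exp_le_exp.2 (by linarith)
    have h4 : l' ^ 3 ≤ Real.exp l' := h2.trans (hPar.grow.trans h3)
    rw [hexp] at h4 ⊢
    calc (k : ℝ) * l' ^ 3 ≤ k * k := mul_le_mul_of_nonneg_left h4 hk0.le
      _ ≤ X * X := mul_le_mul hku hku hk0.le X0.le
      _ = X ^ 2 := by ring
  · intro H hH
    have hH1 : (H : ℝ) ≤ X * l ^ 3 / 16 := by
      refine hH.trans ?_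
      have h1 : l3 / l2 ^ 2 ≤ 1 / 600 := by
        rw [div_le_div_iff₀ (by positivity) (by norm_num)]
        nlinarith
      have h2 : 32 * (X * (l ^ 3 * l3 / l2 ^ 2)) = 32 * (X * l ^ 3) * (l3 / l2 ^ 2) := by ring
      rw [h2]
      have h3 : 32 * (X * l ^ 3) * (l3 / l2 ^ 2) ≤ 32 * (X * l ^ 3) * (1 / 600) :=
        mul_le_mul_of_nonneg_left h1 (by positivity)
      have h4 : 0 ≤ X * l ^ 3 := by positivity
      linarith
    constructor
    · unfold HH
      refine Nat.le_floor ?_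
      rw [hexp]
      have h3 : (l / 2) ^ 3 ≤ l' ^ 3 := pow_le_pow_left₀ (by linarith) hl'l 3
      have h4 : (X / 2) * (l / 2) ^ 3 ≤ k * l' ^ 3 := mul_le_mul hkl h3 (by positivity) hk0.le
      have h5 : (X / 2) * (l / 2) ^ 3 = X * l ^ 3 / 16 := by ring
      linarith
    · rw [div_le_div_iff₀ (by positivity) l0]
      have h1 : (zz l' : ℝ) ≤ X := by linarith
      have h2 : X ≤ X * l ^ 3 / 2 := by
        have : (2 : ℝ) ≤ l ^ 3 := by
          calc (2 : ℝ) ≤ l := by linarith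
            _ ≤ l ^ 3 := le_self_pow₀ (by linarith) (by norm_num)
        nlinarith
      have h3 : ((H : ℝ) + zz l') * l ≤ (X * l ^ 3) * l := by
        apply mul_le_mul_of_nonneg_right _ l0.le
        have h4 : 0 ≤ X * l ^ 3 := by positivity
        linarith
      refine h3.trans (le_of_eq ?_)
      ring

end Pool.Agent.UW
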