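import Pool.Agent.UW.App
import Pool.Agent.UW.RMean
import Pool.Agent.UW.RPar
import Pool.Agent.REC.PRem
import Pool.Agent.REC.ModTot
import Pool.Agent.AT.Av

/-! UW/RMain.  The unique witness at the Rankin scale, for the good scales `P`.

`primes_removed`: primes in all classes modulo `M = Mod w R`; `r_choice`: the prime `P0` and the small class `b1`; `crt_class`
with the shift `P0 + q0`; `app`. -/

set_option autoImplicit false

namespace Pool.Agent.UW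

open Finset Pool.Agent.REC

open Helper9.GW in
private theorem z_le' {k : ℕ} {l l2 l3 : ℝ} (h : Par k l l2 l3) :
    2 ≤ 2 ^ bb l l2 l3 ∧ 2 ^ bb l l2 l3 ≤ zz l := by
  obtain ⟨b1, b2, b3⟩ := h.bb_facts
  obtain ⟨z1, z2, z3⟩ := h.zz_facts
  obtain ⟨e1, e2, e3, g1, g2, g3⟩ := h.facts
  have p1 := h.p1
  have p2 := h.p2
  constructor
  · calc 2 = 2 ^ 1 := rfl
      _ ≤ _ := Nat.pow_le_pow_right (by norm_num) b1
  · have h1 : l * l3 / (8 * l2) ≤ l / 2 := by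
      rw [div_le_div_iff₀ (by positivity) (by norm_num)]
      nlinarith
    have h2 : ((2 ^ bb l l2 l3 : ℕ) : ℝ) ≤ (zz l : ℝ) := by
      refine le_trans ?_ z1
      push_cast
      have h3 : (2 : ℝ) ^ bb l l2 l3 = Real.exp ((bb l l2 l3 : ℝ) * Real.log 2) := by
        rw [Real.exp_nat_mul, Real.exp_log (by norm_num)]
      rw [h3]
      exact Real.exp_le_exp.2 (b2.trans h1)
    exact_mod_cast h2

private theorem cheb_of' : ∃ c : ℝ, 0 < c ∧ ∀ᶠ P : ℕ in Filter.atTop,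
    c * P ≤ ∑ m ∈ Ioc P (4 * P), ArithmeticFunction.vonMangoldt m := by
  obtain ⟨c, hc, P0, h⟩ := AT.theta_int
  refine ⟨c, hc, ?_⟩
  filter_upwards [Filter.eventually_ge_atTop P0] with P hP
  refine (h P hP).trans ?_
  have h1 : ∑ q ∈ (Ioc P (4 * P)).filter Nat.Prime, Real.log q =
      ∑ q ∈ (Ioc P (4 * P)).filter Nat.Prime, ArithmeticFunction.vonMangoldt q := by
    refine sum_congr rfl fun q hq => ?_
    rw [ArithmeticFunction.vonMangoldt_apply_prime (mem_filter.1 hq).2]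
  rw [h1]
  exact sum_le_sum_of_subset_of_nonneg (filter_subset _ _)
    fun _ _ _ => ArithmeticFunction.vonMangoldt_nonneg

/-- the number of `q ≤ H` in `A` with `p ∣ b + q` -/
private theorem rs_count (p b H : ℕ) (_hp : 0 < p) {A : Finset ℕ} (hA : ∀ q ∈ A, q ≤ H) :
    (((A.filter (fun q => p ∣ b + q)).card : ℕ) : ℝ) ≤ (H : ℝ) / p + 1 := by
  have hinj : Set.InjOn (fun j => j / p) (A.filter (fun j => p ∣ b + j) : Set ℕ) := by
    intro i hi j hj hij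
    simp only [coe_filter, Set.mem_ofPred_eq] at hi hj
    have h2 : i / p = j / p := hij
    have h3 : i ≡ j [MOD p] := by
      have h4 : b + i ≡ b + j [MOD p] :=
        ((Nat.modEq_zero_iff_dvd).2 hi.2).trans ((Nat.modEq_zero_iff_dvd).2 hj.2).symm
      exact Nat.ModEq.add_left_cancel' b h4
    have h5 := Nat.div_add_mod i p
    have h6 := Nat.div_add_mod j p
    have h7 : i % p = j % p := h3
    rw [h2, h7] at h5
    omega
  have hmaps : (A.filter (fun j => p ∣ b + j)).card ≤ (range (H / p + 1)).card := by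
    apply Finset.card_le_card_of_injOn (fun j => j / p) _ hinj
    intro j hj
    simp only [coe_filter, Set.mem_ofPred_eq] at hj
    simp only [coe_range, Set.mem_Iio]
    exact Nat.lt_succ_of_le (Nat.div_le_div_right (hA j hj.1))
  rw [card_range] at hmaps
  have h2 : (((A.filter (fun j => p ∣ b + j)).card : ℕ) : ℝ) ≤ ((H / p + 1 : ℕ) : ℝ) := by
    exact_mod_cast hmaps
  refine h2.trans ?_
  push_cast
  have h3 : ((H / p : ℕ) : ℝ) ≤ (H : ℝ) / p := Nat.cast_div_le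
  linarith

/-- the survivors in `A` -/
private theorem rs_surv {z1 z2 h b1 b : ℕ} (hz : 2 ≤ z1) (hz12 : z1 ≤ z2)
    (hb1 : b ≡ b1 [MOD pmod z1]) (hb2 : ∀ ℓ ∈ Helper9.GW.medium z1 z2, ℓ ∣ b + h) {R : Finset ℕ}
    (hR : R ⊆ prs z2) {A : Finset ℕ} {H : ℕ} (hA : ∀ q ∈ A, q ≤ H) :
    (((A.filter (fun q => Nat.Coprime (b + q) (REC.Mod z2 R))).card : ℕ) : ℝ) ≤
      ((A.filter (fun q => (∀ ℓ ∈ Helper9.GW.medium z1 z2, ¬ q ≡ h [MOD ℓ]) ∧
        Nat.Coprime (b1 + q) (pmod z1))).card : ℝ) + ∑ p ∈ R, ((H : ℝ) / p + 1) := by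
  classical
  have hsub : A.filter (fun j => Nat.Coprime (b + j) (REC.Mod z2 R)) ⊆
      A.filter (fun q => (∀ ℓ ∈ Helper9.GW.medium z1 z2, ¬ q ≡ h [MOD ℓ]) ∧
        Nat.Coprime (b1 + q) (pmod z1)) ∪ R.biUnion (fun p => A.filter (fun j => p ∣ b + j)) := by
    intro j hj
    rw [mem_filter] at hj
    obtain ⟨hjH, hjc⟩ := hj
    rw [mem_union]
    by_cases hRj : ∃ p ∈ R, p ∣ b + j
    · right
      obtain ⟨p, hp, hpj⟩ := hRj
      exact mem_biUnion.2 ⟨p, hp, mem_filter.2 ⟨hjH, hpj⟩⟩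
    · left
      have hall : ∀ p : ℕ, p.Prime → p ≤ z2 → ¬ p ∣ b + j := by
        intro p hp hpz hpd
        have h1 : p ∉ R := fun h2 => hRj ⟨p, h2, hpd⟩
        have h2 : p ∣ REC.Mod z2 R := (prime_dvd_Mod hp).2 ⟨hpz, h1⟩
        exact hp.one_lt.ne' (Nat.eq_one_of_dvd_coprimes hjc hpd h2)
      refine mem_filter.2 ⟨hjH, ?_, ?_⟩
      · intro ℓ hℓ hmod
        have h1 := (Helper9.GW.mem_medium hz).1 hℓ
        apply hall ℓ h1.1 h1.2.2
        have h2 : b + j ≡ b + h [MOD ℓ] := hmod.add_left b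
        exact (Nat.modEq_zero_iff_dvd).1 (h2.trans ((Nat.modEq_zero_iff_dvd).2 (hb2 ℓ hℓ)))
      · unfold pmod
        refine Nat.Coprime.prod_right fun p hp => ?_
        have h1 := mem_prs.1 hp
        rw [Nat.coprime_comm, h1.1.coprime_iff_not_dvd]
        intro hpd
        apply hall p h1.1 (h1.2.trans hz12)
        have h2 : b ≡ b1 [MOD p] := hb1.of_dvd (Finset.dvd_prod_of_mem _ hp)
        have h3 : b + j ≡ b1 + j [MOD p] := h2.add_right j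
        exact (Nat.modEq_zero_iff_dvd).1 (h3.trans ((Nat.modEq_zero_iff_dvd).2 hpd))
  have hcard : (((A.filter (fun j => Nat.Coprime (b + j) (REC.Mod z2 R))).card : ℕ) : ℝ) ≤
      ((A.filter (fun q => (∀ ℓ ∈ Helper9.GW.medium z1 z2, ¬ q ≡ h [MOD ℓ]) ∧
        Nat.Coprime (b1 + q) (pmod z1))).card : ℝ) +
        ∑ p ∈ R, (((A.filter (fun j => p ∣ b + j)).card : ℕ) : ℝ) := by
    have h1 := (card_le_card hsub).trans ((card_union_le _ _).trans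
      (Nat.add_le_add_left card_biUnion_le _))
    exact_mod_cast h1
  refine hcard.trans ?_
  have h2 : ∑ p ∈ R, (((A.filter (fun j => p ∣ b + j)).card : ℕ) : ℝ) ≤
      ∑ p ∈ R, ((H : ℝ) / p + 1) :=
    Finset.sum_le_sum fun p hp => rs_count p b H (mem_prs.1 (hR hp)).1.pos hA
  linarith

private theorem num_R' {w : ℕ} {R : Finset ℕ} (hR : R ⊆ prs w) {H l4 : ℝ} (hH : 0 ≤ H)
    (hs : ∑ p ∈ R, 1 / (p : ℝ) ≤ 1 / l4) :
    ∑ p ∈ R, (H / (p : ℝ) + 1) ≤ (H + w) / l4 := by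
  have h1 : ∑ p ∈ R, (H / (p : ℝ) + 1) ≤ ∑ p ∈ R, (H + w) * (1 / (p : ℝ)) := by
    refine sum_le_sum fun p hp => ?_
    have h2 := mem_prs.1 (hR hp)
    have hp0 : (0 : ℝ) < p := by exact_mod_cast h2.1.pos
    have h3 : (1 : ℝ) ≤ w * (1 / (p : ℝ)) := by
      rw [mul_one_div, le_div_iff₀ hp0, one_mul]
      exact_mod_cast h2.2
    have h4 : (H + w) * (1 / (p : ℝ)) = H / p + w * (1 / (p : ℝ)) := by ring
    rw [h4]
    linarith
  refine h1.trans ?_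
  rw [← mul_sum]
  calc (H + w) * ∑ p ∈ R, 1 / (p : ℝ) ≤ (H + w) * (1 / l4) :=
        mul_le_mul_of_nonneg_left hs (by positivity)
    _ = (H + w) / l4 := by ring

private theorem rc0 : 0 < c0 ∧ c0 ≤ 1 := by
  unfold c0
  have h1 : 0 < Real.exp (-9) := Real.exp_pos _
  have h2 : Real.exp (-9) ≤ 1 := Real.exp_le_one_iff.2 (by norm_num)
  exact ⟨by positivity, by rw [div_le_one (by norm_num)]; linarith⟩

private theorem rm_d {η : ℝ} (hη : 0 < η) (hη1 : η ≤ 1 / 10000) {L : ℕ}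
    (h1 : 32 / η ≤ L) (h2 : (2 / η) ^ 4 ≤ L) :
    ∃ d : ℕ, (d : ℝ) ≤ η * L ∧ η * L / 2 ≤ d ∧ L ^ 3 ≤ d ^ 4 ∧ 16 ≤ d ∧ 10000 * d ≤ L := by
  have hL0 : (0 : ℝ) < L := lt_of_lt_of_le (by positivity) h1
  have h32 : 32 ≤ η * L := by
    rw [div_le_iff₀ hη] at h1
    linarith
  have h4 : η * L / 2 ≤ (⌊η * L⌋₊ : ℝ) := by
    have := Nat.lt_floor_add_one (η * L)
    linarith
  refine ⟨⌊η * L⌋₊, Nat.floor_le (by positivity), h4, ?_, ?_, ?_⟩
  · have h5 : (L : ℝ) ^ 3 ≤ (⌊η * L⌋₊ : ℝ) ^ 4 := by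
      calc (L : ℝ) ^ 3 = (η / 2) ^ 4 * (2 / η) ^ 4 * (L : ℝ) ^ 3 := by
            field_simp
        _ ≤ (η / 2) ^ 4 * L * (L : ℝ) ^ 3 := by gcongr
        _ = (η * L / 2) ^ 4 := by ring
        _ ≤ _ := pow_le_pow_left₀ (by positivity) h4 4
    exact_mod_cast h5
  · exact Nat.le_floor (by push_cast; linarith)
  · have h4 : (⌊η * L⌋₊ : ℝ) ≤ η * L := Nat.floor_le (by positivity)
    have h5 : (10000 : ℝ) * ⌊η * L⌋₊ ≤ L := by nlinarith
    exact_mod_cast h5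

private theorem rm_pow {d : ℕ} (h : 16 ≤ d) : d ^ 4 ≤ 2 ^ d := by
  induction d, h using Nat.le_induction with
  | base => norm_num
  | succ d hd ih =>
    have h1 : (d + 1) ^ 4 ≤ 2 * d ^ 4 := by
      have h2 : (16 * (d + 1)) ≤ 17 * d := by omega
      have h3 : (16 * (d + 1)) ^ 4 ≤ (17 * d) ^ 4 := Nat.pow_le_pow_left h2 4
      rw [mul_pow, mul_pow] at h3
      norm_num at h3
      have h4 : 83521 * d ^ 4 ≤ 131072 * d ^ 4 := Nat.mul_le_mul_right _ (by norm_num)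
      omega
    calc (d + 1) ^ 4 ≤ 2 * d ^ 4 := h1
      _ ≤ 2 * 2 ^ d := by omega
      _ = 2 ^ (d + 1) := by ring

/-- the final inequality between the exponents -/
private theorem rm_final {δ η : ℝ} (hδ : 0 < δ) (hδ1 : δ ≤ 1 / 2) (hη : η ≤ δ / 20) {x a d M : ℕ}
    (hx2 : x < 2 ^ (a + 3)) (hM0 : 0 < M) (hM : M ≤ 2 ^ d) (hd : (d : ℝ) ≤ η * ((a + 4 : ℕ) : ℝ))
    (hLd : a + 4 ≤ 2 ^ d) (ha : 6 / δ ≤ a) :
    (x : ℝ) ^ (1 - δ) ≤ (((2 ^ a : ℕ) : ℝ) / M) / (((a + 4 : ℕ) : ℝ) * 2 ^ (5 * d)) := by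
  have hM0' : (0 : ℝ) < M := by exact_mod_cast hM0
  have h1 : (x : ℝ) ^ (1 - δ) ≤ (2 : ℝ) ^ (((a : ℝ) + 3) * (1 - δ)) := by
    have h2 : (x : ℝ) ≤ 2 ^ (a + 3) := by exact_mod_cast hx2.le
    have h3 := Real.rpow_le_rpow (Nat.cast_nonneg x) h2 (by linarith : (0 : ℝ) ≤ 1 - δ)
    refine h3.trans (le_of_eq ?_)
    rw [Real.rpow_mul (by norm_num)]
    congr 1
    rw [← Real.rpow_natCast]
    push_cast
    rfl
  have hη2 : η * ((a + 4 : ℕ) : ℝ) ≤ δ / 20 * ((a + 4 : ℕ) : ℝ) :=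
    mul_le_mul_of_nonneg_right hη (Nat.cast_nonneg _)
  have h6 : 6 ≤ δ * a := by
    rw [div_le_iff₀ hδ] at ha
    linarith
  have h2 : ((a : ℝ) + 3) * (1 - δ) ≤ (a : ℝ) - 7 * d := by
    push_cast at hη2 hd
    nlinarith
  have h3 : (2 : ℝ) ^ (((a : ℝ) + 3) * (1 - δ)) ≤ (2 : ℝ) ^ ((a : ℝ) - 7 * d) :=
    Real.rpow_le_rpow_of_exponent_le (by norm_num) h2
  refine h1.trans (h3.trans ?_)
  have h4 : (2 : ℝ) ^ ((a : ℝ) - 7 * d) = 2 ^ a / 2 ^ (7 * d) := by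
    rw [Real.rpow_sub (by norm_num), Real.rpow_natCast]
    congr 1
    rw [← Real.rpow_natCast]
    push_cast
    rfl
  rw [h4, div_div]
  push_cast
  refine div_le_div_of_nonneg_left (by positivity) (by positivity) ?_
  have h5 : (M : ℝ) ≤ 2 ^ d := by exact_mod_cast hM
  have h7 : (a : ℝ) + 4 ≤ 2 ^ d := by exact_mod_cast hLd
  calc (M : ℝ) * (((a : ℝ) + 4) * 2 ^ (5 * d)) ≤ 2 ^ d * (2 ^ d * 2 ^ (5 * d)) := by gcongr
    _ = 2 ^ (7 * d) := by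
        rw [← pow_add, ← pow_add]
        congr 1
        omega

/-- an even `q` does not survive -/
private theorem rm_odd {M b q0 q : ℕ} (hM : 2 ∣ M) (hq0 : Odd q0) (h0 : Nat.Coprime (b + q0) M)
    (h : Nat.Coprime (b + q) M) : Odd q := by
  have h1 : ¬ 2 ∣ b + q0 := fun h2 =>
    Nat.prime_two.one_lt.ne' (Nat.eq_one_of_dvd_coprimes h0 h2 hM)
  have h2 : ¬ 2 ∣ b + q := fun h2 =>
    Nat.prime_two.one_lt.ne' (Nat.eq_one_of_dvd_coprimes h h2 hM)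
  rcases hq0 with ⟨m, hm⟩
  rw [← Nat.not_even_iff_odd, even_iff_two_dvd]
  omega

/-! small inequalities -/

private theorem q1 {cθ M lw : ℝ} (hM : 0 < M) (h : 8 ≤ cθ * lw) : 4 * M ≤ cθ / 2 * M * lw := by
  have h1 : 8 * M ≤ cθ * lw * M := mul_le_mul_of_nonneg_right h hM.le
  linarith

private theorem q2 {a X : ℝ} (ha : 0 ≤ a) (h : X ≤ (a + 1) * Real.log 2) : X ≤ a + 4 := by
  have h3 := Real.log_two_lt_d9
  nlinarith

private theorem q3 {a X : ℝ} (ha : 0 ≤ a) (hX : 100 ≤ X) (h : a * Real.log 2 ≤ X) :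
    a + 4 ≤ 2 * X := by
  have h3 := Real.log_two_gt_d9
  nlinarith

private theorem q4 {η l X : ℝ} (hη : 0 < η) (hl : 1 ≤ l) (hX : 0 < X) (h : 32 ≤ l * η) :
    X / l ^ 2 ≤ X * (η / 16) := by
  rw [div_le_iff₀ (by positivity)]
  have h1 : l * 1 ≤ l * l := mul_le_mul_of_nonneg_left hl (by linarith)
  have h2 : l * η ≤ l ^ 2 * η := mul_le_mul_of_nonneg_right (by nlinarith) hη.le
  have h4 : 1 ≤ η / 16 * l ^ 2 := by linarith
  calc X = X * 1 := (mul_one X).symm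
    _ ≤ X * (η / 16 * l ^ 2) := mul_le_mul_of_nonneg_left h4 hX.le
    _ = X * (η / 16) * l ^ 2 := by ring

private theorem q5 {X : ℝ} (h : 100 ≤ X) : X ^ 2 + 1 ≤ X ^ 3 := by
  nlinarith [sq_nonneg X]

private theorem q6 {X : ℝ} (hX : 0 ≤ X) : X ^ 2 ≤ (1 + X / 4) ^ 4 := by
  have h5 : X ≤ (1 + X / 4) ^ 2 := by nlinarith [sq_nonneg (1 - X / 4)]
  calc X ^ 2 ≤ ((1 + X / 4) ^ 2) ^ 2 := pow_le_pow_left₀ hX h5 2
    _ = (1 + X / 4) ^ 4 := by ring

private theorem q7 {c l X : ℝ} (hl : 0 < l) (hX : 0 < X) (h : 4 ≤ l * c) :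
    X / l ≤ c / 4 * X := by
  rw [div_le_iff₀ hl]
  have h1 : 1 ≤ c / 4 * l := by linarith
  calc X = X * 1 := (mul_one X).symm
    _ ≤ X * (c / 4 * l) := mul_le_mul_of_nonneg_left h1 hX.le
    _ = c / 4 * X * l := by ring

theorem rcore (δ : ℝ) (hδ : 0 < δ) (hδ1 : δ ≤ 1 / 2) : ∃ c : ℝ, 0 < c ∧ ∃ P0 : ℕ,
    ∀ P : ℕ, P0 ≤ P → Good P → ∀ X l l2 l3 : ℝ, X = Real.log P → l = Real.log X →
    l2 = Real.log l → l3 = Real.log l2 → ∀ (H q0 : ℕ) (A : Finset ℕ),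
    (H : ℝ) ≤ 32 * (X * (l ^ 3 * l3 / l2 ^ 2)) → Odd q0 → q0 ≤ H → (∀ q ∈ A, q ≤ H ∧ q ≠ q0) →
    ∑ q ∈ A, ff (max q0 q - min q0 q) ^ 2 ≤ c * (X * (l ^ 2 * l3 / l2 ^ 2)) →
    ((4 * P : ℕ) : ℝ) ^ (1 - δ) ≤ (((Icc 1 (4 * P)).filter (fun n => q0 ≤ 2 * n ∧
      (2 * n - q0).Prime ∧ ∀ q ∈ A, q ≤ 2 * n → ¬ (2 * n - q).Prime)).card : ℝ) := by
  classical
  obtain ⟨hc00, hc01⟩ := rc0
  obtain ⟨cθ, hcθ, hcheb⟩ := cheb_of'
  obtain ⟨Pa, hprem⟩ := primes_removed hcθ hcheb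
  obtain ⟨Pb, happ⟩ := app
  obtain ⟨kc, hchoice⟩ := r_choice
  obtain ⟨η, hη0, hη1, hη2⟩ : ∃ η : ℝ, 0 < η ∧ η ≤ 1 / 10000 ∧ η ≤ δ / 20 :=
    ⟨min (δ / 20) (1 / 10000), lt_min (by positivity) (by norm_num), min_le_right _ _,
      min_le_left _ _⟩
  obtain ⟨c, hc0, hc⟩ : ∃ c : ℝ, 0 < c ∧ 160000000 * c ≤ c0 * η / 4 :=
    ⟨c0 * η / 640000000, by positivity, by linarith⟩
  obtain ⟨k1, hk1⟩ := exists_nat_ge (16 / cθ + 4 / (c0 * η) + 32 / η + (2 / η) ^ 4 + 6 / δ + 100)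
  obtain ⟨Pc, hPc⟩ := Filter.eventually_atTop.1 (r_par (kc + k1))
  refine ⟨c, hc0, max Pa (max Pb (max Pc 16)), ?_⟩
  intro P hP hG X l l2 l3 hX hl hl2 hl3 H q0 A hH hodd hq0H hA hS
  have hPa : Pa ≤ P := (le_max_left _ _).trans hP
  have hPb : Pb ≤ P := (le_max_left _ _).trans ((le_max_right _ _).trans hP)
  have hPc' : Pc ≤ P :=
    (le_max_left _ _).trans ((le_max_right _ _).trans ((le_max_right _ _).trans hP))
  have hP16 : 16 ≤ P :=
    (le_max_right _ _).trans ((le_max_right _ _).trans ((le_max_right _ _).trans hP))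
  obtain ⟨k, hk⟩ : ∃ k : ℕ, k = ⌊X⌋₊ := ⟨_, rfl⟩
  obtain ⟨l', hl'⟩ : ∃ l' : ℝ, l' = Real.log k := ⟨_, rfl⟩
  obtain ⟨l2', hl2'⟩ : ∃ l2' : ℝ, l2' = Real.log l' := ⟨_, rfl⟩
  obtain ⟨l3', hl3'⟩ : ∃ l3' : ℝ, l3' = Real.log l2' := ⟨_, rfl⟩
  obtain ⟨⟨s1, hPar, s2⟩, ⟨s3, s4, s5, s6, s7⟩, ⟨s8, s9, s10, s11⟩, s12, s13, s14⟩ :=
    hPc P hPc' X l l2 l3 hX hl hl2 hl3 k l' l2' l3' hk hl' hl2' hl3'
  obtain ⟨w, hw⟩ : ∃ w : ℕ, w = Helper9.GW.zz l' := ⟨_, rfl⟩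
  obtain ⟨hz2, hzw⟩ := z_le' hPar
  rw [← hw] at s8 s9 s10 s11 s13 hzw
  push_cast at s3
  have hkc : (0 : ℝ) ≤ kc := Nat.cast_nonneg _
  have u1 : 0 < 16 / cθ := by positivity
  have u2 : 0 < 4 / (c0 * η) := by positivity
  have u3 : 0 < 32 / η := by positivity
  have u4 : 0 < (2 / η) ^ 4 := by positivity
  have u5 : 0 < 6 / δ := by positivity
  have hl30 : 100 ≤ l3 := by linarith
  have hX0 : 0 < X := by linarith
  have hl0 : 0 < l := by linarith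
  have hl20 : 0 < l2 := by linarith
  -- the removed primes
  obtain ⟨R, hRw, hRs, hpsi⟩ := hprem P hPa hG l (by rw [hl, hX]) w (by rw [← hX]; exact s9)
  have hl4 : (4 : ℝ) ≤ l ^ 4 := by
    calc (4 : ℝ) ≤ l := by linarith
      _ ≤ l ^ 4 := le_self_pow₀ (by linarith) (by norm_num)
  have hRs4 : ∑ p ∈ R, 1 / (p : ℝ) ≤ 1 / 4 :=
    hRs.trans (one_div_le_one_div_of_le (by norm_num) hl4)
  have h2R : 2 ∉ R := by
    intro h2
    have h3 := single_le_sum (f := fun p : ℕ => 1 / (p : ℝ)) (fun p _ => by positivity) h2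
    have h4 : ((2 : ℕ) : ℝ) = 2 := by norm_num
    simp only [h4] at h3
    linarith
  have hMtot := Mod_totient s8 hRw (by linarith)
  have hMpos := Mod_pos w R
  obtain ⟨M, hM⟩ : ∃ M : ℕ, M = REC.Mod w R := ⟨_, rfl⟩
  have h2M : 2 ∣ M := by
    rw [hM]
    exact (prime_dvd_Mod Nat.prime_two).2 ⟨s8, h2R⟩
  rw [← hM] at hMtot hMpos hpsi
  have hMr : (0 : ℝ) < M := by exact_mod_cast hMpos
  have hφ0 : (0 : ℝ) < M.totient := by exact_mod_cast Nat.totient_pos.2 hMpos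
  have hlw : (0 : ℝ) < (Nat.log 2 w : ℝ) := by linarith
  have hP0 : (0 : ℝ) ≤ P := Nat.cast_nonneg _
  have hpsi2 : ∀ r : ℕ, r.Coprime M → (P : ℝ) / M ≤ AT.psi M r P := by
    intro r hr
    refine le_trans ?_ (hpsi r hr)
    have h1 : (P : ℝ) * M.totient ≤ P * (cθ / 2 * M) := by
      apply mul_le_mul_of_nonneg_left _ hP0
      refine hMtot.trans ?_
      rw [div_le_iff₀ hlw]
      have h2 : 8 ≤ cθ * (Nat.log 2 w : ℝ) := by
        have h3 : 16 / cθ ≤ 2 * (Nat.log 2 w : ℝ) := by linarith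
        rw [div_le_iff₀ hcθ] at h3
        linarith
      exact q1 hMr h2
    rw [div_le_div_iff₀ hMr hφ0]
    calc (P : ℝ) * M.totient ≤ P * (cθ / 2 * M) := h1
      _ = cθ / 2 * P * M := by ring
  -- the shift and the small class
  obtain ⟨hHH, hHw⟩ := s13 H hH
  obtain ⟨Ao, hAo⟩ : ∃ Ao : Finset ℕ, Ao = A.filter (fun q => Odd q) := ⟨_, rfl⟩
  have hAoA : Ao ⊆ A := by
    rw [hAo]
    exact filter_subset _ _
  obtain ⟨p0, b1, hp0, hp0z, hb1c, hJ⟩ := hchoice k l' l2' l3' (by omega) hPar s2 q0 Ao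
    (by omega) (fun q hq => by
      have h1 := hA q (hAoA hq)
      rw [hAo, mem_filter] at hq
      exact ⟨h1.2, hodd.add_odd hq.2, by omega⟩)
  rw [← hw] at hp0z hJ
  obtain ⟨b, hb1, hb2⟩ := crt_class (z2 := w) hz2 (p0 + q0) b1
  have hcop : Nat.Coprime (b + q0) M := by
    rw [hM]
    refine pv_coprime hz2 hb1 hb2 R (C := {q0}) (j := q0) ?_
    unfold Pv
    rw [mem_filter, mem_singleton, Nat.add_sub_cancel]
    exact ⟨rfl, ⟨by have := hp0.pos; omega, hp0, hp0z⟩, hb1c⟩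
  have hsurv := rs_surv hz2 hzw hb1 hb2 hRw (A := Ao) (H := H) (fun q hq => (hA q (hAoA hq)).1)
  rw [← hM] at hsurv
  have hnR := num_R' hRw (Nat.cast_nonneg H) hRs
  -- the parameters
  obtain ⟨a, ha⟩ : ∃ a : ℕ, a = Nat.log 2 P := ⟨_, rfl⟩
  have ha1 : 2 ^ a ≤ P := by
    rw [ha]
    exact Nat.pow_log_le_self 2 (by omega)
  have ha2 : P < 2 ^ (a + 1) := by
    rw [ha]
    exact Nat.lt_pow_succ_log_self (by norm_num) P
  have hP0' : (0 : ℝ) < P := by exact_mod_cast (by omega : 0 < P)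
  have haX : X ≤ ((a + 4 : ℕ) : ℝ) := by
    have h1 : (P : ℝ) ≤ 2 ^ (a + 1) := by exact_mod_cast ha2.le
    have h2 := Real.log_le_log hP0' h1
    rw [Real.log_pow, ← hX] at h2
    push_cast at h2 ⊢
    exact q2 (Nat.cast_nonneg _) h2
  have haX2 : ((a + 4 : ℕ) : ℝ) ≤ 2 * X := by
    have h1 : (2 : ℝ) ^ a ≤ P := by exact_mod_cast ha1
    have h2 := Real.log_le_log (by positivity) h1
    rw [Real.log_pow, ← hX] at h2
    push_cast
    exact q3 (Nat.cast_nonneg _) (by linarith) h2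
  obtain ⟨d, hd1, hd2, hd3, hd4, hd6⟩ := rm_d (L := a + 4) hη0 hη1 (by linarith) (by linarith)
  have hd0 : (0 : ℝ) < d := by exact_mod_cast (by omega : 0 < d)
  have hdX : η * X / 2 ≤ d := by
    refine le_trans ?_ hd2
    have := mul_le_mul_of_nonneg_left haX hη0.le
    linarith
  have hwd : 2 * w ≤ d := by
    have h1 : (2 : ℝ) * w ≤ d := by
      refine le_trans ?_ hdX
      have h2 : X / l ^ 2 ≤ X * (η / 16) := by
        have h3 : 32 / η ≤ l := by linarith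
        rw [div_le_iff₀ hη0] at h3
        exact q4 hη0 (by linarith) hX0 h3
      linarith
    exact_mod_cast h1
  have hMd : M ≤ 2 ^ d := by
    have h1 : ((M : ℕ) : ℝ) ≤ (2 : ℝ) ^ d := by
      rw [hM]
      refine (Mod_le w R).trans ?_
      rw [show (4 : ℝ) = 2 ^ 2 by norm_num, ← pow_mul]
      exact pow_le_pow_right₀ (by norm_num) hwd
    exact_mod_cast h1
  have hHX2 : (H : ℝ) ≤ X ^ 2 := by
    have h1 : (H : ℝ) ≤ Helper9.GW.HH l' 3 := by exact_mod_cast hHH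
    exact h1.trans s12
  have hHL : H + 1 ≤ (a + 4) ^ 3 := by
    have h1 : (H : ℝ) + 1 ≤ ((a + 4 : ℕ) : ℝ) ^ 3 := by
      have h2 : X ^ 3 ≤ ((a + 4 : ℕ) : ℝ) ^ 3 := pow_le_pow_left₀ hX0.le haX 3
      have h3 : X ^ 2 + 1 ≤ X ^ 3 := q5 (by linarith)
      linarith
    exact_mod_cast h1
  have hX3P : H ≤ P := by
    have h1 : (H : ℝ) ≤ P := by
      refine hHX2.trans ?_
      have h2 : (P : ℝ) = Real.exp X := by
        rw [hX, Real.exp_log hP0']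
      rw [h2]
      have h3 := Helper9.GW.exp_ge hX0.le
      have h4 : X ^ 2 ≤ (1 + X / 4) ^ 4 := q6 hX0.le
      linarith
    exact_mod_cast h1
  have hcard : A.card ≤ 2 ^ d := by
    have h1 : A ⊆ range (H + 1) := by
      intro q hq
      rw [mem_range]
      have := (hA q hq).1
      omega
    have h2 := card_le_card h1
    rw [card_range] at h2
    exact h2.trans (hHL.trans (hd3.trans (rm_pow hd4)))
  have h4P : 4 * P + q0 ≤ 2 ^ (a + 4) := by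
    have e1 : 2 ^ (a + 4) = 16 * 2 ^ a := by ring
    have e2 : 2 ^ (a + 1) = 2 * 2 ^ a := by ring
    omega
  -- the survivors
  have hJc : (((A.filter (fun q => q ≤ 4 * P + q0 ∧ Nat.Coprime (b + q) M)).card : ℕ) : ℝ) ≤
      c0 * d := by
    have h1 : A.filter (fun q => q ≤ 4 * P + q0 ∧ Nat.Coprime (b + q) M) ⊆
        Ao.filter (fun q => Nat.Coprime (b + q) M) := by
      intro q hq
      rw [mem_filter] at hq
      rw [mem_filter, hAo, mem_filter]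
      exact ⟨⟨hq.1, rm_odd h2M hodd hcop hq.2.2⟩, hq.2.2⟩
    have h2 : (((A.filter (fun q => q ≤ 4 * P + q0 ∧ Nat.Coprime (b + q) M)).card : ℕ) : ℝ) ≤
        (((Ao.filter (fun q => Nat.Coprime (b + q) M)).card : ℕ) : ℝ) := by
      exact_mod_cast card_le_card h1
    have h3 : ∑ q ∈ Ao, ff (max q0 q - min q0 q) ^ 2 ≤ ∑ q ∈ A, ff (max q0 q - min q0 q) ^ 2 :=
      sum_le_sum_of_subset_of_nonneg hAoA fun _ _ _ => sq_nonneg _
    have h4 : l2' ^ 2 / (l' ^ 2 * l3') * ∑ q ∈ Ao, ff (max q0 q - min q0 q) ^ 2 ≤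
        2 * (l2 ^ 2 / (l ^ 2 * l3)) * (c * (X * (l ^ 2 * l3 / l2 ^ 2))) := by
      apply mul_le_mul s14 (h3.trans hS) (sum_nonneg fun _ _ => sq_nonneg _)
      have : 0 < l3 := by linarith
      positivity
    have h5 : 2 * (l2 ^ 2 / (l ^ 2 * l3)) * (c * (X * (l ^ 2 * l3 / l2 ^ 2))) = 2 * c * X := by
      have : 0 < l3 := by linarith
      field_simp
    have h6 : X / l ≤ c0 * η / 4 * X := by
      have h7 : 4 / (c0 * η) ≤ l := by linarith
      rw [div_le_iff₀ (by positivity)] at h7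
      exact q7 hl0 hX0 h7
    have h7 : 160000000 * c * X ≤ c0 * η / 4 * X := mul_le_mul_of_nonneg_right hc hX0.le
    have h8 : c0 * (η * X / 2) ≤ c0 * d := mul_le_mul_of_nonneg_left hdX hc00.le
    have h9 : c0 * (η * X / 2) = c0 * η / 4 * X + c0 * η / 4 * X := by ring
    linarith
  have hfin := happ P hPb (a + 4) d M q0 b A (by rw [pow_add]; omega) h4P hd3 hd6 hMpos
    (by
      intro q hq hqM
      rw [hM] at hqM
      have h1 := ((prime_dvd_Mod hq).1 hqM).1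
      have h2 : d < 2 ^ d := Nat.lt_two_pow_self
      have h3 : a + 4 ≤ (a + 4) ^ 6 := Nat.le_self_pow (by norm_num) _
      omega)
    hMd hodd (fun h => (hA q0 h).2 rfl) hcard hcop hJc (hpsi2 _ (rr_coprime hMpos hcop))
  have hLd : a + 4 ≤ 2 ^ d := by
    refine le_trans ?_ (hd3.trans (rm_pow hd4))
    exact Nat.le_self_pow (by norm_num) _
  have hex := rm_final hδ hδ1 hη2 (x := 4 * P) (by
      have e2 : 2 ^ (a + 1) = 2 * 2 ^ a := by ring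
      have e3 : 2 ^ (a + 3) = 8 * 2 ^ a := by ring
      omega) hMpos hMd hd1 hLd (by
      have h1 : 6 / δ + 4 ≤ ((a + 4 : ℕ) : ℝ) := by linarith
      push_cast at h1
      linarith)
  refine hex.trans (le_trans ?_ (hfin.trans ?_))
  · apply div_le_div_of_nonneg_right _ (by positivity)
    apply div_le_div_of_nonneg_right _ hMr.le
    exact_mod_cast ha1
  · have hsub : (Icc 1 (2 * P + q0)).filter (fun n => 2 * n ≤ 4 * P + q0 ∧ q0 ≤ 2 * n ∧
        (2 * n - q0).Prime ∧ ∀ q ∈ A, q ≤ 2 * n → ¬ (2 * n - q).Prime) ⊆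
        (Icc 1 (4 * P)).filter (fun n => q0 ≤ 2 * n ∧ (2 * n - q0).Prime ∧
          ∀ q ∈ A, q ≤ 2 * n → ¬ (2 * n - q).Prime) := by
      intro n hn
      rw [mem_filter, mem_Icc] at hn ⊢
      obtain ⟨⟨h1, _⟩, h2, h3⟩ := hn
      exact ⟨⟨h1, by omega⟩, h3⟩
    exact_mod_cast card_le_card hsub

end Pool.Agent.UW
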