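import Pool.Agent.UW.RLin
import Pool.Agent.UW.Cls

/-! UW/RSh.  The shift `h = P0 + q0` with a prime `P0 > z2`: for how many primes `P0` does `q` survive the medium primes?

`D = q - q0`; `|P0 - D|` has no medium prime factor, so it is `0`, smooth, or `s p'` with a prime `p' > z2`; in the last case `p'`
and `|s p' ± D| = P0` are both primes: `lin_pair`, `sum_s`. -/

set_option autoImplicit false

namespace Pool.Agent.UW

open Finset Pool.Agent.Helper9.GW Pool.Agent.REC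

/-- the primes `P0` for which `q` survives -/
def Tq (z1 z2 H q0 q : ℕ) : Finset ℕ :=
  (Icc 1 H).filter (fun P => (P.Prime ∧ z2 < P) ∧ ∀ ℓ ∈ medium z1 z2, ¬ q ≡ P + q0 [MOD ℓ])

private def Lin (s : ℕ) (D : ℤ) (M z : ℕ) : Finset ℕ :=
  (Ioc 0 M).filter (fun m : ℕ => (m.Prime ∧ z < m) ∧
      ((s : ℤ) * m + D).natAbs.Prime ∧ z < ((s : ℤ) * m + D).natAbs)

private def Smo (z1 H : ℕ) : Finset ℕ :=
  (Icc 1 H).filter (fun n : ℕ => ∀ q ∈ n.primeFactors, q ≤ z1)

private theorem Tq_card {z1 z2 H q0 q : ℕ} (hz : 2 ≤ z1) (hz2 : 1 ≤ z2) (hq : q ≤ H) (hq0 : q0 ≤ H) :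
    (Tq z1 z2 H q0 q).card ≤ 1 + 2 * (Smo z1 (2 * H)).card +
      ∑ s ∈ Icc 1 (2 * H / z2), ((Lin s ((q : ℤ) - q0) (2 * H / s) z2).card +
        (Lin s ((q0 : ℤ) - q) (2 * H / s) z2).card) := by
  classical
  obtain ⟨A1, hA1⟩ : ∃ A : Finset ℕ, A = {((q : ℤ) - q0).natAbs} := ⟨_, rfl⟩
  obtain ⟨A2, hA2⟩ : ∃ A : Finset ℕ, A = (Smo z1 (2 * H)).image
    (fun n : ℕ => ((q : ℤ) - q0 + n).natAbs) := ⟨_, rfl⟩
  obtain ⟨A3, hA3⟩ : ∃ A : Finset ℕ, A = (Smo z1 (2 * H)).image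
    (fun n : ℕ => ((q : ℤ) - q0 - n).natAbs) := ⟨_, rfl⟩
  obtain ⟨A4, hA4⟩ : ∃ A : Finset ℕ, A = (Icc 1 (2 * H / z2)).biUnion (fun s =>
    (Lin s ((q : ℤ) - q0) (2 * H / s) z2).image
      (fun m : ℕ => ((s : ℤ) * m + ((q : ℤ) - q0)).natAbs) ∪
    (Lin s ((q0 : ℤ) - q) (2 * H / s) z2).image
      (fun m : ℕ => ((s : ℤ) * m + ((q0 : ℤ) - q)).natAbs)) := ⟨_, rfl⟩
  have hsub : Tq z1 z2 H q0 q ⊆ ((A1 ∪ A2) ∪ A3) ∪ A4 := by
    intro P hP
    unfold Tq at hP
    rw [mem_filter, mem_Icc] at hP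
    obtain ⟨⟨hP1, hPH⟩, ⟨hPp, hPz⟩, hPm⟩ := hP
    rw [mem_union, mem_union, mem_union]
    obtain ⟨x, hx⟩ : ∃ x : ℤ, x = (P : ℤ) + q0 - q := ⟨_, rfl⟩
    have hfree : ∀ ℓ ∈ medium z1 z2, ¬ ℓ ∣ x.natAbs := by
      intro ℓ hℓ hd
      apply hPm ℓ hℓ
      rw [Nat.modEq_iff_dvd]
      have h1 : (ℓ : ℤ) ∣ x := Int.natCast_dvd.2 hd
      rw [hx] at h1
      push_cast
      exact h1
    by_cases hx0 : x = 0
    · left; left; left
      rw [hA1, mem_singleton]
      omega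
    · have hn1 : 1 ≤ x.natAbs := by omega
      have hn2 : x.natAbs ≤ 2 * H := by omega
      by_cases hsm : ∀ r ∈ x.natAbs.primeFactors, r ≤ z1
      · have hmem : x.natAbs ∈ Smo z1 (2 * H) := by
          unfold Smo
          exact mem_filter.2 ⟨mem_Icc.2 ⟨hn1, hn2⟩, hsm⟩
        rcases le_total 0 x with h0 | h0
        · left; left; right
          rw [hA2, mem_image]
          exact ⟨x.natAbs, hmem, by omega⟩
        · left; right
          rw [hA3, mem_image]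
          exact ⟨x.natAbs, hmem, by omega⟩
      · right
        push Not at hsm
        obtain ⟨p, hp, hpz⟩ := hsm
        have hpp := Nat.prime_of_mem_primeFactors hp
        have hpd := Nat.dvd_of_mem_primeFactors hp
        have hp2 : z2 < p := by
          by_contra hle
          exact hfree p ((mem_medium hz).2 ⟨hpp, hpz, by omega⟩) hpd
        obtain ⟨s, hs⟩ := hpd
        have hs1 : 1 ≤ s := by
          rcases Nat.eq_zero_or_pos s with h | h
          · rw [h] at hs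
            omega
          · exact h
        have hsp : s * p ≤ 2 * H := by
          rw [mul_comm, ← hs]
          exact hn2
        have hsS : s ∈ Icc 1 (2 * H / z2) := by
          rw [mem_Icc]
          refine ⟨hs1, ?_⟩
          rw [Nat.le_div_iff_mul_le (by omega)]
          exact (Nat.mul_le_mul_left s hp2.le).trans hsp
        have hpM : p ∈ Ioc 0 (2 * H / s) := by
          rw [mem_Ioc]
          refine ⟨hpp.pos, ?_⟩
          rw [Nat.le_div_iff_mul_le (by omega), mul_comm]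
          exact hsp
        rw [hA4, mem_biUnion]
        refine ⟨s, hsS, ?_⟩
        rw [mem_union, mem_image, mem_image]
        have hsx : ((s : ℤ) * p) = x.natAbs := by
          rw [hs]
          push_cast
          ring
        rcases le_total 0 x with h0 | h0
        · left
          have h1 : ((s : ℤ) * p + ((q : ℤ) - q0)).natAbs = P := by
            rw [hsx]
            omega
          refine ⟨p, ?_, h1⟩
          unfold Lin
          rw [mem_filter, h1]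
          exact ⟨hpM, ⟨hpp, hp2⟩, hPp, hPz⟩
        · right
          have h1 : ((s : ℤ) * p + ((q0 : ℤ) - q)).natAbs = P := by
            rw [hsx]
            omega
          refine ⟨p, ?_, h1⟩
          unfold Lin
          rw [mem_filter, h1]
          exact ⟨hpM, ⟨hpp, hp2⟩, hPp, hPz⟩
  have c1 : A1.card ≤ 1 := by
    rw [hA1, card_singleton]
  have c2 : A2.card ≤ (Smo z1 (2 * H)).card := by
    rw [hA2]
    exact card_image_le
  have c3 : A3.card ≤ (Smo z1 (2 * H)).card := by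
    rw [hA3]
    exact card_image_le
  have c4 : A4.card ≤ ∑ s ∈ Icc 1 (2 * H / z2), ((Lin s ((q : ℤ) - q0) (2 * H / s) z2).card +
        (Lin s ((q0 : ℤ) - q) (2 * H / s) z2).card) := by
    rw [hA4]
    refine card_biUnion_le.trans (sum_le_sum fun s _ => ?_)
    exact (card_union_le _ _).trans (Nat.add_le_add card_image_le card_image_le)
  have d1 := card_le_card hsub
  have d2 := card_union_le ((A1 ∪ A2) ∪ A3) A4
  have d3 := card_union_le (A1 ∪ A2) A3
  have d4 := card_union_le A1 A2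
  omega

/-- the smooth numbers -/
private theorem smo_le {k : ℕ} {l l2 l3 : ℝ} (h : Par k l l2 l3) (h16 : 16 ≤ l3) :
    ((Smo (2 ^ bb l l2 l3) (2 * HH l 3)).card : ℝ) ≤ 2 * (HH l 3 / l ^ 2) := by
  obtain ⟨e1, e2, e3, g1, g2, g3⟩ := h.facts
  obtain ⟨b1, b2, b3⟩ := h.bb_facts
  obtain ⟨H1, H2, H3⟩ := h.HH_facts 3
  have p1 := h.p1
  have p2 := h.p2
  have hlog2 : 0 < Real.log 2 := Real.log_pos (by norm_num)
  have hlog2' : Real.log 2 < 1 := by
    have := Real.log_two_lt_d9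
    linarith
  obtain ⟨b, hb⟩ : ∃ b, b = bb l l2 l3 := ⟨_, rfl⟩
  obtain ⟨H, hH⟩ : ∃ H, H = HH l 3 := ⟨_, rfl⟩
  rw [← hb] at b1 b2 b3 ⊢
  rw [← hH] at H1 H2 H3 ⊢
  obtain ⟨A, hA⟩ : ∃ A : ℝ, A = (l3 - Real.log 48) / 2 := ⟨_, rfl⟩
  have h48 := log48
  have hA0 : 3 * l3 / 8 ≤ A := by rw [hA]; linarith
  have hlogz : Real.log ((2 ^ b : ℕ) : ℝ) = b * Real.log 2 := by
    push_cast
    rw [Real.log_pow]
  have hbl : 2 * l3 ≤ l * l3 / (16 * l2) := by
    rw [le_div_iff₀ (by positivity)]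
    nlinarith
  have hb2 : (2 : ℝ) ≤ b := by nlinarith
  have hb2' : 2 ≤ b := by exact_mod_cast hb2
  have h4z : 4 ≤ 2 ^ b := by
    calc 4 = 2 ^ 2 := rfl
      _ ≤ 2 ^ b := Nat.pow_le_pow_right (by norm_num) hb2'
  have hH1 : 1 ≤ H := by
    have := h.kpos
    omega
  have hbound := Helper52.smooth_bound (A := A) (by linarith) (z := 2 ^ b) h4z
    (by rw [hlogz]; have : 4 * A ≤ 2 * l3 := by
          rw [hA]; have : 0 ≤ Real.log 48 := Real.log_nonneg (by norm_num); linarith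
        linarith) (x := 2 * H) (by omega)
  unfold Smo
  refine hbound.trans ?_
  rw [hlogz]
  have hH0 : (0 : ℝ) ≤ H := Nat.cast_nonneg H
  have hlogH : l ≤ Real.log ((2 * H : ℕ) : ℝ) := by
    have h1 : (0 : ℝ) < H := lt_of_lt_of_le (Real.exp_pos _) H3
    rw [Real.le_log_iff_exp_le (by push_cast; linarith)]
    push_cast
    linarith
  have hblog : 0 < (b : ℝ) * Real.log 2 := by positivity
  have hexp1 : Real.exp (12 * Real.exp (2 * A)) = Real.exp (l2 / 4) := by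
    congr 1
    have : 2 * A = l3 - Real.log 48 := by rw [hA]; ring
    rw [this, Real.exp_sub, ← e3, Real.exp_log (by norm_num)]
    ring
  have hexp2 : Real.exp (-(A * Real.log ((2 * H : ℕ) : ℝ) / (b * Real.log 2))) ≤
      Real.exp (-(3 * l2)) := by
    rw [Real.exp_le_exp, neg_le_neg_iff, le_div_iff₀ hblog]
    have h5 : 3 * l2 * (b * Real.log 2) ≤ 3 * l3 / 8 * l := by
      have h6 : 3 * l2 * (b * Real.log 2) ≤ 3 * l2 * (l * l3 / (8 * l2)) :=
        mul_le_mul_of_nonneg_left b2 (by positivity)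
      have h7 : 3 * l2 * (l * l3 / (8 * l2)) = 3 * l3 / 8 * l := by
        field_simp
      linarith
    calc 3 * l2 * (b * Real.log 2) ≤ 3 * l3 / 8 * l := h5
      _ ≤ A * Real.log ((2 * H : ℕ) : ℝ) := by
        apply mul_le_mul hA0 hlogH (by positivity) (by linarith)
  rw [hexp1]
  have hfin : (1 + Real.exp (l2 / 4)) * Real.exp (-(3 * l2)) ≤ 1 / l ^ 2 := by
    have h8 : 1 / l ^ 2 = Real.exp (-(2 * l2)) := by
      rw [Real.exp_neg, e2, ← Real.exp_nat_mul, one_div]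
      norm_num
    rw [h8]
    have h9 : 1 + Real.exp (l2 / 4) ≤ Real.exp l2 := by
      have h10 : Real.exp l2 = Real.exp (l2 / 4) * Real.exp (3 * l2 / 4) := by
        rw [← Real.exp_add]; congr 1; ring
      have h11 : 2 ≤ Real.exp (3 * l2 / 4) := by
        have := Real.add_one_le_exp (3 * l2 / 4)
        linarith
      have h12 : 1 ≤ Real.exp (l2 / 4) := Real.one_le_exp (by linarith)
      rw [h10]
      nlinarith
    calc (1 + Real.exp (l2 / 4)) * Real.exp (-(3 * l2)) ≤ Real.exp l2 * Real.exp (-(3 * l2)) :=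
          mul_le_mul_of_nonneg_right h9 (Real.exp_pos _).le
      _ = Real.exp (-(2 * l2)) := by rw [← Real.exp_add]; congr 1; ring
  have hH2 : (0 : ℝ) ≤ ((2 * H : ℕ) : ℝ) := Nat.cast_nonneg _
  calc (1 + Real.exp (l2 / 4)) * ((2 * H : ℕ) : ℝ) *
        Real.exp (-(A * Real.log ((2 * H : ℕ) : ℝ) / (b * Real.log 2)))
      ≤ (1 + Real.exp (l2 / 4)) * ((2 * H : ℕ) : ℝ) * Real.exp (-(3 * l2)) :=
        mul_le_mul_of_nonneg_left hexp2 (by positivity)
    _ = ((2 * H : ℕ) : ℝ) * ((1 + Real.exp (l2 / 4)) * Real.exp (-(3 * l2))) := by ring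
    _ ≤ ((2 * H : ℕ) : ℝ) * (1 / l ^ 2) := mul_le_mul_of_nonneg_left hfin hH2
    _ = 2 * (H / l ^ 2) := by push_cast; ring

/-- the sieve level -/
private noncomputable def Zl (l : ℝ) : ℕ := ⌊Real.exp (l / 24)⌋₊

private theorem Zl_facts {k : ℕ} {l l2 l3 : ℝ} (h : Par k l l2 l3) :
    2 ≤ Zl l ∧ Zl l ^ 2 ≤ zz l ∧ l / 48 ≤ Real.log (Zl l) ∧ (Zl l : ℝ) ^ 12 ≤ Real.exp (l / 2) := by
  obtain ⟨e1, e2, e3, g1, g2, g3⟩ := h.facts
  obtain ⟨z1, z2, z3⟩ := h.zz_facts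
  have h1 := Real.add_one_le_exp (l / 24)
  have hE : 4 ≤ Real.exp (l / 24) := by linarith
  have hfl := Nat.lt_floor_add_one (Real.exp (l / 24))
  have hfu : (Zl l : ℝ) ≤ Real.exp (l / 24) := by
    unfold Zl
    exact Nat.floor_le (Real.exp_pos _).le
  have hfl' : Real.exp (l / 24) / 2 ≤ (Zl l : ℝ) := by
    unfold Zl
    linarith
  refine ⟨?_, ?_, ?_, ?_⟩
  · have : (2 : ℝ) ≤ Zl l := by linarith
    exact_mod_cast this
  · have h2 : (Zl l : ℝ) ^ 2 ≤ zz l := by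
      calc (Zl l : ℝ) ^ 2 ≤ Real.exp (l / 24) ^ 2 := pow_le_pow_left₀ (Nat.cast_nonneg _) hfu 2
        _ = Real.exp (l / 12) := by
          rw [← Real.exp_nat_mul]
          congr 1
          push_cast
          ring
        _ ≤ Real.exp (l / 2) := Real.exp_le_exp.2 (by linarith)
        _ ≤ zz l := z1
    exact_mod_cast h2
  · have h2 : Real.log (Real.exp (l / 24) / 2) ≤ Real.log (Zl l) :=
      Real.log_le_log (by positivity) hfl'
    rw [Real.log_div (Real.exp_pos _).ne' (by norm_num), Real.log_exp] at h2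
    have := Real.log_two_lt_d9
    linarith
  · calc (Zl l : ℝ) ^ 12 ≤ Real.exp (l / 24) ^ 12 := pow_le_pow_left₀ (Nat.cast_nonneg _) hfu 12
      _ = Real.exp (l / 2) := by
        rw [← Real.exp_nat_mul]
        congr 1
        push_cast
        ring

private theorem one_le_pp (S : Finset ℕ) : (1 : ℝ) ≤ ∏ p ∈ S, (1 + 1 / (p : ℝ)) := by
  have h : ∏ p ∈ S, (1 : ℝ) ≤ ∏ p ∈ S, (1 + 1 / (p : ℝ)) := by
    refine prod_le_prod (fun _ _ => by norm_num) fun p _ => ?_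
    have : (0 : ℝ) ≤ 1 / (p : ℝ) := by positivity
    linarith
  rwa [prod_const_one] at h

private theorem prod_mul_le {s n : ℕ} (hs : s ≠ 0) (hn : n ≠ 0) :
    ∏ p ∈ (s * n).primeFactors, (1 + 1 / (p : ℝ)) ≤
      (∏ p ∈ s.primeFactors, (1 + 1 / (p : ℝ))) * ff n := by
  rw [Nat.primeFactors_mul hs hn]
  have h1 := prod_union_inter (s₁ := s.primeFactors) (s₂ := n.primeFactors)
    (f := fun p : ℕ => (1 + 1 / (p : ℝ)))
  have h2 := one_le_pp (s.primeFactors ∩ n.primeFactors)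
  have h3 := one_le_pp (s.primeFactors ∪ n.primeFactors)
  have h4 := one_le_pp s.primeFactors
  have h5 : ∏ p ∈ n.primeFactors, (1 + 1 / (p : ℝ)) ≤ ff n := by
    rw [← ff_eq hn]
    refine prod_le_prod (fun p _ => by positivity) fun p hp => ?_
    have hp2 : (2 : ℝ) ≤ p := by exact_mod_cast (Nat.prime_of_mem_primeFactors hp).two_le
    have hp0 : (0 : ℝ) < p := by linarith
    have h6 : (0 : ℝ) < (p : ℝ) - 1 := by linarith
    rw [one_sub_div hp0.ne', inv_div, one_add_div hp0.ne', div_le_div_iff₀ hp0 h6]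
    nlinarith
  have h6 : (∏ p ∈ s.primeFactors, (1 + 1 / (p : ℝ))) * ∏ p ∈ n.primeFactors, (1 + 1 / (p : ℝ)) ≤
      (∏ p ∈ s.primeFactors, (1 + 1 / (p : ℝ))) * ff n :=
    mul_le_mul_of_nonneg_left h5 (by linarith)
  refine le_trans ?_ h6
  rw [← h1]
  exact le_mul_of_one_le_right (by linarith) h2

private theorem lin_le {k : ℕ} {l l2 l3 : ℝ} (h : Par k l l2 l3) {s : ℕ} (hs : 1 ≤ s) {D : ℤ}
    (hD : D ≠ 0) (hev : (2 : ℤ) ∣ D) (H : ℕ) :
    ((Lin s D (2 * H / s) (zz l)).card : ℝ) ≤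
      18432 * (H / l ^ 2) * ff D.natAbs * ((1 / (s : ℝ)) * ∏ p ∈ s.primeFactors, (1 + 1 / (p : ℝ))) +
        Real.exp (l / 2) := by
  obtain ⟨Z1, Z2, Z3, Z4⟩ := Zl_facts h
  have p1 := h.p1
  have hs0 : (0 : ℝ) < s := by exact_mod_cast hs
  have h1 := lin_pair hs hD (Dvd.dvd.mul_left hev _) (2 * H / s) (Zl l) Z1
  have h2 : (Lin s D (2 * H / s) (zz l)).card ≤
      ((Ioc 0 (2 * H / s)).filter (fun m : ℕ => (m.Prime ∧ Zl l ^ 2 < m) ∧
      ((s : ℤ) * m + D).natAbs.Prime ∧ Zl l ^ 2 < ((s : ℤ) * m + D).natAbs)).card := by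
    refine card_le_card ?_
    intro m hm
    unfold Lin at hm
    rw [mem_filter] at hm ⊢
    exact ⟨hm.1, ⟨hm.2.1.1, by omega⟩, hm.2.2.1, by omega⟩
  have h3 : ((Lin s D (2 * H / s) (zz l)).card : ℝ) ≤
      ((((Ioc 0 (2 * H / s)).filter (fun m : ℕ => (m.Prime ∧ Zl l ^ 2 < m) ∧
      ((s : ℤ) * m + D).natAbs.Prime ∧ Zl l ^ 2 < ((s : ℤ) * m + D).natAbs)).card : ℕ) : ℝ) := by
    exact_mod_cast h2
  refine (h3.trans h1).trans (add_le_add ?_ Z4)
  have h4 : ((2 * H / s : ℕ) : ℝ) ≤ 2 * H / s := by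
    have := Nat.cast_div_le (α := ℝ) (m := 2 * H) (n := s)
    push_cast at this
    exact this
  have h5 := prod_mul_le (s := s) (n := D.natAbs) (by omega) (Int.natAbs_ne_zero.2 hD)
  have h6 : (0 : ℝ) < l / 48 := by positivity
  have hpp := one_le_pp (s * D.natAbs).primeFactors
  calc 4 * ((2 * H / s : ℕ) : ℝ) * (∏ p ∈ (s * D.natAbs).primeFactors, (1 + 1 / (p : ℝ))) /
        (Real.log (Zl l)) ^ 2
      ≤ 4 * (2 * H / s) * ((∏ p ∈ s.primeFactors, (1 + 1 / (p : ℝ))) * ff D.natAbs) /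
        (l / 48) ^ 2 := by
        apply div_le_div₀ _ _ (by positivity) (pow_le_pow_left₀ h6.le Z3 2)
        · have : 0 ≤ (∏ p ∈ s.primeFactors, (1 + 1 / (p : ℝ))) * ff D.natAbs := by linarith
          positivity
        · apply mul_le_mul (mul_le_mul_of_nonneg_left h4 (by norm_num)) h5 (by linarith)
            (by positivity)
    _ = _ := by
        field_simp
        ring

theorem shift_prime {k : ℕ} {l l2 l3 : ℝ} (h : Par k l l2 l3) (h16 : 16 ≤ l3) {q0 q : ℕ}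
    (hne : q ≠ q0) (hev : Even (q0 + q)) (hq : q ≤ HH l 3) (hq0 : q0 ≤ HH l 3) :
    ((Tq (2 ^ bb l l2 l3) (zz l) (HH l 3) q0 q).card : ℝ) ≤
      600000 * (HH l 3 * (l2 / l ^ 2)) * ff (max q0 q - min q0 q) := by
  obtain ⟨e1, e2, e3, g1, g2, g3⟩ := h.facts
  obtain ⟨b1, b2, b3⟩ := h.bb_facts
  obtain ⟨H1, H2, H3⟩ := h.HH_facts 3
  obtain ⟨z1, z2, z3⟩ := h.zz_facts
  have p1 := h.p1
  have p2 := h.p2
  have hE : 1 ≤ Real.exp (l / 2) := Real.one_le_exp (by linarith)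
  have hz0 : (0 : ℝ) < zz l := by linarith
  have hz0' : 1 ≤ zz l := by exact_mod_cast hz0
  have h2b : 2 ≤ 2 ^ bb l l2 l3 := by
    calc 2 = 2 ^ 1 := rfl
      _ ≤ _ := Nat.pow_le_pow_right (by norm_num) b1
  obtain ⟨n, hn⟩ : ∃ n : ℕ, n = max q0 q - min q0 q := ⟨_, rfl⟩
  have hn0 : n ≠ 0 := by
    rw [hn]
    rcases lt_or_gt_of_ne hne with h | h
    · rw [max_eq_left h.le, min_eq_right h.le]
      omega
    · rw [max_eq_right h.le, min_eq_left h.le]
      omega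
  have hnA : ((q : ℤ) - q0).natAbs = n := by
    rw [hn]
    rcases lt_or_gt_of_ne hne with h | h
    · rw [max_eq_left h.le, min_eq_right h.le]
      omega
    · rw [max_eq_right h.le, min_eq_left h.le]
      omega
  have hnB : ((q0 : ℤ) - q).natAbs = n := by
    rw [← hnA]
    omega
  have hevA : (2 : ℤ) ∣ (q : ℤ) - q0 := by
    rcases hev with ⟨m, hm⟩
    exact ⟨m - q0, by omega⟩
  have hevB : (2 : ℤ) ∣ (q0 : ℤ) - q := by
    rcases hev with ⟨m, hm⟩
    exact ⟨m - q, by omega⟩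
  have h1 := Tq_card (z1 := 2 ^ bb l l2 l3) (z2 := zz l) h2b hz0' hq hq0
  have hsmo := smo_le h h16
  rw [← hn]
  obtain ⟨H, hH⟩ : ∃ H, H = HH l 3 := ⟨_, rfl⟩
  rw [← hH] at h1 hsmo H1 H2 H3 ⊢
  obtain ⟨S, hS⟩ : ∃ S, S = 2 * H / zz l := ⟨_, rfl⟩
  rw [← hS] at h1
  have hH0 : (0 : ℝ) < H := lt_of_lt_of_le (Real.exp_pos _) H3
  have hff : 1 ≤ ff n := one_le_ff hn0
  have h2 : ((Tq (2 ^ bb l l2 l3) (zz l) H q0 q).card : ℝ) ≤
      1 + 2 * ((Smo (2 ^ bb l l2 l3) (2 * H)).card : ℝ) +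
      ∑ s ∈ Icc 1 S, (((Lin s ((q : ℤ) - q0) (2 * H / s) (zz l)).card : ℝ) +
        ((Lin s ((q0 : ℤ) - q) (2 * H / s) (zz l)).card : ℝ)) := by
    exact_mod_cast h1
  have h3 : ∑ s ∈ Icc 1 S, (((Lin s ((q : ℤ) - q0) (2 * H / s) (zz l)).card : ℝ) +
        ((Lin s ((q0 : ℤ) - q) (2 * H / s) (zz l)).card : ℝ)) ≤
      ∑ s ∈ Icc 1 S, (36864 * (H / l ^ 2) * ff n *
        ((1 / (s : ℝ)) * ∏ p ∈ s.primeFactors, (1 + 1 / (p : ℝ))) + 2 * Real.exp (l / 2)) := by
    refine sum_le_sum fun s hs => ?_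
    rw [mem_Icc] at hs
    have i1 := lin_le h hs.1 (D := (q : ℤ) - q0) (by omega) hevA H
    have i2 := lin_le h hs.1 (D := (q0 : ℤ) - q) (by omega) hevB H
    rw [hnA] at i1
    rw [hnB] at i2
    linarith
  have h3e : ∑ s ∈ Icc 1 S, (36864 * ((H : ℝ) / l ^ 2) * ff n *
        ((1 / (s : ℝ)) * ∏ p ∈ s.primeFactors, (1 + 1 / (p : ℝ))) + 2 * Real.exp (l / 2)) =
      36864 * ((H : ℝ) / l ^ 2) * ff n *
        ∑ s ∈ Icc 1 S, ((1 / (s : ℝ)) * ∏ p ∈ s.primeFactors, (1 + 1 / (p : ℝ))) +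
      (S : ℝ) * (2 * Real.exp (l / 2)) := by
    rw [sum_add_distrib, ← mul_sum, sum_const, Nat.card_Icc, nsmul_eq_mul, Nat.add_sub_cancel]
  rw [h3e] at h3
  have h4 := sum_s S
  -- the size of `S`
  have hS4 : (S : ℝ) ≤ 4 * l ^ 5 := by
    rw [hS]
    refine (Nat.cast_div_le).trans ?_
    rw [div_le_iff₀ hz0]
    push_cast
    calc 2 * (H : ℝ) ≤ 2 * (Real.exp l * l ^ 3) := by linarith
      _ = 4 * l ^ 5 * (Real.exp l / (2 * l ^ 2)) := by
        field_simp
        ring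
      _ ≤ _ := mul_le_mul_of_nonneg_left z3 (by positivity)
  have hlogS : Real.log S ≤ 6 * l2 := by
    rcases Nat.eq_zero_or_pos S with h0 | h0
    · rw [h0, Nat.cast_zero, Real.log_zero]
      linarith
    · have hS0 : (0 : ℝ) < S := by exact_mod_cast h0
      refine (Real.log_le_log hS0 hS4).trans ?_
      rw [Real.log_mul (by norm_num) (by positivity), Real.log_pow, h.hl2]
      have h5 : Real.log 4 ≤ 2 := by
        have : Real.log 4 = 2 * Real.log 2 := by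
          rw [show (4 : ℝ) = 2 ^ 2 by norm_num, Real.log_pow]
          norm_num
        have := Real.log_two_lt_d9
        linarith
      push_cast
      linarith
  have h5 : ∑ s ∈ Icc 1 S, (1 / (s : ℝ)) * ∏ p ∈ s.primeFactors, (1 + 1 / (p : ℝ)) ≤ 14 * l2 := by
    refine h4.trans ?_
    linarith
  obtain ⟨U, hU⟩ : ∃ U : ℝ, U = H * (l2 / l ^ 2) * ff n := ⟨_, rfl⟩
  have hHl : (H : ℝ) / l ^ 2 ≤ U := by
    rw [hU]
    have i1 : (H : ℝ) / l ^ 2 ≤ H * (l2 / l ^ 2) := by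
      rw [← mul_div_assoc]
      apply div_le_div_of_nonneg_right _ (by positivity)
      exact le_mul_of_one_le_right hH0.le (by linarith)
    have i2 : 0 ≤ (H : ℝ) * (l2 / l ^ 2) := by positivity
    exact i1.trans (le_mul_of_one_le_right i2 hff)
  have h6 : 36864 * ((H : ℝ) / l ^ 2) * ff n *
      ∑ s ∈ Icc 1 S, (1 / (s : ℝ)) * ∏ p ∈ s.primeFactors, (1 + 1 / (p : ℝ)) ≤ 516096 * U := by
    calc _ ≤ 36864 * ((H : ℝ) / l ^ 2) * ff n * (14 * l2) := by
          apply mul_le_mul_of_nonneg_left h5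
          have : 0 ≤ ff n := by linarith
          positivity
      _ = 516096 * U := by
          rw [hU]
          ring
  have hexp : 8 * l ^ 7 ≤ Real.exp (l / 2) := by
    have i1 : l ^ 7 = Real.exp (7 * l2) := by
      conv_lhs => rw [e2]
      rw [← Real.exp_nat_mul]
      norm_num
    have i2 : (8 : ℝ) ≤ Real.exp l2 := by
      have := Real.add_one_le_exp l2
      linarith
    calc 8 * l ^ 7 ≤ Real.exp l2 * Real.exp (7 * l2) := by
          rw [i1]
          exact mul_le_mul_of_nonneg_right i2 (Real.exp_pos _).le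
      _ = Real.exp (8 * l2) := by
          rw [← Real.exp_add]
          congr 1
          ring
      _ ≤ Real.exp (l / 2) := Real.exp_le_exp.2 (by linarith)
  have h7 : (S : ℝ) * (2 * Real.exp (l / 2)) ≤ (H : ℝ) / l ^ 2 := by
    rw [le_div_iff₀ (by positivity)]
    calc (S : ℝ) * (2 * Real.exp (l / 2)) * l ^ 2
        ≤ 4 * l ^ 5 * (2 * Real.exp (l / 2)) * l ^ 2 := by gcongr
      _ = 8 * l ^ 7 * Real.exp (l / 2) := by ring
      _ ≤ Real.exp (l / 2) * Real.exp (l / 2) :=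
          mul_le_mul_of_nonneg_right hexp (Real.exp_pos _).le
      _ = Real.exp l := by
          rw [← Real.exp_add]
          congr 1
          ring
      _ ≤ H := H3
  have h8 : (1 : ℝ) ≤ (H : ℝ) / l ^ 2 := by
    rw [le_div_iff₀ (by positivity), one_mul]
    have i1 : l ^ 2 ≤ l ^ 4 := pow_le_pow_right₀ (by linarith) (by norm_num)
    have i2 : Real.exp (l / 2) ≤ Real.exp l := Real.exp_le_exp.2 (by linarith)
    linarith [h.grow]
  have h9 : 600000 * ((H : ℝ) * (l2 / l ^ 2)) * ff n = 600000 * U := by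
    rw [hU]
    ring
  rw [h9]
  have hU0 : 0 ≤ U := by linarith
  linarith

end Pool.Agent.UW
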