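import Pool.Agent.UW.Par

/-! UW/Sz.  Sizes of the parameters. -/

set_option autoImplicit false

namespace Pool.Agent.UW

open Finset Pool.Agent.RS

variable {P L d M : ℕ} {B R : Finset ℤ}

theorem Adm.L_ge (h : Adm P L d M B R) {m : ℕ} (hP : 2 ^ m ≤ P) : m ≤ L := by
  have h1 : 2 ^ m ≤ 2 ^ L := hP.trans h.hPU
  exact (Nat.pow_le_pow_iff_right (by norm_num)).1 h1

theorem Adm.P_pos (h : Adm P L d M B R) : 0 < P := by
  have h1 := h.hPL
  have h2 : 0 < 2 ^ L := by positivity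
  omega

theorem Adm.twoL (h : Adm P L d M B R) : (2 : ℝ) ^ L ≤ 16 * P := by
  exact_mod_cast h.hPL

theorem Adm.logP (h : Adm P L d M B R) : Real.log P ≤ L := by
  have h0 : (0 : ℝ) < P := by exact_mod_cast h.P_pos
  have h1 : (P : ℝ) ≤ 2 ^ L := by exact_mod_cast h.hPU
  have h2 := Real.log_le_log h0 h1
  rw [Real.log_pow] at h2
  have h3 : Real.log 2 ≤ 1 := by
    have := Real.log_two_lt_d9
    linarith
  have h4 : (L : ℝ) * Real.log 2 ≤ L * 1 := mul_le_mul_of_nonneg_left h3 (Nat.cast_nonneg _)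
  linarith

theorem Adm.log4P (h : Adm P L d M B R) (hL : 10 ≤ L) : Real.log (4 * P) ≤ L := by
  have h0 : (0 : ℝ) < P := by exact_mod_cast h.P_pos
  have h1 : (4 * P : ℝ) ≤ 2 ^ (L + 2) := by
    have : 4 * P ≤ 2 ^ (L + 2) := by
      have := h.hPU
      have e : 2 ^ (L + 2) = 4 * 2 ^ L := by ring
      omega
    exact_mod_cast this
  have h2 := Real.log_le_log (by positivity) h1
  rw [Real.log_pow] at h2
  push_cast at h2
  have h3 : Real.log 2 ≤ 0.7 := by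
    have := Real.log_two_lt_d9
    linarith
  have h4 : (10 : ℝ) ≤ L := by exact_mod_cast hL
  nlinarith

theorem Adm.D_le (h : Adm P L d M B R) (hP : 16 ≤ P) :
    (2 : ℝ) ^ d ≤ (P : ℝ) ^ (2 / 10000 : ℝ) := by
  have hPr : (16 : ℝ) ≤ P := by exact_mod_cast hP
  have h1 : ((2 : ℝ) ^ d) ^ 10000 ≤ (P : ℝ) ^ 2 := by
    rw [← pow_mul]
    calc (2 : ℝ) ^ (d * 10000) ≤ 2 ^ L :=
          pow_le_pow_right₀ (by norm_num) (by have := h.hdL; omega)
      _ ≤ 16 * P := h.twoL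
      _ ≤ (P : ℝ) ^ 2 := by nlinarith
  have h2 : (2 : ℝ) ^ d = (((2 : ℝ) ^ d) ^ 10000) ^ (1 / 10000 : ℝ) := by
    rw [← Real.rpow_natCast ((2 : ℝ) ^ d) 10000, ← Real.rpow_mul (by positivity)]
    norm_num
  rw [h2]
  calc (((2 : ℝ) ^ d) ^ 10000) ^ (1 / 10000 : ℝ) ≤ ((P : ℝ) ^ 2) ^ (1 / 10000 : ℝ) :=
        Real.rpow_le_rpow (by positivity) h1 (by norm_num)
    _ = (P : ℝ) ^ (2 / 10000 : ℝ) := by
        rw [← Real.rpow_natCast (P : ℝ) 2, ← Real.rpow_mul (by positivity)]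
        norm_num

theorem Adm.M_le (h : Adm P L d M B R) (hP : 16 ≤ P) :
    (M : ℝ) ≤ (P : ℝ) ^ (2 / 10000 : ℝ) := by
  have h1 : (M : ℝ) ≤ 2 ^ d := by exact_mod_cast h.hMd
  exact h1.trans (h.D_le hP)

theorem Adm.d_le (h : Adm P L d M B R) : d ≤ L := by
  have := h.hdL
  omega

theorem Adm.k_le (h : Adm P L d M B R) : (R.card : ℝ) ≤ L := by
  have h1 : R.card ≤ L := (card_le_card h.hR).trans h.hBc
  exact_mod_cast h1

/-- `P/M ≥ 2^(9000 d)` -/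
theorem Adm.PM (h : Adm P L d M B R) (hL : 10 ≤ L) : (2 : ℝ) ^ (L - 4 - d) ≤ (P : ℝ) / M := by
  have hM0 : (0 : ℝ) < M := by exact_mod_cast h.hM0
  rw [le_div_iff₀ hM0]
  have h1 : (M : ℝ) ≤ 2 ^ d := by exact_mod_cast h.hMd
  have h2 : (2 : ℝ) ^ (L - 4 - d) * 2 ^ d * 16 = 2 ^ L := by
    rw [show (16 : ℝ) = 2 ^ 4 by norm_num, ← pow_add, ← pow_add]
    congr 1
    have := h.hdL
    omega
  have h3 := h.twoL
  have h4 : (2 : ℝ) ^ (L - 4 - d) * M ≤ 2 ^ (L - 4 - d) * 2 ^ d :=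
    mul_le_mul_of_nonneg_left h1 (by positivity)
  linarith

end Pool.Agent.UW
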